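import Mathlib

set_option autoImplicit false

open MeasureTheory Filter

namespace Pool.Agent.P.MP_386d8e_pr

noncomputable section

/-- Arrival rates, and the laws of the service times and of the switch-over times. -/
structure Model where
  l1 : ℝ
  l2 : ℝ
  B1 : ProbabilityMeasure NNReal
  B2 : ProbabilityMeasure NNReal
  S1 : ProbabilityMeasure NNReal
  S2 : ProbabilityMeasure NNReal

/-- Laplace-Stieltjes transform. -/
def lst (μ : ProbabilityMeasure NNReal) (s : ℂ) : ℂ :=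
  ∫ t, Complex.exp (-(s * ((t : ℝ) : ℂ))) ∂(μ : Measure NNReal)

/-- Mean. -/
def mean (μ : ProbabilityMeasure NNReal) : ℝ := ∫ t, (t : ℝ) ∂(μ : Measure NNReal)

/-- Bivariate probability generating function. -/
def pgf (p : PMF (ℕ × ℕ)) (x y : ℂ) : ℂ := ∑' s, ((p s).toReal : ℂ) * x ^ s.1 * y ^ s.2

namespace Model

variable (P : Model)

def th (x y : ℂ) : ℂ := P.l1 * (1 - x) + P.l2 * (1 - y)

/-- `h y x` is the function `h(x, y)` of the problem, as a map in `x`. -/
def h (y x : ℂ) : ℂ := lst P.B1 (P.th x y)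

/-- `p1`, `p2` are steady-state laws at the polling instants of the two queues: their generating
functions satisfy the two one-step relations. -/
def Steady (p1 p2 : PMF (ℕ × ℕ)) : Prop :=
  ∀ x y : ℂ, ‖x‖ ≤ 1 → ‖y‖ ≤ 1 →
    pgf p2 x y = lst P.S1 (P.th x y) * pgf p1 (P.h y x) y ∧
    (y ≠ 0 → pgf p1 x y = lst P.S2 (P.th x y) *
      (lst P.B2 (P.th x y) / y * (pgf p2 x y - pgf p2 x 0) + pgf p2 x 0))

def A (x y : ℂ) : ℂ := lst P.S1 (P.th x y) * lst P.S2 (P.th x y) * lst P.B2 (P.th x y) / y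

def B (x y : ℂ) : ℂ := lst P.S2 (P.th x y) * (1 - lst P.B2 (P.th x y) / y)

/-- Product of `A` along the first `k` points of the orbit of `x` under `h y`. -/
def prodA (k : ℕ) (x y : ℂ) : ℂ := ∏ i ∈ Finset.range k, P.A ((P.h y)^[i] x) y

/-- The iterated series. -/
def ser (K : ℂ → ℂ) (x y : ℂ) : ℂ :=
  ∑' k : ℕ, P.prodA k x y * (P.B ((P.h y)^[k] x) y * K ((P.h y)^[k] x))

/-- The integral operator. -/
def T (K : ℂ → ℂ) (x : ℂ) : ℂ :=
  lst P.S1 (P.th x 0) * Real.circleAverage (fun y => P.ser K (P.h 0 x) y) 0 1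

/-- Its matrix on monomials. -/
def t (i j : ℕ) : ℂ := Real.circleAverage (fun x => P.T (fun z => z ^ j) x / x ^ i) 0 1

/-- Identity minus the truncated matrix, with row zero replaced by the powers of `x`. -/
def M (N : ℕ) (x : ℂ) : Matrix (Fin (N + 1)) (Fin (N + 1)) ℂ :=
  Matrix.of fun i j => if i = 0 then x ^ (j : ℕ) else (if i = j then 1 else 0) - P.t i j

def kappa : ℝ :=
  (1 - P.l1 * mean P.B1 - P.l2 * mean P.B2 - P.l2 * (mean P.S1 + mean P.S2)) /
    (1 - P.l1 * mean P.B1 - P.l2 * mean P.B2)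

def KN (N : ℕ) (x : ℂ) : ℂ := P.kappa * (P.M N x).det / (P.M N 1).det

def K (x : ℂ) : ℂ := limUnder atTop fun N => P.KN N x

open Classical in
def F1 (x y : ℂ) : ℂ :=
  if ‖y‖ < 1 then Real.circleAverage (fun w => P.ser P.K x w * (w / (w - y))) 0 1
  else if y = 1 then P.ser P.K x 1 + limUnder atTop fun k => P.prodA k x 1
  else P.ser P.K x y

def F2 (x y : ℂ) : ℂ := lst P.S1 (P.th x y) * P.F1 (P.h y x) y

end Model

end

end Pool.Agent.P.MP_386d8e_pr
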