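import Pool.Agent.P.MP_386d8e_pr.Defs

set_option autoImplicit false

open Filter

namespace Pool.Agent.P.MP_386d8e_pr

noncomputable section

/-- Mean of a function of `n` variables, each running over the circle of radius `R`. -/
def avgN (R : ℝ) : (n : ℕ) → ((Fin n → ℂ) → ℂ) → ℂ
  | 0, f => f Fin.elim0
  | n + 1, f => Real.circleAverage (fun w => avgN R n fun v => f (Fin.cons w v)) 0 R

namespace Model

variable (P : Model)

/-- The kernel of the operator `T`. -/
def ker (u v : ℂ) : ℂ := P.T (fun z => v / (v - z)) u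

/-- Fredholm's bordered matrix: first column `1`, then `ker (u a) (v b)` with `u = (x, v)`. -/
def fm {n : ℕ} (x : ℂ) (v : Fin n → ℂ) : Matrix (Fin (n + 1)) (Fin (n + 1)) ℂ :=
  Matrix.of fun a => Fin.cons 1 fun b => P.ker ((Fin.cons x v : Fin (n + 1) → ℂ) a) (v b)

/-- The terms of Fredholm's series. -/
def term (R : ℝ) (x : ℂ) (n : ℕ) : ℂ :=
  (-1) ^ n / (n.factorial : ℂ) * avgN R n fun v => (P.fm x v).det

def E (R : ℝ) (x : ℂ) : ℂ := ∑' n, P.term R x n

def KF (R : ℝ) (x : ℂ) : ℂ := P.kappa * P.E R x / P.E R 1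

open Classical in
/-- The first generating function in terms of the boundary function `K`. -/
def sol (K : ℂ → ℂ) (x y : ℂ) : ℂ :=
  if ‖y‖ < 1 then Real.circleAverage (fun w => P.ser K x w * (w / (w - y))) 0 1
  else if y = 1 then P.ser K x 1 + limUnder atTop fun k => P.prodA k x 1
  else P.ser K x y

end Model

end

end Pool.Agent.P.MP_386d8e_pr
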