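import Pool.Agent.P.MP_386d8e_pr.Sums

set_option autoImplicit false

open Filter Topology

namespace Pool.Agent.P.MP_386d8e_pr

section
variable {S : Type*} {k : S → S → ℝ} (hk0 : ∀ s t, 0 ≤ k s t) (hk1 : ∀ s, HasSum (k s) 1)
include hk0 hk1

theorem k_le_one (s t : S) : k s t ≤ 1 := le_hasSum (hk1 s) t fun u _ => hk0 s u

theorem summable_mk {m : S → ℝ} (hm : Summable fun s => |m s|) (t : S) :
    Summable fun s => m s * k s t := by
  refine Summable.of_norm_bounded hm fun s => ?_
  rw [Real.norm_eq_abs, abs_mul, abs_of_nonneg (hk0 s t)]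
  exact mul_le_of_le_one_right (abs_nonneg _) (k_le_one hk0 hk1 s t)

theorem summable_ck {c : S → ℂ} (hc : Summable fun s => ‖c s‖) (t : S) :
    Summable fun s => ‖c s * (k s t : ℂ)‖ := by
  refine Summable.of_nonneg_of_le (fun _ => norm_nonneg _) (fun s => ?_) hc
  rw [norm_mul, Complex.norm_real, Real.norm_of_nonneg (hk0 s t)]
  exact mul_le_of_le_one_right (norm_nonneg _) (k_le_one hk0 hk1 s t)

theorem inv_of_le {m : S → ℝ} (hm0 : ∀ s, 0 ≤ m s) (hm : Summable m)
    (hle : ∀ t, m t ≤ ∑' s, m s * k s t) (t : S) : m t = ∑' s, m s * k s t := by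
  have h1 := swap_sum m k (fun _ => 1) (fun _ => 1) hm0 hk0 (fun _ => zero_le_one)
    (fun s => by simpa using hk1 s) (by simpa using hm)
  simp only [mul_one] at h1
  have h2 := h1.sub hm.hasSum
  rw [sub_self] at h2
  have h3 := le_hasSum h2 t fun u _ => sub_nonneg.2 (hle u)
  linarith [hle t]

theorem norm_ck_le {c : S → ℂ} (hc : Summable fun s => ‖c s‖) (t : S) :
    ‖∑' s, c s * (k s t : ℂ)‖ ≤ ∑' s, ‖c s‖ * k s t := by
  refine (norm_tsum_le_tsum_norm (summable_ck hk0 hk1 hc t)).trans (le_of_eq ?_)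
  refine tsum_congr fun s => ?_
  rw [norm_mul, Complex.norm_real, Real.norm_of_nonneg (hk0 s t)]

theorem re_ck {c : S → ℂ} (hc : Summable fun s => ‖c s‖) (u : ℂ) (t : S) :
    (u * ∑' s, c s * (k s t : ℂ)).re = ∑' s, (u * c s).re * k s t := by
  rw [← tsum_mul_left, Complex.re_tsum ((summable_ck hk0 hk1 hc t).of_norm.mul_left u)]
  refine tsum_congr fun s => ?_
  rw [← mul_assoc, Complex.re_mul_ofReal]

theorem kill {neg : S → Prop} {f : S → ℝ} {l : ℝ} (hf : ∀ s, 0 < f s) (hl : 1 < l)
    (hkf : ∀ s, neg s → HasSum (fun t => k s t * f t) (l * f s))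
    {m : S → ℝ} (hm0 : ∀ s, 0 ≤ m s) (hm : Summable m) (hmf : Summable fun s => m s * f s)
    (hoff : ∀ s, ¬ neg s → m s = 0) (hle : ∀ t, neg t → m t ≤ ∑' s, m s * k s t) (t : S) :
    m t = 0 := by
  classical
  have h1 : ∀ t, m t = ∑' s, m s * k s t := by
    refine inv_of_le hk0 hk1 hm0 hm fun t => ?_
    by_cases ht : neg t
    · exact hle t ht
    · rw [hoff t ht]
      exact tsum_nonneg fun s => mul_nonneg (hm0 s) (hk0 s t)
  have e1 : ∀ s, m s * (if neg s then l * f s else 0) = l * (m s * f s) := by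
    intro s
    split_ifs with hs
    · ring
    · simp [hoff s hs]
  have h2 := swap_sum m (fun s t => if neg s then k s t else 0) f
    (fun s => if neg s then l * f s else 0) hm0 (fun s t => by split_ifs; exacts [hk0 s t, le_rfl])
    (fun t => (hf t).le) (fun s => by
      split_ifs with hs
      · exact hkf s hs
      · simpa using hasSum_zero) (by simpa only [e1] using hmf.mul_left l)
  have e2 : ∀ t, (∑' s, m s * if neg s then k s t else 0) = m t := by
    intro t
    rw [h1 t]
    refine tsum_congr fun s => ?_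
    split_ifs with hs
    · rfl
    · simp [hoff s hs]
  simp only [e1, e2, tsum_mul_left] at h2
  have h3 := h2.tsum_eq
  have h4 : 0 ≤ ∑' s, m s * f s := tsum_nonneg fun s => mul_nonneg (hm0 s) (hf s).le
  have h5 : ∑' s, m s * f s = 0 := by nlinarith
  have h6 := hmf.le_tsum t fun s _ => mul_nonneg (hm0 s) (hf s).le
  rw [h5] at h6
  have := hf t
  have := hm0 t
  nlinarith

theorem chain_zero {neg : S → Prop} {f : S → ℝ} {l : ℝ} (hf : ∀ s, 0 < f s) (hl : 1 < l)
    (hkf : ∀ s, neg s → HasSum (fun t => k s t * f t) (l * f s))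
    (hf1 : ∀ s, ¬ neg s → f s ≤ 1) (hcl : ∀ s t, ¬ neg s → neg t → k s t = 0)
    {μ : S → ℝ} (hμ : ∀ t, neg t → 0 ≤ μ t) {t0 : S} (ht0 : neg t0) (hμ0 : 0 < μ t0) (hft0 : 1 < f t0)
    {s0 : S} (hacc : ∀ s, ¬ neg s → Relation.ReflTransGen (fun s t => 0 < k s t) s s0)
    {c : S → ℂ} {e : ℂ} (hc : Summable fun s => ‖c s‖) (hcf : Summable fun s => ‖c s‖ * f s)
    (heq : ∀ t, c t = ∑' s, c s * (k s t : ℂ) + e * μ t) (hsum : HasSum c 0) :
    e = 0 ∧ ∀ s, c s = 0 := by
  classical
  set ν : S → ℂ := fun s => if neg s then c s else 0 with hν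
  have hνle : ∀ s, ‖ν s‖ ≤ ‖c s‖ := fun s => by simp only [hν]; split_ifs <;> simp
  have hν1 : Summable fun s => ‖ν s‖ := Summable.of_nonneg_of_le (fun _ => norm_nonneg _) hνle hc
  have hν2 : Summable fun s => ‖ν s‖ * f s := Summable.of_nonneg_of_le
    (fun s => mul_nonneg (norm_nonneg _) (hf s).le)
    (fun s => mul_le_mul_of_nonneg_right (hνle s) (hf s).le) hcf
  have hoff : ∀ s, ¬ neg s → ν s = 0 := fun s hs => by simp [hν, hs]
  have hνeq : ∀ t, neg t → ν t = ∑' s, ν s * (k s t : ℂ) + e * μ t := by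
    intro t ht
    have : ν t = c t := by simp [hν, ht]
    rw [this, heq t]
    congr 1
    refine tsum_congr fun s => ?_
    by_cases hs : neg s
    · simp [hν, hs]
    · simp [hν, hs, hcl s t hs ht]
  have gen : ∀ (d : S → ℂ) (u : ℂ), ‖u‖ = 1 → (Summable fun s => ‖d s‖) →
      (∀ s, |(u * d s).re| ≤ ‖d s‖) ∧ (Summable fun s => (u * d s).re) ∧
      ∀ t, ∑' s, (‖d s‖ - (u * d s).re) * k s t = ∑' s, ‖d s‖ * k s t - ∑' s, (u * d s).re * k s t := by
    intro d u hu hd
    have a1 : ∀ s, |(u * d s).re| ≤ ‖d s‖ := fun s =>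
      (Complex.abs_re_le_norm _).trans (by rw [norm_mul, hu, one_mul])
    have a2 : Summable fun s => |(u * d s).re| :=
      Summable.of_nonneg_of_le (fun _ => abs_nonneg _) a1 hd
    refine ⟨a1, a2.of_abs, fun t => ?_⟩
    rw [← Summable.tsum_sub (summable_mk hk0 hk1 (by simpa using hd) t) (summable_mk hk0 hk1 a2 t)]
    exact tsum_congr fun s => by ring
  obtain ⟨u, hu, hue⟩ := Complex.exists_norm_eq_mul_self e
  obtain ⟨a1, a2, a3⟩ := gen ν u hu hν1
  have hre : ∀ t, neg t → (u * ν t).re = ∑' s, (u * ν s).re * k s t + ‖e‖ * μ t := by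
    intro t ht
    rw [hνeq t ht, mul_add, Complex.add_re, re_ck hk0 hk1 hν1, ← mul_assoc, ← hue]
    simp
  have hm : ∀ t, ‖ν t‖ - (u * ν t).re = 0 := by
    refine kill hk0 hk1 hf hl hkf (fun s => sub_nonneg.2 ((le_abs_self _).trans (a1 s))) (hν1.sub a2)
      ?_ (fun s hs => by simp [hoff s hs]) ?_
    · refine Summable.of_nonneg_of_le
        (fun s => mul_nonneg (sub_nonneg.2 ((le_abs_self _).trans (a1 s))) (hf s).le)
        (fun s => ?_) (hν2.mul_left 2)
      have := neg_abs_le (u * ν s).re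
      have := a1 s
      have := hf s
      nlinarith
    · intro t ht
      rw [a3, hre t ht]
      have b1 : ‖ν t‖ ≤ ∑' s, ‖ν s‖ * k s t + ‖e‖ * μ t := by
        rw [hνeq t ht]
        refine (norm_add_le _ _).trans (add_le_add (norm_ck_le hk0 hk1 hν1 t) (le_of_eq ?_))
        rw [norm_mul, Complex.norm_real, Real.norm_of_nonneg (hμ t ht)]
      linarith
  have hm' : ∀ t, (u * ν t).re = ‖ν t‖ := fun t => by linarith [hm t]
  simp only [hm'] at hre
  have he : e = 0 := by
    set g : S → ℝ := fun s => max (f s - 1) 0 with hg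
    have g0 : ∀ s, 0 ≤ g s := fun s => le_max_right _ _
    have gf : ∀ s, g s ≤ f s := fun s => max_le (by linarith) (hf s).le
    have gs : ∀ s, neg s → Summable fun t => k s t * g t := fun s hs =>
      Summable.of_nonneg_of_le (fun t => mul_nonneg (hk0 s t) (g0 t))
        (fun t => mul_le_mul_of_nonneg_left (gf t) (hk0 s t)) (hkf s hs).summable
    set g' : S → ℝ := fun s => if neg s then ∑' t, k s t * g t else 0 with hg'
    have g'le : ∀ s, g' s ≤ l * f s := by
      intro s
      simp only [hg']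
      split_ifs with hs
      · rw [← (hkf s hs).tsum_eq]
        exact (gs s hs).tsum_le_tsum (fun t => mul_le_mul_of_nonneg_left (gf t) (hk0 s t))
          (hkf s hs).summable
      · exact mul_nonneg (by linarith) (hf s).le
    have g'0 : ∀ s, 0 ≤ g' s := by
      intro s
      simp only [hg']
      split_ifs with hs
      · exact tsum_nonneg fun t => mul_nonneg (hk0 s t) (g0 t)
      · exact le_rfl
    have g'ge : ∀ s, ‖ν s‖ * g s ≤ ‖ν s‖ * g' s := by
      intro s
      by_cases hs : neg s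
      · refine mul_le_mul_of_nonneg_left (max_le ?_ (g'0 s)) (norm_nonneg _)
        have b1 := (hkf s hs).sub (hk1 s)
        have b2 : l * f s - 1 ≤ ∑' t, k s t * g t := by
          refine hasSum_le (fun t => ?_) b1 (gs s hs).hasSum
          have := mul_le_mul_of_nonneg_left (le_max_left (f t - 1) 0) (hk0 s t)
          simp only [hg]
          linarith
        simp only [hg', if_pos hs]
        have := hf s
        nlinarith
      · simp [hoff s hs]
    have s1 : Summable fun s => ‖ν s‖ * g' s := Summable.of_nonneg_of_le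
      (fun s => mul_nonneg (norm_nonneg _) (g'0 s))
      (fun s => by
        have := mul_le_mul_of_nonneg_left (g'le s) (norm_nonneg (ν s))
        linarith) (hν2.mul_left l)
    have s2 : Summable fun s => ‖ν s‖ * g s := Summable.of_nonneg_of_le
      (fun s => mul_nonneg (norm_nonneg _) (g0 s)) g'ge s1
    have h2 := swap_sum (fun s => ‖ν s‖) (fun s t => if neg s then k s t else 0) g g'
      (fun _ => norm_nonneg _) (fun s t => by split_ifs; exacts [hk0 s t, le_rfl]) g0 (fun s => by
        simp only [hg']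
        split_ifs with hs
        · exact (gs s hs).hasSum
        · simpa using hasSum_zero) s1
    have e2 : ∀ t, (∑' s, ‖ν s‖ * if neg s then k s t else 0) = ∑' s, ‖ν s‖ * k s t := by
      intro t
      refine tsum_congr fun s => ?_
      split_ifs with hs
      · rfl
      · simp [hoff s hs]
    simp only [e2] at h2
    have h3 := s2.hasSum.sub h2
    have h4 := le_hasSum h3 t0 (by
      intro t _
      by_cases ht : neg t
      · rw [hre t ht]
        have := mul_nonneg (mul_nonneg (norm_nonneg e) (hμ t ht)) (g0 t)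
        linarith
      · have : g t = 0 := max_eq_right (by linarith [hf1 t ht])
        simp [this])
    have h5 := s2.tsum_le_tsum g'ge s1
    rw [hre t0 ht0] at h4
    have h6 : g t0 = f t0 - 1 := max_eq_left (by linarith)
    have h7 : ‖e‖ * (μ t0 * g t0) ≤ 0 := by linarith
    have h8 : 0 < μ t0 * g t0 := mul_pos hμ0 (by linarith)
    have h9 : ‖e‖ ≤ 0 := by
      by_contra hc'
      push Not at hc'
      have := mul_pos hc' h8
      linarith
    exact norm_le_zero_iff.1 h9
  refine ⟨he, ?_⟩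
  have hν0 : ∀ t, ‖ν t‖ = 0 :=
    kill hk0 hk1 hf hl hkf (fun _ => norm_nonneg _) hν1 hν2 (fun s hs => by simp [hoff s hs])
      (fun t ht => by rw [hre t ht, he]; simp)
  have hc0 : ∀ t, neg t → c t = 0 := fun t ht => by simpa [hν, ht] using hν0 t
  simp only [he, zero_mul, add_zero] at heq
  obtain ⟨v, hv, hve⟩ := Complex.exists_norm_eq_mul_self (c s0)
  obtain ⟨b1, b2, b3⟩ := gen c v hv hc
  have n1 : ∀ t, ‖c t‖ = ∑' s, ‖c s‖ * k s t :=
    inv_of_le hk0 hk1 (fun _ => norm_nonneg _) hc fun t => by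
      conv_lhs => rw [heq t]
      exact norm_ck_le hk0 hk1 hc t
  have m0 : ∀ s, 0 ≤ ‖c s‖ - (v * c s).re := fun s => sub_nonneg.2 ((le_abs_self _).trans (b1 s))
  have n2 : ∀ t, ‖c t‖ - (v * c t).re = ∑' s, (‖c s‖ - (v * c s).re) * k s t := by
    intro t
    rw [b3, ← n1, ← re_ck hk0 hk1 hc, ← heq]
  have n3 : ∀ s, Relation.ReflTransGen (fun s t => 0 < k s t) s s0 → ‖c s‖ - (v * c s).re = 0 := by
    intro s hs
    induction hs using Relation.ReflTransGen.head_induction_on with
    | refl => rw [← hve]; simp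
    | @head a b hab _ ih =>
      have := (summable_mk hk0 hk1 (hc.sub b2).abs b).le_tsum a
        fun s _ => mul_nonneg (m0 s) (hk0 s b)
      rw [← n2, ih] at this
      have := m0 a
      nlinarith
  have n4 : ∀ s, ‖c s‖ = (v * c s).re := by
    intro s
    by_cases hs : neg s
    · simp [hc0 s hs]
    · linarith [n3 s (hacc s hs)]
  have n5 : HasSum (fun s => ‖c s‖) 0 := by
    have := Complex.hasSum_re (hsum.mul_left v)
    simpa only [← n4, mul_zero, Complex.zero_re] using this
  intro s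
  exact norm_le_zero_iff.1 (le_hasSum n5 s fun _ _ => norm_nonneg _)

end

end Pool.Agent.P.MP_386d8e_pr
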