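import Pool.Agent.P.MP_386d8e_pr.Mono
import Pool.Agent.P.MP_386d8e_pr.Chain

set_option autoImplicit false

open MeasureTheory Filter Topology

namespace Pool.Agent.P.MP_386d8e_pr

theorem PG.zero {q : ℕ → ℝ} {f : ℂ → ℂ} (h : PG q f) : f 0 = q 0 := by
  refine (h.rep 0 (by simp)).unique ?_
  simpa using hasSum_single (f := fun n => (q n : ℂ) * 0 ^ n) 0 fun n hn => by simp [hn]

theorem lev0_inj : Function.Injective fun i : ℕ => ((i, 0) : ℕ × ℤ) := fun _ _ h => (Prod.ext_iff.1 h).1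

theorem lev0_hasSum {g : ℕ × ℤ → ℂ} {a : ℂ} :
    HasSum (fun i : ℕ => g (i, 0)) a ↔ HasSum (fun s => if s.2 = 0 then g s else 0) a := by
  rw [← lev0_inj.hasSum_iff (f := fun s : ℕ × ℤ => if s.2 = 0 then g s else 0)]
  · simp [Function.comp_def]
  · rintro ⟨i, j⟩ h
    rw [if_neg]
    rintro rfl
    exact h ⟨i, rfl⟩

theorem Lr.lev0 {r C : ℝ} {c : ℕ × ℤ → ℂ} {F : ℂ → ℂ → ℂ} (h : Lr r C c F) :
    (Summable fun i : ℕ => ‖c (i, 0)‖) ∧ ∑' i : ℕ, ‖c (i, 0)‖ ≤ C :=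
  ⟨h.sm'.comp_injective lev0_inj,
    (tsum_comp_le_tsum_of_inj h.sm' (fun _ => norm_nonneg _) lev0_inj).trans h.le'⟩

theorem Lr.avg {r C : ℝ} {c : ℕ × ℤ → ℂ} {F : ℂ → ℂ → ℂ} (h : Lr r C c F) {x : ℂ} (hx : ‖x‖ ≤ 1)
    {G : ℂ → ℂ} (hG : ∀ y : ℂ, ‖y‖ = 1 → y ≠ 1 → G y = F x y) :
    HasSum (fun i : ℕ => c (i, 0) * x ^ i) (Real.circleAverage G 0 1) := by
  refine (lev0_hasSum (g := fun s => c s * x ^ s.1)).2 (avg_sum (fun s => c s * x ^ s.1) ?_
    (fun s => s.2) G fun y hy hy1 => ?_)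
  · refine Summable.of_nonneg_of_le (fun _ => norm_nonneg _) (fun s => ?_) h.sm'
    rw [norm_mul, norm_pow]
    exact mul_le_of_le_one_right (norm_nonneg _) (pow_le_one₀ (norm_nonneg _) hx)
  · exact hs_congr (h.rep x y hx hy) (fun s => mul_assoc _ _ _) (hG y hy hy1)

theorem W.univ {C : ℝ} {f : ℂ → ℂ} (h : W C fun x _ => f x) :
    ∃ e : ℕ → ℂ, (∀ i, ‖e i‖ ≤ C) ∧ ∀ u : ℂ, ‖u‖ ≤ 1 → HasSum (fun i => e i * u ^ i) (f u) := by
  obtain ⟨c, h1, h2, h3⟩ := h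
  refine ⟨fun i => c (i, 0), fun i => (h1.le_tsum _ fun _ _ => norm_nonneg _).trans h2, fun u hu => ?_⟩
  have inj : Function.Injective fun i : ℕ => ((i, 0) : ℕ × ℕ) := fun _ _ h => (Prod.ext_iff.1 h).1
  have := (inj.hasSum_iff (f := fun s : ℕ × ℕ => c s * (u ^ s.1 * 0 ^ s.2)) (by
    rintro ⟨i, j⟩ h
    have : j ≠ 0 := by rintro rfl; exact h ⟨i, rfl⟩
    simp [this])).2 (h3 u 0 hu (by simp))
  simpa [Function.comp_def] using this

theorem sto {Φ : ℂ → ℂ → ℂ} (h : W 1 Φ) (h1 : Φ 1 1 = 1) (d : ℤ) :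
    ∃ k : ℕ × ℤ → ℝ, (∀ t, 0 ≤ k t) ∧ HasSum k 1 ∧ (∀ t, t.2 < d → k t = 0) ∧
      (k (0, d) : ℂ) = Φ 0 0 ∧ ∀ x y : ℂ, ‖x‖ ≤ 1 → ‖y‖ ≤ 1 → y ≠ 0 →
        HasSum (fun t => (k t : ℂ) * (x ^ t.1 * y ^ t.2)) (Φ x y * y ^ d) := by
  obtain ⟨φ, a1, a2, a3⟩ := h.pos h1
  let e : ℕ × ℕ → ℕ × ℤ := fun s => (s.1, s.2 + d)
  have inj : Function.Injective e := by
    rintro ⟨i, j⟩ ⟨i', j'⟩ h
    simp only [e, Prod.mk.injEq] at h ⊢
    omega
  have b1 : ∀ t, t ∉ Set.range e → Function.extend e φ 0 t = 0 := fun t ht =>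
    Function.extend_apply' _ _ _ ht
  have b2 : ∀ x y : ℂ, ‖x‖ ≤ 1 → ‖y‖ ≤ 1 → y ≠ 0 → HasSum
      (fun t => ((Function.extend e φ 0 t : ℝ) : ℂ) * (x ^ t.1 * y ^ t.2)) (Φ x y * y ^ d) := by
    intro x y hx hy y0
    rw [← inj.hasSum_iff fun t ht => by simp [b1 t ht]]
    refine hs_congr ((a3 x y hx hy).mul_right (y ^ d)) (fun s => ?_) rfl
    simp only [Function.comp, inj.extend_apply, e, zpow_add₀ y0, zpow_natCast]
    ring
  refine ⟨Function.extend e φ 0, fun t => ?_, ?_, fun t ht => b1 t ?_, ?_, b2⟩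
  · by_cases ht : t ∈ Set.range e
    · obtain ⟨s, rfl⟩ := ht
      rw [inj.extend_apply]
      exact a1 s
    · rw [b1 t ht]
  · simpa [h1] using Complex.hasSum_re (b2 1 1 (by simp) (by simp) one_ne_zero)
  · rintro ⟨s, rfl⟩
    simp only [e] at ht
    omega
  · have : ((0, d) : ℕ × ℤ) = e (0, 0) := by simp [e]
    rw [this, inj.extend_apply, a2]

theorem kernel_sum {S : Type*} {k : S → S → ℝ} (hk0 : ∀ s t, 0 ≤ k s t) (hk1 : ∀ s, HasSum (k s) 1)
    {c : S → ℂ} (hc : Summable fun s => ‖c s‖) {g G : S → ℂ} (hg : ∀ t, ‖g t‖ ≤ 1)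
    (hG : ∀ s, HasSum (fun t => (k s t : ℂ) * g t) (G s)) :
    (Summable fun s => c s * G s) ∧
      HasSum (fun t => (∑' s, c s * (k s t : ℂ)) * g t) (∑' s, c s * G s) := by
  have s1 : Summable fun p : S × S => ‖c p.1‖ * k p.1 p.2 :=
    (summable_prod_of_nonneg (f := fun p : S × S => ‖c p.1‖ * k p.1 p.2)
      fun p => mul_nonneg (norm_nonneg _) (hk0 _ _)).2
      ⟨fun s => (hk1 s).summable.mul_left ‖c s‖, by simpa only [tsum_mul_left, (hk1 _).tsum_eq, mul_one] using hc⟩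
  have s2 : Summable fun p : S × S => c p.1 * ((k p.1 p.2 : ℂ) * g p.2) :=
    Summable.of_norm_bounded s1 fun p => by
      rw [norm_mul, norm_mul, Complex.norm_real, Real.norm_of_nonneg (hk0 _ _)]
      exact mul_le_mul_of_nonneg_left (mul_le_of_le_one_right (hk0 _ _) (hg _)) (norm_nonneg _)
  have s3 := s2.hasSum.prod_fiberwise fun s => (hG s).mul_left (c s)
  have s4 : HasSum (fun p : S × S => c p.2 * ((k p.2 p.1 : ℂ) * g p.1)) (∑' s, c s * G s) := by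
    rw [s3.tsum_eq]
    exact (Equiv.prodComm S S).hasSum_iff.2 s2.hasSum
  refine ⟨s3.summable, s4.prod_fiberwise fun t => ?_⟩
  refine hs_congr (s4.summable.prod_factor t).hasSum (fun _ => rfl) ?_
  rw [← tsum_mul_right]
  exact tsum_congr fun s => by ring

namespace Setup

variable {P : Model} (S : Setup P)

include S in
theorem ser_eq {r C : ℝ} {c : ℕ × ℤ → ℂ} {F : ℂ → ℂ → ℂ} (h : Lr r C c F) {K : ℂ → ℂ}
    (hF : ∀ x y : ℂ, ‖x‖ ≤ 1 → ‖y‖ = 1 → F x y = P.A x y * F (P.h y x) y + P.B x y * K x)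
    {x y : ℂ} (hx : ‖x‖ ≤ 1) (hy : ‖y‖ = 1) (hy1 : y ≠ 1) : P.ser K x y = F x y :=
  (S.sol_unique hy hy1 (F := fun x => F x y) (b := fun x => P.B x y * K x)
    (fun _ hx => h.bound hx hy) (fun x hx => hF x y hx hy) hx).tsum_eq

theorem T_eq {r C : ℝ} {c : ℕ × ℤ → ℂ} {F : ℂ → ℂ → ℂ} (h : Lr r C c F) {K : ℂ → ℂ}
    (hF : ∀ x y : ℂ, ‖x‖ ≤ 1 → ‖y‖ = 1 → F x y = P.A x y * F (P.h y x) y + P.B x y * K x)
    {x : ℂ} (hx : ‖S.α * x‖ ≤ 1) :
    HasSum (fun i : ℕ => c (i, 0) * (S.s1 (S.α * x) * S.b1 (S.α * x) ^ i)) (P.T K x) := by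
  have h0 : P.h 0 x = S.b1 (S.α * x) := by rw [S.h_eq, mul_zero, add_zero]
  have h1 := S.B1.norm_le hx
  have := (h.avg h1 fun y hy hy1 => S.ser_eq h hF h1 hy hy1).mul_left (S.s1 (S.α * x))
  refine hs_congr this (fun i => by ring) ?_
  rw [Model.T, S.es1, h0, mul_zero, add_zero]

theorem α_lt : S.α < 1 := by linarith [S.hαβ, S.hβ]

theorem αx_le {x : ℂ} (hx : ‖x‖ ≤ 1) : ‖S.α * x‖ ≤ 1 := by
  rw [norm_mul, Complex.norm_real, Real.norm_of_nonneg S.hα.le]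
  exact mul_le_one₀ S.α_lt.le (norm_nonneg _) hx

theorem scale {C : ℝ} {d : ℕ → ℂ} (hd : Summable fun i => ‖d i‖) (hC : ∑' i, ‖d i‖ ≤ C) {f : ℂ → ℂ}
    (hf : ∀ x : ℂ, ‖x‖ ≤ 1 →
      HasSum (fun i : ℕ => d i * (S.s1 (S.α * x) * S.b1 (S.α * x) ^ i)) (f x)) :
    ∃ e : ℕ → ℂ, (∀ i, ‖e i‖ ≤ C * S.α ^ i) ∧
      ∀ x : ℂ, ‖x‖ ≤ 1 → HasSum (fun i => e i * x ^ i) (f x) := by
  have a1 : ∀ i, W ‖d i‖ fun u _ => d i * (S.s1 u * S.b1 u ^ i) := fun i => by
    simpa using ((S.S1.comp W.fst).mul1 ((S.B1.comp W.fst).pow1 i)).cmul (d i)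
  obtain ⟨e, e1, e2⟩ := ((W.tsum a1 hd.hasSum).mono hC).univ
  refine ⟨fun i => e i * S.α ^ i, fun i => ?_, fun x hx => ?_⟩
  · rw [norm_mul, norm_pow, Complex.norm_real, Real.norm_of_nonneg S.hα.le]
    exact mul_le_mul_of_nonneg_right (e1 i) (pow_nonneg S.hα.le i)
  · exact hs_congr (e2 _ (S.αx_le hx)) (fun i => by rw [mul_pow, mul_assoc]) (hf x hx).tsum_eq.symm

theorem geo_sum {C : ℝ} {e : ℕ → ℂ} (he : ∀ i, ‖e i‖ ≤ C * S.α ^ i) : Summable fun i => ‖e i‖ :=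
  Summable.of_nonneg_of_le (fun _ => norm_nonneg _) he
    ((summable_geometric_of_lt_one S.hα.le S.α_lt).mul_left C)

theorem t_rep {r C : ℝ} {c : ℕ × ℤ → ℂ} {F : ℂ → ℂ → ℂ} (h : Lr r C c F) {j : ℕ}
    (hF : ∀ x y : ℂ, ‖x‖ ≤ 1 → ‖y‖ = 1 → F x y = P.A x y * F (P.h y x) y + P.B x y * x ^ j) :
    (∀ i, ‖P.t i j‖ ≤ C * S.α ^ i) ∧
      ∀ x : ℂ, ‖x‖ ≤ 1 → HasSum (fun i => P.t i j * x ^ i) (P.T (fun z => z ^ j) x) := by
  obtain ⟨e, e1, e2⟩ := S.scale h.lev0.1 h.lev0.2 (f := P.T fun z => z ^ j)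
    fun x hx => S.T_eq h (K := fun z => z ^ j) hF (S.αx_le hx)
  have : ∀ i, P.t i j = e i := by
    intro i
    have a1 := avg_sum e (S.geo_sum e1) (fun n => (n : ℤ) - i)
      (fun x => P.T (fun z => z ^ j) x / x ^ i) (by
        intro x hx _
        have x0 : x ≠ 0 := fun h => by simp [h] at hx
        refine hs_congr ((e2 x hx.le).div_const (x ^ i)) (fun n => ?_) rfl
        rw [zpow_sub₀ x0, zpow_natCast, zpow_natCast, mul_div_assoc])
    refine a1.unique ?_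
    have := hasSum_single (f := fun n : ℕ => if (n : ℤ) - i = 0 then e n else 0) i fun n hn =>
      if_neg (by omega)
    simpa using this
  simp only [this]
  exact ⟨e1, e2⟩

theorem core {p a y0 C : ℝ} (p0 : 0 < p) (p1 : p ≤ 1) (y00 : 0 < y0) (y01 : y0 < 1) (ya : y0 < a)
    (hp : P.h y0 p = p) (ha : S.a p y0 = a) {c : ℕ × ℤ → ℂ} {F : ℂ → ℂ → ℂ} (h : Lr y0 C c F)
    {K : ℂ → ℂ}
    (hF : ∀ x y : ℂ, ‖x‖ ≤ 1 → ‖y‖ = 1 → F x y = P.A x y * F (P.h y x) y + P.B x y * K x)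
    {e : ℂ} (he : ∀ x : ℂ, ‖x‖ ≤ 1 → P.T K x - K x = e) (h1 : F 1 1 = 0) : e = 0 ∧ ∀ s, c s = 0 := by
  have hαβ : (S.α : ℂ) + S.β = 1 := by exact_mod_cast S.hαβ
  have hl := S.lin W.fst
  have hh := S.W_h W.fst
  have h11 : P.h 1 1 = 1 := S.z_one 1
  have h00 : P.h 0 0 = S.q1 0 := by rw [S.h_eq]; simp [S.B1.zero]
  have n0 : ‖(0 : ℂ)‖ ≤ 1 := by simp
  have n1 : ‖(1 : ℂ)‖ ≤ 1 := by simp
  have row : ∀ s : ℕ × ℤ, ∃ k : ℕ × ℤ → ℝ, (∀ t, 0 ≤ k t) ∧ HasSum k 1 ∧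
      (∀ t, 0 ≤ s.2 → t.2 < 0 → k t = 0) ∧ 0 < k (0, if s.2 = 0 then 0 else s.2 - 1) ∧
      ∀ x y : ℂ, ‖x‖ ≤ 1 → ‖y‖ ≤ 1 → y ≠ 0 → HasSum (fun t => (k t : ℂ) * (x ^ t.1 * y ^ t.2))
        (P.A x y * (P.h y x ^ s.1 * y ^ s.2) +
          if s.2 = 0 then P.B x y * (S.s1 (S.α * x) * S.b1 (S.α * x) ^ s.1) else 0) := by
    rintro ⟨i, j⟩
    by_cases hj : j = 0
    · subst hj
      obtain ⟨C1, C2, G, g1, g2, g3, g4⟩ := ((S.S1.comp hl).mul1 (hh.pow1 i)).split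
      have g5 := g4 1 1 n1 n1
      simp only [mul_one, hαβ, S.S1.one, h11, one_pow, one_mul] at g5
      obtain ⟨k', b1, b2, -⟩ := ((g2.add (W.fst.mul1 g3)).mono g1).pos (by
        simp only [one_mul, mul_one]; exact g5.symm)
      obtain ⟨k, a1, a2, a3, a4, a5⟩ := sto ((S.S2.comp hl).mul1
        ((((S.B2.comp hl).mul1 g2).add g3).mono g1)) (by
          simp only [mul_one, hαβ, S.S2.one, S.B2.one, one_mul]; exact g5.symm) 0
      refine ⟨k, a1, a2, fun t _ ht => a3 t ht, ?_, fun x y hx hy y0 => ?_⟩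
      · simp only [zero_mul, add_zero] at b2
        simp only [mul_zero, add_zero, S.S2.zero, S.B2.zero, S.S1.zero, h00, ← b2] at a4
        have : k (0, 0) = S.r2 0 * (S.q2 0 * k' (0, 0) + S.r1 0 * S.q1 0 ^ i) := by exact_mod_cast a4
        simp only [if_true, this]
        have := S.S1.pos
        have := S.S2.pos
        have := S.B1.pos
        have := S.B2.pos
        have := b1 (0, 0)
        positivity
      · refine hs_congr (a5 x y hx hy y0) (fun _ => rfl) ?_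
        have g6 := g4 x y hx hy
        simp only [S.h_eq, mul_zero, add_zero] at g6
        simp only [if_true, S.A_eq, S.B_eq _ y0, Setup.a, Setup.bb, S.h_eq, mul_zero, add_zero, zpow_zero]
        field_simp
        linear_combination S.s2 (S.α * x + S.β * y) * S.b2 (S.α * x + S.β * y) * g6
    · obtain ⟨k, a1, a2, a3, a4, a5⟩ := sto ((S.W_a W.fst).mul1 (hh.pow1 i)) (by
        simp only [Setup.a, mul_one, hαβ, S.S1.one, S.S2.one, S.B2.one, h11, one_pow]) (j - 1)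
      refine ⟨k, a1, a2, fun t hs ht => a3 t (by simp only at hs; omega), ?_, fun x y hx hy y0 => ?_⟩
      · simp only [Setup.a, mul_zero, add_zero, S.S2.zero, S.B2.zero, S.S1.zero, h00] at a4
        have : k (0, j - 1) = S.r1 0 * S.r2 0 * S.q2 0 * S.q1 0 ^ i := by exact_mod_cast a4
        simp only [if_neg hj, this]
        have := S.S1.pos
        have := S.S2.pos
        have := S.B1.pos
        have := S.B2.pos
        positivity
      · refine hs_congr (a5 x y hx hy y0) (fun _ => rfl) ?_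
        simp only [if_neg hj, S.A_eq, zpow_sub_one₀ y0]
        field_simp
        ring
  choose k k0 k1 k2 k3 k4 using row
  obtain ⟨m1, a1, a2, -, a4, a5⟩ := sto ((S.S2.comp hl).mul1 (S.B2.comp hl)) (by
    simp only [mul_one, hαβ, S.S2.one, S.B2.one]) (-1)
  obtain ⟨m2, b1, b2, b3, -, b5⟩ := sto (S.S2.comp hl) (by simp only [mul_one, hαβ, S.S2.one]) 0
  have yc : ((y0 : ℝ) : ℂ) ≠ 0 := by exact_mod_cast y00.ne'
  refine chain_zero k0 k1 (neg := fun s => s.2 < 0) (f := fun s => p ^ s.1 * y0 ^ s.2) (l := a / y0)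
    (fun s => by positivity) ((one_lt_div y00).2 ya) (fun s hs => ?_) (fun s hs => ?_)
    (fun s t hs ht => k2 s t (not_lt.1 hs) ht) (μ := fun t => m1 t - m2 t)
    (fun t ht => by rw [b3 t ht, sub_zero]; exact a1 t) (t0 := (0, -1)) (by simp) ?_ ?_
    (s0 := (0, 0)) ?_ h.sm' ?_ ?_ (by simpa [h1] using h.rep 1 1 n1 (by simp))
  · have := k4 s p y0 (nrm p0.le p1) (nrm y00.le y01.le) yc
    rw [if_neg hs.ne, add_zero, S.A_eq, hp, ha] at this
    exact_mod_cast this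
  · exact mul_le_one₀ (pow_le_one₀ p0.le p1) (by positivity) (zpow_le_one₀ y00 y01.le (not_lt.1 hs))
  · rw [b3 _ (by simp), sub_zero]
    simp only [mul_zero, add_zero, S.S2.zero, S.B2.zero] at a4
    have : m1 (0, -1) = S.r2 0 * S.q2 0 := by exact_mod_cast a4
    rw [this]
    exact mul_pos S.S2.pos S.B2.pos
  · simpa using (one_lt_inv₀ y00).2 y01
  · have key : ∀ n i : ℕ, Relation.ReflTransGen (fun s t => 0 < k s t) (i, (n : ℤ)) (0, 0) := by
      intro n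
      induction n with
      | zero => exact fun i => Relation.ReflTransGen.single (by simpa using k3 (i, 0))
      | succ n ih =>
        refine fun i => Relation.ReflTransGen.head ?_ (ih 0)
        have := k3 (i, ((n + 1 : ℕ) : ℤ))
        rw [if_neg (by simp only; omega)] at this
        simpa using this
    rintro ⟨i, j⟩ hs
    obtain ⟨n, rfl⟩ := Int.eq_ofNat_of_zero_le (not_lt.1 hs)
    exact key n i
  · refine Summable.of_nonneg_of_le (fun s => by positivity) (fun s => ?_) h.sm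
    refine mul_le_mul_of_nonneg_left (le_trans ?_ (le_max_right _ _)) (norm_nonneg _)
    exact mul_le_of_le_one_left (by positivity) (pow_le_one₀ p0.le p1)
  · intro t
    rw [← sub_eq_zero]
    refine coeff_two (fun t => c t - (∑' s, c s * (k s t : ℂ) + e * ((m1 t - m2 t : ℝ) : ℂ))) ?_
      (fun s => (s.1 : ℤ)) (fun s => s.2) (fun s t a b => Prod.ext (by exact_mod_cast a) b) ?_ t
    · refine Summable.norm (h.sm'.of_norm.sub (Summable.add ?_ (Summable.mul_left e ?_)))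
      · simpa using (kernel_sum k0 k1 h.sm' (g := fun _ => 1) (G := fun _ => 1) (fun _ => n1)
          fun s => by simpa using Complex.hasSum_ofReal.2 (k1 s)).2.summable
      · exact (Complex.hasSum_ofReal.2 (a2.sub b2)).summable
    · intro x y hx hy _
      have y0 : y ≠ 0 := fun h => by simp [h] at hy
      obtain ⟨-, c2⟩ := kernel_sum k0 k1 h.sm' (fun t => norm_mono_le' hx.le hy t.1 t.2)
        fun s => k4 s x y hx.le hy.le y0
      have c3 := (h.rep _ y (S.h_le hx.le hy.le) hy).mul_left (P.A x y)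
      have c4 := (lev0_hasSum (g := fun s => c s * (S.s1 (S.α * x) * S.b1 (S.α * x) ^ s.1))).1
        (S.T_eq h hF (S.αx_le hx.le))
      have c5 : ∑' s, c s * (P.A x y * (P.h y x ^ s.1 * y ^ s.2) +
          if s.2 = 0 then P.B x y * (S.s1 (S.α * x) * S.b1 (S.α * x) ^ s.1) else 0) =
          P.A x y * F (P.h y x) y + P.B x y * P.T K x := by
        refine (hs_congr (c3.add (c4.mul_left (P.B x y))) (fun s => ?_) rfl).tsum_eq
        split_ifs <;> ring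
      rw [c5] at c2
      refine hs_congr ((h.rep x y hx.le hy).sub (c2.add
        (((a5 x y hx.le hy.le y0).sub (b5 x y hx.le hy.le y0)).mul_left e))) (fun s => ?_) ?_
      · push_cast
        simp only [zpow_natCast]
        ring
      · rw [hF x y hx.le hy, ← he x hx.le, S.B_eq _ y0, Setup.bb, zpow_zero, zpow_neg_one]
        field_simp
        ring

end Setup

end Pool.Agent.P.MP_386d8e_pr
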