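import Pool.Agent.K.MP_386d8e_pr.C0

set_option autoImplicit false

open MeasureTheory Filter Topology

namespace Pool.Agent.P.MP_386d8e_pr

namespace Ex

section
variable {S : Type*} {k : S → S → ℝ} (hk0 : ∀ s t, 0 ≤ k s t) (hk1 : ∀ s, HasSum (k s) 1)
include hk0 hk1

theorem inv_of_ge {m : S → ℝ} (hm0 : ∀ s, 0 ≤ m s) (hm : Summable m)
    (hle : ∀ t, ∑' s, m s * k s t ≤ m t) (t : S) : m t = ∑' s, m s * k s t := by
  have h1 := swap_sum m k (fun _ => 1) (fun _ => 1) hm0 hk0 (fun _ => zero_le_one)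
    (fun s => by simpa using hk1 s) (by simpa using hm)
  simp only [mul_one] at h1
  have h2 := hm.hasSum.sub h1
  rw [sub_self] at h2
  have h3 := le_hasSum h2 t fun u _ => sub_nonneg.2 (hle u)
  linarith [hle t]

/-- Foster's criterion, by averaging in time -/
theorem foster [DecidableEq S] {V g : S → ℝ} (hV : ∀ s, 0 ≤ V s)
    (hg : ∀ s, HasSum (fun t => k s t * V t) (g s)) (C : Finset S) {η b : ℝ} (hη : 0 < η)
    (hb : 0 ≤ b) (hd : ∀ s, g s ≤ V s - η + if s ∈ C then b else 0) (s0 : S) :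
    ∃ m : S → ℝ, (∀ s, 0 ≤ m s) ∧ HasSum m 1 ∧ ∀ t, m t = ∑' s, m s * k s t := by
  have g0 : ∀ s, 0 ≤ g s := fun s => (hg s).nonneg fun t => mul_nonneg (hk0 s t) (hV t)
  let μ : ℕ → S → ℝ := fun n => Nat.rec (fun t => if t = s0 then 1 else 0)
    (fun _ ν t => ∑' s, ν s * k s t) n
  have μs : ∀ n t, μ (n + 1) t = ∑' s, μ n s * k s t := fun _ _ => rfl
  have step : ∀ ν : S → ℝ, (∀ s, 0 ≤ ν s) → HasSum ν 1 → (Summable fun s => ν s * V s) →
      (∀ t, 0 ≤ ∑' s, ν s * k s t) ∧ HasSum (fun t => ∑' s, ν s * k s t) 1 ∧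
      (Summable fun t => (∑' s, ν s * k s t) * V t) ∧
      ∑' t, (∑' s, ν s * k s t) * V t ≤ ∑' s, ν s * V s - η + b * ∑ s ∈ C, ν s := by
    intro ν n0 n1 n2
    have a1 := swap_sum ν k (fun _ => 1) (fun _ => 1) n0 hk0 (fun _ => zero_le_one)
      (fun s => by simpa using hk1 s) (by simpa using n1.summable)
    simp only [mul_one, n1.tsum_eq] at a1
    have a2 : HasSum (fun s => ν s * (if s ∈ C then b else 0)) (b * ∑ s ∈ C, ν s) := by
      have := hasSum_sum_of_ne_finset_zero (f := fun s => ν s * (if s ∈ C then b else 0)) (s := C)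
        (L := SummationFilter.unconditional S) (fun s hs => by simp [hs])
      refine hs_congr this (fun _ => rfl) ?_
      rw [Finset.mul_sum]
      exact Finset.sum_congr rfl fun s hs => by simp [hs, mul_comm]
    have a3 : HasSum (fun s => ν s * (V s - η + if s ∈ C then b else 0))
        (∑' s, ν s * V s - η + b * ∑ s ∈ C, ν s) :=
      hs_congr ((n2.hasSum.sub (n1.mul_right η)).add a2) (fun s => by ring) (by ring)
    have a4 : ∀ s, ν s * g s ≤ ν s * (V s - η + if s ∈ C then b else 0) :=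
      fun s => mul_le_mul_of_nonneg_left (hd s) (n0 s)
    have a5 : Summable fun s => ν s * g s :=
      Summable.of_nonneg_of_le (fun s => mul_nonneg (n0 s) (g0 s)) a4 a3.summable
    have a6 := swap_sum ν k V g n0 hk0 hV hg a5
    refine ⟨fun t => tsum_nonneg fun s => mul_nonneg (n0 s) (hk0 s t), a1, a6.summable, ?_⟩
    rw [a6.tsum_eq, ← a3.tsum_eq]
    exact a5.tsum_le_tsum a4 a3.summable
  have inv : ∀ n, (∀ s, 0 ≤ μ n s) ∧ HasSum (μ n) 1 ∧ (Summable fun s => μ n s * V s) ∧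
      ∑' s, μ n s * V s ≤ V s0 - n * η + b * ∑ i ∈ Finset.range n, ∑ s ∈ C, μ i s := by
    intro n
    induction n with
    | zero =>
      have a : HasSum (fun s => μ 0 s * V s) (V s0) := by
        refine hs_congr (hasSum_ite_eq s0 (V s0)) (fun s => ?_) rfl
        show (if s = s0 then 1 else 0) * V s = _
        split_ifs with h <;> simp [h]
      refine ⟨fun s => ?_, hasSum_ite_eq s0 (1 : ℝ), a.summable, by simp [a.tsum_eq]⟩
      show 0 ≤ (if s = s0 then (1 : ℝ) else 0)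
      split_ifs <;> norm_num
    | succ n ih =>
      obtain ⟨i0, i1, i2, i3⟩ := ih
      obtain ⟨j0, j1, j2, j3⟩ := step (μ n) i0 i1 i2
      refine ⟨j0, j1, j2, j3.trans ?_⟩
      rw [Finset.sum_range_succ]
      push_cast
      linarith
  let ν : ℕ → S → ℝ := fun N s => (∑ i ∈ Finset.range (N + 1), μ i s) / (N + 1)
  have ν0 : ∀ N s, 0 ≤ ν N s := fun N s =>
    div_nonneg (Finset.sum_nonneg fun i _ => (inv i).1 s) (by positivity)
  have ν1 : ∀ N, HasSum (ν N) 1 := fun N => by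
    have := (hasSum_sum (s := Finset.range (N + 1)) fun i _ => (inv i).2.1).div_const ((N : ℝ) + 1)
    refine hs_congr this (fun _ => rfl) ?_
    simp only [Finset.sum_const, Finset.card_range, nsmul_eq_mul, mul_one]
    push_cast
    field_simp
  have ν2 : ∀ N s, ν N s ≤ 1 := fun N s => le_hasSum (ν1 N) s fun u _ => ν0 N u
  have ν3 : ∀ N : ℕ, η - V s0 * (1 / ((N : ℝ) + 1)) ≤ b * ∑ s ∈ C, ν N s := by
    intro N
    have a1 := (inv (N + 1)).2.2.2
    have a2 : 0 ≤ ∑' s, μ (N + 1) s * V s := tsum_nonneg fun s => mul_nonneg ((inv (N + 1)).1 s) (hV s)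
    have a3 : ∑ s ∈ C, ν N s = (∑ i ∈ Finset.range (N + 1), ∑ s ∈ C, μ i s) / (N + 1) := by
      rw [Finset.sum_comm, Finset.sum_div]
    have a4 : (0 : ℝ) < N + 1 := by positivity
    rw [a3, ← mul_div_assoc b, le_div_iff₀ a4]
    push_cast at a1
    have : (η - V s0 * (1 / ((N : ℝ) + 1))) * (N + 1) = (N + 1) * η - V s0 := by field_simp
    linarith
  have ν4 : ∀ (N : ℕ) (t : S) (T : Finset S), ∑ s ∈ T, ν N s * k s t ≤ ν N t + 1 / ((N : ℝ) + 1) := by
    intro N t T
    have a4 : (0 : ℝ) < N + 1 := by positivity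
    have a1 : ∀ i, ∑ s ∈ T, μ i s * k s t ≤ μ (i + 1) t := fun i => by
      rw [μs]
      refine Summable.sum_le_tsum T (fun s _ => mul_nonneg ((inv i).1 s) (hk0 s t)) ?_
      exact summable_mk hk0 hk1 (inv i).2.1.summable.abs t
    have a2 : ∑ s ∈ T, ν N s * k s t =
        (∑ i ∈ Finset.range (N + 1), ∑ s ∈ T, μ i s * k s t) / (N + 1) := by
      rw [Finset.sum_comm, Finset.sum_div]
      refine Finset.sum_congr rfl fun s _ => ?_
      rw [← Finset.sum_mul]
      simp only [ν]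
      ring
    have a3 : ∑ i ∈ Finset.range (N + 1), μ (i + 1) t ≤ ∑ i ∈ Finset.range (N + 1), μ i t + 1 := by
      have b1 := Finset.sum_range_succ' (fun i => μ i t) (N + 1)
      have b2 := Finset.sum_range_succ (fun i => μ i t) (N + 1)
      have b3 := (inv 0).1 t
      have b4 : μ (N + 1) t ≤ 1 := le_hasSum (inv (N + 1)).2.1 t fun u _ => (inv (N + 1)).1 u
      linarith
    rw [a2]
    simp only [ν]
    rw [← add_div]
    exact div_le_div_of_nonneg_right ((Finset.sum_le_sum fun i _ => a1 i).trans a3) a4.le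
  let U : Ultrafilter ℕ := Ultrafilter.of atTop
  have hU : (U : Filter ℕ) ≤ atTop := Ultrafilter.of_le _
  have lim : ∀ s, ∃ r : ℝ, Tendsto (fun N => ν N s) U (𝓝 r) := fun s => by
    obtain ⟨r, -, hr⟩ := (isCompact_Icc (a := (0 : ℝ)) (b := 1)).ultrafilter_le_nhds
      (U.map fun N => ν N s) (by
        rw [Filter.le_principal_iff, Ultrafilter.coe_map, Filter.mem_map]
        exact Filter.univ_mem' fun N => ⟨ν0 N s, ν2 N s⟩)
    exact ⟨r, hr⟩
  choose m hm using lim
  have z : Tendsto (fun N : ℕ => 1 / ((N : ℝ) + 1)) U (𝓝 0) :=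
    tendsto_one_div_add_atTop_nhds_zero_nat.mono_left hU
  have m0 : ∀ s, 0 ≤ m s := fun s => ge_of_tendsto' (hm s) fun N => ν0 N s
  have m1 : Summable m := summable_of_sum_le (c := 1) m0 fun T =>
    le_of_tendsto' (tendsto_finset_sum T fun s _ => hm s) fun N =>
      sum_le_hasSum T (fun s _ => ν0 N s) (ν1 N)
  have m2 : η ≤ b * ∑ s ∈ C, m s := by
    have := le_of_tendsto_of_tendsto' ((z.const_mul (V s0)).const_sub η)
      ((tendsto_finset_sum C fun s _ => hm s).const_mul b) ν3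
    simpa using this
  have m3 : ∀ t, ∑' s, m s * k s t ≤ m t := fun t =>
    (summable_mk hk0 hk1 m1.abs t).tsum_le_of_sum_le fun T => by
      have := le_of_tendsto_of_tendsto' (tendsto_finset_sum T fun s _ => (hm s).mul_const (k s t))
        ((hm t).add z) fun N => ν4 N t T
      simpa using this
  have m4 := inv_of_ge hk0 hk1 m0 m1 m3
  have m5 : 0 < ∑' s, m s := by
    refine lt_of_lt_of_le ?_ (m1.sum_le_tsum C fun s _ => m0 s)
    by_contra hc
    have := mul_nonpos_of_nonneg_of_nonpos hb (not_lt.1 hc)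
    linarith
  refine ⟨fun s => m s / ∑' s, m s, fun s => div_nonneg (m0 s) m5.le,
    hs_congr (m1.hasSum.div_const _) (fun _ => rfl) (div_self m5.ne').symm, fun t => ?_⟩
  show m t / ∑' s, m s = ∑' s, m s / (∑' s, m s) * k s t
  rw [m4 t, ← tsum_div_const]
  exact tsum_congr fun s => by ring

end

theorem exists_pmf {S : Type*} {m : S → ℝ} (h0 : ∀ s, 0 ≤ m s) (h1 : HasSum m 1) :
    ∃ p : PMF S, ∀ s, (p s).toReal = m s := by
  refine ⟨⟨fun s => ENNReal.ofReal (m s), ?_⟩, fun s => ENNReal.toReal_ofReal (h0 s)⟩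
  have := ENNReal.ofReal_tsum_of_nonneg h0 h1.summable
  rw [h1.tsum_eq, ENNReal.ofReal_one] at this
  rw [this]
  exact ENNReal.summable.hasSum

theorem sum_one {F : ℂ → ℂ → ℂ} (h1 : F 1 1 = 1) {k : ℕ × ℕ → ℝ}
    (h : ∀ x y : ℂ, ‖x‖ ≤ 1 → ‖y‖ ≤ 1 → HasSum (fun s => (k s : ℂ) * (x ^ s.1 * y ^ s.2)) (F x y)) :
    HasSum k 1 := by
  simpa [h1] using Complex.hasSum_re (h 1 1 (by simp) (by simp))

theorem pmf_of_W {F : ℂ → ℂ → ℂ} (h : W 1 F) (h1 : F 1 1 = 1) :
    ∃ p : PMF (ℕ × ℕ), ∀ x y : ℂ, ‖x‖ ≤ 1 → ‖y‖ ≤ 1 → pgf p x y = F x y := by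
  obtain ⟨k, k0, -, k2⟩ := h.pos h1
  obtain ⟨p, hp⟩ := exists_pmf k0 (sum_one h1 k2)
  exact ⟨p, fun x y hx hy => (pgf_rep p hx hy).unique (by simpa only [hp] using k2 x y hx hy)⟩

theorem pmf_ext {p q : PMF (ℕ × ℕ)}
    (h : ∀ x y : ℂ, ‖x‖ ≤ 1 → ‖y‖ ≤ 1 → pgf p x y = pgf q x y) : p = q := by
  have := W.unique (F := pgf q) (pmf_norm p).summable (pmf_norm q).summable
    (fun x y hx hy => h x y hx hy ▸ pgf_rep p hx hy) fun x y hx hy => pgf_rep q hx hy
  ext s
  have a : (p s).toReal = (q s).toReal := by exact_mod_cast congrFun this s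
  exact (ENNReal.toReal_eq_toReal_iff' (p.apply_ne_top s) (q.apply_ne_top s)).1 a

/-- an upper bound of the mean of a linear form from the behaviour of the generating function -/
theorem mean_le {F : ℂ → ℂ → ℂ} (h1 : F 1 1 = 1) {k : ℕ × ℕ → ℝ} (k0 : ∀ s, 0 ≤ k s)
    (h : ∀ x y : ℂ, ‖x‖ ≤ 1 → ‖y‖ ≤ 1 → HasSum (fun s => (k s : ℂ) * (x ^ s.1 * y ^ s.2)) (F x y))
    {a D : ℝ} (ha : 0 ≤ a)
    (hD : ∀ ε : ℝ, 0 < ε → ε ≤ 1 → a * ε ≤ 1 →
      ‖1 - F ((1 - a * ε : ℝ) : ℂ) ((1 - ε : ℝ) : ℂ)‖ ≤ D * ε) :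
    ∃ g : ℝ, HasSum (fun s => k s * (a * s.1 + s.2)) g ∧ g ≤ D := by
  have key : ∀ T : Finset (ℕ × ℕ), ∑ s ∈ T, k s * (a * s.1 + s.2) ≤ D := by
    intro T
    have t1 : ∀ s : ℕ × ℕ, Tendsto (fun ε : ℝ => k s * ((1 - (1 - a * ε) ^ s.1 * (1 - ε) ^ s.2) / ε))
        (𝓝[>] 0) (𝓝 (k s * (a * s.1 + s.2))) := by
      intro s
      refine Tendsto.const_mul _ ?_
      have d1 : HasDerivAt (fun ε : ℝ => 1 - a * ε) (-a) 0 := by
        simpa using ((hasDerivAt_id (0 : ℝ)).const_mul a).const_sub 1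
      have d2 : HasDerivAt (fun ε : ℝ => 1 - ε) (-1) 0 := (hasDerivAt_id (0 : ℝ)).const_sub 1
      have d3 := ((d1.fun_pow s.1).fun_mul (d2.fun_pow s.2)).const_sub 1
      have d4 := d3.tendsto_slope_zero_right
      refine (d4.congr fun ε => ?_).trans (le_of_eq ?_)
      · simp [div_eq_inv_mul]
      · congr 1
        simp
        ring
    refine le_of_tendsto (tendsto_finset_sum T fun s _ => t1 s) ?_
    have e1 : ∀ᶠ ε : ℝ in 𝓝[>] 0, ε < 1 / (a + 1) :=
      nhdsWithin_le_nhds (gt_mem_nhds (by positivity))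
    filter_upwards [e1, self_mem_nhdsWithin] with ε b1 b2
    have b0 : 0 < ε := b2
    rw [lt_div_iff₀ (by positivity)] at b1
    have b3 : ε ≤ 1 := by nlinarith
    have b4 : a * ε ≤ 1 := by nlinarith
    have b5 : 0 ≤ a * ε := by positivity
    have c1 := h _ _ (nrm (x := 1 - a * ε) (by linarith) (by linarith))
      (nrm (x := 1 - ε) (by linarith) (by linarith))
    have c2 : HasSum (fun s : ℕ × ℕ => k s * ((1 - a * ε) ^ s.1 * (1 - ε) ^ s.2))
        (F ((1 - a * ε : ℝ) : ℂ) ((1 - ε : ℝ) : ℂ)).re := by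
      refine hs_congr (Complex.hasSum_re c1) (fun s => ?_) rfl
      rw [← Complex.ofReal_pow, ← Complex.ofReal_pow, ← Complex.ofReal_mul, ← Complex.ofReal_mul,
        Complex.ofReal_re]
    have c3 := ((sum_one h1 h).sub c2).div_const ε
    have c4 : ∑ s ∈ T, k s * ((1 - (1 - a * ε) ^ s.1 * (1 - ε) ^ s.2) / ε) ≤
        (1 - (F ((1 - a * ε : ℝ) : ℂ) ((1 - ε : ℝ) : ℂ)).re) / ε := by
      refine sum_le_hasSum T (fun s _ => mul_nonneg (k0 s) (div_nonneg (sub_nonneg.2 ?_) b0.le))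
        (hs_congr c3 (fun s => by ring) rfl)
      exact mul_le_one₀ (pow_le_one₀ (by linarith) (by linarith)) (pow_nonneg (by linarith) _)
        (pow_le_one₀ (by linarith) (by linarith))
    refine c4.trans ?_
    rw [div_le_iff₀ b0]
    refine le_trans ?_ (hD ε b0 b3 b4)
    simpa using Complex.re_le_norm (1 - F ((1 - a * ε : ℝ) : ℂ) ((1 - ε : ℝ) : ℂ))
  have s1 : Summable fun s : ℕ × ℕ => k s * (a * s.1 + s.2) :=
    summable_of_sum_le (fun s => mul_nonneg (k0 s) (by positivity)) key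
  exact ⟨_, s1.hasSum, s1.tsum_le_of_sum_le key⟩

theorem one_sub_mul {u v : ℂ} (hu : ‖u‖ ≤ 1) : ‖1 - u * v‖ ≤ ‖1 - u‖ + ‖1 - v‖ := by
  rw [show 1 - u * v = (1 - u) + u * (1 - v) by ring]
  refine (norm_add_le _ _).trans ?_
  rw [norm_mul]
  have := mul_le_of_le_one_left (norm_nonneg (1 - v)) hu
  linarith

theorem one_sub_pow {u : ℂ} (hu : ‖u‖ ≤ 1) (n : ℕ) : ‖1 - u ^ n‖ ≤ n * ‖1 - u‖ := by
  induction n with
  | zero => simp
  | succ n ih =>
    rw [pow_succ']
    have := one_sub_mul (v := u ^ n) hu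
    push_cast
    linarith

theorem one_sub_pg {q : ℕ → ℝ} {f : ℂ → ℂ} (h : PG q f) {m : ℝ} (hm : HasSum (fun n : ℕ => n * q n) m)
    {z : ℂ} (hz : ‖z‖ ≤ 1) : ‖1 - f z‖ ≤ m * ‖1 - z‖ := by
  have := (h.comp_sub hm W.one ((W.const z).mono hz) (W.const (1 - z))).bound (x := 0) (y := 0)
    (by simp) (by simp)
  simpa [h.one] using this

/-- the mixed Poisson weights have a finite mean exactly when the law has -/
theorem qq_summable_iff (μ : ProbabilityMeasure NNReal) {L : ℝ} (hL : 0 < L) :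
    (Summable fun n : ℕ => n * qq μ L n) ↔ Integrable (fun t : NNReal => (t : ℝ)) (μ : Measure NNReal) := by
  have hs : ∀ t : NNReal, HasSum (fun n : ℕ => (n : ℝ) * (Real.exp (-(L * t)) * ((L * t) ^ n / n.factorial)))
      (L * t) := by
    intro t
    rw [← hasSum_nat_add_iff' 1]
    refine hs_congr ((pois_hasSum (L * t)).mul_left (L * t)) (fun n => ?_) (by simp)
    rw [Nat.factorial_succ]
    push_cast
    field_simp
    ring
  have q0 : ∀ n : ℕ, 0 ≤ n * qq μ L n := fun n =>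
    mul_nonneg (Nat.cast_nonneg n) ((pg_lst μ hL).nonneg n)
  constructor
  · intro h
    have a1 : Integrable (fun t : NNReal => L * (t : ℝ)) (μ : Measure NNReal) := by
      refine ⟨Continuous.aestronglyMeasurable (by fun_prop), ?_⟩
      rw [hasFiniteIntegral_iff_ofReal (Eventually.of_forall fun t => by positivity)]
      have e : ∀ t : NNReal, ENNReal.ofReal (L * t) = ∑' n : ℕ,
          ENNReal.ofReal ((n : ℝ) * (Real.exp (-(L * t)) * ((L * t) ^ n / n.factorial))) := fun t => by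
        rw [← ENNReal.ofReal_tsum_of_nonneg (fun n => by positivity) (hs t).summable, (hs t).tsum_eq]
      simp only [e]
      rw [lintegral_tsum fun n => (Measurable.ennreal_ofReal (by fun_prop)).aemeasurable]
      have e2 : ∀ n : ℕ, ∫⁻ t : NNReal, ENNReal.ofReal
          ((n : ℝ) * (Real.exp (-(L * t)) * ((L * t) ^ n / n.factorial))) ∂(μ : Measure NNReal) =
          ENNReal.ofReal (n * qq μ L n) := fun n => by
        rw [← ofReal_integral_eq_lintegral_ofReal ((pois_int μ hL n).const_mul _)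
          (Eventually.of_forall fun t => by positivity), integral_const_mul, qq]
      simp only [e2]
      rw [← ENNReal.ofReal_tsum_of_nonneg q0 h]
      exact ENNReal.ofReal_lt_top
    refine (a1.const_mul L⁻¹).congr (Eventually.of_forall fun t => ?_)
    simp only
    field_simp
  · intro h
    refine summable_of_sum_le (c := ∫ t : NNReal, L * (t : ℝ) ∂(μ : Measure NNReal)) q0 fun T => ?_
    simp only [qq, ← integral_const_mul]
    rw [← integral_finset_sum _ fun n _ => (pois_int μ hL n).const_mul _]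
    refine integral_mono (integrable_finset_sum _ fun n _ => (pois_int μ hL n).const_mul _)
      (h.const_mul L) fun t => ?_
    exact sum_le_hasSum T (fun n _ => by positivity) (hs t)

end Ex

end Pool.Agent.P.MP_386d8e_pr
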