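import Pool.Agent.P.MP_386d8e_pr.ExA

set_option autoImplicit false

open MeasureTheory Filter Topology

namespace Pool.Agent.P.MP_386d8e_pr

namespace Ex

variable {P : Model} (S : Setup P)

/-- generating function of the state at the next polling instant of the first queue, from the state `s` at
a polling instant of the second queue -/
noncomputable def G2 (s : ℕ × ℕ) (x y : ℂ) : ℂ :=
  S.s2 (S.α * x + S.β * y) * (x ^ s.1 * if s.2 = 0 then 1 else S.b2 (S.α * x + S.β * y) * y ^ (s.2 - 1))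

theorem W_G2 (s : ℕ × ℕ) {G : ℂ → ℂ → ℂ} (hG : W 1 G) : W 1 fun x y => G2 S s (G x y) y := by
  unfold G2
  refine (S.S2.comp (S.lin hG)).mul1 ((hG.pow1 _).mul1 ?_)
  split_ifs
  · exact W.one
  · exact (S.B2.comp (S.lin hG)).mul1 (W.snd.pow1 _)

theorem lin_one : (S.α : ℂ) * 1 + S.β * 1 = 1 := by
  rw [mul_one, mul_one]
  exact_mod_cast S.hαβ

theorem G2_one (s : ℕ × ℕ) : G2 S s 1 1 = 1 := by
  rw [G2, lin_one, S.S2.one, S.B2.one]
  simp

theorem lin_le {x y : ℂ} (hx : ‖x‖ ≤ 1) (hy : ‖y‖ ≤ 1) : ‖S.α * x + S.β * y‖ ≤ 1 :=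
  (S.lin W.fst).bound hx hy

theorem one_sub_lin (x y : ℂ) : ‖1 - (S.α * x + S.β * y)‖ ≤ S.α * ‖1 - x‖ + S.β * ‖1 - y‖ := by
  have e : 1 - (S.α * x + S.β * y) = S.α * (1 - x) + S.β * (1 - y) := by
    linear_combination -lin_one S
  rw [e]
  refine (norm_add_le _ _).trans (le_of_eq ?_)
  rw [norm_mul, norm_mul, Complex.norm_real, Complex.norm_real, Real.norm_of_nonneg S.hα.le,
    Real.norm_of_nonneg S.hβ.le]

theorem exists_steady {m1 m2 n1 n2 : ℝ} (h1 : HasSum (fun n : ℕ => n * S.q1 n) m1)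
    (h2 : HasSum (fun n : ℕ => n * S.q2 n) m2) (k1 : HasSum (fun n : ℕ => n * S.r1 n) n1)
    (k2 : HasSum (fun n : ℕ => n * S.r2 n) n2) (st : S.α * m1 + S.β * (n1 + n2 + m2) < 1) :
    ∃ p1 p2 : PMF (ℕ × ℕ), P.Steady p1 p2 := by
  have hα := S.hα
  have hβ := S.hβ
  have m10 : 0 ≤ m1 := h1.nonneg fun n => mul_nonneg (Nat.cast_nonneg n) (S.B1.nonneg n)
  have m20 : 0 ≤ m2 := h2.nonneg fun n => mul_nonneg (Nat.cast_nonneg n) (S.B2.nonneg n)
  have n10 : 0 ≤ n1 := k1.nonneg fun n => mul_nonneg (Nat.cast_nonneg n) (S.S1.nonneg n)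
  have n20 : 0 ≤ n2 := k2.nonneg fun n => mul_nonneg (Nat.cast_nonneg n) (S.S2.nonneg n)
  -- the weight of a customer of the first queue
  obtain ⟨a, c, a0, hc, ha, hη⟩ : ∃ a c : ℝ, 0 ≤ a ∧ c = S.α * a + S.β ∧ m1 * c < a ∧
      c * (n1 + n2 + m2) < 1 := by
    have r1 : 0 < 1 - S.α * m1 := by
      have := mul_nonneg hβ.le (add_nonneg (add_nonneg n10 n20) m20)
      linarith
    have t1 : Tendsto (fun δ : ℝ => (S.β + S.α * δ) / (1 - S.α * m1) * (n1 + n2 + m2)) (𝓝[>] 0)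
        (𝓝 ((S.β + S.α * 0) / (1 - S.α * m1) * (n1 + n2 + m2))) :=
      (Continuous.tendsto (by fun_prop) _).mono_left nhdsWithin_le_nhds
    have t2 : (S.β + S.α * 0) / (1 - S.α * m1) * (n1 + n2 + m2) < 1 := by
      rw [div_mul_eq_mul_div, div_lt_one r1]
      linarith
    obtain ⟨δ, d1, d2⟩ := ((t1.eventually (gt_mem_nhds t2)).and self_mem_nhdsWithin).exists
    have d0 : 0 < δ := d2
    refine ⟨(S.β * m1 + δ) / (1 - S.α * m1), (S.β + S.α * δ) / (1 - S.α * m1), by positivity, ?_, ?_, d1⟩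
    · field_simp
      ring
    · rw [← mul_div_assoc, div_lt_div_iff_of_pos_right r1]
      nlinarith [mul_pos d0 r1]
  have c0 : 0 < c := by rw [hc]; positivity
  -- the kernel of one cycle
  let Φ : ℕ × ℕ → ℂ → ℂ → ℂ := fun s x y =>
    S.s1 (S.α * x + S.β * y) * G2 S s (S.b1 (S.α * x + S.β * y)) y
  have Φ0 : ∀ s, W 1 (Φ s) := fun s =>
    (S.S1.comp (S.lin W.fst)).mul1 (W_G2 S s (S.B1.comp (S.lin W.fst)))
  have Φ1 : ∀ s, Φ s 1 1 = 1 := fun s => by
    simp only [Φ]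
    rw [lin_one, S.S1.one, S.B1.one, G2_one, one_mul]
  choose k hk0 _hk hk using fun s => (Φ0 s).pos (Φ1 s)
  have hk1 : ∀ s, HasSum (k s) 1 := fun s => sum_one (Φ1 s) (hk s)
  have drift : ∀ s : ℕ × ℕ, ∃ g : ℝ, HasSum (fun t => k s t * (a * t.1 + t.2)) g ∧
      g ≤ c * (n1 + n2) + m1 * c * s.1 + if s.2 = 0 then 0 else c * m2 + ((s.2 - 1 : ℕ) : ℝ) := by
    intro s
    refine mean_le (Φ1 s) (hk0 s) (hk s) a0 fun ε e0 e1 e2 => ?_
    have e3 : 0 ≤ a * ε := by positivity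
    set x : ℂ := ((1 - a * ε : ℝ) : ℂ) with hx
    set y : ℂ := ((1 - ε : ℝ) : ℂ) with hy
    have x1 : ‖x‖ ≤ 1 := nrm (by linarith) (by linarith)
    have y1 : ‖y‖ ≤ 1 := nrm (by linarith) (by linarith)
    have x2 : ‖1 - x‖ = a * ε := by
      rw [show 1 - x = ((a * ε : ℝ) : ℂ) by rw [hx]; push_cast; ring, Complex.norm_real,
        Real.norm_of_nonneg e3]
    have y2 : ‖1 - y‖ = ε := by
      rw [show 1 - y = ((ε : ℝ) : ℂ) by rw [hy]; push_cast; ring, Complex.norm_real,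
        Real.norm_of_nonneg e0.le]
    have l1 := lin_le S x1 y1
    have l2 : ‖1 - (S.α * x + S.β * y)‖ ≤ c * ε := by
      refine (one_sub_lin S x y).trans (le_of_eq ?_)
      rw [x2, y2, hc]
      ring
    set u : ℂ := S.b1 (S.α * x + S.β * y) with hu
    have u1 : ‖u‖ ≤ 1 := S.B1.norm_le l1
    have u2 : ‖1 - u‖ ≤ m1 * c * ε := by
      refine (one_sub_pg S.B1 h1 l1).trans ?_
      rw [mul_assoc]
      exact mul_le_mul_of_nonneg_left l2 m10
    have l3 := lin_le S u1 y1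
    have l4 : ‖1 - (S.α * u + S.β * y)‖ ≤ c * ε := by
      refine (one_sub_lin S u y).trans ?_
      have b1 : ‖1 - u‖ ≤ a * ε := u2.trans (mul_le_mul_of_nonneg_right ha.le e0.le)
      have b2 := mul_le_mul_of_nonneg_left b1 hα.le
      rw [y2, hc]
      linarith
    have f1 : ‖1 - S.s1 (S.α * x + S.β * y)‖ ≤ n1 * (c * ε) :=
      (one_sub_pg S.S1 k1 l1).trans (mul_le_mul_of_nonneg_left l2 n10)
    have f2 : ‖1 - S.s2 (S.α * u + S.β * y)‖ ≤ n2 * (c * ε) :=
      (one_sub_pg S.S2 k2 l3).trans (mul_le_mul_of_nonneg_left l4 n20)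
    have f3 : ‖1 - S.b2 (S.α * u + S.β * y)‖ ≤ m2 * (c * ε) :=
      (one_sub_pg S.B2 h2 l3).trans (mul_le_mul_of_nonneg_left l4 m20)
    have f4 : ‖1 - u ^ s.1‖ ≤ s.1 * (m1 * c * ε) :=
      (one_sub_pow u1 _).trans (mul_le_mul_of_nonneg_left u2 (Nat.cast_nonneg _))
    have f5 : ‖1 - (if s.2 = 0 then 1 else S.b2 (S.α * u + S.β * y) * y ^ (s.2 - 1))‖ ≤
        (if s.2 = 0 then 0 else c * m2 + ((s.2 - 1 : ℕ) : ℝ)) * ε := by
      split_ifs
      · simp
      · have b1 := one_sub_mul (v := y ^ (s.2 - 1)) (S.B2.norm_le l3)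
        have b2 := one_sub_pow y1 (s.2 - 1)
        rw [y2] at b2
        linarith
    have u3 : ‖u ^ s.1‖ ≤ 1 := by
      rw [norm_pow]
      exact pow_le_one₀ (norm_nonneg _) u1
    have g1 := one_sub_mul (v := if s.2 = 0 then 1 else S.b2 (S.α * u + S.β * y) * y ^ (s.2 - 1)) u3
    have g2 := one_sub_mul
      (v := u ^ s.1 * if s.2 = 0 then 1 else S.b2 (S.α * u + S.β * y) * y ^ (s.2 - 1)) (S.S2.norm_le l3)
    have g3 := one_sub_mul (v := G2 S s u y) (S.S1.norm_le l1)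
    show ‖1 - S.s1 (S.α * x + S.β * y) * G2 S s u y‖ ≤ _
    rw [G2] at g3 ⊢
    linarith
  choose g hg hg' using drift
  obtain ⟨M, hM⟩ := exists_nat_ge ((c * (n1 + n2) + 1) / (a - m1 * c))
  rw [div_le_iff₀ (by linarith)] at hM
  have w0 : 0 ≤ c * (n1 + n2) := by positivity
  have w1 : 0 ≤ c * (n1 + n2 + m2) := by positivity
  obtain ⟨m, m0, m1', m2'⟩ := foster hk0 hk1 (V := fun t => a * t.1 + t.2) (fun t => by positivity) hg
    ((Finset.range M).image fun i => (i, 0)) (η := 1 - c * (n1 + n2 + m2)) (b := c * (n1 + n2) + 1)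
    (by linarith) (by linarith) (fun s => by
      have b1 := hg' s
      have b2 : m1 * c * s.1 ≤ a * s.1 := mul_le_mul_of_nonneg_right ha.le (Nat.cast_nonneg _)
      obtain ⟨i, j⟩ := s
      rcases j with _ | j
      · simp only [if_true, Nat.cast_zero, add_zero] at b1 b2 ⊢
        split_ifs with hi
        · linarith
        · have b3 : M ≤ i := by
            by_contra hlt
            exact hi (Finset.mem_image.2 ⟨i, Finset.mem_range.2 (not_le.1 hlt), rfl⟩)
          have b4 : (M : ℝ) * (a - m1 * c) ≤ i * (a - m1 * c) :=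
            mul_le_mul_of_nonneg_right (by exact_mod_cast b3) (by linarith)
          linarith
      · simp only [Nat.succ_ne_zero, if_false, Nat.add_sub_cancel] at b1 b2 ⊢
        push_cast
        split_ifs <;> linarith) (0, 0)
  obtain ⟨p2, hp2⟩ := exists_pmf m0 m1'
  have nm : ∀ s, ‖(m s : ℂ)‖ = m s := fun s => by rw [Complex.norm_real, Real.norm_of_nonneg (m0 s)]
  have WG : ∀ s, W (m s) fun x y => (m s : ℂ) * G2 S s x y := fun s => by
    simpa only [nm, mul_one] using (W_G2 S s W.fst).cmul (m s)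
  obtain ⟨p1, hp1⟩ := pmf_of_W (W.tsum WG m1') (by
    simp only [G2_one, mul_one]
    exact (Complex.hasSum_ofReal.2 m1').tsum_eq)
  refine ⟨p1, p2, fun x y hx hy => ⟨?_, fun y0 => ?_⟩⟩
  · have b1 := (kernel_sum hk0 hk1 (c := fun s => (m s : ℂ)) (by simpa only [nm] using m1'.summable)
      (g := fun t => x ^ t.1 * y ^ t.2) (fun t => norm_mono_le hx hy _ _) fun s => hk s x y hx hy).2
    have b2 : ∀ t, ∑' s, (m s : ℂ) * (k s t : ℂ) = (p2 t).toReal := fun t => by
      rw [hp2, m2' t, Complex.ofReal_tsum]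
      simp only [Complex.ofReal_mul]
    simp only [b2] at b1
    rw [(pgf_rep p2 hx hy).unique b1, hp1 _ _ (S.h_le hx hy) hy, S.es1, S.h_eq, ← tsum_mul_left]
    exact tsum_congr fun s => by simp only [Φ]; ring
  · have b1 := pgf_rep p2 hx hy
    have b2 := pgf_rep p2 hx (y := 0) (by simp)
    have b3 := (((b1.sub b2).mul_left (S.b2 (S.α * x + S.β * y) / y)).add b2).mul_left
      (S.s2 (S.α * x + S.β * y))
    rw [hp1 x y hx hy, S.es2, S.eb2, ← b3.tsum_eq]
    refine tsum_congr fun s => ?_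
    obtain ⟨i, j⟩ := s
    rcases j with _ | j
    · simp [G2, hp2]
      ring
    · simp only [G2, hp2, Nat.succ_ne_zero, if_false, Nat.add_sub_cancel, pow_succ, mul_zero]
      field_simp
      ring

/-- with switch-over times: a steady pair exists exactly under finite means and load below one -/
theorem steady_iff (P : Model) (h1 : 0 < P.l1) (h2 : 0 < P.l2)
    (hS : ¬ ((P.S1 : Measure NNReal) = Measure.dirac 0 ∧ (P.S2 : Measure NNReal) = Measure.dirac 0)) :
    (∃ p1 p2 : PMF (ℕ × ℕ), P.Steady p1 p2) ↔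
      (Integrable (fun t : NNReal => (t : ℝ)) (P.B1 : Measure NNReal) ∧
        Integrable (fun t : NNReal => (t : ℝ)) (P.B2 : Measure NNReal) ∧
        Integrable (fun t : NNReal => (t : ℝ)) (P.S1 : Measure NNReal) ∧
        Integrable (fun t : NNReal => (t : ℝ)) (P.S2 : Measure NNReal) ∧
        P.l1 * mean P.B1 + P.l2 * mean P.B2 + P.l2 * (mean P.S1 + mean P.S2) < 1) := by
  have hL := add_pos h1 h2
  have e : P.l1 / (P.l1 + P.l2) * ((P.l1 + P.l2) * mean P.B1) + P.l2 / (P.l1 + P.l2) *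
      ((P.l1 + P.l2) * mean P.S1 + (P.l1 + P.l2) * mean P.S2 + (P.l1 + P.l2) * mean P.B2) =
      P.l1 * mean P.B1 + P.l2 * mean P.B2 + P.l2 * (mean P.S1 + mean P.S2) := by
    field_simp
    ring
  constructor
  · rintro ⟨p1, p2, hst⟩
    obtain ⟨T, -⟩ := (mkSetup P h1 h2 hS).exists_stable hst
    have e1 : T.m1 = (P.l1 + P.l2) * mean P.B1 := T.h1.unique (qq_mean _ hL T.h1.summable)
    have e2 : T.m2 = (P.l1 + P.l2) * mean P.B2 := T.h2.unique (qq_mean _ hL T.h2.summable)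
    have e3 : T.n1 = (P.l1 + P.l2) * mean P.S1 := T.k1.unique (qq_mean _ hL T.k1.summable)
    have e4 : T.n2 = (P.l1 + P.l2) * mean P.S2 := T.k2.unique (qq_mean _ hL T.k2.summable)
    refine ⟨(qq_summable_iff _ hL).1 T.h1.summable, (qq_summable_iff _ hL).1 T.h2.summable,
      (qq_summable_iff _ hL).1 T.k1.summable, (qq_summable_iff _ hL).1 T.k2.summable, ?_⟩
    have := T.st
    rw [e1, e2, e3, e4] at this
    exact e ▸ this
  · rintro ⟨i1, i2, i3, i4, st⟩
    exact exists_steady (mkSetup P h1 h2 hS) (qq_mean _ hL ((qq_summable_iff _ hL).2 i1))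
      (qq_mean _ hL ((qq_summable_iff _ hL).2 i2)) (qq_mean _ hL ((qq_summable_iff _ hL).2 i3))
      (qq_mean _ hL ((qq_summable_iff _ hL).2 i4)) (e ▸ st)

/-- without switch-over times the empty system is steady -/
theorem steady_empty (P : Model)
    (hS : (P.S1 : Measure NNReal) = Measure.dirac 0 ∧ (P.S2 : Measure NNReal) = Measure.dirac 0) :
    P.Steady (PMF.pure (0, 0)) (PMF.pure (0, 0)) := by
  have s1 : ∀ s, lst P.S1 s = 1 := fun s => by simp [lst, hS.1]
  have s2 : ∀ s, lst P.S2 s = 1 := fun s => by simp [lst, hS.2]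
  have e : ∀ x y : ℂ, pgf (PMF.pure (0, 0)) x y = 1 := fun x y => by
    rw [pgf, tsum_eq_single (0, 0) fun s hs => by simp [PMF.pure_apply, hs]]
    simp
  intro x y _ _
  simp [e, s1, s2]

end Ex

end Pool.Agent.P.MP_386d8e_pr
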