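import Pool.Agent.P.MP_386d8e_pr.ExB

set_option autoImplicit false

open MeasureTheory Filter Topology

namespace Pool.Agent.P.MP_386d8e_pr

namespace Ex

theorem pmf_ext' {p q : PMF (ℕ × ℕ)}
    (h : ∀ x y : ℂ, ‖x‖ ≤ 1 → ‖y‖ ≤ 1 → y ≠ 0 → pgf p x y = pgf q x y) : p = q := by
  ext s
  have := coeff_two (fun s : ℕ × ℕ => ((p s).toReal : ℂ) - ((q s).toReal : ℂ))
    (Summable.of_nonneg_of_le (fun _ => norm_nonneg _) (fun s => norm_sub_le _ _)
      ((pmf_norm p).summable.add (pmf_norm q).summable))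
    (fun s => (s.1 : ℤ)) (fun s => (s.2 : ℤ))
    (fun s t a b => Prod.ext (by exact_mod_cast a) (by exact_mod_cast b)) (by
      intro x y hx hy _
      have y0 : y ≠ 0 := by
        rintro rfl
        simp at hy
      refine hs_congr ((pgf_rep p hx.le hy.le).sub (pgf_rep q hx.le hy.le)) (fun s => ?_)
        (by rw [h x y hx.le hy.le y0, sub_self])
      simp only [zpow_natCast]
      ring) s
  have a : (p s).toReal = (q s).toReal := by exact_mod_cast sub_eq_zero.1 this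
  exact (ENNReal.toReal_eq_toReal_iff' (p.apply_ne_top s) (q.apply_ne_top s)).1 a

theorem pgf_bind (p : PMF (ℕ × ℕ)) (k : ℕ × ℕ → PMF (ℕ × ℕ)) {x y : ℂ} (hx : ‖x‖ ≤ 1) (hy : ‖y‖ ≤ 1) :
    pgf (p.bind k) x y = ∑' s, ((p s).toReal : ℂ) * pgf (k s) x y := by
  have b1 := (kernel_sum (k := fun s t => (k s t).toReal) (fun _ _ => ENNReal.toReal_nonneg)
    (fun s => pmf_sum (k s)) (c := fun s => ((p s).toReal : ℂ)) (pmf_norm p).summable
    (g := fun t => x ^ t.1 * y ^ t.2) (fun t => norm_mono_le hx hy _ _)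
    fun s => pgf_rep (k s) hx hy).2
  refine (pgf_rep _ hx hy).unique (hs_congr b1 (fun t => ?_) rfl)
  rw [PMF.bind_apply, ENNReal.tsum_toReal_eq fun s =>
    ENNReal.mul_ne_top (p.apply_ne_top s) ((k s).apply_ne_top t), Complex.ofReal_tsum]
  simp only [ENNReal.toReal_mul, Complex.ofReal_mul]

theorem W_lst (P : Model) (h1 : 0 < P.l1) (h2 : 0 < P.l2) (μ : ProbabilityMeasure NNReal) :
    W 1 fun x y => lst μ (P.th x y) := by
  have hL := add_pos h1 h2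
  have a : W 1 fun x y : ℂ =>
      ((P.l1 / (P.l1 + P.l2) : ℝ) : ℂ) * x + ((P.l2 / (P.l1 + P.l2) : ℝ) : ℂ) * y := by
    refine ((W.fst.cmul _).add (W.snd.cmul _)).mono (le_of_eq ?_)
    rw [Complex.norm_real, Complex.norm_real, Real.norm_of_nonneg (by positivity),
      Real.norm_of_nonneg (by positivity)]
    field_simp
  refine ((pg_lst μ hL).comp a).congr fun x y _ _ => ?_
  have : (P.l1 : ℂ) + P.l2 ≠ 0 := by exact_mod_cast hL.ne'
  congr 1
  rw [Model.th]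
  push_cast
  field_simp
  ring

theorem lst_one (P : Model) (μ : ProbabilityMeasure NNReal) : lst μ (P.th 1 1) = 1 := by
  simp [lst, Model.th]

theorem stationary (P : Model) (h1 : 0 < P.l1) (h2 : 0 < P.l2) :
    ∃ k1 k2 : ℕ × ℕ → PMF (ℕ × ℕ),
      (∀ (m n : ℕ) (x y : ℂ), ‖x‖ ≤ 1 → ‖y‖ ≤ 1 →
        pgf (k1 (m, n)) x y = P.h y x ^ m * y ^ n * lst P.S1 (P.th x y) ∧
        pgf (k2 (m, 0)) x y = x ^ m * lst P.S2 (P.th x y) ∧
        pgf (k2 (m, n + 1)) x y = x ^ m * y ^ n * lst P.B2 (P.th x y) * lst P.S2 (P.th x y)) ∧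
      ∀ p1 p2 : PMF (ℕ × ℕ), P.Steady p1 p2 ↔ p2 = p1.bind k1 ∧ p1 = p2.bind k2 := by
  have w := W_lst P h1 h2
  choose k1 hk1 using fun s : ℕ × ℕ => pmf_of_W
    (F := fun x y => P.h y x ^ s.1 * (y ^ s.2 * lst P.S1 (P.th x y)))
    (((w P.B1).pow1 _).mul1 ((W.snd.pow1 _).mul1 (w P.S1))) (by simp [Model.h, lst_one])
  choose k2 hk2 using fun s : ℕ × ℕ => pmf_of_W
    (F := fun x y => lst P.S2 (P.th x y) *
      (x ^ s.1 * if s.2 = 0 then 1 else lst P.B2 (P.th x y) * y ^ (s.2 - 1)))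
    ((w P.S2).mul1 ((W.fst.pow1 _).mul1 (by
      split_ifs
      · exact W.one
      · exact (w P.B2).mul1 (W.snd.pow1 _)))) (by simp [lst_one])
  have e1 : ∀ (p : PMF (ℕ × ℕ)) (x y : ℂ), ‖x‖ ≤ 1 → ‖y‖ ≤ 1 →
      pgf (p.bind k1) x y = lst P.S1 (P.th x y) * pgf p (P.h y x) y := by
    intro p x y hx hy
    rw [pgf_bind p k1 hx hy, pgf, ← tsum_mul_left]
    exact tsum_congr fun s => by rw [hk1 s x y hx hy]; ring
  have e2 : ∀ (p : PMF (ℕ × ℕ)) (x y : ℂ), ‖x‖ ≤ 1 → ‖y‖ ≤ 1 → y ≠ 0 →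
      pgf (p.bind k2) x y = lst P.S2 (P.th x y) *
        (lst P.B2 (P.th x y) / y * (pgf p x y - pgf p x 0) + pgf p x 0) := by
    intro p x y hx hy y0
    have b1 := pgf_rep p hx hy
    have b2 := pgf_rep p hx (y := 0) (by simp)
    have b3 := (((b1.sub b2).mul_left (lst P.B2 (P.th x y) / y)).add b2).mul_left
      (lst P.S2 (P.th x y))
    rw [pgf_bind p k2 hx hy, ← b3.tsum_eq]
    refine tsum_congr fun s => ?_
    rw [hk2 s x y hx hy]
    obtain ⟨i, j⟩ := s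
    rcases j with _ | j
    · simp
      ring
    · simp only [Nat.succ_ne_zero, if_false, Nat.add_sub_cancel, pow_succ, mul_zero]
      field_simp
      ring
  refine ⟨k1, k2, fun m n x y hx hy => ⟨?_, ?_, ?_⟩, fun p1 p2 => ⟨fun h => ⟨?_, ?_⟩, ?_⟩⟩
  · rw [hk1 _ x y hx hy, mul_assoc]
  · rw [hk2 _ x y hx hy]
    simp [mul_comm]
  · rw [hk2 _ x y hx hy]
    simp only [Nat.succ_ne_zero, if_false, Nat.add_sub_cancel]
    ring
  · exact pmf_ext fun x y hx hy => by rw [e1 p1 x y hx hy, (h x y hx hy).1]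
  · exact pmf_ext' fun x y hx hy y0 => by rw [e2 p2 x y hx hy y0, (h x y hx hy).2 y0]
  · rintro ⟨a1, a2⟩ x y hx hy
    exact ⟨by rw [← e1 p1 x y hx hy, ← a1], fun y0 => by rw [← e2 p2 x y hx hy y0, ← a2]⟩

theorem eq_bind {p q : PMF (ℕ × ℕ)} {k : ℕ × ℕ → PMF (ℕ × ℕ)} :
    q = p.bind k ↔ ∀ t, q t = ∑' s, p s * k s t :=
  ⟨fun h t => by rw [h, PMF.bind_apply], fun h => PMF.ext fun t => by rw [h t, PMF.bind_apply]⟩

theorem int_iff (μ : Measure NNReal) :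
    Integrable (fun t : NNReal => (t : ℝ)) μ ↔ ∫⁻ t, (t : ENNReal) ∂μ < ⊤ := by
  rw [← hasFiniteIntegral_iff_ofNNReal (f := fun t : NNReal => t)]
  exact ⟨fun h => h.2, fun h => ⟨Continuous.aestronglyMeasurable (by fun_prop), h⟩⟩

end Ex

end Pool.Agent.P.MP_386d8e_pr
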