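import Pool.Agent.P.MP_386d8e_pr.Sect

set_option autoImplicit false

open Filter Topology Finset Matrix

namespace Pool.Agent.P.MP_386d8e_pr

noncomputable section

theorem hasSum_pi {ι E : Type} [NormedField E] [CompleteSpace E] (n : ℕ) (f : Fin n → ι → E)
    (hf : ∀ a, Summable fun i => ‖f a i‖) :
    (Summable fun k : Fin n → ι => ‖∏ a, f a (k a)‖) ∧
      HasSum (fun k : Fin n → ι => ∏ a, f a (k a)) (∏ a, ∑' i, f a i) := by
  induction n with
  | zero => exact ⟨Summable.of_finite, by simp⟩
  | succ n ih =>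
    obtain ⟨h1, h2⟩ := ih (fun a => f a.succ) fun a => hf a.succ
    have h3 := (hf 0).mul_norm h1
    have e : ∀ s : ι × (Fin n → ι), ∏ a, f a (Fin.consEquiv (fun _ => ι) s a) =
        f 0 s.1 * ∏ a : Fin n, f a.succ (s.2 a) := fun s => by simp [Fin.prod_univ_succ]
    refine ⟨(Fin.consEquiv fun _ => ι).summable_iff.1 (h3.congr fun s => by simp only [Function.comp, e]),
      (Fin.consEquiv fun _ => ι).hasSum_iff.1 ?_⟩
    rw [Fin.prod_univ_succ]
    exact hs_congr ((hf 0).of_norm.hasSum.mul h2 h3.of_norm) (fun s => e s) rfl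

theorem fact_le (s : Finset ℕ) : (s.card + 1).factorial ≤ ∏ i ∈ s, (i + 2) := by
  induction s using Finset.induction_on_max with
  | empty => simp
  | insert a s ha ih =>
    have h1 : a ∉ s := fun h => lt_irrefl _ (ha a h)
    have h2 : s.card ≤ a := by
      simpa using card_le_card (fun x hx => mem_range.2 (ha x hx) : s ⊆ range a)
    rw [card_insert_of_notMem h1, prod_insert h1, Nat.factorial_succ]
    exact Nat.mul_le_mul (by omega) ih

theorem fact_le' {n : ℕ} {k : Fin n → ℕ} (hk : Function.Injective k) :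
    ((n + 1).factorial : ℝ) ≤ ∏ a, ((k a : ℝ) + 2) := by
  have := fact_le (univ.image k)
  rw [card_image_of_injective _ hk, prod_image fun _ _ _ _ h => hk h, card_univ, Fintype.card_fin] at this
  exact_mod_cast this

theorem det_bound {n : ℕ} (A : Matrix (Fin n) (Fin n) ℂ) {b : Fin n → ℝ} (h : ∀ i j, ‖A i j‖ ≤ b i) :
    ‖A.det‖ ≤ n.factorial * ∏ i, b i := by
  rw [← det_transpose, det_apply']
  refine (norm_sum_le_of_le _ (n := fun _ => ∏ i, b i) fun σ _ => ?_).trans (by simp [Fintype.card_perm])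
  rw [norm_mul, norm_prod]
  have : ‖((Equiv.Perm.sign σ : ℤ) : ℂ)‖ = 1 := by
    rcases Int.units_eq_one_or (Equiv.Perm.sign σ) with e | e <;> simp [e]
  rw [this, one_mul]
  exact prod_le_prod (fun _ _ => norm_nonneg _) fun i _ => h i (σ i)

theorem sum_inj {α : Type} [Fintype α] [DecidableEq α] (n : ℕ) (G : Finset α → ℂ) (g : (Fin n → α) → ℂ)
    (h0 : ∀ k, ¬ Function.Injective k → g k = 0)
    (h1 : ∀ k, Function.Injective k → g k = G (univ.image k)) :
    ∑ k, g k = n.factorial * ∑ S ∈ powersetCard n univ, G S := by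
  classical
  rw [← sum_filter_of_ne (p := Function.Injective) fun k _ hk => by_contra fun h => hk (h0 k h),
    ← sum_fiberwise_of_maps_to (t := powersetCard n univ) (g := fun k => univ.image k) (fun k hk => by
      rw [mem_powersetCard_univ, card_image_of_injective _ (mem_filter.1 hk).2]
      simp), mul_sum]
  refine sum_congr rfl fun S hS => ?_
  have hc := mem_powersetCard_univ.1 hS
  rw [sum_congr rfl (g := fun _ => G S) fun k hk => by
    rw [h1 k (mem_filter.1 (mem_filter.1 hk).1).2, (mem_filter.1 hk).2], sum_const, nsmul_eq_mul]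
  congr 2
  have e : (univ : Finset (Fin n ↪ S)).card = n.factorial := by
    simp [Fintype.card_embedding_eq, hc, Nat.descFactorial_self]
  rw [← e]
  symm
  refine card_bij (fun f _ a => (f a : α)) (fun f _ => ?_) (fun f _ f' _ h => ?_) fun k hk => ?_
  · have i : Function.Injective fun a => (f a : α) := Subtype.val_injective.comp f.injective
    refine mem_filter.2 ⟨mem_filter.2 ⟨mem_univ _, i⟩, eq_of_subset_of_card_le (fun x hx => ?_) ?_⟩
    · obtain ⟨a, -, rfl⟩ := mem_image.1 hx
      exact (f a).2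
    · rw [card_image_of_injective _ i]
      simp [hc]
  · ext a
    exact congrFun h a
  · obtain ⟨a1, a2⟩ := mem_filter.1 hk
    exact ⟨⟨fun a => ⟨k a, a2 ▸ mem_image_of_mem _ (mem_univ a)⟩,
      fun a b h => (mem_filter.1 a1).2 (congrArg Subtype.val h)⟩, mem_univ _, rfl⟩

/-- index list `0, k 0 + 1, k 1 + 1, …` -/
def ix {n : ℕ} (k : Fin n → ℕ) : Fin (n + 1) → ℕ := Fin.cons 0 fun a => k a + 1

def sub (Z : ℕ → ℕ → ℂ) {n : ℕ} (k : Fin n → ℕ) : ℂ := (of fun a b => Z (ix k a) (ix k b)).det

def sec (Z : ℕ → ℕ → ℂ) (N : ℕ) : Matrix (Fin (N + 1)) (Fin (N + 1)) ℂ :=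
  of fun i j => if i = 0 then Z 0 j else (if i = j then 1 else 0) - Z i j

theorem sub_zero' (Z : ℕ → ℕ → ℂ) {n : ℕ} {k : Fin n → ℕ} (hk : ¬ Function.Injective k) : sub Z k = 0 := by
  obtain ⟨a, b, h, ne⟩ := Function.not_injective_iff.1 hk
  exact det_zero_of_row_eq (i := a.succ) (j := b.succ) (by simpa using ne) (by ext j; simp [ix, h])

theorem sec_det (Z : ℕ → ℕ → ℂ) (N : ℕ) : (sec Z N).det =
    ∑ n ∈ range (N + 1), (-1) ^ n / n.factorial * ∑ k : Fin n → Fin N, sub Z fun a => k a := by
  classical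
  let m : Matrix (Fin (N + 1)) (Fin (N + 1)) ℂ := of fun i j => if i = 0 then Z 0 j else -Z i j
  let D := (detRowAlternating : (Fin (N + 1) → ℂ) [⋀^Fin (N + 1)]→ₗ[ℂ] ℂ).toMultilinearMap.curryLeft (m 0)
  let G : Finset (Fin N) → ℂ := fun S => D (S.piecewise (fun i => m i.succ) fun i => (1 : Matrix _ _ ℂ) i.succ)
  have e1 : (sec Z N).det = ∑ S, G S := by
    rw [← D.map_add_univ]
    change _ = det (Fin.cons (m 0) _)
    congr 1
    ext i j
    refine Fin.cases ?_ (fun i => ?_) i
    · simp [sec, m]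
    · simp [sec, m, one_apply, Fin.succ_ne_zero]
      ring
  have e2 : ∀ n, ∑ k : Fin n → Fin N, (-1) ^ n * sub Z (fun a => k a) =
      n.factorial * ∑ S ∈ powersetCard n univ, G S := fun n => by
    refine sum_inj n G _ (fun k hk => ?_) fun k hk => ?_
    · rw [sub_zero' Z fun h => hk fun a b e => h (by simp [e]), mul_zero]
    · let c : Fin (n + 1) → Fin (N + 1) := Fin.cons 0 fun a => (k a).succ
      have ci : Function.Injective c :=
        Fin.cons_injective_of_injective (by simp) ((Fin.succ_injective _).comp hk)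
      have a1 : G (univ.image k) = det (of ((univ.image c).piecewise m.row (1 : Matrix _ _ ℂ).row)) := by
        change det (Fin.cons (m 0) _) = _
        congr 1
        ext i j
        refine Fin.cases ?_ (fun i => ?_) i
        · have : (0 : Fin (N + 1)) ∈ univ.image c := mem_image_of_mem c (mem_univ 0)
          simp [piecewise, this]
        · have : i.succ ∈ univ.image c ↔ i ∈ univ.image k := by
            simp [c, Fin.exists_fin_succ, (Fin.succ_ne_zero i).symm]
          simp only [Fin.cons_succ, piecewise, this, of_apply]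
          split_ifs <;> rfl
      let e : Fin (n + 1) ≃ ↥(univ.image c) := Equiv.ofBijective
        (fun a => ⟨c a, mem_image_of_mem c (mem_univ a)⟩)
        ⟨fun a b h => ci (congrArg Subtype.val h), fun x => by
          obtain ⟨a, -, ha⟩ := mem_image.1 x.2
          exact ⟨a, Subtype.ext ha⟩⟩
      rw [a1, det_piecewise_one_eq_submatrix_det, ← det_submatrix_equiv_self e, sub]
      have a2 := det_mul_column (Fin.cons 1 fun _ => -1 : Fin (n + 1) → ℂ)
        (of fun a b => Z (ix (fun a => k a) a) (ix (fun a => k a) b))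
      rw [Fin.prod_univ_succ] at a2
      simp only [Fin.cons_zero, Fin.cons_succ, prod_const, card_univ, Fintype.card_fin, one_mul] at a2
      rw [← a2]
      congr 1
      have ce : ∀ a, ix (fun a => (k a : ℕ)) a = c a := fun a => by
        refine Fin.cases ?_ (fun a => ?_) a <;> simp [ix, c]
      ext a b
      have ee : ∀ a, (e a : Fin (N + 1)) = c a := fun _ => rfl
      simp only [of_apply, submatrix_apply, ce, m, ee]
      refine Fin.cases ?_ (fun a => ?_) a <;> simp [c, Fin.succ_ne_zero]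
  rw [e1, ← powerset_univ, sum_powerset, card_univ, Fintype.card_fin]
  refine sum_congr rfl fun n _ => ?_
  have := e2 n
  rw [← mul_sum] at this
  have f0 : (n.factorial : ℂ) ≠ 0 := by exact_mod_cast n.factorial_ne_zero
  field_simp
  linear_combination -this

section
variable {Z : ℕ → ℕ → ℂ} {a : ℕ → ℝ} (ha : ∀ i, 0 ≤ a i) (hZ : ∀ i j, ‖Z i j‖ ≤ a i)
  (hs : Summable fun i : ℕ => ((i : ℝ) + 1) * a i)
include ha hZ

theorem sub_le {n : ℕ} (k : Fin n → ℕ) : ‖sub Z k‖ ≤ a 0 * ∏ c, ((k c : ℝ) + 2) * a (k c + 1) := by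
  have h0 := fun i => ha i
  by_cases hk : Function.Injective k
  · refine (det_bound _ (b := fun c => a (ix k c)) fun i j => hZ _ _).trans ?_
    rw [Fin.prod_univ_succ, prod_mul_distrib]
    simp only [ix, Fin.cons_zero, Fin.cons_succ]
    have := mul_le_mul_of_nonneg_right (fact_le' hk)
      (mul_nonneg (ha 0) (prod_nonneg fun c _ => ha (k c + 1) : 0 ≤ ∏ c, a (k c + 1)))
    linarith
  · rw [sub_zero' Z hk, norm_zero]
    exact mul_nonneg (ha 0) (prod_nonneg fun c _ => mul_nonneg (by positivity) (ha _))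

include hs in
theorem koch : (Summable fun n : ℕ => ‖(-1) ^ n / (n.factorial : ℂ) * ∑' k : Fin n → ℕ, sub Z k‖) ∧
    Tendsto (fun N => (sec Z N).det) atTop
      (𝓝 (∑' n : ℕ, (-1) ^ n / (n.factorial : ℂ) * ∑' k : Fin n → ℕ, sub Z k)) := by
  classical
  have s1 : Summable fun i : ℕ => ((i : ℝ) + 2) * a (i + 1) :=
    ((summable_nat_add_iff 1).2 hs).congr fun i => by push_cast; ring
  set β := ∑' i : ℕ, ((i : ℝ) + 2) * a (i + 1)
  have s2 : ∀ n, HasSum (fun k : Fin n → ℕ => a 0 * ∏ c, ((k c : ℝ) + 2) * a (k c + 1)) (a 0 * β ^ n) :=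
    fun n => by
      simpa using (hasSum_pi n (fun _ (i : ℕ) => ((i : ℝ) + 2) * a (i + 1)) fun _ => s1.norm).2.mul_left (a 0)
  have s3 : Summable fun n : ℕ => a 0 * (β ^ n / n.factorial) := (Real.summable_pow_div_factorial β).mul_left _
  have b : ∀ (n : ℕ) (g : (Fin n → ℕ) → ℂ), (∀ k, ‖g k‖ ≤ ‖sub Z k‖) →
      ‖(-1) ^ n / (n.factorial : ℂ) * ∑' k, g k‖ ≤ a 0 * (β ^ n / n.factorial) := fun n g hg => by
    have := tsum_of_norm_bounded (s2 n) fun k => (hg k).trans (sub_le ha hZ k)
    rw [norm_mul, norm_div, norm_pow, norm_neg, norm_one, one_pow, Complex.norm_natCast]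
    refine (mul_le_mul_of_nonneg_left this (by positivity)).trans (le_of_eq (by ring))
  refine ⟨Summable.of_nonneg_of_le (fun _ => norm_nonneg _) (fun n => b n _ fun _ => le_rfl) s3, ?_⟩
  have c : ∀ N n, ∑' k : Fin n → ℕ, (if ∀ c, k c < N then sub Z k else 0) =
      ∑ k : Fin n → Fin N, sub Z fun c => k c := fun N n => by
    have i : Function.Injective fun (k : Fin n → Fin N) (c : Fin n) => (k c : ℕ) :=
      fun k k' h => funext fun c => Fin.ext (congrFun h c)
    rw [← i.tsum_eq, tsum_fintype]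
    · simp
    · intro k hk
      have : ∀ c, k c < N := by_contra fun h => hk (if_neg h)
      exact ⟨fun c => ⟨k c, this c⟩, rfl⟩
  have t := tendsto_tsum_of_dominated_convergence (𝓕 := atTop)
    (f := fun N n : ℕ => (-1) ^ n / (n.factorial : ℂ) * ∑' k : Fin n → ℕ, if ∀ c, k c < N then sub Z k else 0)
    s3 (fun n => (tendsto_tsum_of_dominated_convergence (g := fun k => sub Z k) (s2 n).summable
      (fun k => tendsto_const_nhds.congr' (by
        filter_upwards [eventually_gt_atTop (univ.sup k)] with N hN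
        rw [if_pos fun c => (le_sup (mem_univ c)).trans_lt hN]))
      (Eventually.of_forall fun N k => by
        split_ifs
        · exact sub_le ha hZ k
        · exact le_trans (by simp) (sub_le ha hZ k))).const_mul _)
    (Eventually.of_forall fun N n => b n _ fun k => by split_ifs <;> simp)
  refine t.congr fun N => ?_
  simp only [c]
  rw [sec_det, tsum_eq_sum fun n hn => ?_]
  rw [sum_eq_zero fun k _ => sub_zero' Z fun h => ?_, mul_zero]
  have := Fintype.card_le_of_injective k fun x y e => h (by simp [e])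
  simp at this hn
  omega

include hs in
theorem koch_ne (inj : ∀ u : ℕ → ℂ, (Summable fun j => ‖u j‖) → ∑' j, Z 0 j * u j = 0 →
      (∀ i, i ≠ 0 → u i = ∑' j, Z i j * u j) → u = 0) {L : ℂ}
    (hL : Tendsto (fun N => (sec Z N).det) atTop (𝓝 L)) :
    L ≠ 0 ∧ ∀ (v : ℕ → ℂ) (r : ℕ → ℂ) (ρ : ℝ) (L' : ℂ), (Summable fun j => ‖v j‖) →
      (∀ i, i ≠ 0 → v i = ∑' j, Z i j * v j) → (∀ j, ‖r j‖ ≤ ρ) →
      Tendsto (fun N => ((sec Z N).updateRow 0 fun j => r j).det) atTop (𝓝 L') →
      (∑' j, Z 0 j * v j) * L' / L = ∑' j, r j * v j := by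
  classical
  let C : ℕ → ℕ → ℂ := fun i j => if i = 0 then (if j = 0 then 1 else 0) - Z 0 j else Z i j
  let a' : ℕ → ℝ := fun i => if i = 0 then 1 + a 0 else a i
  have a0 : ∀ i, 0 ≤ a' i := fun i => by simp only [a']; split_ifs <;> linarith [ha 0, ha i]
  have hC : ∀ i j, ‖C i j‖ ≤ a' i * 1 := fun i j => by
    simp only [C, a', mul_one]
    split_ifs
    · exact (norm_sub_le _ _).trans (by simpa using hZ 0 j)
    · simpa using (hZ 0 j).trans (by linarith)
    · exact hZ i j
  have sa : Summable a := Summable.of_nonneg_of_le ha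
    (fun i => le_mul_of_one_le_left (ha i) (by linarith [Nat.cast_nonneg (α := ℝ) i])) hs
  have sa' : Summable fun i => 1 * a' i := (summable_nat_add_iff 1).1 (by simpa [a'] using (summable_nat_add_iff 1).2 sa)
  have row0 : ∀ u : ℕ → ℂ, (Summable fun j => ‖u j‖) → ∑' j, C 0 j * u j = u 0 - ∑' j, Z 0 j * u j := by
    intro u hu
    have := (row_summable (γ := fun _ => 1) ha (fun _ => le_rfl) (fun i j => by simpa using hZ i j)
      (by simpa using hu) 0).of_norm
    refine (hs_congr ((hasSum_ite_eq 0 (u 0)).sub this.hasSum) (fun j => ?_) rfl).tsum_eq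
    by_cases hj : j = 0 <;> simp [C, hj, sub_mul]
  have inj' : ∀ u : ℕ → ℂ, (Summable fun j => 1 * ‖u j‖) → (∀ i, u i = ∑' j, C i j * u j) → u = 0 := by
    intro u hu h
    simp only [one_mul] at hu
    refine inj u hu ?_ fun i hi => by simpa only [C, if_neg hi] using h i
    have := h 0
    rw [row0 u hu] at this
    linear_combination this
  have hM : ∀ N i j, sec Z N i j = (if i = j then 1 else 0) - C i j := fun N i j => by
    simp only [sec, of_apply, C, Fin.val_eq_zero_iff]
    by_cases hi : i = 0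
    · by_cases hj : j = 0
      · simp [hi, hj]
      · simp [hi, hj, Ne.symm hj]
    · simp [hi]
  have L0 : L ≠ 0 := by
    obtain ⟨D, N0, D0, hD⟩ := bound_below a0 (fun _ => le_rfl) hC sa' inj'
    obtain ⟨_, N1, _, h1⟩ := section_conv a0 (fun _ => le_rfl) hC sa' inj' (v := 0) (κ := 0) (by simp) (by simp)
    have st : ∀ N, N0 ≤ N → ‖(sec Z N).det‖ ≤ ‖(sec Z (N + 1)).det‖ * Real.exp (D * a (N + 1)) := by
      intro N hN
      set M := sec Z (N + 1)
      set y := cramer M (Pi.single (Fin.last _) 1)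
      let u : ℕ → ℂ := fun i => if h : i < N + 2 then y ⟨i, h⟩ else 0
      have u0 : ∀ i, N + 1 < i → u i = 0 := fun i hi => dif_neg (by omega)
      have u1 : ∀ i : Fin (N + 2), u i = y i := fun i => dif_pos i.2
      have mv : ∀ i : Fin (N + 2), (if (i : ℕ) = N + 1 then M.det else 0) = u i - ∑' j, C i j * u j := by
        intro i
        have := congrFun (mulVec_cramer M (Pi.single (Fin.last _) 1)) i
        rw [tsum_eq_sum (s := range (N + 2)) fun j hj => by rw [u0 j (by simp at hj; omega), mul_zero],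
          sum_range]
        simp only [mulVec, dotProduct, M, hM, sub_mul, sum_sub_distrib, ite_mul, one_mul, zero_mul,
          sum_ite_eq, mem_univ, if_true] at this
        simp only [u1]
        rw [this]
        simp [Pi.single_apply, Fin.ext_iff, M]
      have b1 := hD (N + 1) (by omega) u (fun i => if i = N + 1 then M.det else 0) u0
        (fun i hi => if_neg (by omega)) fun i hi => mv ⟨i, by omega⟩
      have b2 : ∑' j : ℕ, 1 * ‖if j = N + 1 then M.det else 0‖ = ‖M.det‖ := by
        rw [tsum_eq_single (N + 1) fun j hj => by simp [hj]]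
        simp
      have b3 := row_le a0 (fun _ => le_rfl) hC (wsum_fin u0) (N + 1)
      have b4 := mv (Fin.last _)
      have b5 : y (Fin.last _) = (sec Z N).det := by
        simp only [y]
        rw [cramer_apply, det_succ_column _ (Fin.last _), sum_eq_single (Fin.last _)
          (fun i _ hi => by simp [hi]) (by simp)]
        simp only [updateCol_self, Pi.single_eq_same, mul_one, ← two_mul, pow_mul, neg_one_sq, one_pow, one_mul,
          Fin.succAbove_last]
        congr 1
        ext i j
        simp [M, sec, Fin.castSucc_ne_last]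
      rw [u1, b5] at b4
      simp only [Fin.val_last, if_true] at b4
      rw [b2] at b1
      have b6 : ‖(sec Z N).det‖ ≤ ‖M.det‖ + ‖∑' j, C (N + 1) j * u j‖ := by
        rw [b4]
        simpa using norm_add_le ((sec Z N).det - ∑' j, C (N + 1) j * u j) (∑' j, C (N + 1) j * u j)
      have b7 := mul_le_mul_of_nonneg_left b1 (a0 (N + 1))
      have b8 := mul_le_mul_of_nonneg_left (Real.add_one_le_exp (D * a (N + 1))) (norm_nonneg M.det)
      simp only [a', if_neg N.succ_ne_zero] at b3 b7
      nlinarith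
    set N2 := max N0 N1
    have st' : ∀ N, N2 ≤ N → ‖(sec Z N2).det‖ ≤ ‖(sec Z N).det‖ * Real.exp (D * ∑ i ∈ range (N + 1), a i) := by
      intro N hN
      induction N, hN using Nat.le_induction with
      | base =>
        exact le_mul_of_one_le_right (norm_nonneg _)
          (Real.one_le_exp (mul_nonneg D0 (sum_nonneg fun i _ => ha i)))
      | succ N hN ih =>
        refine ih.trans ((mul_le_mul_of_nonneg_right (st N (le_of_max_le_left hN)) (Real.exp_nonneg _)).trans
          (le_of_eq ?_))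
        rw [sum_range_succ _ (N + 1), mul_add, Real.exp_add]
        ring
    have b1 : ‖(sec Z N2).det‖ ≤ ‖L‖ * Real.exp (D * ∑' i, a i) :=
      ge_of_tendsto (hL.norm.mul_const _) ((eventually_ge_atTop N2).mono fun N hN => (st' N hN).trans
        (mul_le_mul_of_nonneg_left (Real.exp_le_exp.2 (mul_le_mul_of_nonneg_left
          (sa.sum_le_tsum _ fun i _ => ha i) D0)) (norm_nonneg _)))
    intro e
    exact (h1 N2 (le_max_right _ _) _ (hM N2)).1 (by simpa [e] using b1)
  refine ⟨L0, fun v r ρ L' hv h hr hL' => ?_⟩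
  obtain ⟨D, N0, -, h1⟩ := section_conv a0 (fun _ => le_rfl) hC sa' inj' (v := v) (κ := ∑' j, Z 0 j * v j)
    (by simpa using hv) (fun i => by
      split_ifs with hi
      · rw [hi, row0 v hv]
        ring
      · simp only [C, if_neg hi, ← h i hi, sub_self])
  have ρ0 : 0 < ρ + 1 := by linarith [hr 0, norm_nonneg (r 0)]
  have ρ1 : ((ρ + 1 : ℝ) : ℂ) ≠ 0 := by exact_mod_cast ρ0.ne'
  have t1 := ((hL'.const_mul (((ρ + 1 : ℝ) : ℂ)⁻¹)).const_mul (∑' j, Z 0 j * v j)).div hL L0
  have t2 : Tendsto (fun N => D * ∑' m, 1 * ‖v (m + (N + 1))‖) atTop (𝓝 0) := by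
    simpa using ((tendsto_sum_nat_add fun j => ‖v j‖).comp (tendsto_add_atTop_nat 1)).const_mul D
  have t3 := tendsto_nhds_unique t1 (tendsto_sub_nhds_zero_iff.1 (squeeze_zero_norm'
    (((eventually_ge_atTop N0).mono fun N hN => by
      have := (h1 N hN _ (hM N)).2 (fun j => ((ρ + 1 : ℝ) : ℂ)⁻¹ * r j) fun j => by
        rw [norm_mul, norm_inv, Complex.norm_real, Real.norm_of_nonneg ρ0.le, inv_mul_le_iff₀ ρ0]
        linarith [hr j]
      rwa [show (fun j : Fin (N + 1) => ((ρ + 1 : ℝ) : ℂ)⁻¹ * r j) = ((ρ + 1 : ℝ) : ℂ)⁻¹ • fun j : Fin (N + 1) => r j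
        from rfl, det_updateRow_smul] at this)) t2))
  simp only [mul_assoc, tsum_mul_left] at t3
  refine mul_left_cancel₀ (inv_ne_zero ρ1) ?_
  rw [← t3]
  ring

end

end

end Pool.Agent.P.MP_386d8e_pr
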