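import Pool.Agent.P.MP_386d8e_pr.FredA
import Pool.Agent.P.MP_386d8e_pr.FredDefs

set_option autoImplicit false

open Filter Topology Finset Matrix

namespace Pool.Agent.P.MP_386d8e_pr

noncomputable section

variable {R : ℝ} (hR : 0 < R)
include hR

theorem avg_sumR {ι : Type} [Countable ι] (w : ι → ℂ) (hw : Summable fun i => ‖w i‖) (n : ι → ℤ)
    (F : ℂ → ℂ) (hF : ∀ y : ℂ, ‖y‖ = R → HasSum (fun i => w i * (y / R) ^ n i) (F y)) :
    HasSum (fun i => if n i = 0 then w i else 0) (Real.circleAverage F 0 R) := by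
  rw [Real.circleAverage_eq_circleAverage_zero_one]
  refine avg_sum w hw n _ fun y hy _ => ?_
  have R0 : (R : ℂ) ≠ 0 := by exact_mod_cast hR.ne'
  have := hF (R * y + 0) (by simp [hy, abs_of_pos hR])
  rwa [show (R * y + 0) / (R : ℂ) = y by field_simp; ring] at this

theorem norm_unit {y : ℂ} (hy : ‖y‖ = R) : ‖y / R‖ = 1 := by
  rw [norm_div, hy, Complex.norm_real, Real.norm_of_nonneg hR.le, div_self hR.ne']

theorem avgN_sum {ι : Type} [Countable ι] (n : ℕ) (c : ι → ℂ) (hc : Summable fun i => ‖c i‖)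
    (k : ι → Fin n → ℤ) (F : (Fin n → ℂ) → ℂ)
    (hF : ∀ v : Fin n → ℂ, (∀ a, ‖v a‖ = R) → HasSum (fun i => c i * ∏ a, (v a / R) ^ k i a) (F v)) :
    HasSum (fun i => if k i = 0 then c i else 0) (avgN R n F) := by
  induction n generalizing c with
  | zero => exact hs_congr (hF Fin.elim0 fun a => a.elim0) (fun i => by simp [Subsingleton.elim (k i) 0]) rfl
  | succ n ih =>
    refine hs_congr (avg_sumR hR (fun i => if Fin.tail (k i) = 0 then c i else 0)
      (Summable.of_nonneg_of_le (fun _ => norm_nonneg _) (fun i => by split_ifs <;> simp) hc) (fun i => k i 0)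
      _ fun w hw => hs_congr (ih (fun i => c i * (w / R) ^ k i 0)
        (by simpa only [norm_mul, norm_zpow, norm_unit hR hw, _root_.one_zpow, mul_one] using hc)
        (fun i => Fin.tail (k i)) (fun v => F (Fin.cons w v)) fun v hv =>
          hs_congr (hF (Fin.cons w v) fun a => Fin.cases hw hv a)
            (fun i => by simp [Fin.prod_univ_succ, Fin.tail, mul_assoc]) rfl)
        (fun i => by split_ifs <;> simp) rfl) (fun i => ?_) rfl
    have : k i = 0 ↔ k i 0 = 0 ∧ Fin.tail (k i) = 0 := by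
      simp [funext_iff, Fin.forall_fin_succ, Fin.tail]
    simp only [this, ite_and]

theorem avgN_det {Z : ℕ → ℕ → ℂ} (hZ : Summable fun s : ℕ × ℕ => ‖Z s.1 s.2‖) (n : ℕ)
    (A : (Fin n → ℂ) → Matrix (Fin (n + 1)) (Fin (n + 1)) ℂ)
    (hA : ∀ v : Fin n → ℂ, (∀ a, ‖v a‖ = R) → ∀ a b, HasSum (fun s : ℕ × ℕ =>
      (if (a = 0 ↔ s.1 = 0) ∧ (b = 0 ↔ s.2 = 0) then Z s.1 s.2 else 0) *
        ((Fin.cons 1 fun c => v c / R : Fin (n + 1) → ℂ) a ^ ((s.1 : ℤ) - 1) *
          (Fin.cons 1 fun c => v c / R : Fin (n + 1) → ℂ) b ^ (1 - (s.2 : ℤ)))) (A v a b)) :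
    HasSum (fun k : Fin n → ℕ => sub Z k) (avgN R n fun v => (A v).det) := by
  classical
  let z : Fin (n + 1) → Fin (n + 1) → ℕ × ℕ → ℂ := fun a b s =>
    if (a = 0 ↔ s.1 = 0) ∧ (b = 0 ↔ s.2 = 0) then Z s.1 s.2 else 0
  have zs : ∀ a b, Summable fun s => ‖z a b s‖ := fun a b =>
    Summable.of_nonneg_of_le (fun _ => norm_nonneg _) (fun s => by simp only [z]; split_ifs <;> simp) hZ
  let e : Equiv.Perm (Fin (n + 1)) → ((Fin (n + 1) → ℕ) × (Fin (n + 1) → ℕ) ≃ (Fin (n + 1) → ℕ × ℕ)) := fun σ =>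
    ⟨fun p b => (p.1 (σ b), p.2 b), fun s => (fun a => (s (σ.symm a)).1, fun b => (s b).2),
      fun p => by simp, fun s => by simp⟩
  let c : (Fin (n + 1) → ℕ) × (Fin (n + 1) → ℕ) → ℂ := fun p => (of fun a b => z a b (p.1 a, p.2 b)).det
  have c1 : Summable fun p => ‖c p‖ := by
    simp only [c, det_apply']
    refine Summable.of_nonneg_of_le (fun _ => norm_nonneg _) (fun p => norm_sum_le _ _)
      (summable_sum fun σ _ => ?_)
    simp only [norm_mul]
    exact ((e σ).summable_iff.2 (hasSum_pi _ (fun b => z (σ b) b) fun b => zs _ _).1).mul_left _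
  have main := avgN_sum hR n c c1 (fun p a => (p.1 a.succ : ℤ) - p.2 a.succ) (fun v => (A v).det) fun v hv => by
    set w : Fin (n + 1) → ℂ := Fin.cons 1 fun c => v c / R with hw
    have w1 : ∀ a, ‖w a‖ = 1 := fun a => Fin.cases (by simp [hw]) (fun a => norm_unit hR (hv a)) a
    have w0 : ∀ a, w a ≠ 0 := fun a h => by simpa [h] using w1 a
    simp only [c, det_apply', sum_mul]
    refine hasSum_sum fun σ _ => ?_
    have := (e σ).hasSum_iff.2 (hasSum_pi _ (fun b s => z (σ b) b s *
      (w (σ b) ^ ((s.1 : ℤ) - 1) * w b ^ (1 - (s.2 : ℤ)))) fun b => by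
        simpa only [norm_mul, norm_zpow, w1, _root_.one_zpow, mul_one] using zs (σ b) b).2
    refine hs_congr (this.mul_left _) (fun p => ?_) (by
      congr 1
      exact prod_congr rfl fun b _ => (hA v hv (σ b) b).tsum_eq.symm)
    rw [mul_assoc]
    congr 1
    simp only [Function.comp, e, Equiv.coe_fn_mk, prod_mul_distrib, of_apply]
    congr 1
    rw [Equiv.prod_comp σ fun a => w a ^ ((p.1 a : ℤ) - 1), ← prod_mul_distrib, Fin.prod_univ_succ]
    simp only [hw, Fin.cons_zero, _root_.one_zpow, one_mul, Fin.cons_succ]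
    refine prod_congr rfl fun a _ => ?_
    rw [← zpow_add₀ (show v a / R ≠ 0 from w0 a.succ)]
    congr 1
    ring
  have inj : Function.Injective fun k : Fin n → ℕ => (ix k, ix k) := fun k k' h => funext fun a => by
    simpa [ix] using congrFun (congrArg Prod.fst h) a.succ
  refine hs_congr ((inj.hasSum_iff fun p hp => ?_).2 main) (fun k => ?_) rfl
  · split_ifs with h
    · by_contra h0
      have a1 : ∀ a, a = 0 ↔ p.1 a = 0 := fun a => by_contra fun h' =>
        h0 (det_eq_zero_of_row_eq_zero a fun b => if_neg fun h2 => h' h2.1)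
      have a2 : ∀ b, b = 0 ↔ p.2 b = 0 := fun b => by_contra fun h' =>
        h0 (det_eq_zero_of_column_eq_zero b fun a => if_neg fun h2 => h' h2.2)
      have a3 : (ix fun a => p.1 a.succ - 1) = p.1 := funext fun a =>
        Fin.cases ((a1 0).1 rfl).symm (fun a => by
          have := mt (a1 a.succ).2 a.succ_ne_zero
          simp only [ix, Fin.cons_succ]
          omega) a
      refine hp ⟨fun a => p.1 a.succ - 1, Prod.ext a3 (a3.trans (funext fun a => ?_))⟩
      refine Fin.cases (((a1 0).1 rfl).trans ((a2 0).1 rfl).symm) (fun a => ?_) a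
      have := congrFun h a
      simp only [Pi.zero_apply] at this
      omega
    · rfl
  · have a1 : ∀ a, a = 0 ↔ ix k a = 0 := fun a => Fin.cases (by simp [ix]) (fun a => by simp [ix]) a
    simp only [Function.comp, sub_self, c, z, a1, sub, and_self, if_true]
    exact (if_pos rfl).symm

end

end Pool.Agent.P.MP_386d8e_pr
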