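import Pool.Agent.P.MP_386d8e_pr.Mix

set_option autoImplicit false

open MeasureTheory Filter Topology

namespace Pool.Agent.P.MP_386d8e_pr

theorem W.univ' {C : ℝ} {F : ℂ → ℂ → ℂ} (h : W C F) :
    ∃ e : ℕ → ℂ, (Summable fun i => ‖e i‖) ∧ ∑' i, ‖e i‖ ≤ C ∧
      ∀ u : ℂ, ‖u‖ ≤ 1 → HasSum (fun i => e i * u ^ i) (F u 0) := by
  obtain ⟨c, h1, h2, h3⟩ := h
  have inj : Function.Injective fun i : ℕ => ((i, 0) : ℕ × ℕ) := fun _ _ h => (Prod.ext_iff.1 h).1
  refine ⟨fun i => c (i, 0), h1.comp_injective inj,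
    (tsum_comp_le_tsum_of_inj h1 (fun _ => norm_nonneg _) inj).trans h2, fun u hu => ?_⟩
  have := (inj.hasSum_iff (f := fun s : ℕ × ℕ => c s * (u ^ s.1 * 0 ^ s.2)) (by
    rintro ⟨i, j⟩ h
    have : j ≠ 0 := by rintro rfl; exact h ⟨i, rfl⟩
    simp [this])).2 (h3 u 0 hu (by simp))
  simpa [Function.comp_def] using this

/-- Cauchy's formula in the second variable -/
theorem W.cauchy {C : ℝ} {F : ℂ → ℂ → ℂ} (h : W C F) {x y : ℂ} (hx : ‖x‖ ≤ 1) (hy : ‖y‖ < 1)
    {G : ℂ → ℂ} (hG : ∀ w : ℂ, ‖w‖ = 1 → w ≠ 1 → G w = F x w) :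
    Real.circleAverage (fun w => G w * (w / (w - y))) 0 1 = F x y := by
  obtain ⟨c, h1, -, h3⟩ := h
  have g1 : Summable fun n : ℕ => ‖y ^ n‖ := by
    simpa only [norm_pow] using summable_geometric_of_lt_one (norm_nonneg _) hy
  have c1 : Summable fun s : ℕ × ℕ => ‖c s * x ^ s.1‖ :=
    Summable.of_nonneg_of_le (fun _ => norm_nonneg _) (fun s => by
      rw [norm_mul, norm_pow]
      exact mul_le_of_le_one_right (norm_nonneg _) (pow_le_one₀ (norm_nonneg _) hx)) h1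
  have s1 := c1.mul_norm g1
  have a1 := avg_sum (ι := (ℕ × ℕ) × ℕ) (fun p => c p.1 * x ^ p.1.1 * y ^ p.2) s1
    (fun p => (p.1.2 : ℤ) - p.2) (fun w => G w * (w / (w - y))) (by
      intro w hw hw1
      have w0 : w ≠ 0 := fun h => by simp [h] at hw
      have b1 : ‖y / w‖ < 1 := by rw [norm_div, hw, div_one]; exact hy
      have b2 : Summable fun s : ℕ × ℕ => ‖c s * (x ^ s.1 * w ^ s.2)‖ :=
        Summable.of_nonneg_of_le (fun _ => norm_nonneg _) (fun s => by
          rw [norm_mul]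
          exact mul_le_of_le_one_right (norm_nonneg _) (norm_mono_le hx hw.le _ _)) h1
      have b3 : Summable fun n : ℕ => ‖(y / w) ^ n‖ := by
        simpa only [norm_pow] using summable_geometric_of_lt_one (norm_nonneg _) b1
      have b4 := HasSum.mul (f := fun s : ℕ × ℕ => c s * (x ^ s.1 * w ^ s.2))
        (g := fun n : ℕ => (y / w) ^ n) (h3 x w hx hw.le) (hasSum_geometric_of_norm_lt_one b1)
        (summable_mul_of_summable_norm (f := fun s : ℕ × ℕ => c s * (x ^ s.1 * w ^ s.2))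
          (g := fun n : ℕ => (y / w) ^ n) b2 b3)
      refine hs_congr b4 (fun p => ?_) ?_
      · rw [zpow_sub₀ w0, zpow_natCast, zpow_natCast, div_pow]
        ring
      · rw [hG w hw hw1]
        congr 1
        field_simp)
  refine (a1.prod_fiberwise fun s => ?_).unique (h3 x y hx hy.le)
  have := hasSum_single (f := fun n : ℕ => if (s.2 : ℤ) - n = 0 then c s * x ^ s.1 * y ^ n else 0) s.2
    fun n hn => if_neg (by omega)
  simpa [mul_assoc] using this

namespace Setup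

variable {P : Model} {S : Setup P} (T : S.Stable) {p1 p2 : PMF (ℕ × ℕ)} (hst : P.Steady p1 p2)

include hst in
theorem pgf_eq {x y : ℂ} (hx : ‖x‖ ≤ 1) (hy : ‖y‖ = 1) :
    pgf p1 x y = P.A x y * pgf p1 (P.h y x) y + P.B x y * pgf p2 x 0 := by
  have y0 : y ≠ 0 := fun h => by simp [h] at hy
  obtain ⟨r1, r2⟩ := hst x y hx hy.le
  rw [r2 y0, r1, Model.A, Model.B]
  ring

include S hst in
theorem ser_true {x y : ℂ} (hx : ‖x‖ ≤ 1) (hy : ‖y‖ = 1) (hy1 : y ≠ 1) :
    P.ser (fun x => pgf p2 x 0) x y = pgf p1 x y :=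
  (S.sol_unique hy hy1 (F := fun x => pgf p1 x y) (b := fun x => P.B x y * pgf p2 x 0)
    (fun _ hx => (pgf_W p1).bound hx hy.le) (fun _ hx => pgf_eq hst hx hy) hx).tsum_eq

include S hst in
theorem T_true {x : ℂ} (hx : ‖x‖ ≤ 1) : P.T (fun x => pgf p2 x 0) x = pgf p2 x 0 := by
  have h1 := S.h_le hx (y := 0) (by simp)
  rw [(hst x 0 hx (by simp)).1, Model.T, ← (pgf_W p1).cauchy h1 (y := 0) (by simp)
    fun w hw hw1 => ser_true (S := S) hst h1 hw hw1]
  congr 1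
  refine Real.circleAverage_congr_sphere fun w hw => ?_
  have w0 : w ≠ 0 := fun h => by simp [h] at hw
  simp [w0]

include T hst in
theorem Stable.conv {κ : ℂ} (hκ : pgf p2 1 0 = κ) : ∃ C : ℝ, ∀ᶠ N : ℕ in atTop, (P.M N 1).det ≠ 0 ∧
    ∀ x : ℂ, ‖x‖ ≤ 1 → ‖κ * (P.M N x).det / (P.M N 1).det - pgf p2 x 0‖ ≤ C * (N + 1) * S.α ^ N := by
  have hα := S.hα
  obtain ⟨d, d1, d2, d3⟩ := (pgf_W p1).univ'
  obtain ⟨v, v1, v2⟩ := S.scale d1 d2 (f := fun x => pgf p2 x 0) fun x hx => by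
    have := (d3 _ (S.B1.norm_le (S.αx_le hx))).mul_left (S.s1 (S.α * x))
    refine hs_congr this (fun i => by ring) ?_
    rw [(hst x 0 hx (by simp)).1, S.es1, S.h_eq, mul_zero, add_zero]
  simp only [one_mul] at v1
  have g1 : Summable fun n : ℕ => (n : ℝ) * S.α ^ n := by
    simpa using summable_pow_mul_geometric_of_norm_lt_one 1 (r := S.α)
      (by rw [Real.norm_of_nonneg hα.le]; exact S.α_lt)
  have g0 := summable_geometric_of_lt_one hα.le S.α_lt
  have g2 : Summable fun n : ℕ => (1 + (n : ℝ)) * S.α ^ n := (g0.add g1).congr fun n => by ring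
  have hv : Summable fun j : ℕ => (1 + (j : ℝ)) * ‖v j‖ :=
    Summable.of_nonneg_of_le (fun _ => by positivity)
      (fun j => mul_le_mul_of_nonneg_left (v1 j) (by positivity)) g2
  have hv' := wsum_norm hv
  obtain ⟨⟨C, C1, hC⟩, hmix⟩ := T.exists_mix T.rho_lt le_rfl
  obtain ⟨-, -, -, -, -, -, m1, m2⟩ := hmix v hv _ v2
  have vt : ∀ i, ∑' j, P.t i j * v j = v i := by
    intro i
    rw [← sub_eq_zero]
    refine coeff_nat (fun i => ∑' j, P.t i j * v j - v i) (m1.of_norm.sub hv'.of_norm).norm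
      (fun x hx => ?_) i
    refine hs_congr ((m2 x hx.le).sub (v2 x hx.le)) (fun i => by ring) ?_
    rw [T_true (S := S) hst hx.le, sub_self]
  let Cm : ℕ → ℕ → ℂ := fun i j => if i = 0 then (if j = 0 then 0 else -1) else P.t i j
  have row0 : ∀ u : ℕ → ℂ, (Summable fun j => ‖u j‖) → ∑' j, Cm 0 j * u j = u 0 - ∑' j, u j := by
    intro u hu
    refine (hs_congr ((hasSum_ite_eq 0 (u 0)).sub hu.of_norm.hasSum) (fun j => ?_) rfl).tsum_eq
    by_cases hj : j = 0 <;> simp [Cm, hj]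
  obtain ⟨D, N0, D0, hD⟩ := section_conv (C := Cm) (a := fun i => C * S.α ^ i) (γ := fun j => 1 + (j : ℝ))
    (fun i => by positivity) (fun j => by linarith [Nat.cast_nonneg (α := ℝ) j]) (fun i j => by
      simp only [Cm]
      split_ifs with hi hj
      · simp only [norm_zero]; positivity
      · rw [hi, norm_neg, norm_one, pow_zero, mul_one]
        nlinarith [Nat.cast_nonneg (α := ℝ) j]
      · exact hC i j) ((g2.mul_left C).congr fun i => by ring) (fun u hu h => by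
      refine T.inj u hu ?_ fun i hi => by simpa only [Cm, if_neg hi] using h i
      have := h 0
      rw [row0 u (wsum_norm hu)] at this
      linear_combination this) (v := v) (κ := κ) hv (fun i => by
      split_ifs with hi
      · rw [hi, row0 v hv', ← hκ, ← (v2 1 (by simp)).tsum_eq]
        simp
      · simp only [Cm, if_neg hi, vt, sub_self])
  refine ⟨D * ∑' m : ℕ, 2 * ((1 + (m : ℝ)) * S.α ^ m), ?_⟩
  filter_upwards [eventually_ge_atTop N0] with N hN
  obtain ⟨e1, e2⟩ := hD N hN (P.M N 1) fun i j => by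
    simp only [Model.M, Matrix.of_apply, Cm, one_pow, Fin.val_eq_zero_iff]
    by_cases hi : i = 0
    · by_cases hj : j = 0
      · simp [hi, hj]
      · simp [hi, hj, Ne.symm hj]
    · simp [hi]
  refine ⟨e1, fun x hx => ?_⟩
  have e3 := e2 (fun j => x ^ j) fun j => by rw [norm_pow]; exact pow_le_one₀ (norm_nonneg _) hx
  have e4 : ((P.M N 1).updateRow 0 fun j => x ^ (j : ℕ)) = P.M N x := by
    ext i j
    rw [Matrix.updateRow_apply]
    simp only [Model.M, Matrix.of_apply]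
    split_ifs <;> rfl
  have e5 : ∑' j, x ^ j * v j = pgf p2 x 0 := by
    rw [← (v2 x hx).tsum_eq]
    exact tsum_congr fun j => mul_comm _ _
  rw [e4, e5] at e3
  refine e3.trans ?_
  rw [mul_assoc, mul_assoc]
  refine mul_le_mul_of_nonneg_left ?_ D0
  rw [← tsum_mul_right]
  refine ((summable_nat_add_iff (f := fun j : ℕ => (1 + (j : ℝ)) * ‖v j‖) (N + 1)).2 hv).tsum_le_tsum
    (fun m => ?_) ((g2.mul_left 2).mul_right _)
  have b1 : ‖v (m + (N + 1))‖ ≤ S.α ^ m * S.α ^ N := by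
    refine (v1 _).trans ?_
    rw [← add_assoc, pow_succ, pow_add]
    exact mul_le_of_le_one_right (by positivity) S.α_lt.le
  have b2 : (1 + ((m + (N + 1) : ℕ) : ℝ)) ≤ 2 * (1 + m) * (N + 1) := by
    push_cast
    nlinarith [Nat.cast_nonneg (α := ℝ) m, Nat.cast_nonneg (α := ℝ) N]
  refine (mul_le_mul b2 b1 (norm_nonneg _) (by positivity)).trans (le_of_eq (by ring))

include T hst in
theorem Stable.at_one {x : ℂ} (hx : ‖x‖ ≤ 1) :
    P.ser (fun x => pgf p2 x 0) x 1 + limUnder atTop (fun k => P.prodA k x 1) = pgf p1 x 1 := by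
  have n1 : ‖(1 : ℂ)‖ ≤ 1 := by simp
  have hαβ : (S.α : ℂ) + S.β = 1 := by exact_mod_cast S.hαβ
  obtain ⟨g1, g1a, -, -, g1c⟩ := S.B1.exists_tilde T.h1
  obtain ⟨g2, g2a, -, -, g2c⟩ := S.B2.exists_tilde T.h2
  have ρ0 := T.rho_nonneg
  have hl : ∀ z : ℂ, ‖z‖ ≤ 1 → ‖S.α * z + S.β * 1‖ ≤ 1 := fun z hz => (S.lin W.fst).bound hz n1
  have hl' : ∀ z : ℂ, ‖1 - (S.α * z + S.β * 1)‖ = S.α * ‖1 - z‖ := by
    intro z
    have : 1 - (S.α * z + S.β * 1) = S.α * (1 - z) := by linear_combination -hαβ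
    rw [this, norm_mul, Complex.norm_real, Real.norm_of_nonneg S.hα.le]
  have z1 : ∀ k, ‖1 - (P.h 1)^[k] x‖ ≤ 2 * (S.α * T.m1) ^ k := by
    intro k
    induction k with
    | zero => simpa using (norm_sub_le 1 x).trans (by rw [norm_one]; linarith)
    | succ k ih =>
      have a0 := hl _ (S.z_le k hx n1)
      rw [Function.iterate_succ_apply', S.h_eq, g1a _ a0, norm_mul, hl']
      have a1 := (g1c _ W.fst).bound a0 n1
      refine (mul_le_mul (mul_le_mul_of_nonneg_left ih S.hα.le) a1 (norm_nonneg _)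
        (mul_nonneg S.hα.le (by positivity))).trans (le_of_eq (by ring))
  have pk : ∀ k, ‖P.prodA k x 1‖ ≤ 1 := fun k => by
    simpa only [Model.prodA, S.A_eq, div_one] using (W.prod1 (fun i => S.W_a (S.W_z i)) k).bound hx n1
  have g := summable_geometric_of_lt_one ρ0 T.rho_lt
  have sm : Summable fun k => P.prodA k x 1 * (P.B ((P.h 1)^[k] x) 1 * pgf p2 ((P.h 1)^[k] x) 0) := by
    refine Summable.of_norm_bounded (g.mul_left (S.α * 2 * T.m2)) fun k => ?_
    have a0 := hl _ (S.z_le k hx n1)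
    rw [norm_mul, norm_mul, S.B_eq _ one_ne_zero, div_one, Setup.bb, g2a _ a0, norm_mul, norm_mul, hl']
    refine (mul_le_of_le_one_left (by have := S.hα; positivity) (pk k)).trans ?_
    refine (mul_le_of_le_one_right (by have := S.hα; positivity)
      ((pgf_W p2).bound (S.z_le k hx n1) (by simp))).trans ?_
    refine (mul_le_of_le_one_left (by have := S.hα; positivity) (S.S2.norm_le a0)).trans ?_
    refine (mul_le_mul (mul_le_mul_of_nonneg_left (z1 k) S.hα.le) ((g2c _ W.fst).bound a0 n1)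
      (norm_nonneg _) (mul_nonneg S.hα.le (by positivity))).trans (le_of_eq (by ring))
  have t1 := sm.hasSum.tendsto_sum_nat
  simp only [S.iter_eq n1 (F := fun x => pgf p1 x 1) (b := fun x => P.B x 1 * pgf p2 x 0)
    (fun _ hx => pgf_eq hst hx (by simp)) hx] at t1
  have t2 : Tendsto (fun k => (P.h 1)^[k] x) atTop (𝓝 1) := by
    rw [← tendsto_sub_nhds_zero_iff]
    refine squeeze_zero_norm (fun k => ?_) (by simpa using g.tendsto_atTop_zero.const_mul 2)
    rw [norm_sub_rev]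
    exact z1 k
  have t3 := (pgf_W p1).tendsto (v := fun _ => 1) (fun k => S.z_le k hx n1) (fun _ => n1) t2
    tendsto_const_nhds
  rw [pgf_one] at t3
  have t4 : Tendsto (fun k => P.prodA k x 1 * (1 - pgf p1 ((P.h 1)^[k] x) 1)) atTop (𝓝 0) := by
    refine squeeze_zero_norm (fun k => ?_) (by simpa using (t3.const_sub 1).norm)
    rw [norm_mul]
    exact mul_le_of_le_one_left (norm_nonneg _) (pk k)
  have t5 := ((t1.const_sub (pgf p1 x 1)).add t4).congr (f₂ := fun k => P.prodA k x 1) fun k => by ring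
  rw [t5.limUnder_eq, Model.ser]
  ring

end Setup

/-- the data attached to a model with positive rates -/
noncomputable def mkSetup (P : Model) (h1 : 0 < P.l1) (h2 : 0 < P.l2)
    (hS : ¬ ((P.S1 : Measure NNReal) = Measure.dirac 0 ∧ (P.S2 : Measure NNReal) = Measure.dirac 0)) :
    Setup P :=
  have e : ∀ x y : ℂ, P.th x y = ((P.l1 + P.l2 : ℝ) : ℂ) *
      (1 - (((P.l1 / (P.l1 + P.l2) : ℝ) : ℂ) * x + ((P.l2 / (P.l1 + P.l2) : ℝ) : ℂ) * y)) := by
    intro x y
    have : (P.l1 : ℂ) + P.l2 ≠ 0 := by exact_mod_cast (add_pos h1 h2).ne'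
    rw [Model.th]
    push_cast
    field_simp
    ring
  { α := P.l1 / (P.l1 + P.l2)
    β := P.l2 / (P.l1 + P.l2)
    q1 := qq P.B1 (P.l1 + P.l2)
    q2 := qq P.B2 (P.l1 + P.l2)
    r1 := qq P.S1 (P.l1 + P.l2)
    r2 := qq P.S2 (P.l1 + P.l2)
    b1 := fun z => lst P.B1 (((P.l1 + P.l2 : ℝ) : ℂ) * (1 - z))
    b2 := fun z => lst P.B2 (((P.l1 + P.l2 : ℝ) : ℂ) * (1 - z))
    s1 := fun z => lst P.S1 (((P.l1 + P.l2 : ℝ) : ℂ) * (1 - z))
    s2 := fun z => lst P.S2 (((P.l1 + P.l2 : ℝ) : ℂ) * (1 - z))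
    hα := by positivity
    hβ := by positivity
    hαβ := by field_simp
    B1 := pg_lst _ (add_pos h1 h2)
    B2 := pg_lst _ (add_pos h1 h2)
    S1 := pg_lst _ (add_pos h1 h2)
    S2 := pg_lst _ (add_pos h1 h2)
    hS := (not_and_or.1 hS).imp (qq_one_pos _ (add_pos h1 h2)) (qq_one_pos _ (add_pos h1 h2))
    eb1 := fun x y => by rw [e]
    eb2 := fun x y => by rw [e]
    es1 := fun x y => by rw [e]
    es2 := fun x y => by rw [e] }

theorem main (P : Model) (h1 : 0 < P.l1) (h2 : 0 < P.l2)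
    (hS : ¬ ((P.S1 : Measure NNReal) = Measure.dirac 0 ∧ (P.S2 : Measure NNReal) = Measure.dirac 0))
    (p1 p2 : PMF (ℕ × ℕ)) (hst : P.Steady p1 p2) :
    (∃ C : ℝ, ∀ᶠ N : ℕ in atTop, (P.M N 1).det ≠ 0 ∧ ∀ x : ℂ, ‖x‖ ≤ 1 →
      ‖P.KN N x - pgf p2 x 0‖ ≤ C * (N + 1) * (P.l1 / (P.l1 + P.l2)) ^ N) ∧
    ∀ x y : ℂ, ‖x‖ ≤ 1 → ‖y‖ ≤ 1 → pgf p1 x y = P.F1 x y ∧ pgf p2 x y = P.F2 x y := by
  set S := mkSetup P h1 h2 hS with hSd
  obtain ⟨T, hT⟩ := S.exists_stable hst
  have hL := add_pos h1 h2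
  have e1 : T.m1 = (P.l1 + P.l2) * mean P.B1 := T.h1.unique (qq_mean _ hL T.h1.summable)
  have e2 : T.m2 = (P.l1 + P.l2) * mean P.B2 := T.h2.unique (qq_mean _ hL T.h2.summable)
  have e3 : T.n1 = (P.l1 + P.l2) * mean P.S1 := T.k1.unique (qq_mean _ hL T.k1.summable)
  have e4 : T.n2 = (P.l1 + P.l2) * mean P.S2 := T.k2.unique (qq_mean _ hL T.k2.summable)
  have eα : S.α = P.l1 / (P.l1 + P.l2) := rfl
  have eβ : S.β = P.l2 / (P.l1 + P.l2) := rfl
  have hκ : pgf p2 1 0 = P.kappa := by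
    have a0 : 1 - S.α * T.m1 - S.β * T.m2 ≠ 0 := by
      have := mul_nonneg S.hβ.le (add_nonneg T.n1_nonneg T.n2_nonneg)
      have := T.st
      linarith
    have a1 : P.kappa = (1 - S.α * T.m1 - S.β * (T.n1 + T.n2 + T.m2)) / (1 - S.α * T.m1 - S.β * T.m2) := by
      rw [Model.kappa, e1, e2, e3, e4, eα, eβ]
      congr 1
      · field_simp; ring
      · field_simp
    rw [a1, Complex.ofReal_div, eq_div_iff (by exact_mod_cast a0), hT]
  obtain ⟨C, hC⟩ := T.conv hst hκ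
  have hK : ∀ x : ℂ, ‖x‖ ≤ 1 → P.K x = pgf p2 x 0 := by
    intro x hx
    refine Tendsto.limUnder_eq (tendsto_sub_nhds_zero_iff.1 ?_)
    refine squeeze_zero_norm' (hC.mono fun N hN => hN.2 x hx) ?_
    have a1 := tendsto_pow_const_mul_const_pow_of_abs_lt_one 1 (r := S.α)
      (by rw [abs_of_pos S.hα]; exact S.α_lt)
    have a2 := tendsto_pow_atTop_nhds_zero_of_lt_one S.hα.le S.α_lt
    have a3 := (a1.add a2).const_mul C
    rw [add_zero, mul_zero] at a3
    exact a3.congr fun N => by ring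
  have hser : ∀ x y : ℂ, ‖x‖ ≤ 1 → ‖y‖ ≤ 1 → P.ser P.K x y = P.ser (fun x => pgf p2 x 0) x y :=
    fun x y hx hy => tsum_congr fun k => by rw [hK _ (S.z_le k hx hy)]
  have hF1 : ∀ x y : ℂ, ‖x‖ ≤ 1 → ‖y‖ ≤ 1 → pgf p1 x y = P.F1 x y := by
    intro x y hx hy
    rw [Model.F1]
    split_ifs with a1 a2
    · exact ((pgf_W p1).cauchy hx a1 fun w hw hw1 => by
        rw [hser x w hx hw.le, Setup.ser_true (S := S) hst hx hw hw1]).symm
    · rw [a2, hser x 1 hx (by simp), T.at_one hst hx]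
    · rw [hser x y hx hy, Setup.ser_true (S := S) hst hx (le_antisymm hy (not_lt.1 a1)) a2]
  refine ⟨⟨C, hC⟩, fun x y hx hy => ⟨hF1 x y hx hy, ?_⟩⟩
  rw [Model.F2, ← hF1 _ y (S.h_le hx hy) hy, (hst x y hx hy).1]

end Pool.Agent.P.MP_386d8e_pr
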