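import Pool.Agent.P.MP_386d8e_pr.FredB
import Pool.Agent.P.MP_386d8e_pr.Main

set_option autoImplicit false

open Filter Topology Finset Matrix Metric

namespace Pool.Agent.P.MP_386d8e_pr

noncomputable section

section
variable {R : ℝ} (hR : 0 < R)
include hR

theorem avg_dom {ι : Type} [Countable ι] {g : ι → ℂ → ℂ} {b : ι → ℝ} {G : ℂ → ℂ}
    (hg : ∀ i, ContinuousOn (g i) (sphere 0 R)) (hb : ∀ i (y : ℂ), ‖y‖ = R → ‖g i y‖ ≤ b i) (hs : Summable b)
    (hG : ∀ y : ℂ, ‖y‖ = R → HasSum (fun i => g i y) (G y)) :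
    HasSum (fun i => Real.circleAverage (g i) 0 R) (Real.circleAverage G 0 R) := by
  have hc : ∀ t : ℝ, ‖circleMap 0 R t‖ = R := fun t => by simp [abs_of_pos hR]
  refine HasSum.const_smul ((2 * Real.pi)⁻¹ : ℝ)
    (intervalIntegral.hasSum_integral_of_dominated_convergence (fun i _ => b i) (fun i => ?_)
      (fun i => Eventually.of_forall fun t _ => hb i _ (hc t)) (Eventually.of_forall fun t _ => hs)
      intervalIntegrable_const (Eventually.of_forall fun t _ => hG _ (hc t)))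
  exact ((hg i).comp_continuous (continuous_circleMap 0 R) fun t => by simpa using hc t).aestronglyMeasurable

theorem avg_norm {g : ℂ → ℂ} {b : ℝ} (hb : ∀ y : ℂ, ‖y‖ = R → ‖g y‖ ≤ b) :
    ‖Real.circleAverage g 0 R‖ ≤ b := by
  have hp := Real.two_pi_pos
  have := intervalIntegral.norm_integral_le_of_norm_le_const (a := 0) (b := 2 * Real.pi)
    (f := fun t => g (circleMap 0 R t)) (C := b) fun t _ => hb _ (by simp [abs_of_pos hR])
  rw [Real.circleAverage_def, norm_smul, norm_inv, Real.norm_of_nonneg hp.le, inv_mul_le_iff₀ hp]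
  rwa [sub_zero, abs_of_pos hp, mul_comm b] at this

theorem avg_coef {c : ℕ → ℂ} (hc : Summable fun i => ‖c i‖ * R ^ i) {f : ℂ → ℂ}
    (hf : ∀ y : ℂ, ‖y‖ = R → HasSum (fun i => c i * y ^ i) (f y)) (j : ℕ) :
    Real.circleAverage (fun y => y⁻¹ ^ j * f y) 0 R = c j := by
  have R0 : (R : ℂ) ≠ 0 := by exact_mod_cast hR.ne'
  have := avg_sumR hR (fun i => c i * R ^ i / R ^ j) (by
      simpa [abs_of_pos hR] using hc.div_const (R ^ j)) (fun i => (i : ℤ) - j)
    (fun y => y⁻¹ ^ j * f y) fun y hy => hs_congr ((hf y hy).mul_left (y⁻¹ ^ j)) (fun i => by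
      have y0 : y ≠ 0 := fun h => by simp [h, hR.ne] at hy
      rw [zpow_sub₀ (div_ne_zero y0 R0), zpow_natCast, zpow_natCast, div_pow, div_pow, inv_pow]
      field_simp) rfl
  refine this.unique ?_
  have h := hasSum_single (f := fun i : ℕ => if (i : ℤ) - j = 0 then c i * R ^ i / R ^ j else 0) j
    fun i hi => if_neg (by omega)
  simpa [R0] using h

end

theorem wgeo {r : ℝ} (r0 : 0 ≤ r) (r1 : r < 1) : Summable fun n : ℕ => (1 + (n : ℝ)) * r ^ n :=
  ((summable_geometric_of_lt_one r0 r1).add (by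
    simpa using summable_pow_mul_geometric_of_norm_lt_one 1 (r := r)
      (by rw [Real.norm_of_nonneg r0]; exact r1))).congr fun n => by ring

/-- the bordered matrix of the kernel in the basis `(z / R) ^ j` -/
def Zm (P : Model) (R : ℝ) (x : ℂ) : ℕ → ℕ → ℂ
  | 0, 0 => 1
  | 0, j + 1 => P.T (fun z => z ^ j) x / R ^ j
  | i + 1, 0 => if i = 0 then 1 else 0
  | i + 1, j + 1 => P.t i j * R ^ i / R ^ j

namespace Setup

variable {P : Model} {S : Setup P} (T : S.Stable) {R : ℝ} (h1 : 1 < R) (h2 : S.α * R < 1)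

include T h2 in
theorem Stable.T_big {v : ℕ → ℂ} (hv : Summable fun j : ℕ => (1 + (j : ℝ)) * ‖v j‖) {K : ℂ → ℂ}
    (hK : ∀ x : ℂ, ‖x‖ ≤ 1 → HasSum (fun j => v j * x ^ j) (K x)) {u : ℂ} (hu : ‖u‖ ≤ R) :
    HasSum (fun i => (∑' j, P.t i j * v j) * u ^ i) (P.T K u) := by
  obtain ⟨C, c, F, hL, -, hF, m1, m2⟩ := (T.exists_mix T.rho_lt le_rfl).2 v hv K hK
  have a1 : ∀ i, W ‖c (i, 0)‖ fun u _ => c (i, 0) * (S.s1 u * S.b1 u ^ i) := fun i => by
    simpa using ((S.S1.comp W.fst).mul1 ((S.B1.comp W.fst).pow1 i)).cmul (c (i, 0))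
  obtain ⟨e, e1, -, e2⟩ := (W.tsum a1 hL.lev0.1.hasSum).univ'
  have e3 : ∀ x : ℂ, ‖S.α * x‖ ≤ 1 → HasSum (fun i => e i * S.α ^ i * x ^ i) (P.T K x) := fun x hx =>
    hs_congr (e2 _ hx) (fun i => by rw [mul_pow, mul_assoc]) (S.T_eq hL hF hx).tsum_eq.symm
  have e4 : Summable fun i => ‖e i * S.α ^ i‖ := Summable.of_nonneg_of_le (fun _ => norm_nonneg _)
    (fun i => by
      rw [norm_mul, norm_pow, Complex.norm_real, Real.norm_of_nonneg S.hα.le]
      exact mul_le_of_le_one_right (norm_nonneg _) (pow_le_one₀ S.hα.le S.α_lt.le)) e1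
  refine hs_congr (e3 u ?_) (fun i => ?_) rfl
  · rw [norm_mul, Complex.norm_real, Real.norm_of_nonneg S.hα.le]
    exact (mul_le_mul_of_nonneg_left hu S.hα.le).trans h2.le
  · rw [sub_eq_zero.1 (coeff_nat (fun i => ∑' j, P.t i j * v j - e i * S.α ^ i)
      (m1.of_norm.sub e4.of_norm).norm (fun x hx => hs_congr ((m2 x hx.le).sub (e3 x (S.αx_le hx.le)))
        (fun i => by ring) (sub_self _).symm) i)]

include T h2 in
theorem Stable.T_mono (j : ℕ) {u : ℂ} (hu : ‖u‖ ≤ R) :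
    HasSum (fun i => P.t i j * u ^ i) (P.T (fun z => z ^ j) u) := by
  have := T.T_big h2 (v := fun i => if i = j then 1 else 0) (K := fun z => z ^ j)
    (summable_of_ne_finset_zero (s := {j}) fun i hi => by simp [mem_singleton.not.1 hi])
    (fun x _ => by simpa using hasSum_single (f := fun i => (if i = j then 1 else 0) * x ^ i) j fun i hi => by simp [hi]) hu
  simpa using this

theorem t_le {C : ℝ} (hC : ∀ i j : ℕ, ‖P.t i j‖ ≤ C * S.α ^ i * (1 + j)) {u : ℂ} (hu : ‖u‖ ≤ R)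
    (i j : ℕ) : ‖P.t i j * u ^ i‖ ≤ C * (S.α * R) ^ i * (1 + j) := by
  rw [norm_mul, norm_pow]
  refine (mul_le_mul (hC i j) (pow_le_pow_left₀ (norm_nonneg _) hu i) (by positivity)
    ((norm_nonneg _).trans (hC i j))).trans (le_of_eq (by ring))

include T h1 h2 in
theorem Stable.dbl {φ : ℕ → ℂ} (hφ : Summable fun j : ℕ => (1 + (j : ℝ)) * ‖φ j‖) {u : ℂ} (hu : ‖u‖ ≤ R) :
    HasSum (fun s : ℕ × ℕ => P.t s.1 s.2 * u ^ s.1 * φ s.2) (∑' i, (∑' j, P.t i j * φ j) * u ^ i) ∧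
    HasSum (fun i => (∑' j, P.t i j * φ j) * u ^ i) (∑' i, (∑' j, P.t i j * φ j) * u ^ i) ∧
    HasSum (fun j => P.T (fun z => z ^ j) u * φ j) (∑' i, (∑' j, P.t i j * φ j) * u ^ i) := by
  obtain ⟨C, C1, hC⟩ := (T.exists_mix T.rho_lt le_rfl).1
  have q0 : 0 ≤ S.α * R := mul_nonneg S.hα.le (by linarith)
  have s : Summable fun s : ℕ × ℕ => P.t s.1 s.2 * u ^ s.1 * φ s.2 :=
    Summable.of_norm_bounded (((summable_geometric_of_lt_one q0 h2).mul_left C).mul_of_nonneg hφ
      (fun _ => by positivity) fun _ => by positivity) fun s => by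
      rw [norm_mul, ← mul_assoc]
      exact mul_le_mul_of_nonneg_right (t_le hC hu _ _) (norm_nonneg _)
  have a := s.hasSum.prod_fiberwise (g := fun i => (∑' j, P.t i j * φ j) * u ^ i) fun i =>
    hs_congr (s.prod_factor i).hasSum (fun _ => rfl) (by
      rw [← tsum_mul_right]
      exact tsum_congr fun j => by ring)
  rw [a.tsum_eq]
  exact ⟨s.hasSum, a, ((Equiv.prodComm ℕ ℕ).hasSum_iff.2 s.hasSum).prod_fiberwise fun j =>
    (T.T_mono h2 j hu).mul_right (φ j)⟩

include h1 in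
theorem inv_sum {v : ℂ} (hv : ‖v‖ = R) : Summable fun j : ℕ => (1 + (j : ℝ)) * ‖v⁻¹ ^ j‖ := by
  simpa only [norm_pow, norm_inv, hv] using wgeo (r := R⁻¹) (by positivity) (inv_lt_one_of_one_lt₀ h1)

include T h1 h2 in
theorem Stable.ker_eq {u v : ℂ} (hu : ‖u‖ ≤ R) (hv : ‖v‖ = R) :
    ∑' i, (∑' j, P.t i j * v⁻¹ ^ j) * u ^ i = P.ker u v :=
  (T.T_big h2 (inv_sum h1 hv) (fun x hx => by
    have v0 : v ≠ 0 := fun h => by simp [h] at hv; linarith
    have a : ‖v⁻¹ * x‖ < 1 := by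
      rw [norm_mul, norm_inv, hv, inv_mul_lt_iff₀ (by linarith)]
      linarith
    refine hs_congr (hasSum_geometric_of_norm_lt_one a) (fun j => (mul_pow _ _ _).symm) ?_
    rw [← inv_div, sub_div, div_self v0, div_eq_inv_mul]) hu).tsum_eq

include T h1 h2 in
theorem Stable.ker_cont : ContinuousOn (fun w : ℂ × ℂ => P.ker w.1 w.2) (closedBall 0 R ×ˢ sphere 0 R) := by
  obtain ⟨C, C1, hC⟩ := (T.exists_mix T.rho_lt le_rfl).1
  have q0 : 0 ≤ S.α * R := mul_nonneg S.hα.le (by linarith)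
  refine (continuousOn_tsum (f := fun (s : ℕ × ℕ) (w : ℂ × ℂ) => P.t s.1 s.2 * w.1 ^ s.1 * w.2⁻¹ ^ s.2)
    (fun s => ?_) (((summable_geometric_of_lt_one q0 h2).mul_left C).mul_of_nonneg
      (wgeo (r := R⁻¹) (by positivity) (inv_lt_one_of_one_lt₀ h1)) (fun _ => by positivity)
      fun _ => by positivity) fun s w hw => ?_).congr fun w hw => ?_
  · refine ContinuousOn.mul (by fun_prop) ((continuousOn_snd.inv₀ fun w hw h => ?_).pow _)
    have := mem_sphere_zero_iff_norm.1 hw.2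
    simp [h] at this
    linarith
  · rw [norm_mul, norm_pow w.2⁻¹, norm_inv, mem_sphere_zero_iff_norm.1 hw.2, ← mul_assoc]
    exact mul_le_mul_of_nonneg_right (t_le hC (mem_closedBall_zero_iff.1 hw.1) _ _) (by positivity)
  · have a := mem_closedBall_zero_iff.1 hw.1
    have b := mem_sphere_zero_iff_norm.1 hw.2
    exact ((T.dbl h1 h2 (inv_sum h1 b) a).1.tsum_eq.trans (T.ker_eq h1 h2 a b)).symm

include T h1 h2 in
theorem Stable.Z_le : ∃ a b : ℕ → ℝ, (∀ i, 0 ≤ a i) ∧ (∀ j, 0 ≤ b j) ∧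
    (Summable fun i : ℕ => ((i : ℝ) + 1) * a i) ∧ Summable b ∧
    ∀ x : ℂ, ‖x‖ ≤ R → ∀ i j, ‖Zm P R x i j‖ ≤ a i * b j := by
  obtain ⟨C, C1, hC⟩ := (T.exists_mix T.rho_lt le_rfl).1
  have R0 : 0 < R := by linarith
  have q0 : 0 ≤ S.α * R := mul_nonneg S.hα.le R0.le
  have q1 : 1 ≤ (1 - S.α * R)⁻¹ := (one_le_inv₀ (by linarith)).2 (by linarith)
  have g := hasSum_geometric_of_lt_one q0 h2
  have nR : ‖(R : ℂ)‖ = R := by rw [Complex.norm_real, Real.norm_of_nonneg R0.le]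
  refine ⟨fun i => match i with | 0 => C * (1 - S.α * R)⁻¹ | i + 1 => C * (S.α * R) ^ i,
    fun j => match j with | 0 => 1 | j + 1 => (1 + (j : ℝ)) * R⁻¹ ^ j,
    fun i => ?_, fun j => ?_, ?_, ?_, fun x hx i j => ?_⟩
  · cases i <;> simp only <;> positivity
  · cases j <;> simp only <;> positivity
  · refine (summable_nat_add_iff 1).1 ((((wgeo q0 h2).add g.summable).mul_left C).congr fun i => ?_)
    push_cast
    ring
  · exact (summable_nat_add_iff 1).1 (wgeo (r := R⁻¹) (by positivity) (inv_lt_one_of_one_lt₀ h1))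
  · rcases i with _ | i <;> rcases j with _ | j <;> simp only [Zm]
    · rw [norm_one, mul_one]
      nlinarith
    · rw [norm_div, norm_pow, nR, inv_pow, ← mul_assoc, div_eq_mul_inv]
      exact mul_le_mul_of_nonneg_right ((T.T_mono h2 j hx).norm_le_of_bounded
        ((g.mul_left C).mul_right _) fun i => t_le hC hx i j) (by positivity)
    · split_ifs with h
      · simpa [h] using C1
      · rw [norm_zero]
        positivity
    · rw [norm_div, norm_pow, nR, inv_pow, ← mul_assoc, div_eq_mul_inv]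
      exact mul_le_mul_of_nonneg_right (t_le hC nR.le i j) (by positivity)

include T h1 h2 in
theorem Stable.term_eq {x : ℂ} (hx : ‖x‖ ≤ R) (n : ℕ) :
    P.term R x n = (-1) ^ n / (n.factorial : ℂ) * ∑' k : Fin n → ℕ, sub (Zm P R x) k := by
  obtain ⟨a, b, a0, b0, a1, b1, hZ⟩ := T.Z_le h1 h2
  have R0 : 0 < R := by linarith
  have Rc : (R : ℂ) ≠ 0 := by exact_mod_cast R0.ne'
  have sa : Summable a := Summable.of_nonneg_of_le a0
    (fun i => le_mul_of_one_le_left (a0 i) (by linarith [Nat.cast_nonneg (α := ℝ) i])) a1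
  rw [Model.term, (avgN_det R0 (Summable.of_nonneg_of_le (fun _ => norm_nonneg _) (fun s => hZ x hx _ _)
    (sa.mul_of_nonneg b1 a0 b0)) n _ fun v hv c d => ?_).tsum_eq]
  have v0 : ∀ c, v c ≠ 0 := fun c h => by simpa [h, R0.ne] using hv c
  refine Fin.cases ?_ (fun c => ?_) c <;> refine Fin.cases ?_ (fun d => ?_) d
  · refine hs_congr (hasSum_single (0, 0) fun s hs => ?_) (fun _ => rfl) (by simp [Model.fm, Zm])
    rw [if_neg fun h => hs (Prod.ext (h.1.1 rfl) (h.2.1 rfl)), zero_mul]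
  · have inj : Function.Injective fun j : ℕ => ((0, j + 1) : ℕ × ℕ) := fun _ _ h => by simpa using h
    refine (inj.hasSum_iff fun s hs => ?_).1 (hs_congr (T.dbl h1 h2 (inv_sum h1 (hv d)) hx).2.2 (fun j => ?_)
      (by rw [T.ker_eq h1 h2 hx (hv d)]; simp [Model.fm]))
    · rw [if_neg fun h => hs ⟨s.2 - 1, Prod.ext (h.1.1 rfl).symm ?_⟩, zero_mul]
      have := mt h.2.2 d.succ_ne_zero
      simp only
      omega
    · have := v0 d
      simp [Zm, Fin.succ_ne_zero, div_pow]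
      field_simp
  · refine hs_congr (hasSum_single (1, 0) fun s hs => ?_) (fun _ => rfl) (by simp [Model.fm, Zm])
    obtain ⟨_ | i, _ | j⟩ := s
    · simp
    · simp
    · have : i ≠ 0 := fun h => hs (by simp [h])
      simp [Zm, this]
    · simp
  · have inj : Function.Injective fun s : ℕ × ℕ => ((s.1 + 1, s.2 + 1) : ℕ × ℕ) := fun _ _ h => by
      simpa [Prod.ext_iff] using h
    refine (inj.hasSum_iff fun s hs => ?_).1 (hs_congr (T.dbl h1 h2 (inv_sum h1 (hv d)) (hv c).le).1 (fun j => ?_)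
      (by rw [T.ker_eq h1 h2 (hv c).le (hv d)]; simp [Model.fm]))
    · rw [if_neg fun h => hs ⟨(s.1 - 1, s.2 - 1), Prod.ext ?_ ?_⟩, zero_mul]
      · have := mt h.1.2 c.succ_ne_zero
        simp only
        omega
      · have := mt h.2.2 d.succ_ne_zero
        simp only
        omega
    · have := v0 d
      simp [Zm, Fin.succ_ne_zero, div_pow]
      field_simp

end Setup

end

end Pool.Agent.P.MP_386d8e_pr
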