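import Pool.Agent.P.MP_386d8e_pr.FredC

set_option autoImplicit false

open MeasureTheory Filter Topology Finset Matrix Metric

namespace Pool.Agent.P.MP_386d8e_pr

noncomputable section

namespace Setup

variable {P : Model} {S : Setup P} (T : S.Stable) {R : ℝ} (h1 : 1 < R) (h2 : S.α * R < 1)
  {p1 p2 : PMF (ℕ × ℕ)} (hst : P.Steady p1 p2)

include T hst in
theorem Stable.coefK : ∃ v : ℕ → ℂ, (Summable fun j : ℕ => (1 + (j : ℝ)) * ‖v j‖) ∧
    (∀ x : ℂ, ‖x‖ ≤ 1 → HasSum (fun j => v j * x ^ j) (pgf p2 x 0)) ∧ (∀ j, ‖v j‖ ≤ S.α ^ j) ∧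
    ∀ i, ∑' j, P.t i j * v j = v i := by
  obtain ⟨d, d1, d2, d3⟩ := (pgf_W p1).univ'
  obtain ⟨v, v1, v2⟩ := S.scale d1 d2 (f := fun x => pgf p2 x 0) fun x hx => by
    have := (d3 _ (S.B1.norm_le (S.αx_le hx))).mul_left (S.s1 (S.α * x))
    refine hs_congr this (fun i => by ring) ?_
    rw [(hst x 0 hx (by simp)).1, S.es1, S.h_eq, mul_zero, add_zero]
  simp only [one_mul] at v1
  have hv : Summable fun j : ℕ => (1 + (j : ℝ)) * ‖v j‖ :=
    Summable.of_nonneg_of_le (fun _ => by positivity)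
      (fun j => mul_le_mul_of_nonneg_left (v1 j) (by positivity)) (wgeo S.hα.le S.α_lt)
  obtain ⟨-, -, -, -, -, -, m1, m2⟩ := (T.exists_mix T.rho_lt le_rfl).2 v hv _ v2
  refine ⟨v, hv, v2, v1, fun i => ?_⟩
  rw [← sub_eq_zero]
  refine coeff_nat (fun i => ∑' j, P.t i j * v j - v i) (m1.of_norm.sub (wsum_norm hv).of_norm).norm
    (fun x hx => ?_) i
  refine hs_congr ((m2 x hx.le).sub (v2 x hx.le)) (fun i => by ring) ?_
  rw [T_true (S := S) hst hx.le, sub_self]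

include T h1 h2 in
theorem Stable.fred : (∀ x : ℂ, ‖x‖ ≤ R → Summable fun n => ‖P.term R x n‖) ∧ P.E R 1 ≠ 0 ∧
    ∀ v : ℕ → ℂ, (∀ j, ‖v j‖ ≤ S.α ^ j) → (∀ i, ∑' j, P.t i j * v j = v i) → ∀ x : ℂ, ‖x‖ ≤ R →
      (∑' i, v i) * P.E R x / P.E R 1 = ∑' i, v i * x ^ i := by
  obtain ⟨a, b, a0, b0, a1, b1, hZ⟩ := T.Z_le h1 h2
  have R0 : 0 < R := by linarith
  have Rc : (R : ℂ) ≠ 0 := by exact_mod_cast R0.ne'
  have nR : ‖(R : ℂ)‖ = R := by rw [Complex.norm_real, Real.norm_of_nonneg R0.le]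
  have n1 : ‖(1 : ℂ)‖ ≤ R := by simpa using h1.le
  have B0 : 0 ≤ ∑' j, b j := tsum_nonneg b0
  have a0' : ∀ i, 0 ≤ a i * ∑' j, b j := fun i => mul_nonneg (a0 i) B0
  have hZ' : ∀ x : ℂ, ‖x‖ ≤ R → ∀ i j, ‖Zm P R x i j‖ ≤ a i * ∑' j, b j := fun x hx i j =>
    (hZ x hx i j).trans (mul_le_mul_of_nonneg_left (b1.le_tsum j fun _ _ => b0 _) (a0 i))
  have a1' : Summable fun i : ℕ => ((i : ℝ) + 1) * (a i * ∑' j, b j) := by
    simpa only [mul_assoc] using a1.mul_right (∑' j, b j)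
  have k := fun (x : ℂ) (hx : ‖x‖ ≤ R) => koch a0' (hZ' x hx) a1'
  have kE : ∀ x : ℂ, ‖x‖ ≤ R → Tendsto (fun N => (sec (Zm P R x) N).det) atTop (𝓝 (P.E R x)) := fun x hx => by
    simpa only [Model.E, T.term_eq h1 h2 hx] using (k x hx).2
  have g := wgeo (r := R⁻¹) (by positivity) (inv_lt_one_of_one_lt₀ h1)
  have rows : ∀ (x : ℂ), ‖x‖ ≤ R → ∀ u : ℕ → ℂ, (Summable fun j => ‖u j‖) →
      (Summable fun j : ℕ => (1 + (j : ℝ)) * ‖u (j + 1) / R ^ j‖) ∧
      ∑' j, Zm P R x 0 j * u j = u 0 + ∑' i, (∑' j, P.t i j * (u (j + 1) / R ^ j)) * x ^ i ∧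
      ∀ i, ∑' j, Zm P R x (i + 1) j * u j =
        (if i = 0 then u 0 else 0) + R ^ i * ∑' j, P.t i j * (u (j + 1) / R ^ j) := by
    intro x hx u hu
    have s1 : Summable fun j : ℕ => (1 + (j : ℝ)) * ‖u (j + 1) / R ^ j‖ :=
      Summable.of_nonneg_of_le (fun _ => by positivity) (fun j => by
        rw [norm_div, norm_pow, nR, div_eq_inv_mul, ← mul_assoc, ← inv_pow]
        exact mul_le_mul_of_nonneg_right (g.le_tsum j fun _ _ => by positivity) (norm_nonneg _))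
        (((summable_nat_add_iff 1).2 hu).mul_left _)
    have s2 := fun i => (row_summable (γ := fun _ => 1) a0' (fun _ => le_rfl)
      (fun i j => by simpa using hZ' x hx i j) (by simpa using hu) i).of_norm
    refine ⟨s1, ?_, fun i => ?_⟩
    · rw [(s2 0).tsum_eq_zero_add, ← (T.dbl h1 h2 s1 hx).2.2.tsum_eq]
      simp only [Zm, one_mul]
      congr 1
      exact tsum_congr fun j => by ring
    · rw [(s2 _).tsum_eq_zero_add, ← tsum_mul_left]
      simp only [Zm, ite_mul, one_mul, zero_mul]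
      congr 1
      exact tsum_congr fun j => by ring
  obtain ⟨e1, e2⟩ := koch_ne a0' (hZ' 1 n1) a1' (fun u hu c0 c1 => by
    obtain ⟨s1, s2, s3⟩ := rows 1 n1 u hu
    have c2 : ∀ i, u (i + 1) / R ^ i = (if i = 0 then u 0 else 0) + ∑' j, P.t i j * (u (j + 1) / R ^ j) := by
      intro i
      rw [c1 _ i.succ_ne_zero, s3]
      split_ifs with h
      · simp [h]
      · field_simp
        ring
    have c3 := (T.dbl h1 h2 s1 n1).2.1
    simp only [one_pow, mul_one] at c3 s2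
    have c4 := T.inj _ s1 (by
      rw [← c0, s2]
      exact (hs_congr ((hasSum_ite_eq 0 (u 0)).add c3) c2 rfl).tsum_eq) fun i hi => by
        rw [c2, if_neg hi, zero_add]
    have c5 : ∀ j, u (j + 1) / R ^ j = 0 := congrFun c4
    funext i
    rcases i with _ | i
    · simpa [c5, c0] using s2.symm
    · simpa [Rc] using c5 i) (kE 1 n1)
  refine ⟨fun x hx => by simpa only [T.term_eq h1 h2 hx] using (k x hx).1, e1, fun v v1 v2 x hx => ?_⟩
  let V : ℕ → ℂ := fun j => match j with | 0 => 0 | j + 1 => v j * R ^ j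
  have V1 : Summable fun j => ‖V j‖ := (summable_nat_add_iff 1).1 (Summable.of_nonneg_of_le
    (fun _ => norm_nonneg _) (fun j => by
      simp only [V]
      rw [norm_mul, norm_pow, nR, mul_pow]
      exact mul_le_mul_of_nonneg_right (v1 j) (by positivity))
    (summable_geometric_of_lt_one (mul_nonneg S.hα.le R0.le) h2))
  have V2 : ∀ j, V (j + 1) / R ^ j = v j := fun j => by simp [V, Rc]
  have e3 := e2 V (Zm P R x 0) _ (P.E R x) V1 (fun i hi => by
    obtain ⟨i, rfl⟩ := Nat.exists_eq_succ_of_ne_zero hi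
    rw [(rows 1 n1 V V1).2.2]
    simp only [V2, v2]
    simp [V, mul_comm]) (hZ' x hx 0) ((kE x hx).congr fun N => by
      congr 1
      ext i j
      refine Fin.cases ?_ (fun i => ?_) i
      · simp [sec]
      · rw [updateRow_ne i.succ_ne_zero]
        simp only [sec, of_apply, if_neg i.succ_ne_zero, Fin.val_succ]
        rcases (j : ℕ) with _ | j <;> rfl)
  rw [(rows 1 n1 V V1).2.1, (rows x hx V V1).2.1] at e3
  simpa [V2, v2, V] using e3

include T h1 h2 in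
theorem Stable.uniq {v : ℕ → ℂ} (v0 : Summable fun j : ℕ => (1 + (j : ℝ)) * ‖v j‖) (v1 : ∀ j, ‖v j‖ ≤ S.α ^ j)
    (v2 : ∀ i, ∑' j, P.t i j * v j = v i) {f : ℂ → ℂ} (hf : ContinuousOn f (sphere 0 R)) :
    (∀ u : ℂ, ‖u‖ = R → f u = ∑' i, v i +
      Real.circleAverage (fun w => (P.ker u w - P.ker 1 w) * f w) 0 R) ↔
    ∀ u : ℂ, ‖u‖ = R → f u = ∑' i, v i * u ^ i := by
  obtain ⟨C, C1, hC⟩ := (T.exists_mix T.rho_lt le_rfl).1
  have R0 : 0 < R := by linarith
  have hα := S.hα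
  have q0 : 0 ≤ S.α * R := by positivity
  have n1 : ‖(1 : ℂ)‖ ≤ R := by simpa using h1.le
  have nR : ‖(R : ℂ)‖ = R := by rw [Complex.norm_real, Real.norm_of_nonneg R0.le]
  have g := wgeo (r := R⁻¹) (by positivity) (inv_lt_one_of_one_lt₀ h1)
  have g0 := summable_geometric_of_lt_one q0 h2
  obtain ⟨B, hB⟩ := (isCompact_sphere (0 : ℂ) R).exists_bound_of_continuousOn hf
  have hB' : ∀ y : ℂ, ‖y‖ = R → ∀ j, ‖y⁻¹ ^ j * f y‖ ≤ R⁻¹ ^ j * B := fun y hy j => by
    rw [norm_mul, norm_pow, norm_inv, hy]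
    exact mul_le_mul_of_nonneg_left (hB y (mem_sphere_zero_iff_norm.2 hy)) (by positivity)
  have B0 : 0 ≤ B := (norm_nonneg _).trans (hB R (mem_sphere_zero_iff_norm.2 nR))
  set φ : ℕ → ℂ := fun j => Real.circleAverage (fun y => y⁻¹ ^ j * f y) 0 R with hφ
  have φ1 : Summable fun j : ℕ => (1 + (j : ℝ)) * ‖φ j‖ :=
    Summable.of_nonneg_of_le (fun _ => by positivity) (fun j => by
      rw [mul_assoc]
      exact mul_le_mul_of_nonneg_left (avg_norm R0 fun y hy => hB' y hy j) (by positivity)) (g.mul_right B)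
  have ci : ContinuousOn (fun w : ℂ => w⁻¹) (sphere 0 R) := continuousOn_inv₀.mono fun w hw h => by
    have := mem_sphere_zero_iff_norm.1 hw
    simp [Set.mem_singleton_iff.1 h, R0.ne] at this
  have key : ∀ u : ℂ, ‖u‖ = R → Real.circleAverage (fun w => (P.ker u w - P.ker 1 w) * f w) 0 R =
      ∑' i, (∑' j, P.t i j * φ j) * u ^ i - ∑' i, (∑' j, P.t i j * φ j) * 1 ^ i := fun u hu => by
    refine (avg_dom R0 (g := fun (s : ℕ × ℕ) w => (P.t s.1 s.2 * u ^ s.1 - P.t s.1 s.2 * 1 ^ s.1) • (w⁻¹ ^ s.2 * f w))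
      (fun s => continuousOn_const.fun_smul ((ci.fun_pow _).fun_mul hf))
      (fun s y hy => ?_) (((g0.mul_left (2 * C)).mul_of_nonneg (g.mul_right B) (fun _ => by positivity)
        fun _ => by positivity)) fun y hy => ?_).unique
      (hs_congr ((T.dbl h1 h2 φ1 hu.le).1.sub (T.dbl h1 h2 φ1 n1).1) (fun s => ?_) rfl)
    · rw [norm_smul]
      refine (mul_le_mul ((norm_sub_le _ _).trans (add_le_add (t_le hC hu.le _ _) (t_le hC n1 _ _)))
        (hB' y hy _) (norm_nonneg _) (by positivity)).trans (le_of_eq (by ring))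
    · rw [← T.ker_eq h1 h2 hu.le hy, ← T.ker_eq h1 h2 n1 hy]
      exact hs_congr (((T.dbl h1 h2 (inv_sum h1 hy) hu.le).1.sub (T.dbl h1 h2 (inv_sum h1 hy) n1).1).mul_right
        (f y)) (fun s => by rw [smul_eq_mul]; ring) rfl
    · rw [Real.circleAverage_fun_smul, smul_eq_mul]
      ring
  have vs : Summable fun i => ‖v i‖ * R ^ i := Summable.of_nonneg_of_le (fun _ => by positivity)
    (fun i => by rw [mul_pow]; exact mul_le_mul_of_nonneg_right (v1 i) (by positivity)) g0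
  constructor
  · intro h
    have ψ1 := (T.dbl h1 h2 φ1 n1).2.1
    simp only [one_pow, mul_one] at ψ1 key
    set ψ : ℕ → ℂ := fun i => ∑' j, P.t i j * φ j with hψ
    have c1 : ∀ u : ℂ, ‖u‖ ≤ R → HasSum (fun i => ((if i = 0 then ∑' i, v i - ∑' i, ψ i else 0) + ψ i) * u ^ i)
        (∑' i, v i + (∑' i, ψ i * u ^ i - ∑' i, ψ i)) := fun u hu =>
      hs_congr ((hasSum_ite_eq 0 (∑' i, v i - ∑' i, ψ i)).add (T.dbl h1 h2 φ1 hu).2.1)
        (fun i => by split_ifs with h <;> simp [h, ψ]) (by ring)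
    have c2 : ∀ j, φ j = (if j = 0 then ∑' i, v i - ∑' i, ψ i else 0) + ψ j :=
      avg_coef R0 (by simpa only [norm_mul, norm_pow, nR] using (c1 R nR.le).summable.norm) fun y hy => by
        rw [h y hy, key y hy]
        exact c1 y hy.le
    have γ : ∀ j : ℕ, 1 ≤ 1 + (j : ℝ) := fun j => by linarith [Nat.cast_nonneg (α := ℝ) j]
    have rs := fun (z : ℕ → ℂ) (hz : Summable fun j : ℕ => (1 + (j : ℝ)) * ‖z j‖) i =>
      (row_summable (a := fun i => C * S.α ^ i) (fun _ => by positivity) γ hC hz i).of_norm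
    have c3 := T.inj (fun j => φ j - v j) (wsum_sub γ φ1 v0) (by
      have := c1 1 n1
      simp only [one_pow, mul_one, ← c2, sub_self, add_zero] at this
      rw [(this.sub (wsum_norm v0).of_norm.hasSum).tsum_eq, sub_self]) fun i hi => by
        simp only [mul_sub]
        rw [(rs φ φ1 i).tsum_sub (rs v v0 i), v2, c2, if_neg hi, zero_add]
    intro u hu
    have c4 := c1 u hu.le
    simp only [← c2, fun j => sub_eq_zero.1 (congrFun c3 j : φ j - v j = 0)] at c4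
    rw [h u hu, key u hu, c4.tsum_eq]
  · intro h u hu
    have c1 : ∀ j, φ j = v j := avg_coef R0 vs fun y hy => by
      rw [h y hy]
      exact (Summable.of_norm (by simpa only [norm_mul, norm_pow, hy] using vs)).hasSum
    simp only [key u hu, c1, v2, h u hu, one_pow, mul_one]
    ring

end Setup

theorem solution (P : Model) (h1 : 0 < P.l1) (h2 : 0 < P.l2)
    (hS : ¬ ((P.S1 : Measure NNReal) = Measure.dirac 0 ∧ (P.S2 : Measure NNReal) = Measure.dirac 0))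
    (p1 p2 : PMF (ℕ × ℕ)) (hst : P.Steady p1 p2) (R : ℝ) (hR : 1 < R) (hR' : P.l1 * R < P.l1 + P.l2) :
    ContinuousOn (fun w : ℂ × ℂ => P.ker w.1 w.2) (closedBall 0 R ×ˢ sphere 0 R) ∧
    (∀ x : ℂ, ‖x‖ ≤ R → Summable fun n => ‖P.term R x n‖) ∧ P.E R 1 ≠ 0 ∧
    ContinuousOn (P.KF R) (closedBall 0 R) ∧
    (∀ f : ℂ → ℂ, ContinuousOn f (sphere 0 R) → ((∀ u : ℂ, ‖u‖ = R → f u = P.kappa +
      Real.circleAverage (fun w => (P.ker u w - P.ker 1 w) * f w) 0 R) ↔ ∀ u : ℂ, ‖u‖ = R → f u = P.KF R u)) ∧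
    ∀ x y : ℂ, ‖x‖ ≤ 1 → ‖y‖ ≤ 1 → pgf p2 x 0 = P.KF R x ∧ pgf p1 x y = P.sol (P.KF R) x y ∧
      pgf p2 x y = lst P.S1 (P.th x y) * P.sol (P.KF R) (P.h y x) y := by
  set S := mkSetup P h1 h2 hS with hSd
  obtain ⟨T, hT⟩ := S.exists_stable hst
  have hL := add_pos h1 h2
  have e1 : T.m1 = (P.l1 + P.l2) * mean P.B1 := T.h1.unique (qq_mean _ hL T.h1.summable)
  have e2 : T.m2 = (P.l1 + P.l2) * mean P.B2 := T.h2.unique (qq_mean _ hL T.h2.summable)
  have e3 : T.n1 = (P.l1 + P.l2) * mean P.S1 := T.k1.unique (qq_mean _ hL T.k1.summable)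
  have e4 : T.n2 = (P.l1 + P.l2) * mean P.S2 := T.k2.unique (qq_mean _ hL T.k2.summable)
  have eα : S.α = P.l1 / (P.l1 + P.l2) := rfl
  have eβ : S.β = P.l2 / (P.l1 + P.l2) := rfl
  have hκ : pgf p2 1 0 = P.kappa := by
    have a0 : 1 - S.α * T.m1 - S.β * T.m2 ≠ 0 := by
      have := mul_nonneg S.hβ.le (add_nonneg T.n1_nonneg T.n2_nonneg)
      have := T.st
      linarith
    have a1 : P.kappa = (1 - S.α * T.m1 - S.β * (T.n1 + T.n2 + T.m2)) / (1 - S.α * T.m1 - S.β * T.m2) := by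
      rw [Model.kappa, e1, e2, e3, e4, eα, eβ]
      congr 1
      · field_simp; ring
      · field_simp
    rw [a1, Complex.ofReal_div, eq_div_iff (by exact_mod_cast a0), hT]
  have hq : S.α * R < 1 := by rw [eα, div_mul_eq_mul_div, div_lt_one hL]; exact hR'
  obtain ⟨v, v0, v1, v2, v3⟩ := T.coefK hst
  obtain ⟨f1, f2, f3⟩ := T.fred hR hq
  have s1 : ∑' i, v i = P.kappa := by simpa [hκ] using (v1 1 (by simp)).tsum_eq
  have s2 : ∀ x : ℂ, ‖x‖ ≤ R → P.KF R x = ∑' i, v i * x ^ i := fun x hx => by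
    rw [← f3 v v2 v3 x hx, s1, Model.KF]
  have hK : ∀ x : ℂ, ‖x‖ ≤ 1 → P.KF R x = pgf p2 x 0 := fun x hx => by
    rw [s2 x (hx.trans hR.le), (v1 x hx).tsum_eq]
  have hser : ∀ x y : ℂ, ‖x‖ ≤ 1 → ‖y‖ ≤ 1 → P.ser (P.KF R) x y = P.ser (fun x => pgf p2 x 0) x y :=
    fun x y hx hy => tsum_congr fun k => by rw [hK _ (S.z_le k hx hy)]
  have hF1 : ∀ x y : ℂ, ‖x‖ ≤ 1 → ‖y‖ ≤ 1 → pgf p1 x y = P.sol (P.KF R) x y := by
    intro x y hx hy
    rw [Model.sol]
    split_ifs with a1 a2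
    · exact ((pgf_W p1).cauchy hx a1 fun w hw hw1 => by
        rw [hser x w hx hw.le, Setup.ser_true (S := S) hst hx hw hw1]).symm
    · rw [a2, hser x 1 hx (by simp), T.at_one hst hx]
    · rw [hser x y hx hy, Setup.ser_true (S := S) hst hx (le_antisymm hy (not_lt.1 a1)) a2]
  refine ⟨T.ker_cont hR hq, f1, f2, ?_, fun f hf => ?_, fun x y hx hy => ⟨(hK x hx).symm, hF1 x y hx hy, ?_⟩⟩
  · refine (continuousOn_tsum (f := fun i (x : ℂ) => v i * x ^ i) (fun i => by fun_prop)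
      (summable_geometric_of_lt_one (mul_nonneg S.hα.le (by linarith)) hq) fun i x hx => ?_).congr
      fun x hx => s2 x (mem_closedBall_zero_iff.1 hx)
    rw [norm_mul, norm_pow, mul_pow]
    exact mul_le_mul (v2 i) (pow_le_pow_left₀ (norm_nonneg _) (mem_closedBall_zero_iff.1 hx) i)
      (by positivity) (pow_nonneg S.hα.le i)
  · rw [← s1, T.uniq hR hq v0 v2 v3 hf]
    exact forall₂_congr fun u hu => by rw [s2 u hu.le]
  · rw [← hF1 _ y (S.h_le hx hy) hy, (hst x y hx hy).1]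

end

end Pool.Agent.P.MP_386d8e_pr
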