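import Pool.Agent.P.MP_386d8e_pr.FredD

set_option autoImplicit false

open MeasureTheory Filter Topology

namespace Pool.Agent.P.MP_386d8e_pr

/-- Without switch-over times the only steady state is the empty system. -/
theorem degenerate (P : Model) (h1 : 0 < P.l1) (h2 : 0 < P.l2) (p1 p2 : PMF (ℕ × ℕ)) (hst : P.Steady p1 p2)
    (hS : (P.S1 : Measure NNReal) = Measure.dirac 0 ∧ (P.S2 : Measure NNReal) = Measure.dirac 0)
    (x y : ℂ) (hx : ‖x‖ ≤ 1) (hy : ‖y‖ ≤ 1) : pgf p1 x y = 1 ∧ pgf p2 x y = 1 := by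
  have hL := add_pos h1 h2
  have s1 : ∀ s, lst P.S1 s = 1 := fun s => by simp [lst, hS.1]
  have s2 : ∀ s, lst P.S2 s = 1 := fun s => by simp [lst, hS.2]
  have B1 := pg_lst P.B1 hL
  have B2 := pg_lst P.B2 hL
  have q0 := B2.pos
  have q1 : qq P.B2 (P.l1 + P.l2) 0 ≤ 1 := le_hasSum B2.sum_one 0 fun n _ => B2.nonneg n
  set t : ℝ := qq P.B2 (P.l1 + P.l2) 0 / 2 with ht
  have t0 : 0 < t := by positivity
  have t1 : t ≤ 1 := by linarith
  set z : ℝ := P.l2 / (P.l1 + P.l2) * t with hz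
  have z0 : 0 ≤ z := by positivity
  have z1 : z ≤ 1 := mul_le_one₀ ((div_le_one hL).2 (by linarith)) t0.le t1
  have e1 : P.th 0 t = ((P.l1 + P.l2 : ℝ) : ℂ) * (1 - z) := by
    have : (P.l1 : ℂ) + P.l2 ≠ 0 := by exact_mod_cast hL.ne'
    rw [Model.th, hz]
    push_cast
    field_simp
    ring
  have e0 : P.th 0 0 = ((P.l1 + P.l2 : ℝ) : ℂ) * (1 - (0 : ℝ)) := by simp [Model.th]
  have a1 := B1.ofReal_re z0 z1
  have a2 := B1.le_re z0 z1
  have a3 := (Complex.re_le_norm _).trans (B1.norm_le (nrm z0 z1))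
  have a4 := B2.ofReal_re z0 z1
  have a5 := B2.le_re z0 z1
  have a6 := B1.zero
  have a7 := B1.pos
  set b := (lst P.B1 (((P.l1 + P.l2 : ℝ) : ℂ) * (1 - z))).re
  set β := (lst P.B2 (((P.l1 + P.l2 : ℝ) : ℂ) * (1 - z))).re
  set b0 := qq P.B1 (P.l1 + P.l2) 0
  obtain ⟨F, hF, hF'⟩ := pgf_real p1 le_rfl zero_le_one t0.le t1
  obtain ⟨G, hG, hG'⟩ := pgf_real p1 (a7.le.trans a2) a3 t0.le t1
  obtain ⟨K, hK, hK'⟩ := pgf_real p1 a7.le (a2.trans a3) le_rfl zero_le_one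
  obtain ⟨r1, r2⟩ := hst 0 t (by simp) (nrm t0.le t1)
  have r3 := (hst 0 0 (by simp) (by simp)).1
  replace r2 := r2 (by exact_mod_cast t0.ne')
  rw [Complex.ofReal_zero] at hF hK e0
  rw [s1, Model.h, e0, a6, ← hK, one_mul] at r3
  rw [s1, Model.h, e1, ← a1, ← hG, one_mul] at r1
  rw [s2, e1, ← a4, r1, r3, ← hF, one_mul] at r2
  have r4 : F = β / t * (G - K) + K := by exact_mod_cast r2
  have βt : 1 < β / t := by rw [one_lt_div t0]; linarith
  let c : ℕ × ℕ → ℝ := fun s =>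
    β / t * (b ^ s.1 * t ^ s.2 - b0 ^ s.1 * 0 ^ s.2) + b0 ^ s.1 * 0 ^ s.2 - 0 ^ s.1 * t ^ s.2
  have c1 : ∀ s, s ≠ (0, 0) → 0 < c s := by
    have b1 : 0 < b := a7.trans_le a2
    rintro ⟨_ | i, _ | j⟩ hs
    · exact absurd rfl hs
    · have : 0 < (β / t - 1) * t ^ (j + 1) := mul_pos (by linarith) (by positivity)
      simp only [c, pow_zero, zero_pow j.succ_ne_zero]
      linarith
    · have := mul_nonneg (zero_le_one.trans βt.le) (sub_nonneg.2 (pow_le_pow_left₀ a7.le a2 (i + 1)))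
      have := pow_pos a7 (i + 1)
      simp only [c, pow_zero, zero_pow i.succ_ne_zero, mul_one]
      linarith
    · have : 0 < β / t * (b ^ (i + 1) * t ^ (j + 1)) := by positivity
      simpa only [c, zero_pow i.succ_ne_zero, zero_pow j.succ_ne_zero, mul_zero, zero_mul, sub_zero, add_zero]
  have c2 : HasSum (fun s => (p1 s).toReal * c s) 0 :=
    hs_congr ((((hG'.sub hK').mul_left (β / t)).add hK').sub hF') (fun s => by simp only [c]; ring)
      (by rw [r4, sub_self])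
  have c3 : ∀ s, s ≠ (0, 0) → (p1 s).toReal = 0 := fun s hs => by
    have := le_hasSum c2 s fun u _ => by
      by_cases hu : u = (0, 0)
      · simp [hu, c]
      · exact mul_nonneg ENNReal.toReal_nonneg (c1 u hu).le
    exact le_antisymm (le_of_mul_le_mul_right (by simpa using this) (c1 s hs)) ENNReal.toReal_nonneg
  have c4 : ∀ u v : ℂ, pgf p1 u v = ((p1 (0, 0)).toReal : ℂ) := fun u v => by
    rw [pgf, tsum_eq_single (0, 0) fun s hs => by simp [c3 s hs]]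
    simp
  have c5 : ∀ u v : ℂ, pgf p1 u v = 1 := fun u v => by rw [c4, ← c4 1 1, pgf_one]
  exact ⟨c5 x y, by rw [(hst x y hx hy).1, s1, c5, one_mul]⟩

end Pool.Agent.P.MP_386d8e_pr
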