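import Pool.Agent.P.MP_386d8e_pr.Stab

set_option autoImplicit false

open MeasureTheory Filter Topology

namespace Pool.Agent.P.MP_386d8e_pr

theorem W.inv_one_sub {r : ℝ} {G : ℂ → ℂ → ℂ} (h : W r G) (hr : r < 1) :
    W (1 - r)⁻¹ fun x y => (1 - G x y)⁻¹ :=
  (W.tsum (fun n => h.pow n) (hasSum_geometric_of_lt_one h.nonneg hr)).congr fun _ _ hx hy =>
    (tsum_geometric_of_norm_lt_one (lt_of_le_of_lt (h.bound hx hy) hr)).symm

/-- substitution in the first variable is bounded and Lipschitz -/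
structure Lip (C : ℝ) (Φ : ℂ → ℂ → ℂ) : Prop where
  bd : ∀ G, W 1 G → W C fun x y => Φ (G x y) y
  lip : ∀ (F G : ℂ → ℂ → ℂ) (D : ℝ), W 1 F → W 1 G → W D (fun x y => F x y - G x y) →
    W (C * D) fun x y => Φ (F x y) y - Φ (G x y) y

theorem Lip.mul {C C' : ℝ} {Φ Ψ : ℂ → ℂ → ℂ} (h : Lip C Φ) (h' : Lip C' Ψ) :
    Lip (2 * (C * C')) fun x y => Φ x y * Ψ x y where
  bd G hG := by
    have := (h.bd G hG).mul (h'.bd G hG)
    exact this.mono (by linarith [this.nonneg])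
  lip F G D hF hG hD :=
    ((((h.bd F hF).mul (h'.lip F G D hF hG hD)).add ((h.lip F G D hF hG hD).mul (h'.bd G hG))).congr
      fun _ _ _ _ => by ring).mono (le_of_eq (by ring))

theorem Lip.sub {C C' : ℝ} {Φ Ψ : ℂ → ℂ → ℂ} (h : Lip C Φ) (h' : Lip C' Ψ) :
    Lip (C + C') fun x y => Φ x y - Ψ x y where
  bd G hG := (h.bd G hG).sub (h'.bd G hG)
  lip F G D hF hG hD :=
    (((h.lip F G D hF hG hD).sub (h'.lip F G D hF hG hD)).congr fun _ _ _ _ => by ring).mono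
      (le_of_eq (by ring))

theorem Lip.snd : Lip 1 fun _ y => y where
  bd _ _ := W.snd
  lip F G D _ _ hD := (W.zero.congr fun _ _ _ _ => by ring).mono (by linarith [hD.nonneg])

theorem Lip.pow (j : ℕ) : Lip (1 + j) fun x _ => x ^ j where
  bd G hG := (hG.pow1 j).mono (by linarith [Nat.cast_nonneg (α := ℝ) j])
  lip F G D hF hG hD := (W.pow_sub hF hG hD j).mono (by nlinarith [hD.nonneg])

/-- the weight used on negative levels -/
noncomputable def wt (r : ℝ) (s : ℕ × ℤ) : ℝ := max 1 (r ^ s.2)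

/-- Laurent series in the second variable, with a weighted norm at most `C` -/
structure Lr (r C : ℝ) (c : ℕ × ℤ → ℂ) (F : ℂ → ℂ → ℂ) : Prop where
  sm : Summable fun s => ‖c s‖ * wt r s
  le : ∑' s, ‖c s‖ * wt r s ≤ C
  rep : ∀ x y : ℂ, ‖x‖ ≤ 1 → ‖y‖ = 1 → HasSum (fun s => c s * (x ^ s.1 * y ^ s.2)) (F x y)

theorem one_le_wt (r : ℝ) (s : ℕ × ℤ) : 1 ≤ wt r s := le_max_left _ _

theorem norm_mono_le' {x y : ℂ} (hx : ‖x‖ ≤ 1) (hy : ‖y‖ = 1) (i : ℕ) (j : ℤ) :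
    ‖x ^ i * y ^ j‖ ≤ 1 := by
  rw [norm_mul, norm_pow, norm_zpow, hy, one_zpow, mul_one]
  exact pow_le_one₀ (norm_nonneg _) hx

theorem Lr.sm' {r C : ℝ} {c : ℕ × ℤ → ℂ} {F : ℂ → ℂ → ℂ} (h : Lr r C c F) :
    Summable fun s => ‖c s‖ :=
  Summable.of_nonneg_of_le (fun _ => norm_nonneg _)
    (fun s => le_mul_of_one_le_right (norm_nonneg _) (one_le_wt r s)) h.sm

theorem Lr.le' {r C : ℝ} {c : ℕ × ℤ → ℂ} {F : ℂ → ℂ → ℂ} (h : Lr r C c F) : ∑' s, ‖c s‖ ≤ C :=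
  (h.sm'.tsum_le_tsum (fun s => le_mul_of_one_le_right (norm_nonneg _) (one_le_wt r s)) h.sm).trans
    h.le

theorem Lr.bound {r C : ℝ} {c : ℕ × ℤ → ℂ} {F : ℂ → ℂ → ℂ} (h : Lr r C c F) {x y : ℂ}
    (hx : ‖x‖ ≤ 1) (hy : ‖y‖ = 1) : ‖F x y‖ ≤ C := by
  refine le_trans ?_ h.le'
  refine (h.rep x y hx hy).norm_le_of_bounded h.sm'.hasSum fun s => ?_
  rw [norm_mul]
  exact mul_le_of_le_one_right (norm_nonneg _) (norm_mono_le' hx hy _ _)

theorem laurent_of {V : ℕ → ℂ → ℂ → ℂ} {E : ℕ → ℝ} (hV : ∀ k, W (E k) (V k)) {r a : ℝ}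
    (r0 : 0 < r) (r1 : r ≤ 1) (ha : HasSum (fun k => E k * r⁻¹ ^ k) a) :
    ∃ c, Lr r a c fun x y => ∑' k, V k x y / y ^ k := by
  have E0 := fun k => (hV k).nonneg
  choose d h1 h2 h3 using hV
  have r2 : ∀ k : ℕ, 1 ≤ r⁻¹ ^ k := fun k => one_le_pow₀ ((one_le_inv₀ r0).2 r1)
  let e : ℕ × (ℕ × ℕ) → ℕ × ℤ := fun p => (p.2.1, (p.2.2 : ℤ) - p.1)
  have w1 : ∀ p, wt r (e p) ≤ r⁻¹ ^ p.1 := by
    intro p
    refine max_le (r2 _) ?_
    simp only [e]
    rw [zpow_sub₀ r0.ne', zpow_natCast, zpow_natCast, inv_pow, div_eq_mul_inv]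
    exact mul_le_of_le_one_left (by positivity) (pow_le_one₀ r0.le r1)
  have t1 : ∀ k, ∑' s, ‖d k s‖ * r⁻¹ ^ k ≤ E k * r⁻¹ ^ k := fun k => by
    rw [tsum_mul_right]
    exact mul_le_mul_of_nonneg_right (h2 k) (by positivity)
  have t2 : Summable fun k => ∑' s, ‖d k s‖ * r⁻¹ ^ k :=
    Summable.of_nonneg_of_le (fun k => tsum_nonneg fun s => by positivity) t1 ha.summable
  have s1 : Summable fun p : ℕ × (ℕ × ℕ) => ‖d p.1 p.2‖ * r⁻¹ ^ p.1 :=
    (summable_prod_of_nonneg (f := fun p : ℕ × (ℕ × ℕ) => ‖d p.1 p.2‖ * r⁻¹ ^ p.1)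
      fun p => mul_nonneg (norm_nonneg _) (zero_le_one.trans (r2 _))).2
      ⟨fun k => (h1 k).mul_right (r⁻¹ ^ k), t2⟩
  have s2 : Summable fun p : ℕ × (ℕ × ℕ) => ‖d p.1 p.2‖ * wt r (e p) :=
    Summable.of_nonneg_of_le (fun p => mul_nonneg (norm_nonneg _) (zero_le_one.trans (one_le_wt _ _)))
      (fun p => mul_le_mul_of_nonneg_left (w1 p) (norm_nonneg _)) s1
  have s3 : Summable fun p : ℕ × (ℕ × ℕ) => ‖d p.1 p.2‖ :=
    Summable.of_nonneg_of_le (fun _ => norm_nonneg _)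
      (fun p => le_mul_of_one_le_right (norm_nonneg _) (r2 _)) s1
  obtain ⟨f1, f2⟩ := fiber_norm e (fun p => d p.1 p.2) (wt r)
    (fun s => zero_le_one.trans (one_le_wt _ _)) _ s3 s2.hasSum
  refine ⟨fun s => ∑' i : e ⁻¹' {s}, d i.1.1 i.1.2, f1, f2.trans ?_, fun x y hx hy => ?_⟩
  · refine (s2.tsum_le_tsum (fun p => mul_le_mul_of_nonneg_left (w1 p) (norm_nonneg _)) s1).trans ?_
    rw [s1.tsum_prod, ← ha.tsum_eq]
    exact t2.tsum_le_tsum t1 ha.summable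
  · refine fiber_hasSum e (fun p => d p.1 p.2) (fun s => x ^ s.1 * y ^ s.2) _ ?_
    have b1 : Summable fun p : ℕ × (ℕ × ℕ) => d p.1 p.2 * (x ^ (e p).1 * y ^ (e p).2) :=
      Summable.of_norm_bounded s3 fun p => by
        rw [norm_mul]
        exact mul_le_of_le_one_right (norm_nonneg _) (norm_mono_le' hx hy _ _)
    refine hs_congr b1.hasSum (fun _ => rfl) ?_
    rw [b1.tsum_prod]
    refine tsum_congr fun k => ?_
    have y0 : y ≠ 0 := fun h => by simp [h] at hy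
    refine (HasSum.tsum_eq (hs_congr ((h3 k x y hx hy.le).div_const (y ^ k)) (fun s => ?_) rfl)).symm
    simp only [e]
    rw [zpow_sub₀ y0, zpow_natCast, zpow_natCast]
    ring

namespace Setup

variable {P : Model} (S : Setup P)

theorem lin {G : ℂ → ℂ → ℂ} (hG : W 1 G) : W 1 fun x y => S.α * G x y + S.β * y := by
  have := (hG.cmul S.α).add (W.snd.cmul S.β)
  simpa [abs_of_pos S.hα, abs_of_pos S.hβ, S.hαβ] using this

theorem lin_sub {F G : ℂ → ℂ → ℂ} {D : ℝ} (hD : W D fun x y => F x y - G x y) :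
    W (S.α * D) fun x y => (S.α * F x y + S.β * y) - (S.α * G x y + S.β * y) := by
  have := hD.cmul S.α
  rw [Complex.norm_real, Real.norm_of_nonneg S.hα.le] at this
  exact this.congr fun _ _ _ _ => by ring

theorem lipPG {q : ℕ → ℝ} {f : ℂ → ℂ} (h : PG q f) {m : ℝ} (hm : HasSum (fun n : ℕ => n * q n) m) :
    Lip (1 + m) fun x y => f (S.α * x + S.β * y) := by
  have m0 : 0 ≤ m := hm.nonneg fun n => mul_nonneg (Nat.cast_nonneg n) (h.nonneg n)
  refine ⟨fun G hG => (h.comp (S.lin hG)).mono (by linarith), fun F G D hF hG hD => ?_⟩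
  refine (h.comp_sub hm (S.lin hF) (S.lin hG) (S.lin_sub hD)).mono ?_
  have := hD.nonneg
  have := S.hβ
  have := S.hαβ
  have := mul_nonneg m0 hD.nonneg
  nlinarith

theorem h_eq (x y : ℂ) : P.h y x = S.b1 (S.α * x + S.β * y) := S.eb1 x y

/-- numerator of `A` -/
noncomputable def a (x y : ℂ) : ℂ :=
  S.s1 (S.α * x + S.β * y) * S.s2 (S.α * x + S.β * y) * S.b2 (S.α * x + S.β * y)

/-- numerator of `B` -/
noncomputable def bb (x y : ℂ) : ℂ := S.s2 (S.α * x + S.β * y) * (y - S.b2 (S.α * x + S.β * y))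

theorem A_eq (x y : ℂ) : P.A x y = S.a x y / y := by rw [Model.A, S.es1, S.es2, S.eb2, a]

theorem B_eq (x : ℂ) {y : ℂ} (hy : y ≠ 0) : P.B x y = S.bb x y / y := by
  rw [Model.B, S.es2, S.eb2, bb]; field_simp

theorem W_a {G : ℂ → ℂ → ℂ} (hG : W 1 G) : W 1 fun x y => S.a (G x y) y :=
  ((S.S1.comp (S.lin hG)).mul1 (S.S2.comp (S.lin hG))).mul1 (S.B2.comp (S.lin hG))

include S in
theorem W_h {G : ℂ → ℂ → ℂ} (hG : W 1 G) : W 1 fun x y => P.h y (G x y) := by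
  simp only [S.h_eq]; exact S.B1.comp (S.lin hG)

include S in
theorem W_z (k : ℕ) : W 1 fun x y => (P.h y)^[k] x := by
  induction k with
  | zero => exact W.fst
  | succ k ih => simp only [Function.iterate_succ_apply']; exact S.W_h ih

include S in
theorem z_le (k : ℕ) {x y : ℂ} (hx : ‖x‖ ≤ 1) (hy : ‖y‖ ≤ 1) : ‖(P.h y)^[k] x‖ ≤ 1 :=
  (S.W_z k).bound hx hy

include S in
theorem h_le {x y : ℂ} (hx : ‖x‖ ≤ 1) (hy : ‖y‖ ≤ 1) : ‖P.h y x‖ ≤ 1 := S.z_le 1 hx hy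

include S in
theorem A_lt {y : ℂ} (hy : ‖y‖ = 1) (hy1 : y ≠ 1) :
    ∃ q : ℝ, 0 ≤ q ∧ q < 1 ∧ ∀ x : ℂ, ‖x‖ ≤ 1 → ‖P.A x y‖ ≤ q := by
  have re1 : y.re < 1 := by
    refine lt_of_le_of_ne ((Complex.re_le_norm y).trans hy.le) fun h => hy1 ?_
    have h2 : y.re = ‖y‖ := by rw [h, hy]
    have := Complex.norm_of_nonneg' (Complex.re_eq_norm.1 h2)
    rw [← this, hy, Complex.ofReal_one]
  have key : ∀ {r : ℕ → ℝ} {f : ℂ → ℂ}, PG r f → 0 < r 1 → ∃ q : ℝ, 0 ≤ q ∧ q < 1 ∧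
      ∀ x : ℂ, ‖x‖ ≤ 1 → ‖f (S.α * x + S.β * y)‖ ≤ q := by
    intro r f h h1
    have c0 := mul_pos h.pos h1
    have b : ∀ x : ℂ, ‖x‖ ≤ 1 → ‖f (S.α * x + S.β * y)‖ ≤ 1 - r 0 * r 1 * (S.β * (1 - y.re)) := by
      intro x hx
      refine (h.norm_le' ((S.lin W.fst).bound hx hy.le)).trans ?_
      have := (Complex.re_le_norm x).trans hx
      have : S.β * (1 - y.re) ≤ 1 - (S.α * x + S.β * y : ℂ).re := by
        simp only [Complex.add_re, Complex.re_ofReal_mul]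
        nlinarith [S.hα, S.hαβ]
      nlinarith
    refine ⟨_, (norm_nonneg _).trans (b 0 (by simp)), ?_, b⟩
    have := mul_pos c0 (mul_pos S.hβ (sub_pos.2 re1))
    linarith
  have n1 : ∀ {r : ℕ → ℝ} {f : ℂ → ℂ}, PG r f → ∀ x : ℂ, ‖x‖ ≤ 1 → ‖f (S.α * x + S.β * y)‖ ≤ 1 :=
    fun h x hx => h.norm_le ((S.lin W.fst).bound hx hy.le)
  rcases S.hS with h | h
  · obtain ⟨q, q0, q1, hq⟩ := key S.S1 h
    refine ⟨q, q0, q1, fun x hx => ?_⟩
    rw [S.A_eq, norm_div, hy, div_one, a, norm_mul, norm_mul]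
    exact (mul_le_of_le_one_right (by positivity) (n1 S.B2 x hx)).trans
      ((mul_le_of_le_one_right (by positivity) (n1 S.S2 x hx)).trans (hq x hx))
  · obtain ⟨q, q0, q1, hq⟩ := key S.S2 h
    refine ⟨q, q0, q1, fun x hx => ?_⟩
    rw [S.A_eq, norm_div, hy, div_one, a, norm_mul, norm_mul]
    exact (mul_le_of_le_one_right (by positivity) (n1 S.B2 x hx)).trans
      ((mul_le_of_le_one_left (by positivity) (n1 S.S1 x hx)).trans (hq x hx))

include S in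
theorem iter_eq {y : ℂ} (hy : ‖y‖ ≤ 1) {F b : ℂ → ℂ}
    (hF : ∀ x : ℂ, ‖x‖ ≤ 1 → F x = P.A x y * F (P.h y x) + b x) {x : ℂ} (hx : ‖x‖ ≤ 1) (n : ℕ) :
    ∑ k ∈ Finset.range n, P.prodA k x y * b ((P.h y)^[k] x) =
      F x - P.prodA n x y * F ((P.h y)^[n] x) := by
  induction n with
  | zero => simp [Model.prodA]
  | succ n ih =>
    rw [Finset.sum_range_succ, ih, Function.iterate_succ_apply', hF _ (S.z_le n hx hy)]
    simp only [Model.prodA, Finset.prod_range_succ]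
    ring

include S in
/-- the series is the only bounded solution -/
theorem sol_unique {y : ℂ} (hy : ‖y‖ = 1) (hy1 : y ≠ 1) {F b : ℂ → ℂ} {C : ℝ}
    (hC : ∀ x : ℂ, ‖x‖ ≤ 1 → ‖F x‖ ≤ C)
    (hF : ∀ x : ℂ, ‖x‖ ≤ 1 → F x = P.A x y * F (P.h y x) + b x) {x : ℂ} (hx : ‖x‖ ≤ 1) :
    HasSum (fun k => P.prodA k x y * b ((P.h y)^[k] x)) (F x) := by
  obtain ⟨q, q0, q1, hq⟩ := S.A_lt hy hy1
  have C0 : 0 ≤ C := (norm_nonneg _).trans (hC x hx)
  have pk : ∀ k, ‖P.prodA k x y‖ ≤ q ^ k := by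
    intro k
    rw [Model.prodA, norm_prod]
    simpa using Finset.prod_le_prod (s := Finset.range k) (fun i _ => norm_nonneg _)
      fun i _ => hq _ (S.z_le i hx hy.le)
  have hb : ∀ x : ℂ, ‖x‖ ≤ 1 → ‖b x‖ ≤ 2 * C := by
    intro x hx
    have : b x = F x - P.A x y * F (P.h y x) := by rw [hF x hx]; ring
    rw [this]
    refine (norm_sub_le _ _).trans ?_
    rw [norm_mul]
    have := mul_le_mul ((hq x hx).trans q1.le) (hC _ (S.h_le hx hy.le)) (norm_nonneg _) zero_le_one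
    linarith [hC x hx]
  have sm : Summable fun k => ‖P.prodA k x y * b ((P.h y)^[k] x)‖ :=
    Summable.of_nonneg_of_le (fun _ => norm_nonneg _) (fun k => by
      rw [norm_mul]
      exact mul_le_mul (pk k) (hb _ (S.z_le k hx hy.le)) (norm_nonneg _) (by positivity))
      ((summable_geometric_of_lt_one q0 q1).mul_right (2 * C))
  rw [hasSum_iff_tendsto_nat_of_summable_norm sm]
  simp only [S.iter_eq hy.le hF hx]
  have : Tendsto (fun n => P.prodA n x y * F ((P.h y)^[n] x)) atTop (𝓝 0) := by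
    refine squeeze_zero_norm (a := fun n => q ^ n * C) (fun n => ?_) ?_
    · rw [norm_mul]
      exact mul_le_mul (pk n) (hC _ (S.z_le n hx hy.le)) (norm_nonneg _) (by positivity)
    · simpa using (tendsto_pow_atTop_nhds_zero_of_lt_one q0 q1).mul_const C
  simpa using this.const_sub (F x)

end Setup

end Pool.Agent.P.MP_386d8e_pr
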