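import Pool.Agent.P.MP_386d8e_pr.Sums

set_option autoImplicit false

open Filter Topology

namespace Pool.Agent.P.MP_386d8e_pr

/-- absolutely convergent power series on the closed bidisc, with norm at most `C` -/
def W (C : ℝ) (F : ℂ → ℂ → ℂ) : Prop :=
  ∃ c : ℕ × ℕ → ℂ, (Summable fun s => ‖c s‖) ∧ ∑' s, ‖c s‖ ≤ C ∧
    ∀ x y : ℂ, ‖x‖ ≤ 1 → ‖y‖ ≤ 1 → HasSum (fun s => c s * (x ^ s.1 * y ^ s.2)) (F x y)

theorem norm_mono_le {x y : ℂ} (hx : ‖x‖ ≤ 1) (hy : ‖y‖ ≤ 1) (i j : ℕ) : ‖x ^ i * y ^ j‖ ≤ 1 := by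
  rw [norm_mul, norm_pow, norm_pow]
  exact mul_le_one₀ (pow_le_one₀ (norm_nonneg _) hx) (by positivity) (pow_le_one₀ (norm_nonneg _) hy)

namespace W

variable {C D : ℝ} {F G : ℂ → ℂ → ℂ}

theorem of_family {ι : Type*} (w : ι → ℂ) (e : ι → ℕ × ℕ) (hw : Summable fun i => ‖w i‖)
    (hC : ∑' i, ‖w i‖ ≤ C)
    (hF : ∀ x y : ℂ, ‖x‖ ≤ 1 → ‖y‖ ≤ 1 →
      HasSum (fun i => w i * (x ^ (e i).1 * y ^ (e i).2)) (F x y)) : W C F := by
  have h := fiber_norm e w (fun _ => 1) (fun _ => zero_le_one) _ hw (by simpa using hw.hasSum)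
  simp only [mul_one] at h
  exact ⟨fun s => ∑' i : e ⁻¹' {s}, w i, h.1, h.2.trans hC, fun x y hx hy =>
    fiber_hasSum e w (fun s => x ^ s.1 * y ^ s.2) _ (hF x y hx hy)⟩

theorem mono (h : W C F) (hCD : C ≤ D) : W D F := by
  obtain ⟨c, h1, h2, h3⟩ := h
  exact ⟨c, h1, h2.trans hCD, h3⟩

theorem congr (h : W C F) (hFG : ∀ x y : ℂ, ‖x‖ ≤ 1 → ‖y‖ ≤ 1 → G x y = F x y) : W C G := by
  obtain ⟨c, h1, h2, h3⟩ := h
  exact ⟨c, h1, h2, fun x y hx hy => hFG x y hx hy ▸ h3 x y hx hy⟩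

theorem nonneg (h : W C F) : 0 ≤ C := by
  obtain ⟨c, -, h2, -⟩ := h
  exact (tsum_nonneg fun _ => norm_nonneg _).trans h2

theorem bound (h : W C F) {x y : ℂ} (hx : ‖x‖ ≤ 1) (hy : ‖y‖ ≤ 1) : ‖F x y‖ ≤ C := by
  obtain ⟨c, h1, h2, h3⟩ := h
  refine le_trans ?_ h2
  refine (h3 x y hx hy).norm_le_of_bounded h1.hasSum fun s => ?_
  rw [norm_mul]
  exact mul_le_of_le_one_right (norm_nonneg _) (norm_mono_le hx hy _ _)

theorem monomial (a : ℂ) (i j : ℕ) : W ‖a‖ fun x y => a * (x ^ i * y ^ j) :=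
  of_family (ι := Unit) (fun _ => a) (fun _ => (i, j)) (Summable.of_finite) (by simp)
    fun x y _ _ => by simpa using hasSum_unique fun _ : Unit => a * (x ^ i * y ^ j)

theorem const (a : ℂ) : W ‖a‖ fun _ _ => a := (monomial a 0 0).congr fun _ _ _ _ => by simp

theorem one : W 1 fun _ _ => 1 := by simpa using const 1

theorem zero : W 0 fun _ _ => 0 := by simpa using const 0

theorem fst : W 1 fun x _ => x := by
  simpa using monomial 1 1 0

theorem snd : W 1 fun _ y => y := by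
  simpa using monomial 1 0 1

theorem add (hF : W C F) (hG : W D G) : W (C + D) fun x y => F x y + G x y := by
  obtain ⟨c, h1, h2, h3⟩ := hF
  obtain ⟨d, k1, k2, k3⟩ := hG
  have hs : Summable fun s => ‖c s + d s‖ :=
    Summable.of_nonneg_of_le (fun _ => norm_nonneg _) (fun s => norm_add_le _ _) (h1.add k1)
  refine ⟨fun s => c s + d s, hs, ?_, fun x y hx hy => ?_⟩
  · refine (hs.tsum_le_tsum (fun s => norm_add_le _ _) (h1.add k1)).trans ?_
    rw [h1.tsum_add k1]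
    exact add_le_add h2 k2
  · exact hs_congr ((h3 x y hx hy).add (k3 x y hx hy)) (fun s => by ring) rfl

theorem mul (hF : W C F) (hG : W D G) : W (C * D) fun x y => F x y * G x y := by
  have hC := hF.nonneg
  obtain ⟨c, h1, h2, h3⟩ := hF
  obtain ⟨d, k1, k2, k3⟩ := hG
  have hs := h1.mul_norm k1
  refine of_family (ι := (ℕ × ℕ) × (ℕ × ℕ)) (fun p => c p.1 * d p.2) (fun p => p.1 + p.2) hs ?_ ?_
  · have := h1.tsum_mul_tsum k1 (h1.mul_of_nonneg k1 (fun _ => norm_nonneg _) fun _ => norm_nonneg _)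
    simp only [norm_mul]
    rw [← this]
    exact mul_le_mul h2 k2 (tsum_nonneg fun _ => norm_nonneg _) hC
  · intro x y hx hy
    have b1 : ∀ (c : ℕ × ℕ → ℂ), (Summable fun s => ‖c s‖) →
        Summable fun s => ‖c s * (x ^ s.1 * y ^ s.2)‖ := fun c hc =>
      Summable.of_nonneg_of_le (fun _ => norm_nonneg _) (fun s => by
        rw [norm_mul]
        exact mul_le_of_le_one_right (norm_nonneg _) (norm_mono_le hx hy _ _)) hc
    have b2 := summable_mul_of_summable_norm (f := fun s : ℕ × ℕ => c s * (x ^ s.1 * y ^ s.2))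
      (g := fun s : ℕ × ℕ => d s * (x ^ s.1 * y ^ s.2)) (b1 c h1) (b1 d k1)
    have := HasSum.mul (f := fun s : ℕ × ℕ => c s * (x ^ s.1 * y ^ s.2))
      (g := fun s : ℕ × ℕ => d s * (x ^ s.1 * y ^ s.2)) (h3 x y hx hy) (k3 x y hx hy) b2
    refine hs_congr this (fun p => ?_) rfl
    simp only [Prod.fst_add, Prod.snd_add, pow_add]
    ring

theorem cmul (a : ℂ) (hF : W C F) : W (‖a‖ * C) fun x y => a * F x y := (const a).mul hF

theorem neg (hF : W C F) : W C fun x y => -F x y := by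
  simpa using hF.cmul (-1)

theorem sub (hF : W C F) (hG : W D G) : W (C + D) fun x y => F x y - G x y := by
  simpa [sub_eq_add_neg] using hF.add hG.neg

theorem mul1 (hF : W 1 F) (hG : W D G) : W D fun x y => F x y * G x y := by
  simpa using hF.mul hG

theorem pow (hF : W C F) (n : ℕ) : W (C ^ n) fun x y => F x y ^ n := by
  induction n with
  | zero => simpa using one
  | succ n ih => simpa [pow_succ] using ih.mul hF

theorem pow1 (hF : W 1 F) (n : ℕ) : W 1 fun x y => F x y ^ n := by simpa using hF.pow n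

theorem prod1 {H : ℕ → ℂ → ℂ → ℂ} (h : ∀ i, W 1 (H i)) (n : ℕ) :
    W 1 fun x y => ∏ i ∈ Finset.range n, H i x y := by
  induction n with
  | zero => simpa using one
  | succ n ih => simpa [Finset.prod_range_succ] using ih.mul1 (h n)

theorem geom (hF : W 1 F) (n : ℕ) : W n fun x y => ∑ i ∈ Finset.range n, F x y ^ i := by
  induction n with
  | zero => simpa using zero
  | succ n ih => simpa [Finset.sum_range_succ] using ih.add (hF.pow1 n)

theorem summable {ι : Type*} {E : ι → ℝ} {H : ι → ℂ → ℂ → ℂ} (h : ∀ k, W (E k) (H k))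
    (hE : Summable E) {x y : ℂ} (hx : ‖x‖ ≤ 1) (hy : ‖y‖ ≤ 1) : Summable fun k => H k x y :=
  Summable.of_norm_bounded hE fun k => (h k).bound hx hy

theorem tsum {ι : Type*} {E : ι → ℝ} {H : ι → ℂ → ℂ → ℂ} (h : ∀ k, W (E k) (H k))
    (hE : HasSum E C) : W C fun x y => ∑' k, H k x y := by
  choose c h1 h2 h3 using h
  have s1 : Summable fun k => ∑' s, ‖c k s‖ :=
    Summable.of_nonneg_of_le (fun _ => tsum_nonneg fun _ => norm_nonneg _) h2 hE.summable
  have hs : Summable fun p : ι × (ℕ × ℕ) => ‖c p.1 p.2‖ :=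
    (summable_prod_of_nonneg fun _ => norm_nonneg _).2 ⟨h1, s1⟩
  refine of_family (fun p : ι × (ℕ × ℕ) => c p.1 p.2) (fun p => p.2) hs ?_ ?_
  · rw [hs.tsum_prod, ← hE.tsum_eq]
    exact s1.tsum_le_tsum h2 hE.summable
  · intro x y hx hy
    have b1 : Summable fun p : ι × (ℕ × ℕ) => c p.1 p.2 * (x ^ p.2.1 * y ^ p.2.2) :=
      Summable.of_norm_bounded hs fun p => by
        rw [norm_mul]
        exact mul_le_of_le_one_right (norm_nonneg _) (norm_mono_le hx hy _ _)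
    refine hs_congr b1.hasSum (fun _ => rfl) ?_
    rw [b1.tsum_prod]
    exact tsum_congr fun k => (h3 k x y hx hy).tsum_eq.symm

theorem comp {q : ℕ → ℂ} {f : ℂ → ℂ} (hq : HasSum (fun n => ‖q n‖) C)
    (hf : ∀ z : ℂ, ‖z‖ ≤ 1 → HasSum (fun n => q n * z ^ n) (f z)) (hG : W 1 G) :
    W C fun x y => f (G x y) :=
  (tsum (fun n => by simpa using (hG.pow1 n).cmul (q n)) hq).congr fun x y hx hy =>
    (hf _ (hG.bound hx hy)).tsum_eq.symm

theorem pow_sub (hF : W 1 F) (hG : W 1 G) (hD : W D fun x y => F x y - G x y) (n : ℕ) :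
    W (n * D) fun x y => F x y ^ n - G x y ^ n := by
  induction n with
  | zero => simpa using zero
  | succ n ih =>
    refine ((hF.mul1 ih).add ((hG.pow1 n).mul1 hD)).congr (fun x y _ _ => by ring) |>.mono ?_
    push_cast
    linarith

theorem comp_sub {q : ℕ → ℂ} {f : ℂ → ℂ} (hq : HasSum (fun n : ℕ => n * ‖q n‖) C)
    (hf : ∀ z : ℂ, ‖z‖ ≤ 1 → HasSum (fun n => q n * z ^ n) (f z)) (hF : W 1 F) (hG : W 1 G)
    (hD : W D fun x y => F x y - G x y) : W (C * D) fun x y => f (F x y) - f (G x y) := by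
  refine (tsum (fun n => (pow_sub hF hG hD n).cmul (q n))
    (hs_congr (hq.mul_right D) (fun n => by ring) rfl)).congr fun x y hx hy => ?_
  have := (hf _ (hF.bound hx hy)).sub (hf _ (hG.bound hx hy))
  rw [← this.tsum_eq]
  exact tsum_congr fun n => by ring

theorem unique {c d : ℕ × ℕ → ℂ} (hc : Summable fun s => ‖c s‖) (hd : Summable fun s => ‖d s‖)
    (h1 : ∀ x y : ℂ, ‖x‖ ≤ 1 → ‖y‖ ≤ 1 → HasSum (fun s => c s * (x ^ s.1 * y ^ s.2)) (F x y))
    (h2 : ∀ x y : ℂ, ‖x‖ ≤ 1 → ‖y‖ ≤ 1 → HasSum (fun s => d s * (x ^ s.1 * y ^ s.2)) (F x y)) :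
    c = d := by
  funext s
  rw [← sub_eq_zero]
  refine coeff_two (fun s => c s - d s)
    (Summable.of_nonneg_of_le (fun _ => norm_nonneg _) (fun s => norm_sub_le _ _) (hc.add hd))
    (fun s => (s.1 : ℤ)) (fun s => (s.2 : ℤ))
    (fun s t a b => Prod.ext (by exact_mod_cast a) (by exact_mod_cast b)) ?_ s
  intro x y hx hy _
  refine hs_congr ((h1 x y hx.le hy.le).sub (h2 x y hx.le hy.le)) (fun s => ?_) (by simp)
  simp only [zpow_natCast]
  ring

theorem of_forall_gt (h : ∀ ε > 0, W (C + ε) F) : W C F := by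
  obtain ⟨c, h1, -, h3⟩ := h 1 one_pos
  refine ⟨c, h1, le_of_forall_pos_le_add fun ε hε => ?_, h3⟩
  obtain ⟨d, k1, k2, k3⟩ := h ε hε
  rwa [unique h1 k1 h3 k3]

theorem pos (h : W 1 F) (h1 : F 1 1 = 1) :
    ∃ k : ℕ × ℕ → ℝ, (∀ s, 0 ≤ k s) ∧ (k (0, 0) : ℂ) = F 0 0 ∧
      ∀ x y : ℂ, ‖x‖ ≤ 1 → ‖y‖ ≤ 1 → HasSum (fun s => (k s : ℂ) * (x ^ s.1 * y ^ s.2)) (F x y) := by
  obtain ⟨c, a1, a2, a3⟩ := h
  have b1 : HasSum c 1 := by simpa [h1] using a3 1 1 (by simp) (by simp)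
  have b2 := a1.hasSum.sub (Complex.hasSum_re b1)
  have b3 : ∀ s, (‖c s‖ : ℂ) = c s := by
    intro s
    have := le_hasSum b2 s fun u _ => sub_nonneg.2 (Complex.re_le_norm _)
    simp only [Complex.one_re] at this
    have b4 : (c s).re = ‖c s‖ := le_antisymm (Complex.re_le_norm _) (by linarith)
    exact Complex.norm_of_nonneg' (Complex.re_eq_norm.1 b4)
  refine ⟨fun s => ‖c s‖, fun _ => norm_nonneg _, ?_, fun x y hx hy => ?_⟩
  · rw [b3]
    refine HasSum.unique ?_ (a3 0 0 (by simp) (by simp))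
    have := hasSum_single (f := fun s : ℕ × ℕ => c s * ((0 : ℂ) ^ s.1 * (0 : ℂ) ^ s.2)) (0, 0) (by
      rintro ⟨i, j⟩ hs
      by_cases hi : i = 0
      · have hj : j ≠ 0 := fun hj => hs (by rw [hi, hj])
        simp [hj]
      · simp [hi])
    simpa using this
  · simpa only [b3] using a3 x y hx hy

theorem split (h : W C F) : ∃ (C1 C2 : ℝ) (G : ℂ → ℂ → ℂ), C1 + C2 ≤ C ∧ W C1 G ∧
    W C2 (fun x _ => F x 0) ∧ ∀ x y : ℂ, ‖x‖ ≤ 1 → ‖y‖ ≤ 1 → F x y = y * G x y + F x 0 := by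
  obtain ⟨c, a1, a2, a3⟩ := h
  set c1 : ℕ × ℕ → ℂ := fun s => if s.2 = 0 then 0 else c s with hc1
  set c2 : ℕ × ℕ → ℂ := fun s => if s.2 = 0 then c s else 0 with hc2
  have s1 : Summable fun s => ‖c1 s‖ := Summable.of_nonneg_of_le (fun _ => norm_nonneg _)
    (fun s => by simp only [hc1]; split_ifs <;> simp) a1
  have s2 : Summable fun s => ‖c2 s‖ := Summable.of_nonneg_of_le (fun _ => norm_nonneg _)
    (fun s => by simp only [hc2]; split_ifs <;> simp) a1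
  have b0 : ∀ x y : ℂ, ‖x‖ ≤ 1 → ‖y‖ ≤ 1 →
      Summable fun s : ℕ × ℕ => c1 s * (x ^ s.1 * y ^ (s.2 - 1)) := fun x y hx hy =>
    Summable.of_norm_bounded s1 fun s => by
      rw [norm_mul]
      exact mul_le_of_le_one_right (norm_nonneg _) (norm_mono_le hx hy _ _)
  have b1 : ∀ x y : ℂ, ‖x‖ ≤ 1 → HasSum (fun s => c2 s * (x ^ s.1 * y ^ s.2)) (F x 0) := by
    intro x y hx
    refine hs_congr (a3 x 0 hx (by simp)) (fun s => ?_) rfl
    by_cases hs : s.2 = 0 <;> simp [hc2, hs]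
  refine ⟨∑' s, ‖c1 s‖, ∑' s, ‖c2 s‖, fun x y => ∑' s : ℕ × ℕ, c1 s * (x ^ s.1 * y ^ (s.2 - 1)), ?_,
    of_family c1 (fun s => (s.1, s.2 - 1)) s1 le_rfl fun x y hx hy => (b0 x y hx hy).hasSum,
    ⟨c2, s2, le_rfl, fun x y hx _ => b1 x y hx⟩, fun x y hx hy => ?_⟩
  · rw [← s1.tsum_add s2]
    refine le_trans (le_of_eq (tsum_congr fun s => ?_)) a2
    by_cases hs : s.2 = 0 <;> simp [hc1, hc2, hs]
  · refine (a3 x y hx hy).unique
      (hs_congr (((b0 x y hx hy).hasSum.mul_left y).add (b1 x y hx)) (fun s => ?_) rfl)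
    by_cases hs : s.2 = 0
    · simp [hc1, hc2, hs]
    · obtain ⟨m, hm⟩ := Nat.exists_eq_succ_of_ne_zero hs
      simp only [hc1, hc2, hm, Nat.succ_ne_zero, if_false, Nat.succ_sub_one, pow_succ]
      ring

end W

end Pool.Agent.P.MP_386d8e_pr
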