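import Pool.Agent.P.MP_386d8e_pr.Defs
import Pool.Agent.P.MP_386d8e_pr.Wien

set_option autoImplicit false

open MeasureTheory Filter Topology

namespace Pool.Agent.P.MP_386d8e_pr

/-- `f` is the generating function of the probability vector `q`, which charges zero -/
structure PG (q : ℕ → ℝ) (f : ℂ → ℂ) : Prop where
  nonneg : ∀ n, 0 ≤ q n
  rep : ∀ z : ℂ, ‖z‖ ≤ 1 → HasSum (fun n => (q n : ℂ) * z ^ n) (f z)
  one : f 1 = 1
  pos : 0 < q 0

/-- mixed Poisson weights -/
noncomputable def qq (μ : ProbabilityMeasure NNReal) (L : ℝ) (n : ℕ) : ℝ :=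
  ∫ t, Real.exp (-(L * t)) * ((L * t) ^ n / n.factorial) ∂(μ : Measure NNReal)

theorem pois_hasSum (u : ℝ) : HasSum (fun n : ℕ => Real.exp (-u) * (u ^ n / n.factorial)) 1 := by
  have := (NormedSpace.expSeries_div_hasSum_exp (𝔸 := ℝ) u).mul_left (Real.exp (-u))
  rwa [← Real.exp_eq_exp_ℝ, ← Real.exp_add, neg_add_cancel, Real.exp_zero] at this

theorem pois_le {u : ℝ} (hu : 0 ≤ u) (n : ℕ) : Real.exp (-u) * (u ^ n / n.factorial) ≤ 1 :=
  le_hasSum (pois_hasSum u) n fun _ _ => by positivity

theorem pois_int (μ : ProbabilityMeasure NNReal) {L : ℝ} (hL : 0 < L) (n : ℕ) :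
    Integrable (fun t : NNReal => Real.exp (-(L * t)) * ((L * t) ^ n / n.factorial))
      (μ : Measure NNReal) := by
  refine Integrable.of_bound (Continuous.aestronglyMeasurable (by fun_prop)) 1
    (Eventually.of_forall fun t => ?_)
  rw [Real.norm_of_nonneg (by positivity)]
  exact pois_le (by positivity) n

theorem pg_lst (μ : ProbabilityMeasure NNReal) {L : ℝ} (hL : 0 < L) :
    PG (qq μ L) fun z => lst μ (L * (1 - z)) where
  nonneg n := integral_nonneg fun t => by positivity
  one := by simp [lst]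
  pos := by
    rw [qq, integral_pos_iff_support_of_nonneg (fun t => by positivity) (pois_int μ hL 0)]
    have : (Function.support fun t : NNReal =>
        Real.exp (-(L * t)) * ((L * t) ^ 0 / (Nat.factorial 0 : ℕ))) = Set.univ := by
      ext t
      simp [Real.exp_ne_zero]
    rw [this]
    simp
  rep z hz := by
    have h := hasSum_integral_of_dominated_convergence (μ := (μ : Measure NNReal))
      (F := fun (n : ℕ) (t : NNReal) =>
        ((Real.exp (-(L * t)) * ((L * t) ^ n / n.factorial) : ℝ) : ℂ) * z ^ n)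
      (f := fun t : NNReal => Complex.exp (-(L * (1 - z) * ((t : ℝ) : ℂ))))
      (fun (n : ℕ) (t : NNReal) => Real.exp (-(L * t)) * ((L * t) ^ n / n.factorial))
      (fun n => Continuous.aestronglyMeasurable (by fun_prop))
      (fun n => Eventually.of_forall fun t => by
        rw [norm_mul, Complex.norm_real, Real.norm_of_nonneg (by positivity), norm_pow]
        exact mul_le_of_le_one_right (by positivity) (pow_le_one₀ (norm_nonneg _) hz))
      (Eventually.of_forall fun t => (pois_hasSum _).summable)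
      (by simp only [(pois_hasSum _).tsum_eq]; exact integrable_const _)
      (Eventually.of_forall fun t => by
        have := (NormedSpace.expSeries_div_hasSum_exp (𝔸 := ℂ) (L * t * z)).mul_left
          (Complex.exp (-(L * t)))
        rw [← Complex.exp_eq_exp_ℂ, ← Complex.exp_add] at this
        refine hs_congr this (fun n => ?_) (by congr 1; ring)
        push_cast
        rw [mul_pow]
        ring)
    refine hs_congr h (fun n => ?_) rfl
    rw [integral_mul_const, integral_complex_ofReal, qq]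

theorem qq_one_pos (μ : ProbabilityMeasure NNReal) {L : ℝ} (hL : 0 < L)
    (h : (μ : Measure NNReal) ≠ Measure.dirac 0) : 0 < qq μ L 1 := by
  rw [qq, integral_pos_iff_support_of_nonneg (fun t => by positivity) (pois_int μ hL 1)]
  have : (Function.support fun t : NNReal =>
      Real.exp (-(L * t)) * ((L * t) ^ 1 / (Nat.factorial 1 : ℕ))) = {0}ᶜ := by
    ext t
    simp [Real.exp_ne_zero, hL.ne']
  rw [this, pos_iff_ne_zero]
  intro h0
  apply h
  ext s hs
  have h1 : (μ : Measure NNReal) {0} = 1 := by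
    have := prob_compl_eq_zero_iff (μ := (μ : Measure NNReal)) (measurableSet_singleton (0 : NNReal))
    exact this.1 h0
  by_cases hs0 : (0 : NNReal) ∈ s
  · rw [Measure.dirac_apply_of_mem hs0]
    exact le_antisymm prob_le_one (h1 ▸ measure_mono (Set.singleton_subset_iff.2 hs0))
  · rw [Measure.dirac_apply' _ hs, Set.indicator_of_notMem hs0]
    exact measure_mono_null (fun t ht => by rintro rfl; exact hs0 ht) h0

theorem qq_mean (μ : ProbabilityMeasure NNReal) {L : ℝ} (hL : 0 < L)
    (h : Summable fun n : ℕ => n * qq μ L n) : HasSum (fun n : ℕ => n * qq μ L n) (L * mean μ) := by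
  have h1 := hasSum_integral_of_summable_integral_norm (μ := (μ : Measure NNReal))
    (F := fun (n : ℕ) (t : NNReal) => (n : ℝ) * (Real.exp (-(L * t)) * ((L * t) ^ n / n.factorial)))
    (fun n => (pois_int μ hL n).const_mul _) (by
      refine h.congr fun n => ?_
      rw [qq, ← integral_const_mul]
      exact integral_congr_ae (Eventually.of_forall fun t => (Real.norm_of_nonneg (by positivity)).symm))
  refine hs_congr h1 (fun n => by rw [qq, integral_const_mul]) ?_
  rw [mean, ← integral_const_mul]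
  refine integral_congr_ae (Eventually.of_forall fun t => ?_)
  refine (HasSum.tsum_eq ?_).symm
  rw [← hasSum_nat_add_iff' 1]
  refine hs_congr ((pois_hasSum (L * t)).mul_left (L * t)) (fun n => ?_) (by simp)
  rw [Nat.factorial_succ]
  push_cast
  field_simp
  ring

namespace PG

variable {q : ℕ → ℝ} {f : ℂ → ℂ} (h : PG q f)
include h

theorem sum_one : HasSum q 1 := by
  have := Complex.hasSum_re (h.rep 1 (by simp))
  simpa [h.one] using this

theorem sum_norm : HasSum (fun n => ‖(q n : ℂ)‖) 1 :=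
  hs_congr h.sum_one (fun n => by rw [Complex.norm_real, Real.norm_of_nonneg (h.nonneg n)]) rfl

theorem comp {G : ℂ → ℂ → ℂ} (hG : W 1 G) : W 1 fun x y => f (G x y) := hG.comp h.sum_norm h.rep

theorem comp_sub {m D : ℝ} (hm : HasSum (fun n : ℕ => n * q n) m) {F G : ℂ → ℂ → ℂ} (hF : W 1 F)
    (hG : W 1 G) (hD : W D fun x y => F x y - G x y) :
    W (m * D) fun x y => f (F x y) - f (G x y) :=
  W.comp_sub (hs_congr hm (fun n => by rw [Complex.norm_real, Real.norm_of_nonneg (h.nonneg n)]) rfl)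
    h.rep hF hG hD

theorem norm_le {z : ℂ} (hz : ‖z‖ ≤ 1) : ‖f z‖ ≤ 1 :=
  (h.comp W.fst).bound (y := 0) hz (by simp)

theorem norm_le' {z : ℂ} (hz : ‖z‖ ≤ 1) : ‖f z‖ ≤ 1 - q 0 * q 1 * (1 - z.re) := by
  have h1 := (hasSum_nat_add_iff' 2).2 (h.rep z hz)
  have h2 := (hasSum_nat_add_iff' 2).2 h.sum_one
  have h3 := h1.norm_le_of_bounded h2 fun n => by
    rw [norm_mul, Complex.norm_real, Real.norm_of_nonneg (h.nonneg _), norm_pow]
    exact mul_le_of_le_one_right (h.nonneg _) (pow_le_one₀ (norm_nonneg _) hz)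
  simp only [Finset.sum_range_succ, Finset.sum_range_zero, zero_add, pow_zero, mul_one, pow_one] at h3
  have a0 := h.nonneg 0
  have a1 := h.nonneg 1
  have a2 : q 0 + q 1 ≤ 1 := by linarith [norm_nonneg (f z - (q 0 + q 1 * z))]
  have hre : z.re ≤ 1 := (Complex.re_le_norm z).trans hz
  have hre' : -1 ≤ z.re := by linarith [neg_abs_le z.re, Complex.abs_re_le_norm z]
  have h4 : ‖(q 0 : ℂ) + q 1 * z‖ ≤ q 0 + q 1 - q 0 * q 1 * (1 - z.re) := by
    have b1 : 0 ≤ q 0 * q 1 * (1 - z.re) := mul_nonneg (mul_nonneg a0 a1) (by linarith)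
    have b2 : q 0 * q 1 * (1 - z.re) ≤ q 0 + q 1 := by nlinarith [mul_nonneg a0 a1]
    refine abs_le_of_sq_le_sq' ?_ (by linarith) |>.2
    rw [Complex.sq_norm, Complex.normSq_apply]
    have b3 : z.re * z.re + z.im * z.im ≤ 1 := by
      rw [← Complex.normSq_apply, ← Complex.sq_norm]
      nlinarith [norm_nonneg z]
    simp only [Complex.add_re, Complex.ofReal_re, Complex.mul_re, Complex.ofReal_im, zero_mul,
      sub_zero, Complex.add_im, Complex.mul_im, add_zero, zero_add]
    nlinarith [mul_nonneg (mul_nonneg a1 a1) (sub_nonneg.2 b3), sq_nonneg (q 0 * q 1 * (1 - z.re)),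
      mul_nonneg b1 (sub_nonneg.2 a2)]
  have h5 : ‖f z‖ ≤ ‖f z - (q 0 + q 1 * z)‖ + ‖(q 0 : ℂ) + q 1 * z‖ := by
    simpa using norm_add_le (f z - (q 0 + q 1 * z)) (q 0 + q 1 * z)
  linarith

theorem rep_real {z : ℝ} (h0 : 0 ≤ z) (h1 : z ≤ 1) : HasSum (fun n => q n * z ^ n) (f z).re := by
  have := Complex.hasSum_re (h.rep z (by rw [Complex.norm_real, Real.norm_of_nonneg h0]; exact h1))
  refine hs_congr this (fun n => ?_) rfl
  rw [← Complex.ofReal_pow, ← Complex.ofReal_mul, Complex.ofReal_re]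

theorem ofReal_re {z : ℝ} (h0 : 0 ≤ z) (h1 : z ≤ 1) : (((f z).re : ℝ) : ℂ) = f z := by
  have a := Complex.hasSum_ofReal.2 (h.rep_real h0 h1)
  refine a.unique (hs_congr (h.rep z ?_) (fun n => by push_cast; rfl) rfl)
  rw [Complex.norm_real, Real.norm_of_nonneg h0]; exact h1

theorem le_re {z : ℝ} (h0 : 0 ≤ z) (h1 : z ≤ 1) : q 0 ≤ (f z).re := by
  simpa using le_hasSum (h.rep_real h0 h1) 0 fun n _ => mul_nonneg (h.nonneg n) (pow_nonneg h0 n)

theorem re_le {z : ℝ} (h0 : 0 ≤ z) (h1 : z ≤ 1) : (f z).re ≤ 1 - q 1 * (1 - z) := by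
  have := le_hasSum (h.sum_one.sub (h.rep_real h0 h1)) 1 fun n _ =>
    sub_nonneg.2 (mul_le_of_le_one_right (h.nonneg n) (pow_le_one₀ h0 h1))
  simp only [pow_one] at this
  linarith

theorem continuousOn : ContinuousOn f (Metric.closedBall 0 1) := by
  have := continuousOn_tsum (s := Metric.closedBall (0 : ℂ) 1) (f := fun n z => (q n : ℂ) * z ^ n)
    (u := q) (fun n => by fun_prop) h.sum_one.summable (fun n z hz => by
      rw [norm_mul, Complex.norm_real, Real.norm_of_nonneg (h.nonneg _), norm_pow]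
      exact mul_le_of_le_one_right (h.nonneg _) (pow_le_one₀ (norm_nonneg _) (by simpa using hz)))
  exact this.congr fun z hz => (h.rep z (by simpa using hz)).tsum_eq.symm

/-- a bound on the difference quotient at one bounds the mean -/
theorem mean_le {z : ℕ → ℝ} (h0 : ∀ k, 0 ≤ z k) (h1 : ∀ k, z k < 1) (hz : Tendsto z atTop (𝓝 1))
    {c : ℝ} (hc : ∀ k, 1 - (f (z k)).re ≤ c * (1 - z k)) :
    (Summable fun n : ℕ => n * q n) ∧ ∑' n : ℕ, n * q n ≤ c := by
  have key : ∀ N, ∑ n ∈ Finset.range N, (n : ℝ) * q n ≤ c := by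
    intro N
    have a1 : Tendsto (fun k => ∑ n ∈ Finset.range N, (∑ i ∈ Finset.range n, z k ^ i) * q n) atTop
        (𝓝 (∑ n ∈ Finset.range N, (∑ i ∈ Finset.range n, (1 : ℝ) ^ i) * q n)) :=
      tendsto_finsetSum _ fun n _ => (tendsto_finsetSum _ fun i _ => hz.pow i).mul_const _
    simp only [one_pow, Finset.sum_const, Finset.card_range, nsmul_eq_mul, mul_one] at a1
    refine le_of_tendsto' a1 fun k => ?_
    have a2 := sum_le_hasSum (Finset.range N) (fun n _ =>
      sub_nonneg.2 (mul_le_of_le_one_right (h.nonneg n) (pow_le_one₀ (h0 k) (h1 k).le)))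
      (h.sum_one.sub (h.rep_real (h0 k) (h1 k).le))
    refine le_of_mul_le_mul_right ?_ (sub_pos.2 (h1 k))
    refine le_trans (le_of_eq ?_) (a2.trans (hc k))
    rw [Finset.sum_mul]
    refine Finset.sum_congr rfl fun n _ => ?_
    have := geom_sum_mul_neg (z k) n
    linear_combination q n * this
  have hn : ∀ n : ℕ, 0 ≤ (n : ℝ) * q n := fun n => mul_nonneg (Nat.cast_nonneg n) (h.nonneg n)
  exact ⟨summable_of_sum_range_le hn key, Real.tsum_le_of_sum_range_le hn key⟩

/-- the difference quotient at one -/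
theorem exists_tilde {m : ℝ} (hm : HasSum (fun n : ℕ => n * q n) m) :
    ∃ g : ℂ → ℂ, (∀ z : ℂ, ‖z‖ ≤ 1 → 1 - f z = (1 - z) * g z) ∧ g 1 = m ∧
      ContinuousOn g (Metric.closedBall 0 1) ∧
      ∀ G : ℂ → ℂ → ℂ, W 1 G → W m fun x y => g (G x y) := by
  have a1 : ∀ G : ℂ → ℂ → ℂ, W 1 G → ∀ n : ℕ,
      W (n * q n) fun x y => (q n : ℂ) * ∑ i ∈ Finset.range n, G x y ^ i := fun G hG n => by
    have := (hG.geom n).cmul (q n)
    rwa [Complex.norm_real, Real.norm_of_nonneg (h.nonneg n), mul_comm] at this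
  refine ⟨fun z => ∑' n, (q n : ℂ) * ∑ i ∈ Finset.range n, z ^ i, fun z hz => ?_, ?_, ?_,
    fun G hG => W.tsum (a1 G hG) hm⟩
  · have b1 := (h.rep 1 (by simp)).sub (h.rep z hz)
    rw [h.one] at b1
    rw [← b1.tsum_eq, ← tsum_mul_left]
    refine tsum_congr fun n => ?_
    have := geom_sum_mul_neg z n
    linear_combination (-(q n : ℂ)) * this + (q n : ℂ) * one_pow (M := ℂ) n
  · refine HasSum.tsum_eq (hs_congr (Complex.hasSum_ofReal.2 hm) (fun n => ?_) rfl)
    simp [mul_comm]
  · exact continuousOn_tsum (u := fun n : ℕ => n * q n) (fun n => by fun_prop) hm.summable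
      fun n z hz => (a1 _ W.fst n).bound (y := 0) (by simpa using hz) (by simp)

end PG

end Pool.Agent.P.MP_386d8e_pr
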