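import Pool.Agent.P.MP_386d8e_pr.Sums

set_option autoImplicit false

open Filter Topology

namespace Pool.Agent.P.MP_386d8e_pr

section
variable {C : ℕ → ℕ → ℂ} {a γ : ℕ → ℝ} (ha : ∀ i, 0 ≤ a i) (hγ : ∀ j, 1 ≤ γ j)
  (hC : ∀ i j, ‖C i j‖ ≤ a i * γ j) (haγ : Summable fun i => γ i * a i)
include ha hγ hC

theorem row_summable {u : ℕ → ℂ} (hu : Summable fun j => γ j * ‖u j‖) (i : ℕ) :
    Summable fun j => ‖C i j * u j‖ := by
  refine Summable.of_nonneg_of_le (fun _ => norm_nonneg _) (fun j => ?_) (hu.mul_left (a i))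
  rw [norm_mul, ← mul_assoc]
  exact mul_le_mul_of_nonneg_right (hC i j) (norm_nonneg _)

theorem row_le {u : ℕ → ℂ} (hu : Summable fun j => γ j * ‖u j‖) (i : ℕ) :
    ‖∑' j, C i j * u j‖ ≤ a i * ∑' j, γ j * ‖u j‖ := by
  rw [← tsum_mul_left]
  refine (norm_tsum_le_tsum_norm (row_summable ha hγ hC hu i)).trans ?_
  refine (row_summable ha hγ hC hu i).tsum_le_tsum (fun j => ?_) (hu.mul_left _)
  rw [norm_mul, ← mul_assoc]
  exact mul_le_mul_of_nonneg_right (hC i j) (norm_nonneg _)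

omit ha hC in
theorem wsum_sub {u v : ℕ → ℂ} (hu : Summable fun j => γ j * ‖u j‖)
    (hv : Summable fun j => γ j * ‖v j‖) : Summable fun j => γ j * ‖u j - v j‖ := by
  refine Summable.of_nonneg_of_le (fun j => mul_nonneg (by linarith [hγ j]) (norm_nonneg _))
    (fun j => ?_) (hu.add hv)
  rw [← mul_add]
  exact mul_le_mul_of_nonneg_left (norm_sub_le _ _) (by linarith [hγ j])

omit ha hγ hC in
theorem wsum_fin {u : ℕ → ℂ} {N : ℕ} (hu : ∀ i, N < i → u i = 0) :
    Summable fun j => γ j * ‖u j‖ :=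
  summable_of_ne_finset_zero (s := Finset.range (N + 1)) fun j hj => by
    rw [hu j (by simpa using hj)]; simp

include haγ in
theorem bound_below
    (inj : ∀ u : ℕ → ℂ, (Summable fun j => γ j * ‖u j‖) → (∀ i, u i = ∑' j, C i j * u j) → u = 0) :
    ∃ D : ℝ, ∃ N0 : ℕ, 0 ≤ D ∧ ∀ N, N0 ≤ N → ∀ u w : ℕ → ℂ, (∀ i, N < i → u i = 0) →
      (∀ i, N < i → w i = 0) → (∀ i, i ≤ N → w i = u i - ∑' j, C i j * u j) →
      ∑' j, γ j * ‖u j‖ ≤ D * ∑' j, γ j * ‖w j‖ := by
  have γ0 : ∀ j, 0 ≤ γ j := fun j => by linarith [hγ j]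
  by_contra hcon
  push Not at hcon
  have h1 : ∀ n : ℕ, ∃ N, n ≤ N ∧ ∃ u w : ℕ → ℂ, (∀ i, N < i → u i = 0) ∧
      (∀ i, N < i → w i = 0) ∧ (∀ i, i ≤ N → w i = u i - ∑' j, C i j * u j) ∧
      ∑' j, γ j * ‖u j‖ = 1 ∧ ∑' j, γ j * ‖w j‖ ≤ 1 / ((n : ℝ) + 1) := by
    intro n
    obtain ⟨N, hN, u, w, hu, hw, huw, hlt⟩ := hcon ((n : ℝ) + 1) n (by positivity)
    set s := ∑' j, γ j * ‖u j‖ with hs
    have hw0 : 0 ≤ ∑' j, γ j * ‖w j‖ := tsum_nonneg fun j => mul_nonneg (γ0 j) (norm_nonneg _)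
    have hn : (0 : ℝ) < (n : ℝ) + 1 := by positivity
    have s0 : 0 < s := lt_of_le_of_lt (mul_nonneg hn.le hw0) hlt
    have key : ∀ z : ℕ → ℂ, ∑' j, γ j * ‖(s⁻¹ : ℝ) * z j‖ = s⁻¹ * ∑' j, γ j * ‖z j‖ := by
      intro z
      rw [← tsum_mul_left]
      refine tsum_congr fun j => ?_
      rw [norm_mul, Complex.norm_real, Real.norm_of_nonneg (inv_nonneg.2 s0.le)]
      ring
    refine ⟨N, hN, fun i => (s⁻¹ : ℝ) * u i, fun i => (s⁻¹ : ℝ) * w i, fun i hi => by simp [hu i hi],
      fun i hi => by simp [hw i hi], fun i hi => ?_, ?_, ?_⟩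
    · simp only [huw i hi, mul_sub, ← tsum_mul_left]
      congr 1
      exact tsum_congr fun j => by ring
    · rw [key, ← hs, inv_mul_cancel₀ s0.ne']
    · rw [key, le_div_iff₀ hn, mul_assoc, inv_mul_le_iff₀ s0]
      linarith
  choose N hN u w hu hw huw hu1 hw1 using h1
  have su : ∀ n, Summable fun j => γ j * ‖u n j‖ := fun n => wsum_fin (hu n)
  have sw : ∀ n, Summable fun j => γ j * ‖w n j‖ := fun n => wsum_fin (hw n)
  have ht : ∀ n i, ‖u n i - w n i‖ ≤ a i := by
    intro n i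
    by_cases hi : i ≤ N n
    · rw [huw n i hi, sub_sub_cancel]
      simpa [hu1 n] using row_le ha hγ hC (su n) i
    · push Not at hi
      simp [hu n i hi, hw n i hi, ha i]
  let U : Ultrafilter ℕ := Ultrafilter.of atTop
  have hU : (U : Filter ℕ) ≤ atTop := Ultrafilter.of_le _
  have h2 : ∀ i, ∃ z : ℂ, ‖z‖ ≤ a i ∧ Tendsto (fun n => u n i - w n i) U (𝓝 z) := by
    intro i
    obtain ⟨z, hz, hz'⟩ := (isCompact_closedBall (0 : ℂ) (a i)).ultrafilter_le_nhds
      (U.map fun n => u n i - w n i) (by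
        rw [Ultrafilter.coe_map, le_principal_iff, mem_map]
        exact univ_mem' fun n => by simpa using ht n i)
    exact ⟨z, by simpa using hz, hz'⟩
  choose z hz hzt using h2
  have sz : Summable fun j => γ j * ‖z j‖ :=
    Summable.of_nonneg_of_le (fun j => mul_nonneg (γ0 j) (norm_nonneg _))
      (fun j => mul_le_mul_of_nonneg_left (hz j) (γ0 j)) haγ
  have h3 : Tendsto (fun n => ∑' j, γ j * ‖u n j - w n j - z j‖) U (𝓝 0) := by
    have := tendsto_tsum_of_dominated_convergence (𝓕 := U)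
      (f := fun n j => γ j * ‖u n j - w n j - z j‖) (g := fun _ => (0 : ℝ))
      (bound := fun j => 2 * (γ j * a j)) (haγ.mul_left 2) (fun j => by
        have := ((tendsto_sub_nhds_zero_iff.2 (hzt j)).norm).const_mul (γ j)
        simpa using this) (Eventually.of_forall fun n j => by
        rw [Real.norm_of_nonneg (mul_nonneg (γ0 j) (norm_nonneg _))]
        have b1 := norm_sub_le (u n j - w n j) (z j)
        have b2 := ht n j
        have b3 := hz j
        have := γ0 j
        nlinarith)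
    simpa using this
  have h4 : Tendsto (fun n => ∑' j, γ j * ‖u n j - z j‖) U (𝓝 0) := by
    have b1 : Tendsto (fun n : ℕ => 1 / ((n : ℝ) + 1)) U (𝓝 0) :=
      tendsto_one_div_add_atTop_nhds_zero_nat.mono_left hU
    have b2 := h3.add b1
    rw [add_zero] at b2
    refine squeeze_zero (fun n => tsum_nonneg fun j => mul_nonneg (γ0 j) (norm_nonneg _))
      (fun n => ?_) b2
    have s1 := wsum_sub hγ (wsum_sub hγ (su n) (sw n)) sz
    refine le_trans ?_ (add_le_add le_rfl (hw1 n))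
    rw [← s1.tsum_add (sw n)]
    refine (wsum_sub hγ (su n) sz).tsum_le_tsum (fun j => ?_) (s1.add (sw n))
    rw [← mul_add]
    refine mul_le_mul_of_nonneg_left ?_ (γ0 j)
    have : u n j - z j = (u n j - w n j - z j) + w n j := by ring
    rw [this]
    exact norm_add_le _ _
  have h5 : z = 0 := by
    refine inj z sz fun i => ?_
    refine tendsto_nhds_unique (hzt i) ?_
    have b1 : ∀ᶠ n in (U : Filter ℕ), ∑' j, C i j * u n j = u n i - w n i := by
      filter_upwards [hU (eventually_ge_atTop i)] with n hn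
      rw [huw n i (le_trans hn (hN n)), sub_sub_cancel]
    refine Tendsto.congr' b1 ?_
    rw [← tendsto_sub_nhds_zero_iff]
    refine squeeze_zero_norm (fun n => ?_) (by simpa using h4.const_mul (a i))
    rw [← Summable.tsum_sub (row_summable ha hγ hC (su n) i).of_norm (row_summable ha hγ hC sz i).of_norm]
    simp only [← mul_sub]
    exact row_le ha hγ hC (wsum_sub hγ (su n) sz) i
  simp only [h5, Pi.zero_apply, sub_zero, hu1] at h4
  exact zero_ne_one (tendsto_nhds_unique h4 tendsto_const_nhds)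

include haγ in
theorem section_conv
    (inj : ∀ u : ℕ → ℂ, (Summable fun j => γ j * ‖u j‖) → (∀ i, u i = ∑' j, C i j * u j) → u = 0)
    {v : ℕ → ℂ} {κ : ℂ} (hv : Summable fun j => γ j * ‖v j‖)
    (hveq : ∀ i, v i - ∑' j, C i j * v j = if i = 0 then κ else 0) :
    ∃ D : ℝ, ∃ N0 : ℕ, 0 ≤ D ∧ ∀ N, N0 ≤ N → ∀ M : Matrix (Fin (N + 1)) (Fin (N + 1)) ℂ,
      (∀ i j, M i j = (if i = j then 1 else 0) - C i j) → M.det ≠ 0 ∧
      ∀ r : ℕ → ℂ, (∀ j, ‖r j‖ ≤ 1) →
        ‖κ * (M.updateRow 0 fun j => r j).det / M.det - ∑' j, r j * v j‖ ≤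
          D * ∑' m, γ (m + (N + 1)) * ‖v (m + (N + 1))‖ := by
  classical
  have γ0 : ∀ j, 0 ≤ γ j := fun j => by linarith [hγ j]
  obtain ⟨D, N0, hD, hb⟩ := bound_below ha hγ hC haγ inj
  have A0 : 0 ≤ ∑' i, γ i * a i := tsum_nonneg fun i => mul_nonneg (γ0 i) (ha i)
  refine ⟨D * (∑' i, γ i * a i) + 1, N0, by positivity, fun N hN M hM => ?_⟩
  let ext : (Fin (N + 1) → ℂ) → ℕ → ℂ := fun x i => if h : i < N + 1 then x ⟨i, h⟩ else 0
  have ext0 : ∀ x i, N < i → ext x i = 0 := fun x i hi => dif_neg (by omega)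
  have ext1 : ∀ x (i : Fin (N + 1)), ext x i = x i := fun x i => dif_pos i.2
  have extsum : ∀ (x : Fin (N + 1) → ℂ) (r : ℕ → ℂ), ∑' j, r j * ext x j = ∑ j : Fin (N + 1), r j * x j := by
    intro x r
    rw [tsum_eq_sum (s := Finset.range (N + 1)) fun j hj => by rw [ext0 x j (by simpa using hj), mul_zero],
      Finset.sum_range]
    exact Finset.sum_congr rfl fun j _ => by rw [ext1]
  have mv : ∀ (x : Fin (N + 1) → ℂ) (i : Fin (N + 1)),
      M.mulVec x i = ext x i - ∑' j, C i j * ext x j := by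
    intro x i
    rw [extsum, ext1, Matrix.mulVec, dotProduct]
    simp only [hM, sub_mul, Finset.sum_sub_distrib, ite_mul, one_mul, zero_mul, Finset.sum_ite_eq,
      Finset.mem_univ, if_true]
  have hdet : M.det ≠ 0 := by
    intro h0
    obtain ⟨x, hx, hx0⟩ := Matrix.exists_mulVec_eq_zero_iff.2 h0
    have b1 := hb N hN (ext x) 0 (ext0 x) (fun _ _ => rfl) (fun i hi => by
      have := mv x ⟨i, by omega⟩
      rw [hx0] at this
      exact this)
    simp only [Pi.zero_apply, norm_zero, mul_zero, tsum_zero] at b1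
    apply hx
    funext i
    have b2 := (wsum_fin (γ := γ) (ext0 x)).le_tsum i fun j _ => mul_nonneg (γ0 j) (norm_nonneg _)
    rw [ext1] at b2
    have b3 := hγ i
    have b4 := norm_nonneg (x i)
    have : ‖x i‖ ≤ 0 := by nlinarith
    exact norm_le_zero_iff.1 this
  refine ⟨hdet, fun r hr => ?_⟩
  have hU : IsUnit M.det := isUnit_iff_ne_zero.2 hdet
  set x : Fin (N + 1) → ℂ := M⁻¹.mulVec (Pi.single 0 κ) with hx
  have hx1 : M.mulVec x = Pi.single 0 κ := by
    rw [hx, Matrix.mulVec_mulVec, Matrix.mul_nonsing_inv _ hU, Matrix.one_mulVec]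
  have cr : κ * (M.updateRow 0 fun j => r j).det / M.det = ∑' j, r j * ext x j := by
    set c : Fin (N + 1) → ℂ := Matrix.vecMul (fun j : Fin (N + 1) => r j) M⁻¹ with hc
    have b1 : (fun j : Fin (N + 1) => r j) = ∑ k, c k • M k := by
      have : Matrix.vecMul c M = fun j : Fin (N + 1) => r j := by
        rw [hc, Matrix.vecMul_vecMul, Matrix.nonsing_inv_mul _ hU, Matrix.vecMul_one]
      rw [← this]
      funext j
      simp [Matrix.vecMul, dotProduct, Finset.sum_apply]
    rw [extsum]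
    conv_lhs => rw [b1, Matrix.det_updateRow_sum]
    have b2 : ∑ j : Fin (N + 1), r j * x j = c 0 * κ := by
      change (fun j : Fin (N + 1) => r j) ⬝ᵥ x = _
      rw [hx, Matrix.dotProduct_mulVec, ← hc, dotProduct_single]
    rw [b2, smul_eq_mul]
    field_simp
  set tl : ℕ → ℂ := fun i => if N < i then v i else 0 with htl
  have stl : Summable fun j => γ j * ‖tl j‖ :=
    Summable.of_nonneg_of_le (fun j => mul_nonneg (γ0 j) (norm_nonneg _))
      (fun j => mul_le_mul_of_nonneg_left (by simp only [htl]; split_ifs <;> simp) (γ0 j)) hv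
  have tl1 : ∑' j, γ j * ‖tl j‖ = ∑' m, γ (m + (N + 1)) * ‖v (m + (N + 1))‖ := by
    rw [← stl.sum_add_tsum_nat_add (N + 1), Finset.sum_eq_zero, zero_add]
    · exact tsum_congr fun m => by simp only [htl]; rw [if_pos (by omega)]
    · intro j hj
      have : ¬ N < j := by have := Finset.mem_range.1 hj; omega
      simp [htl, this]
  rw [← tl1, cr]
  set τ := ∑' j, γ j * ‖tl j‖ with hτ
  have τ0 : 0 ≤ τ := tsum_nonneg fun j => mul_nonneg (γ0 j) (norm_nonneg _)
  set u : ℕ → ℂ := fun i => ext x i - v i + tl i with hu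
  have u0 : ∀ i, N < i → u i = 0 := fun i hi => by simp [hu, ext0 x i hi, htl, hi]
  have su : Summable fun j => γ j * ‖u j‖ := wsum_fin u0
  have sx : Summable fun j => γ j * ‖ext x j‖ := wsum_fin (ext0 x)
  set w : ℕ → ℂ := fun i => if N < i then 0 else -∑' j, C i j * tl j with hw
  have b1 := hb N hN u w u0 (fun i hi => by simp [hw, hi]) (by
    intro i hi
    have c1 := mv x ⟨i, by omega⟩
    rw [hx1] at c1
    have c2 := hveq i
    have c3 : ∑' j, C i j * u j = ∑' j, C i j * ext x j - ∑' j, C i j * v j + ∑' j, C i j * tl j := by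
      have d1 := (row_summable ha hγ hC sx i).of_norm
      have d2 := (row_summable ha hγ hC hv i).of_norm
      rw [← d1.tsum_sub d2, ← (d1.sub d2).tsum_add (row_summable ha hγ hC stl i).of_norm]
      exact tsum_congr fun j => by simp only [hu]; ring
    have c4 : (Pi.single 0 κ : Fin (N + 1) → ℂ) ⟨i, by omega⟩ = if i = 0 then κ else 0 := by
      rw [Pi.single_apply]
      simp [Fin.ext_iff]
    have c5 : ¬ N < i := by omega
    rw [c4] at c1
    simp only [hw, hu, htl, if_neg c5] at c3 ⊢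
    rw [c3]
    simp only at c1
    linear_combination c2 + c1)
  have b2 : ∑' j, γ j * ‖w j‖ ≤ (∑' i, γ i * a i) * τ := by
    rw [← tsum_mul_right]
    have c1 : ∀ j, γ j * ‖w j‖ ≤ γ j * a j * τ := by
      intro j
      rw [mul_assoc]
      refine mul_le_mul_of_nonneg_left ?_ (γ0 j)
      simp only [hw]
      split_ifs
      · simpa using mul_nonneg (ha j) τ0
      · rw [norm_neg]; exact row_le ha hγ hC stl j
    exact (wsum_fin (N := N) fun i hi => by simp [hw, hi]).tsum_le_tsum c1 (haγ.mul_right τ)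
  have r1 : ∀ i j : ℕ, ‖r j‖ ≤ 1 * γ j := fun _ j => by linarith [hr j, hγ j]
  have rs := fun (z : ℕ → ℂ) (hz : Summable fun j => γ j * ‖z j‖) =>
    row_summable (C := fun _ j => r j) (a := fun _ => 1) (fun _ => zero_le_one) hγ r1 hz 0
  have rl := fun (z : ℕ → ℂ) (hz : Summable fun j => γ j * ‖z j‖) =>
    row_le (C := fun _ j => r j) (a := fun _ => 1) (fun _ => zero_le_one) hγ r1 hz 0
  have b3 : ∑' j, r j * ext x j - ∑' j, r j * v j = ∑' j, r j * u j - ∑' j, r j * tl j := by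
    rw [← (rs _ sx).of_norm.tsum_sub (rs _ hv).of_norm, ← (rs _ su).of_norm.tsum_sub (rs _ stl).of_norm]
    exact tsum_congr fun j => by simp only [hu]; ring
  rw [b3]
  have b4 := rl _ su
  have b5 := rl _ stl
  have b6 := norm_sub_le (∑' j, r j * u j) (∑' j, r j * tl j)
  have b7 := mul_le_mul_of_nonneg_left b2 hD
  simp only [one_mul] at b4 b5
  rw [← hτ] at b5
  nlinarith

end

end Pool.Agent.P.MP_386d8e_pr
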