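import Pool.Agent.P.MP_386d8e_pr.Core
import Pool.Agent.P.MP_386d8e_pr.Sect

set_option autoImplicit false

open MeasureTheory Filter Topology

namespace Pool.Agent.P.MP_386d8e_pr

theorem dsum {ι S : Type*} {v : ι → ℂ} {d : ι → S → ℂ} {E : ι → ℝ} {w : S → ℝ} (hw : ∀ s, 1 ≤ w s)
    (h1 : ∀ j, Summable fun s => ‖d j s‖ * w s) (h2 : ∀ j, ∑' s, ‖d j s‖ * w s ≤ E j)
    (hv : Summable fun j => ‖v j‖ * E j) :
    (Summable fun s => ‖∑' j, v j * d j s‖ * w s) ∧
    ∀ (g : S → ℂ) (G : ι → ℂ), (∀ s, ‖g s‖ ≤ 1) → (∀ j, HasSum (fun s => d j s * g s) (G j)) →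
      (Summable fun j => v j * G j) ∧ HasSum (fun s => (∑' j, v j * d j s) * g s) (∑' j, v j * G j) := by
  have w0 : ∀ s, 0 ≤ w s := fun s => zero_le_one.trans (hw s)
  have s1 : Summable fun p : ι × S => ‖v p.1‖ * (‖d p.1 p.2‖ * w p.2) :=
    (summable_prod_of_nonneg (f := fun p : ι × S => ‖v p.1‖ * (‖d p.1 p.2‖ * w p.2))
      fun p => mul_nonneg (norm_nonneg _) (mul_nonneg (norm_nonneg _) (w0 _))).2
      ⟨fun j => (h1 j).mul_left ‖v j‖, by
        simp only [tsum_mul_left]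
        exact Summable.of_nonneg_of_le
          (fun j => mul_nonneg (norm_nonneg _) (tsum_nonneg fun s => mul_nonneg (norm_nonneg _) (w0 s)))
          (fun j => mul_le_mul_of_nonneg_left (h2 j) (norm_nonneg _)) hv⟩
  constructor
  · have s2 := s1.prod_symm
    refine Summable.of_nonneg_of_le (fun s => mul_nonneg (norm_nonneg _) (w0 s)) (fun s => ?_) s2.prod
    have s3 : Summable fun j => ‖v j‖ * (‖d j s‖ * w s) := s2.prod_factor s
    have s4 : Summable fun j => ‖v j * d j s‖ :=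
      Summable.of_nonneg_of_le (fun _ => norm_nonneg _) (fun j => by
        rw [norm_mul]
        exact mul_le_mul_of_nonneg_left (le_mul_of_one_le_right (norm_nonneg _) (hw s)) (norm_nonneg _)) s3
    refine (mul_le_mul_of_nonneg_right (norm_tsum_le_tsum_norm s4) (w0 s)).trans (le_of_eq ?_)
    rw [← tsum_mul_right]
    exact tsum_congr fun j => by simp only [norm_mul, Prod.fst_swap, Prod.snd_swap]; ring
  · intro g G hg hG
    have s2 : Summable fun p : ι × S => v p.1 * (d p.1 p.2 * g p.2) :=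
      Summable.of_norm_bounded s1 fun p => by
        rw [norm_mul, norm_mul]
        exact mul_le_mul_of_nonneg_left
          (mul_le_mul_of_nonneg_left ((hg _).trans (hw _)) (norm_nonneg _)) (norm_nonneg _)
    have s3 := s2.hasSum.prod_fiberwise fun j => (hG j).mul_left (v j)
    have s4 : HasSum (fun p : S × ι => v p.2 * (d p.2 p.1 * g p.1)) (∑' j, v j * G j) := by
      rw [s3.tsum_eq]
      exact (Equiv.prodComm S ι).hasSum_iff.2 s2.hasSum
    refine ⟨s3.summable, s4.prod_fiberwise fun t => ?_⟩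
    refine hs_congr (s4.summable.prod_factor t).hasSum (fun _ => rfl) ?_
    rw [← tsum_mul_right]
    exact tsum_congr fun s => by ring

theorem wsum_norm {v : ℕ → ℂ} (hv : Summable fun j : ℕ => (1 + (j : ℝ)) * ‖v j‖) :
    Summable fun j => ‖v j‖ :=
  Summable.of_nonneg_of_le (fun _ => norm_nonneg _)
    (fun j => le_mul_of_one_le_left (norm_nonneg _) (by linarith [Nat.cast_nonneg (α := ℝ) j])) hv

theorem pow_summable {v : ℕ → ℂ} (hv : Summable fun j => ‖v j‖) {x : ℂ} (hx : ‖x‖ ≤ 1) :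
    Summable fun j => v j * x ^ j :=
  Summable.of_norm_bounded hv fun j => by
    rw [norm_mul, norm_pow]
    exact mul_le_of_le_one_right (norm_nonneg _) (pow_le_one₀ (norm_nonneg _) hx)

namespace Setup

variable {P : Model} {S : Setup P} (T : S.Stable)

theorem Stable.exists_mix {r : ℝ} (r0 : S.α * T.m1 < r) (r1 : r ≤ 1) :
    (∃ C : ℝ, 1 ≤ C ∧ ∀ i j : ℕ, ‖P.t i j‖ ≤ C * S.α ^ i * (1 + j)) ∧
    ∀ v : ℕ → ℂ, (Summable fun j : ℕ => (1 + (j : ℝ)) * ‖v j‖) → ∀ K : ℂ → ℂ,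
      (∀ x : ℂ, ‖x‖ ≤ 1 → HasSum (fun j => v j * x ^ j) (K x)) →
      ∃ (C : ℝ) (c : ℕ × ℤ → ℂ) (F : ℂ → ℂ → ℂ), Lr r C c F ∧
        F 1 1 * ((1 - S.α * T.m1 - S.β * (T.n1 + T.n2 + T.m2) : ℝ) : ℂ) =
          K 1 * ((1 - S.α * T.m1 - S.β * T.m2 : ℝ) : ℂ) ∧
        (∀ x y : ℂ, ‖x‖ ≤ 1 → ‖y‖ = 1 → F x y = P.A x y * F (P.h y x) y + P.B x y * K x) ∧
        (Summable fun i => ‖∑' j, P.t i j * v j‖) ∧
        ∀ x : ℂ, ‖x‖ ≤ 1 → HasSum (fun i => (∑' j, P.t i j * v j) * x ^ i) (P.T K x) := by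
  obtain ⟨C, hC⟩ := T.exists_mono r0 r1
  choose c F hL h1 hF using hC
  have ht := fun j => S.t_rep (hL j) (hF j)
  have hα := S.hα
  refine ⟨⟨max 1 C, le_max_left _ _, fun i j => ((ht j).1 i).trans ?_⟩, fun v hv K hK => ?_⟩
  · rw [mul_right_comm]
    exact mul_le_mul_of_nonneg_right (mul_le_mul_of_nonneg_right (le_max_right _ _) (by positivity))
      (by positivity)
  have hv' : ∀ D : ℝ, Summable fun j : ℕ => ‖v j‖ * (D * (1 + (j : ℝ))) := fun D =>
    (hv.mul_left D).congr fun j => by ring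
  obtain ⟨a1, a2⟩ := dsum (one_le_wt r) (fun j => (hL j).sm) (fun j => (hL j).le) (hv' C)
  have a3 := fun (x y : ℂ) (hx : ‖x‖ ≤ 1) (hy : ‖y‖ = 1) =>
    a2 (fun s => x ^ s.1 * y ^ s.2) (fun j => F j x y) (fun s => norm_mono_le' hx hy s.1 s.2)
      fun j => (hL j).rep x y hx hy
  have L : Lr r _ (fun s => ∑' j, v j * c j s) fun x y => ∑' j, v j * F j x y :=
    ⟨a1, le_rfl, fun x y hx hy => (a3 x y hx hy).2⟩
  have E : ∀ x y : ℂ, ‖x‖ ≤ 1 → ‖y‖ = 1 → ∑' j, v j * F j x y =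
      P.A x y * ∑' j, v j * F j (P.h y x) y + P.B x y * K x := by
    intro x y hx hy
    refine (hs_congr (((a3 _ y (S.h_le hx hy.le) hy).1.hasSum.mul_left (P.A x y)).add
      ((hK x hx).mul_left (P.B x y))) (fun j => ?_) rfl).tsum_eq
    rw [hF j x y hx hy]
    ring
  have g := hasSum_geometric_of_lt_one S.hα.le S.α_lt
  obtain ⟨b1, b2⟩ := dsum (v := v) (d := fun j i => P.t i j) (w := fun _ => 1)
    (E := fun j => (C * (1 - S.α)⁻¹) * (1 + j)) (fun _ => le_rfl)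
    (fun j => by simpa using S.geo_sum (ht j).1) (fun j => by
      simp only [mul_one]
      refine hasSum_le (ht j).1 (S.geo_sum (ht j).1).hasSum (hs_congr (g.mul_left _) (fun _ => rfl) ?_)
      ring) (hv' _)
  obtain ⟨-, b3⟩ := dsum (v := v) (d := fun j i => c j (i, 0)) (w := fun _ => 1)
    (E := fun j => C * (1 + j)) (fun _ => le_rfl)
    (fun j => by simpa using (hL j).lev0.1) (fun j => by simpa using (hL j).lev0.2) (hv' _)
  refine ⟨_, _, _, L, ?_, E, by simpa only [mul_one, mul_comm, one_mul] using b1, fun x hx => ?_⟩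
  · rw [← tsum_mul_right, ← (hK 1 (by simp)).tsum_eq, ← tsum_mul_right]
    exact tsum_congr fun j => by rw [mul_assoc, h1 j, one_pow, mul_one]
  · have c1 := (b2 (fun i => x ^ i) _ (fun i => by
      rw [norm_pow]; exact pow_le_one₀ (norm_nonneg _) hx) fun j => (ht j).2 x hx).2
    have c2 := (b3 (fun i => S.s1 (S.α * x) * S.b1 (S.α * x) ^ i) _ (fun i =>
      ((S.S1.comp W.fst).mul1 ((S.B1.comp W.fst).pow1 i)).bound (y := 0) (S.αx_le hx) (by simp))
      fun j => S.T_eq (hL j) (K := fun z => z ^ j) (hF j) (S.αx_le hx)).2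
    have c3 := S.T_eq L E (S.αx_le hx)
    refine hs_congr c1 (fun i => ?_) (c3.unique c2)
    simp only [mul_comm]

include T in
theorem Stable.inj (u : ℕ → ℂ) (hu : Summable fun j : ℕ => (1 + (j : ℝ)) * ‖u j‖)
    (h0 : ∑' j, u j = 0) (h : ∀ i, i ≠ 0 → u i = ∑' j, P.t i j * u j) : u = 0 := by
  have ρ0 := T.rho_nonneg
  have ρ1 := T.rho_lt
  obtain ⟨p, a, p0, p1, ya, hp, ha⟩ := T.fix ((S.α * T.m1 + 1) / 2) (by linarith) (by linarith)
  have hu' := wsum_norm hu
  obtain ⟨C, c, F, hL, h1, hF, h2, h3⟩ := (T.exists_mix (r := (S.α * T.m1 + 1) / 2) (by linarith)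
    (by linarith)).2 u hu (fun x => ∑' j, u j * x ^ j) fun x hx => (pow_summable hu' hx).hasSum
  have he : ∀ x : ℂ, ‖x‖ ≤ 1 →
      P.T (fun x => ∑' j, u j * x ^ j) x - ∑' j, u j * x ^ j = ∑' j, P.t 0 j * u j - u 0 := by
    intro x hx
    refine ((h3 x hx).sub (pow_summable hu' hx).hasSum).unique ?_
    have := hasSum_single (f := fun i => (∑' j, P.t i j * u j) * x ^ i - u i * x ^ i) 0 fun i hi => by
      rw [← h i hi, sub_self]
    simpa using this
  have F1 : F 1 1 = 0 := by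
    simp only [one_pow, mul_one, h0, zero_mul] at h1
    refine (mul_eq_zero.1 h1).resolve_right ?_
    have : 1 - S.α * T.m1 - S.β * (T.n1 + T.n2 + T.m2) ≠ 0 := by linarith [T.st]
    exact_mod_cast this
  obtain ⟨e0, c0⟩ := S.core p0 p1 (by linarith) (by linarith) ya (by rw [S.h_eq]; exact hp) ha hL hF he F1
  funext i
  refine coeff_nat u hu' (fun x hx => ?_) i
  have b1 := S.T_eq hL hF (S.αx_le hx.le)
  simp only [c0, zero_mul] at b1
  have b2 := he x hx.le
  rw [e0, b1.unique hasSum_zero, zero_sub, neg_eq_zero] at b2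
  exact b2 ▸ (pow_summable hu' hx.le).hasSum

end Setup

end Pool.Agent.P.MP_386d8e_pr
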