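import Pool.Agent.P.MP_386d8e_pr.Laur

set_option autoImplicit false

open MeasureTheory Filter Topology

namespace Pool.Agent.P.MP_386d8e_pr

namespace Setup

variable {P : Model} {S : Setup P} (T : S.Stable)

theorem Stable.m1_nonneg : 0 ≤ T.m1 := T.h1.nonneg fun n => mul_nonneg (Nat.cast_nonneg n) (S.B1.nonneg n)
theorem Stable.m2_nonneg : 0 ≤ T.m2 := T.h2.nonneg fun n => mul_nonneg (Nat.cast_nonneg n) (S.B2.nonneg n)
theorem Stable.n1_nonneg : 0 ≤ T.n1 := T.k1.nonneg fun n => mul_nonneg (Nat.cast_nonneg n) (S.S1.nonneg n)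
theorem Stable.n2_nonneg : 0 ≤ T.n2 := T.k2.nonneg fun n => mul_nonneg (Nat.cast_nonneg n) (S.S2.nonneg n)

theorem Stable.rho_nonneg : 0 ≤ S.α * T.m1 := mul_nonneg S.hα.le T.m1_nonneg

theorem Stable.rho_lt : S.α * T.m1 < 1 := by
  have := mul_nonneg S.hβ.le (add_nonneg (add_nonneg T.n1_nonneg T.n2_nonneg) T.m2_nonneg)
  linarith [T.st]

theorem z_one (S : Setup P) (k : ℕ) : (P.h 1)^[k] 1 = 1 := by
  refine Function.iterate_fixed ?_ k
  have : (S.α : ℂ) + S.β = 1 := by exact_mod_cast S.hαβ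
  rw [S.h_eq, mul_one, mul_one, this, S.B1.one]

theorem Stable.W_step (k : ℕ) :
    W (2 * (S.α * T.m1) ^ k) fun x y => (P.h y)^[k + 1] x - (P.h y)^[k] x := by
  induction k with
  | zero => exact ((S.W_z 1).sub (S.W_z 0)).mono (by norm_num)
  | succ k ih =>
    have := S.B1.comp_sub T.h1 (S.lin (S.W_z (k + 1))) (S.lin (S.W_z k)) (S.lin_sub ih)
    refine (this.congr fun x y _ _ => ?_).mono (le_of_eq (by ring))
    rw [← S.h_eq, ← S.h_eq, ← Function.iterate_succ_apply' (P.h y),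
      ← Function.iterate_succ_apply' (P.h y)]

theorem Stable.exists_pi : ∃ (π : ℂ → ℂ → ℂ) (c : ℝ), W 1 π ∧
    (∀ k, W (c * (S.α * T.m1) ^ k) fun x y => (P.h y)^[k] x - π x y) ∧ π 1 1 = 1 ∧
    ∀ x y : ℂ, ‖x‖ ≤ 1 → ‖y‖ ≤ 1 → P.h y (π x y) = π x y ∧ π (P.h y x) y = π x y := by
  have ρ0 := T.rho_nonneg
  have ρ1 := T.rho_lt
  set ρ := S.α * T.m1 with hρ
  have g := hasSum_geometric_of_lt_one ρ0 ρ1
  let π : ℂ → ℂ → ℂ := fun x y => x + ∑' k, ((P.h y)^[k + 1] x - (P.h y)^[k] x)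
  have h1 : ∀ k, W (2 * (1 - ρ)⁻¹ * ρ ^ k) fun x y => (P.h y)^[k] x - π x y := by
    intro k
    have a1 := (W.tsum (fun j => T.W_step (j + k))
      (hs_congr (g.mul_left (2 * ρ ^ k)) (fun j => by rw [← hρ]; ring) rfl)).neg
    refine (a1.congr fun x y hx hy => ?_).mono (le_of_eq (by ring))
    have a2 := (W.summable T.W_step (g.summable.mul_left 2) hx hy).sum_add_tsum_nat_add k
    rw [Finset.sum_range_sub (fun j => (P.h y)^[j] x)] at a2
    simp only [π, ← a2, Function.iterate_zero_apply]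
    ring
  have t0 : Tendsto (fun k => 2 * (1 - ρ)⁻¹ * ρ ^ k) atTop (𝓝 0) := by
    simpa using (tendsto_pow_atTop_nhds_zero_of_lt_one ρ0 ρ1).const_mul (2 * (1 - ρ)⁻¹)
  have h2 : W 1 π := W.of_forall_gt fun ε hε => by
    obtain ⟨k, hk⟩ := (t0.eventually (gt_mem_nhds hε)).exists
    exact (((S.W_z k).sub (h1 k)).congr fun _ _ _ _ => by ring).mono (by linarith)
  have h3 : ∀ x y : ℂ, ‖x‖ ≤ 1 → ‖y‖ ≤ 1 → Tendsto (fun k => (P.h y)^[k] x) atTop (𝓝 (π x y)) :=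
    fun x y hx hy => tendsto_sub_nhds_zero_iff.1 (squeeze_zero_norm (fun k => (h1 k).bound hx hy) t0)
  refine ⟨π, _, h2, h1, ?_, fun x y hx hy => ⟨?_, ?_⟩⟩
  · simp only [π, S.z_one, sub_self, tsum_zero, add_zero]
  · have a1 := (S.W_h W.fst).tendsto (v := fun _ => y) (fun k => S.z_le k hx hy) (fun _ => hy)
      (h3 x y hx hy) tendsto_const_nhds
    simp only [← Function.iterate_succ_apply' (P.h y)] at a1
    exact tendsto_nhds_unique a1 ((h3 x y hx hy).comp (tendsto_add_atTop_nat 1))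
  · exact tendsto_nhds_unique (h3 _ y (S.h_le hx hy) hy)
      ((h3 x y hx hy).comp (tendsto_add_atTop_nat 1))

theorem Stable.exists_H {π : ℂ → ℂ → ℂ} (hπ : W 1 π)
    (hfix : ∀ x y : ℂ, ‖x‖ ≤ 1 → ‖y‖ ≤ 1 → P.h y (π x y) = π x y) :
    ∃ (H : ℂ → ℂ → ℂ) (C : ℝ), W C (fun x y => H (π x y) y) ∧
      H 1 1 * ((1 - S.α * T.m1 - S.β * (T.n1 + T.n2 + T.m2) : ℝ) : ℂ) =
        ((1 - S.α * T.m1 - S.β * T.m2 : ℝ) : ℂ) ∧
      ∀ x y : ℂ, ‖x‖ ≤ 1 → ‖y‖ ≤ 1 → H (π x y) y * (y - S.a (π x y) y) = S.bb (π x y) y := by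
  obtain ⟨g1, g1a, g1b, -, g1c⟩ := S.B1.exists_tilde T.h1
  obtain ⟨g2, g2a, g2b, -, g2c⟩ := S.B2.exists_tilde T.h2
  obtain ⟨t1, t1a, t1b, -, t1c⟩ := S.S1.exists_tilde T.k1
  obtain ⟨t2, t2a, t2b, -, t2c⟩ := S.S2.exists_tilde T.k2
  have hl := S.lin hπ
  have nα : ‖(S.α : ℂ)‖ = S.α := by rw [Complex.norm_real, Real.norm_of_nonneg S.hα.le]
  have nβ : ‖(S.β : ℂ)‖ = S.β := by rw [Complex.norm_real, Real.norm_of_nonneg S.hβ.le]
  let E : ℂ → ℂ := fun z => S.α * g1 z + S.β * (t1 z + S.s1 z * t2 z + S.s1 z * (S.s2 z * g2 z))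
  have hE : W (S.α * T.m1 + S.β * (T.n1 + T.n2 + T.m2)) fun x y => E (S.α * π x y + S.β * y) := by
    have := ((g1c _ hl).cmul S.α).add (((((t1c _ hl).add ((S.S1.comp hl).mul1 (t2c _ hl))).add
      ((S.S1.comp hl).mul1 ((S.S2.comp hl).mul1 (g2c _ hl))))).cmul S.β)
    rwa [nα, nβ] at this
  have hαβ : (S.α : ℂ) + S.β = 1 := by exact_mod_cast S.hαβ
  refine ⟨fun p y => S.s2 (S.α * p + S.β * y) *
    ((1 - S.α * g1 (S.α * p + S.β * y) - S.β * g2 (S.α * p + S.β * y)) *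
      (1 - E (S.α * p + S.β * y))⁻¹), _, (S.S2.comp hl).mul1
      (((W.one.sub ((g1c _ hl).cmul S.α)).sub ((g2c _ hl).cmul S.β)).mul (hE.inv_one_sub T.st)),
      ?_, fun x y hx hy => ?_⟩
  · have e : (1 - E 1) = ((1 - S.α * T.m1 - S.β * (T.n1 + T.n2 + T.m2) : ℝ) : ℂ) := by
      simp only [E, g1b, g2b, t1b, t2b, S.S1.one, S.S2.one]
      push_cast
      ring
    have e0 : ((1 - S.α * T.m1 - S.β * (T.n1 + T.n2 + T.m2) : ℝ) : ℂ) ≠ 0 := by
      have : 1 - S.α * T.m1 - S.β * (T.n1 + T.n2 + T.m2) ≠ 0 := by linarith [T.st]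
      exact_mod_cast this
    simp only [mul_one, hαβ, S.S2.one, one_mul, e, g1b, g2b]
    rw [mul_assoc, inv_mul_cancel₀ e0]
    push_cast
    ring
  · have a0 := hl.bound hx hy
    have e0 : 1 - E (S.α * π x y + S.β * y) ≠ 0 := by
      intro h
      have b1 := lt_of_le_of_lt (hE.bound hx hy) T.st
      have : E (S.α * π x y + S.β * y) = 1 := by linear_combination -h
      simp [this] at b1
    have a1 := g1a _ a0
    have a2 := g2a _ a0
    have a3 := t1a _ a0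
    have a4 := t2a _ a0
    rw [← S.h_eq, hfix x y hx hy] at a1
    simp only [Setup.a, Setup.bb]
    set l := (S.α * π x y + S.β * y : ℂ) with hl'
    have β0 : (S.β : ℂ) ≠ 0 := by exact_mod_cast S.hβ.ne'
    have i1 : S.β * (y - S.s1 l * S.s2 l * S.b2 l) = -((1 - l) * (1 - E l)) := by
      simp only [E]
      linear_combination S.α * a1 + S.β * a3 + S.β * S.s1 l * a4 + S.β * S.s1 l * S.s2 l * a2 - hl' - hαβ
    have i2 : S.β * (y - S.b2 l) = -((1 - l) * (1 - S.α * g1 l - S.β * g2 l)) := by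
      linear_combination S.α * a1 + S.β * a2 - hl' - hαβ
    refine mul_left_cancel₀ β0 ?_
    have i3 : (1 - E l)⁻¹ * (1 - E l) = 1 := inv_mul_cancel₀ e0
    linear_combination S.s2 l * ((1 - S.α * g1 l - S.β * g2 l) * (1 - E l)⁻¹) * i1 - S.s2 l * i2 -
      S.s2 l * (1 - l) * (1 - S.α * g1 l - S.β * g2 l) * i3

/-- the solution for a monomial is an absolutely convergent Laurent series -/
theorem Stable.exists_mono {r : ℝ} (r0 : S.α * T.m1 < r) (r1 : r ≤ 1) :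
    ∃ C : ℝ, ∀ j : ℕ, ∃ (c : ℕ × ℤ → ℂ) (F : ℂ → ℂ → ℂ), Lr r (C * (1 + j)) c F ∧
      F 1 1 * ((1 - S.α * T.m1 - S.β * (T.n1 + T.n2 + T.m2) : ℝ) : ℂ) =
        ((1 - S.α * T.m1 - S.β * T.m2 : ℝ) : ℂ) ∧
      ∀ x y : ℂ, ‖x‖ ≤ 1 → ‖y‖ = 1 → F x y = P.A x y * F (P.h y x) y + P.B x y * x ^ j := by
  obtain ⟨π, c, hπ, hc, π1, hfix⟩ := T.exists_pi
  obtain ⟨H, CH, hH, H1, hid⟩ := T.exists_H hπ fun x y hx hy => (hfix x y hx hy).1
  have ρ0 := T.rho_nonneg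
  set ρ := S.α * T.m1 with hρ
  have rp : 0 < r := lt_of_le_of_lt ρ0 r0
  obtain ⟨Ca, La⟩ : ∃ C, Lip C S.a :=
    ⟨_, ((S.lipPG S.S1 T.k1).mul (S.lipPG S.S2 T.k2)).mul (S.lipPG S.B2 T.h2)⟩
  obtain ⟨Cb, Lb⟩ : ∃ C, Lip C S.bb := ⟨_, (S.lipPG S.S2 T.k2).mul (Lip.snd.sub (S.lipPG S.B2 T.h2))⟩
  have c0 : 0 ≤ c := by simpa using (hc 0).nonneg
  have Ca0 : 0 ≤ Ca := (La.bd _ W.fst).nonneg
  have Cb0 : 0 ≤ Cb := (Lb.bd _ W.fst).nonneg
  have CH0 := hH.nonneg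
  have q0 : 0 ≤ ρ * r⁻¹ := by positivity
  have q1 : ρ * r⁻¹ < 1 := by rw [← div_eq_mul_inv, div_lt_one rp]; exact r0
  set D := (Ca * CH + 2 * Cb) * c with hD
  have D0 : 0 ≤ D := by positivity
  refine ⟨CH + D * r⁻¹ * (1 - ρ * r⁻¹)⁻¹, fun j => ?_⟩
  have j0 : (0 : ℝ) ≤ j := Nat.cast_nonneg j
  let G : ℂ → ℂ → ℂ := fun x y => H (π x y) y * π x y ^ j
  have hG : W CH G := by simpa using hH.mul (hπ.pow1 j)
  let U : ℕ → ℂ → ℂ → ℂ := fun k x y => (∏ i ∈ Finset.range k, S.a ((P.h y)^[i] x) y) *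
    ((S.a ((P.h y)^[k] x) y - S.a (π x y) y) * G x y +
      (S.bb ((P.h y)^[k] x) y * ((P.h y)^[k] x) ^ j - S.bb (π x y) y * π x y ^ j))
  have hU : ∀ k, W (D * (1 + j) * ρ ^ k) (U k) := by
    intro k
    refine ((W.prod1 (fun i => S.W_a (S.W_z i)) k).mul1
      (((La.lip _ _ _ (S.W_z k) hπ (hc k)).mul hG).add
        ((Lb.mul (Lip.pow j)).lip _ _ _ (S.W_z k) hπ (hc k)))).mono ?_
    have : 0 ≤ Ca * CH * c * ρ ^ k * j := by positivity
    rw [hD]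
    nlinarith
  let V : ℕ → ℂ → ℂ → ℂ := fun k => Nat.casesOn k G U
  let E : ℕ → ℝ := fun k => Nat.casesOn k (CH * (1 + j)) fun k => D * (1 + j) * ρ ^ k
  have hV : ∀ k, W (E k) (V k) := fun k => by
    cases k with
    | zero => exact hG.mono (by simp only [E, Nat.rec_zero]; nlinarith)
    | succ k => exact hU k
  have hE : HasSum (fun k => E k * r⁻¹ ^ k) ((CH + D * r⁻¹ * (1 - ρ * r⁻¹)⁻¹) * (1 + j)) := by
    rw [← hasSum_nat_add_iff' 1]
    refine hs_congr ((hasSum_geometric_of_lt_one q0 q1).mul_left (D * (1 + j) * r⁻¹))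
      (fun k => ?_) ?_
    · simp only [E, mul_pow, pow_succ]; ring
    · simp only [E, Finset.sum_range_one, Nat.rec_zero]; ring
  obtain ⟨d, hd⟩ := laurent_of hV rp r1 hE
  have sU : ∀ x y : ℂ, ‖x‖ ≤ 1 → ‖y‖ = 1 → Summable fun k => U k x y / y ^ (k + 1) := by
    intro x y hx hy
    refine Summable.of_norm_bounded ((summable_geometric_of_lt_one ρ0 T.rho_lt).mul_left (D * (1 + j)))
      fun k => ?_
    rw [norm_div, norm_pow, hy, one_pow, div_one]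
    exact (hU k).bound hx hy.le
  have sV : ∀ x y : ℂ, ‖x‖ ≤ 1 → ‖y‖ = 1 →
      ∑' k, V k x y / y ^ k = G x y + ∑' k, U k x y / y ^ (k + 1) := by
    intro x y hx hy
    have : Summable fun k => V k x y / y ^ k :=
      (summable_nat_add_iff (f := fun k => V k x y / y ^ k) 1).1 (sU x y hx hy)
    rw [this.tsum_eq_zero_add, pow_zero, div_one]
    rfl
  refine ⟨d, _, hd, ?_, fun x y hx hy => ?_⟩
  · rw [sV 1 1 (by simp) (by simp)]
    simp only [U, G, S.z_one, π1, sub_self, zero_mul, add_zero, mul_zero, zero_div, tsum_zero, one_pow,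
      mul_one]
    exact H1
  · have y0 : y ≠ 0 := fun h => by simp [h] at hy
    have hx' := S.h_le hx hy.le
    rw [sV x y hx hy, sV _ y hx' hy, (sU x y hx hy).tsum_eq_zero_add, mul_add, ← tsum_mul_left]
    have e1 : ∀ k, U (k + 1) x y / y ^ (k + 1 + 1) = P.A x y * (U k (P.h y x) y / y ^ (k + 1)) := by
      intro k
      simp only [U, G, S.A_eq, Finset.prod_range_succ', Function.iterate_succ_apply,
        Function.iterate_zero_apply, (hfix x y hx hy.le).2]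
      field_simp
      ring
    simp only [e1]
    have e2 := hid x y hx hy.le
    simp only [U, G, S.A_eq, S.B_eq _ y0, (hfix x y hx hy.le).2, Finset.prod_range_zero,
      Function.iterate_zero_apply, zero_add, pow_one, one_mul]
    field_simp
    linear_combination π x y ^ j * e2

end Setup

end Pool.Agent.P.MP_386d8e_pr
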