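import Pool.Agent.P.MP_386d8e_pr.Main

set_option autoImplicit false

open Filter Topology Asymptotics Finset

namespace Pool.Agent.P.MP_386d8e_pr

noncomputable section

/-- asymptotic expansion at zero -/
def Ex (f : ℂ → ℂ) (a : ℕ → ℂ) : Prop :=
  ∀ n : ℕ, (fun y => f y - ∑ k ∈ range n, a k * y ^ k) =O[𝓝[≠] (0 : ℂ)] fun y => y ^ n

theorem Ex.congr {f g : ℂ → ℂ} {a b : ℕ → ℂ} (h : Ex f a) (hf : f =ᶠ[𝓝[≠] 0] g)
    (ha : ∀ k, a k = b k) : Ex g b := by
  intro n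
  refine (h n).congr' ?_ EventuallyEq.rfl
  filter_upwards [hf] with y hy
  simp only [hy, ha]

theorem Ex.add {f g : ℂ → ℂ} {a b : ℕ → ℂ} (h : Ex f a) (h' : Ex g b) :
    Ex (fun y => f y + g y) fun k => a k + b k := by
  intro n
  refine ((h n).add (h' n)).congr_left fun y => ?_
  simp only [add_mul, sum_add_distrib]
  ring

theorem Ex.cmul {f : ℂ → ℂ} {a : ℕ → ℂ} (h : Ex f a) (c : ℂ) :
    Ex (fun y => c * f y) fun k => c * a k := by
  intro n
  refine ((h n).const_mul_left c).congr_left fun y => ?_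
  simp only [mul_sub, mul_sum, mul_assoc]

theorem Ex.shift {f : ℂ → ℂ} {a : ℕ → ℂ} (h : Ex f a) :
    Ex (fun y => (f y - a 0) / y) fun k => a (k + 1) := by
  intro n
  have h1 := (h (n + 1)).mul (isBigO_refl (fun y : ℂ => y⁻¹) (𝓝[≠] 0))
  refine h1.congr' ?_ ?_
  · filter_upwards [self_mem_nhdsWithin] with y hy
    have y0 : y ≠ 0 := hy
    rw [sum_range_succ']
    have : ∑ k ∈ range n, a (k + 1) * y ^ (k + 1) = y * ∑ k ∈ range n, a (k + 1) * y ^ k := by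
      rw [mul_sum]
      exact sum_congr rfl fun k _ => by ring
    rw [this]
    field_simp
    ring
  · filter_upwards [self_mem_nhdsWithin] with y hy
    have y0 : y ≠ 0 := hy
    rw [pow_succ, mul_inv_cancel_right₀ y0]

theorem Ex.tendsto {f : ℂ → ℂ} {a : ℕ → ℂ} (h : Ex f a) : Tendsto f (𝓝[≠] 0) (𝓝 (a 0)) := by
  have h0 : Tendsto (fun y : ℂ => y ^ 1) (𝓝[≠] 0) (𝓝 0) := by
    simp only [pow_one]
    exact tendsto_id.mono_left nhdsWithin_le_nhds
  have h1 := (h 1).trans_tendsto h0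
  simpa using h1.add_const (a 0)

theorem Ex.unique {f : ℂ → ℂ} {a b : ℕ → ℂ} (h : Ex f a) (h' : Ex f b) (k : ℕ) : a k = b k := by
  induction k generalizing f a b with
  | zero => exact tendsto_nhds_unique h.tendsto h'.tendsto
  | succ k ih =>
    have e := tendsto_nhds_unique h.tendsto h'.tendsto
    have h2 := h'.shift
    rw [← e] at h2
    exact ih h.shift h2

theorem Ex.const (c : ℂ) : Ex (fun _ => c) fun k => if k = 0 then c else 0 := by
  intro n
  rcases n with _ | n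
  · simp only [range_zero, sum_empty, sub_zero, pow_zero]
    exact isBigO_const_const c (one_ne_zero (α := ℂ)) _
  · refine (isBigO_zero _ _).congr_left fun y => ?_
    rw [sum_range_succ']
    simp

theorem Ex.series {f : ℂ → ℂ} {ψ : ℕ → ℂ → ℂ} {b : ℕ → ℕ → ℂ}
    (h : ∀ n : ℕ, (fun y => f y - ∑ i ∈ range n, ψ i y * y ^ i) =O[𝓝[≠] (0 : ℂ)] fun y => y ^ n)
    (hψ : ∀ i, Ex (ψ i) (b i)) : Ex f fun k => ∑ s ∈ antidiagonal k, b s.1 s.2 := by
  intro n
  have h1 : (fun y : ℂ => ∑ i ∈ range n, (ψ i y - ∑ l ∈ range (n - i), b i l * y ^ l) * y ^ i)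
      =O[𝓝[≠] (0 : ℂ)] fun y => y ^ n := by
    refine IsBigO.fun_sum (A := fun i y => (ψ i y - ∑ l ∈ range (n - i), b i l * y ^ l) * y ^ i)
      fun i hi => ?_
    refine ((hψ i (n - i)).mul (isBigO_refl (fun y : ℂ => y ^ i) _)).congr_right fun y => ?_
    rw [← pow_add, Nat.sub_add_cancel (mem_range.1 hi).le]
  refine ((h n).add h1).congr_left fun y => ?_
  have e : ∑ k ∈ range n, (∑ s ∈ antidiagonal k, b s.1 s.2) * y ^ k =
      ∑ i ∈ range n, (∑ l ∈ range (n - i), b i l * y ^ l) * y ^ i := by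
    simp only [Nat.sum_antidiagonal_eq_sum_range_succ_mk, sum_mul]
    rw [show ∑ i ∈ range n, ∑ l ∈ range (n - i), b i l * y ^ l * y ^ i =
      ∑ i ∈ range n, ∑ l ∈ range (n - i), (fun i l => b i l * y ^ l * y ^ i) i l from rfl,
      ← sum_range_diag_flip]
    refine sum_congr rfl fun k _ => sum_congr rfl fun i hi => ?_
    rw [mul_assoc, ← pow_add, Nat.sub_add_cancel (Nat.lt_succ_iff.1 (mem_range.1 hi))]
  rw [e]
  simp only [sub_mul, sum_sub_distrib]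
  ring

theorem Ex.mul {f g : ℂ → ℂ} {a b : ℕ → ℂ} (h : Ex f a) (h' : Ex g b) :
    Ex (fun y => f y * g y) fun k => ∑ s ∈ antidiagonal k, a s.1 * b s.2 := by
  refine Ex.series (ψ := fun i y => a i * g y) (b := fun i l => a i * b l) (fun n => ?_)
    fun i => h'.cmul (a i)
  have h1 := (h n).mul (h'.tendsto.isBigO_one ℂ)
  refine h1.congr (fun y => ?_) fun y => mul_one _
  simp only [sub_mul, sum_mul]
  congr 1
  exact sum_congr rfl fun k _ => by ring

theorem Ex.of_analytic {f : ℂ → ℂ} {x : ℂ} (hf : AnalyticAt ℂ f x) (c : ℂ) :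
    Ex (fun y => f (x + c * y)) fun l => c ^ l / l.factorial * iteratedDeriv l f x := by
  intro n
  have h1 := hf.hasFPowerSeriesAt.isBigO_sub_partialSum_pow n
  have h2 : Tendsto (fun y : ℂ => c * y) (𝓝[≠] 0) (𝓝 0) := by
    have : Tendsto (fun y : ℂ => c * y) (𝓝 0) (𝓝 (c * 0)) := tendsto_id.const_mul c
    rw [mul_zero] at this
    exact this.mono_left nhdsWithin_le_nhds
  have h3 := h1.comp_tendsto h2
  refine (h3.congr_left fun y => ?_).trans ?_
  · simp only [Function.comp, FormalMultilinearSeries.partialSum,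
      FormalMultilinearSeries.ofScalars_apply_eq, smul_eq_mul]
    congr 1
    exact sum_congr rfl fun k _ => by ring
  · refine IsBigO.of_bound (‖c‖ ^ n) (Eventually.of_forall fun y => ?_)
    simp [mul_pow]

theorem tail_le {a : ℕ → ℂ} {s y : ℂ} (ha : Summable fun k => ‖a k‖) (h1 : ∑' k, ‖a k‖ ≤ 1)
    (hy : ‖y‖ ≤ 1) (hs : HasSum (fun k => a k * y ^ k) s) (n : ℕ) :
    ‖s - ∑ k ∈ range n, a k * y ^ k‖ ≤ ‖y‖ ^ n := by
  have b1 := (hasSum_nat_add_iff' n).2 hs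
  have b2 := ((hasSum_nat_add_iff' n).2 ha.hasSum).mul_right (‖y‖ ^ n)
  refine (b1.norm_le_of_bounded b2 fun k => ?_).trans ?_
  · rw [norm_mul, norm_pow, pow_add]
    refine mul_le_mul_of_nonneg_left ?_ (norm_nonneg _)
    exact mul_le_of_le_one_left (by positivity) (pow_le_one₀ (norm_nonneg _) hy)
  · refine mul_le_of_le_one_left (by positivity) ?_
    have : 0 ≤ ∑ k ∈ range n, ‖a k‖ := sum_nonneg fun _ _ => norm_nonneg _
    linarith

theorem small : ∀ᶠ y : ℂ in 𝓝[≠] 0, ‖y‖ ≤ 1 :=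
  mem_nhdsWithin_of_mem_nhds (by
    filter_upwards [Metric.closedBall_mem_nhds (0 : ℂ) one_pos] with y hy using by simpa using hy)

/-- the coefficient of `y ^ k` in the generating function -/
def col (p : PMF (ℕ × ℕ)) (k : ℕ) (x : ℂ) : ℂ := ∑' i, ((p (i, k)).toReal : ℂ) * x ^ i

theorem col_norm (p : PMF (ℕ × ℕ)) (k : ℕ) :
    (Summable fun i => ‖((p (i, k)).toReal : ℂ)‖) ∧ ∑' i, ‖((p (i, k)).toReal : ℂ)‖ ≤ 1 := by
  have inj : Function.Injective fun i : ℕ => ((i, k) : ℕ × ℕ) := fun _ _ h => (Prod.ext_iff.1 h).1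
  exact ⟨(pmf_norm p).summable.comp_injective inj,
    (tsum_comp_le_tsum_of_inj (pmf_norm p).summable (fun _ => norm_nonneg _) inj).trans
      (pmf_norm p).tsum_eq.le⟩

theorem col_hasSum (p : PMF (ℕ × ℕ)) (k : ℕ) {x : ℂ} (hx : ‖x‖ ≤ 1) :
    HasSum (fun i => ((p (i, k)).toReal : ℂ) * x ^ i) (col p k x) :=
  (Summable.of_norm_bounded (col_norm p k).1 fun i => by
    rw [norm_mul, norm_pow]
    exact mul_le_of_le_one_right (norm_nonneg _) (pow_le_one₀ (norm_nonneg _) hx)).hasSum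

theorem col_ex (p : PMF (ℕ × ℕ)) (k : ℕ) : Ex (col p k) fun i => ((p (i, k)).toReal : ℂ) :=
  fun n => IsBigO.of_bound 1 (small.mono fun y hy => by
    rw [one_mul, norm_pow]
    exact tail_le (col_norm p k).1 (col_norm p k).2 hy (col_hasSum p k hy) n)

theorem col_diff (p : PMF (ℕ × ℕ)) (k : ℕ) : DifferentiableOn ℂ (col p k) (Metric.ball 0 1) :=
  Complex.differentiableOn_tsum_of_summable_norm (col_norm p k).1
    (fun i => by fun_prop) Metric.isOpen_ball fun i x hx => by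
      rw [norm_mul, norm_pow]
      exact mul_le_of_le_one_right (norm_nonneg _)
        (pow_le_one₀ (norm_nonneg _) (mem_ball_zero_iff.1 hx).le)

theorem pgf_tail (p : PMF (ℕ × ℕ)) {x y : ℂ} (hx : ‖x‖ ≤ 1) (hy : ‖y‖ ≤ 1) (n : ℕ) :
    ‖pgf p x y - ∑ k ∈ range n, col p k x * y ^ k‖ ≤ ‖y‖ ^ n := by
  have a1 : HasSum (fun k => ∑' i, ‖((p (i, k)).toReal : ℂ)‖) 1 :=
    ((Equiv.prodComm ℕ ℕ).hasSum_iff.2 (pmf_norm p)).prod_fiberwise
      fun k => (col_norm p k).1.hasSum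
  have a2 : ∀ k, ‖col p k x‖ ≤ ∑' i, ‖((p (i, k)).toReal : ℂ)‖ := fun k =>
    (col_hasSum p k hx).norm_le_of_bounded (col_norm p k).1.hasSum fun i => by
      rw [norm_mul, norm_pow]
      exact mul_le_of_le_one_right (norm_nonneg _) (pow_le_one₀ (norm_nonneg _) hx)
  have a3 : Summable fun k => ‖col p k x‖ :=
    Summable.of_nonneg_of_le (fun _ => norm_nonneg _) a2 a1.summable
  refine tail_le a3 ((a3.tsum_le_tsum a2 a1.summable).trans a1.tsum_eq.le) hy ?_ n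
  exact ((Equiv.prodComm ℕ ℕ).hasSum_iff.2 (pgf_rep p hx hy)).prod_fiberwise fun k =>
    hs_congr ((col_hasSum p k hx).mul_right (y ^ k)) (fun i => by simp [mul_assoc]) rfl

theorem pgf_zero (p : PMF (ℕ × ℕ)) {x : ℂ} (hx : ‖x‖ ≤ 1) : pgf p x 0 = col p 0 x := by
  simpa [sub_eq_zero] using pgf_tail p hx (y := 0) (by simp) 1

theorem pgf_ex (p : PMF (ℕ × ℕ)) {x : ℂ} (hx : ‖x‖ ≤ 1) : Ex (pgf p x) fun k => col p k x :=
  fun n => IsBigO.of_bound 1 (small.mono fun y hy => by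
    rw [one_mul, norm_pow]
    exact pgf_tail p hx hy n)

/-- an analytic extension of a column is the sum of the same series -/
theorem col_ext (p : PMF (ℕ × ℕ)) (k : ℕ) {g : ℂ → ℂ} {R : ℝ} (hg : DifferentiableOn ℂ g (Metric.ball 0 R))
    (he : ∀ x : ℂ, ‖x‖ < 1 → g x = col p k x) {x : ℂ} (hx : ‖x‖ < R) :
    HasSum (fun i => ((p (i, k)).toReal : ℂ) * x ^ i) (g x) := by
  have R0 : 0 < R := (norm_nonneg _).trans_lt hx
  have a1 : AnalyticAt ℂ g 0 := hg.analyticAt (Metric.ball_mem_nhds _ R0)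
  have a2 : Ex (col p k) _ := (Ex.of_analytic a1 1).congr (mem_nhdsWithin_of_mem_nhds (by
    filter_upwards [Metric.ball_mem_nhds (0 : ℂ) one_pos] with y hy
    rw [zero_add, one_mul, he y (mem_ball_zero_iff.1 hy)])) fun _ => rfl
  refine hs_congr (Complex.hasSum_taylorSeries_on_ball hg (mem_ball_zero_iff.2 hx)) (fun i => ?_) rfl
  rw [(col_ex p k).unique a2 i]
  simp only [one_pow, sub_zero, smul_eq_mul]
  ring

/-- Cauchy product -/
def cp (A B : ℕ → ℂ → ℂ) (k : ℕ) (x : ℂ) : ℂ := ∑ s ∈ antidiagonal k, A s.1 x * B s.2 x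

/-- coefficients of `ν / (ν + θ)` in the second variable -/
def geo (a b ν : ℝ) (l : ℕ) (x : ℂ) : ℂ := ν * b ^ l / (ν + a + b - a * x) ^ (l + 1)

/-- coefficients of `∑ G i (x + γ y) y ^ i` -/
def sh (γ : ℝ) (G : ℕ → ℂ → ℂ) (k : ℕ) (x : ℂ) : ℂ :=
  ∑ s ∈ antidiagonal k, (γ : ℂ) ^ s.2 / s.2.factorial * iteratedDeriv s.2 (G s.1) x

/-- from the first polling instant to the second -/
def two (a b μ ν : ℝ) (G : ℕ → ℂ → ℂ) : ℕ → ℂ → ℂ :=
  cp (geo a b ν) (sh (b / a) fun i z => G i (geo a b μ 0 z))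

/-- from the second polling instant to the first -/
def one (a b μ ν : ℝ) (F : ℕ → ℂ → ℂ) : ℕ → ℂ → ℂ :=
  cp (geo a b ν) fun k x => cp (geo a b μ) (fun i => F (i + 1)) k x + if k = 0 then F 0 x else 0

theorem geo_ex {a b ν : ℝ} {x : ℂ} (h : (ν : ℂ) + a + b - a * x ≠ 0) :
    Ex (fun y => ν / (ν + (a * (1 - x) + b * (1 - y)))) fun l => geo a b ν l x := by
  intro n
  set A : ℂ := ν + a + b - a * x with hA
  have c1 : ContinuousAt (fun y : ℂ => ν * b ^ n / (A ^ n * (A - b * y))) 0 :=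
    ContinuousAt.div (by fun_prop) (by fun_prop) (by simp [h])
  have c2 := (c1.tendsto.mono_left (nhdsWithin_le_nhds (s := {0}ᶜ))).isBigO_one ℂ
  have c3 : ∀ᶠ y : ℂ in 𝓝[≠] 0, A - b * y ≠ 0 :=
    mem_nhdsWithin_of_mem_nhds (ContinuousAt.eventually_ne (by fun_prop) (by simpa using h))
  refine (c2.mul (isBigO_refl (fun y : ℂ => y ^ n) _)).congr' ?_ (Eventually.of_forall fun y => one_mul _)
  filter_upwards [c3] with y hy
  have e : (ν : ℂ) + (a * (1 - x) + b * (1 - y)) = A - b * y := by rw [hA]; ring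
  rw [e]
  simp only [geo, ← hA]
  clear c1 c2 c3
  induction n with
  | zero => simp
  | succ n ih =>
    rw [sum_range_succ, ← sub_sub, ← ih]
    field_simp
    ring

theorem den_ne {a b ν : ℝ} (ha : 0 < a) {x : ℂ} (hx : a * ‖x‖ < ν + a + b) :
    (ν : ℂ) + a + b - a * x ≠ 0 := by
  intro h
  have h1 : ((ν + a + b : ℝ) : ℂ) = a * x := by push_cast; linear_combination h
  have h2 := congrArg norm h1
  rw [norm_mul, Complex.norm_real, Complex.norm_real, Real.norm_of_nonneg ha.le] at h2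
  have := le_abs_self (ν + a + b)
  rw [Real.norm_eq_abs] at h2
  linarith

theorem geo_an {a b ν : ℝ} {x : ℂ} (h : (ν : ℂ) + a + b - a * x ≠ 0) (l : ℕ) :
    AnalyticAt ℂ (geo a b ν l) x :=
  AnalyticAt.div (f := fun _ => (ν : ℂ) * b ^ l) (g := fun x => ((ν : ℂ) + a + b - a * x) ^ (l + 1))
    analyticAt_const (by fun_prop) (pow_ne_zero _ h)

theorem geo_lt {a b μ r : ℝ} (ha : 0 < a) (hμ : 0 < μ) (hr : 0 < r) {x : ℂ}
    (hx : a * ‖x‖ < μ + a + b - μ / r) : ‖geo a b μ 0 x‖ < r := by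
  have a0 : 0 < μ / r := div_pos hμ hr
  have a1 : μ + a + b - a * ‖x‖ ≤ ‖(μ : ℂ) + a + b - a * x‖ := by
    have := norm_sub_norm_le ((μ + a + b : ℝ) : ℂ) (a * x)
    rw [norm_mul, Complex.norm_real, Complex.norm_real, Real.norm_of_nonneg ha.le,
      Real.norm_eq_abs] at this
    have h2 := le_abs_self (μ + a + b)
    push_cast at this
    linarith
  simp only [geo, pow_zero, mul_one, zero_add, pow_one]
  rw [norm_div, Complex.norm_real, Real.norm_of_nonneg hμ.le, div_lt_iff₀ (by linarith), ← div_lt_iff₀' hr]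
  linarith

/-- all four laws are exponential -/
structure Expo (P : Model) (μ1 μ2 ν1 ν2 : ℝ) : Prop where
  l1 : 0 < P.l1
  l2 : 0 < P.l2
  m1 : 0 < μ1
  m2 : 0 < μ2
  n1 : 0 < ν1
  n2 : 0 < ν2
  B1 : ∀ s : ℂ, 0 ≤ s.re → lst P.B1 s = μ1 / (μ1 + s)
  B2 : ∀ s : ℂ, 0 ≤ s.re → lst P.B2 s = μ2 / (μ2 + s)
  S1 : ∀ s : ℂ, 0 ≤ s.re → lst P.S1 s = ν1 / (ν1 + s)
  S2 : ∀ s : ℂ, 0 ≤ s.re → lst P.S2 s = ν2 / (ν2 + s)

variable {P : Model} {μ1 μ2 ν1 ν2 : ℝ} (E : Expo P μ1 μ2 ν1 ν2) {p1 p2 : PMF (ℕ × ℕ)}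
  (hst : P.Steady p1 p2)

include E in
theorem Expo.th_re {x y : ℂ} (hx : ‖x‖ ≤ 1) (hy : ‖y‖ ≤ 1) : 0 ≤ (P.th x y).re := by
  have a1 := (Complex.re_le_norm x).trans hx
  have a2 := (Complex.re_le_norm y).trans hy
  have := E.l1
  have := E.l2
  simp only [Model.th, Complex.add_re, Complex.re_ofReal_mul, Complex.sub_re, Complex.one_re]
  positivity

include E in
theorem Expo.den {ν : ℝ} (hν : 0 < ν) {x : ℂ} (hx : ‖x‖ ≤ 1) :
    (ν : ℂ) + P.l1 + P.l2 - P.l1 * x ≠ 0 :=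
  den_ne E.l1 (by nlinarith [E.l1, E.l2])

include E in
theorem Expo.h_lt {x : ℂ} (hx : ‖x‖ ≤ 1) : ‖geo P.l1 P.l2 μ1 0 x‖ < 1 :=
  geo_lt E.l1 E.m1 one_pos (by nlinarith [E.l1, E.l2])

include E hst in
theorem Expo.rec_two (k : ℕ) {x : ℂ} (hx : ‖x‖ ≤ 1) :
    col p2 k x = two P.l1 P.l2 μ1 ν1 (col p1) k x := by
  have l1 : (P.l1 : ℂ) ≠ 0 := by exact_mod_cast E.l1.ne'
  have hh : ∀ y : ℂ, ‖y‖ ≤ 1 → P.h y x = geo P.l1 P.l2 μ1 0 (x + (P.l2 / P.l1 : ℝ) * y) := by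
    intro y hy
    rw [Model.h, E.B1 _ (E.th_re hx hy), geo, Model.th]
    simp only [pow_zero, mul_one, zero_add, pow_one]
    congr 1
    push_cast
    field_simp
    ring
  have hn : ∀ y : ℂ, ‖y‖ ≤ 1 → ‖P.h y x‖ ≤ 1 := by
    intro y hy
    have a1 := E.th_re hx hy
    have a2 := Complex.re_le_norm (μ1 + P.th x y)
    rw [Complex.add_re, Complex.ofReal_re] at a2
    rw [Model.h, E.B1 _ a1, norm_div, Complex.norm_real, Real.norm_of_nonneg E.m1.le]
    exact div_le_one_of_le₀ (by linarith) (norm_nonneg _)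
  have a1 : Ex (fun y => pgf p1 (P.h y x) y)
      fun k => sh (P.l2 / P.l1) (fun i z => col p1 i (geo P.l1 P.l2 μ1 0 z)) k x := by
    refine Ex.series (ψ := fun i y => col p1 i (geo P.l1 P.l2 μ1 0 (x + (P.l2 / P.l1 : ℝ) * y)))
      (b := fun i l => ((P.l2 / P.l1 : ℝ) : ℂ) ^ l / l.factorial *
        iteratedDeriv l (fun z => col p1 i (geo P.l1 P.l2 μ1 0 z)) x)
      (fun n => IsBigO.of_bound 1 (small.mono fun y hy => ?_)) fun i =>
        Ex.of_analytic (f := fun z => col p1 i (geo P.l1 P.l2 μ1 0 z)) ?_ _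
    · rw [one_mul, norm_pow, ← hh y hy]
      exact pgf_tail p1 (hn y hy) hy n
    · exact AnalyticAt.comp (g := col p1 i) ((col_diff p1 i).analyticAt
        (Metric.isOpen_ball.mem_nhds (mem_ball_zero_iff.2 (E.h_lt hx)))) (geo_an (E.den E.m1 hx) 0)
  refine (pgf_ex p2 hx).unique (((geo_ex (E.den E.n1 hx)).mul a1).congr ?_ fun _ => rfl) k
  filter_upwards [small] with y hy
  rw [(hst x y hx hy).1, E.S1 _ (E.th_re hx hy), Model.th]

include E hst in
theorem Expo.rec_one (k : ℕ) {x : ℂ} (hx : ‖x‖ ≤ 1) :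
    col p1 k x = one P.l1 P.l2 μ2 ν2 (col p2) k x := by
  refine (pgf_ex p1 hx).unique (((geo_ex (E.den E.n2 hx)).mul (((geo_ex (E.den E.m2 hx)).mul
    (pgf_ex p2 hx).shift).add (Ex.const (col p2 0 x)))).congr ?_ fun _ => rfl) k
  filter_upwards [small, self_mem_nhdsWithin] with y hy y0
  rw [(hst x y hx hy).2 y0, E.S2 _ (E.th_re hx hy), E.B2 _ (E.th_re hx hy), Model.th, pgf_zero p2 hx]
  ring

end

end Pool.Agent.P.MP_386d8e_pr
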