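import Pool.Agent.P.MP_386d8e_pr.PoleA

set_option autoImplicit false

open Filter Topology Finset

namespace Pool.Agent.P.MP_386d8e_pr

noncomputable section

/-- `f` is `c / (p - x) ^ n` to leading order at `p` -/
def Rep (p : ℂ) (n : ℕ) (c : ℂ) (f : ℂ → ℂ) : Prop :=
  ∃ g : ℂ → ℂ, AnalyticAt ℂ g p ∧ g p = c ∧ ∀ᶠ x in 𝓝[≠] p, f x = g x / (p - x) ^ n

namespace Rep

variable {p c d : ℂ} {n m : ℕ} {f g : ℂ → ℂ}

theorem congr (h : Rep p n c f) (hf : f =ᶠ[𝓝[≠] p] g) (hn : n = m) (hc : c = d) : Rep p m d g := by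
  obtain ⟨u, a1, a2, a3⟩ := h
  refine ⟨u, a1, a2.trans hc, ?_⟩
  filter_upwards [a3, hf] with x h1 h2
  rw [← h2, h1, hn]

theorem of_analytic (h : AnalyticAt ℂ f p) : Rep p 0 (f p) f :=
  ⟨f, h, rfl, Eventually.of_forall fun x => by simp⟩

theorem zero : Rep p n 0 fun _ => 0 :=
  ⟨fun _ => 0, analyticAt_const, rfl, Eventually.of_forall fun x => by simp⟩

theorem add (h : Rep p n c f) (h' : Rep p n d g) : Rep p n (c + d) fun x => f x + g x := by
  obtain ⟨u, a1, a2, a3⟩ := h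
  obtain ⟨v, b1, b2, b3⟩ := h'
  refine ⟨fun x => u x + v x, a1.add b1, by simp only [a2, b2], ?_⟩
  filter_upwards [a3, b3] with x h1 h2
  rw [h1, h2, add_div]

theorem mul (h : Rep p n c f) (h' : Rep p m d g) : Rep p (n + m) (c * d) fun x => f x * g x := by
  obtain ⟨u, a1, a2, a3⟩ := h
  obtain ⟨v, b1, b2, b3⟩ := h'
  refine ⟨fun x => u x * v x, a1.mul b1, by simp only [a2, b2], ?_⟩
  filter_upwards [a3, b3] with x h1 h2
  rw [h1, h2, pow_add, div_mul_div_comm]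

theorem cmul (h : Rep p n c f) (a : ℂ) : Rep p n (a * c) fun x => a * f x :=
  ((of_analytic (f := fun _ => a) analyticAt_const).mul h).congr EventuallyEq.rfl (zero_add n) rfl

theorem raise (h : Rep p n c f) (hm : n < m) : Rep p m 0 f := by
  obtain ⟨u, a1, -, a3⟩ := h
  obtain ⟨k, rfl⟩ := Nat.exists_eq_add_of_lt hm
  refine ⟨fun x => u x * (p - x) ^ (k + 1), a1.mul (by fun_prop), by simp, ?_⟩
  filter_upwards [a3, self_mem_nhdsWithin] with x h1 h2
  have : p - x ≠ 0 := sub_ne_zero.2 (Ne.symm h2)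
  rw [h1]
  field_simp
  ring

theorem sum {ι : Type} (s : Finset ι) {c : ι → ℂ} {f : ι → ℂ → ℂ} (h : ∀ i ∈ s, Rep p n (c i) (f i)) :
    Rep p n (∑ i ∈ s, c i) fun x => ∑ i ∈ s, f i x := by
  classical
  induction s using Finset.induction_on with
  | empty => simpa using zero
  | insert a s ha ih =>
    simp only [sum_insert ha]
    exact (h a (mem_insert_self _ _)).add (ih fun i hi => h i (mem_insert_of_mem hi))

theorem deriv (h : Rep p n c f) : Rep p (n + 1) (n * c) (deriv f) := by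
  obtain ⟨u, a1, a2, a3⟩ := h
  refine ⟨fun x => _root_.deriv u x * (p - x) + n * u x, (a1.deriv.mul (by fun_prop)).add
    (analyticAt_const.mul a1), by simp [a2], ?_⟩
  have a4 : ∀ᶠ x in 𝓝[≠] p, f =ᶠ[𝓝 x] fun x => u x / (p - x) ^ n := by
    filter_upwards [(eventually_eventually_nhdsWithin).2 a3, self_mem_nhdsWithin] with x h1 h2
    rwa [nhdsWithin_eq_nhds.2 (isOpen_compl_singleton.mem_nhds h2)] at h1
  filter_upwards [a4, self_mem_nhdsWithin, mem_nhdsWithin_of_mem_nhds a1.eventually_analyticAt]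
    with x h1 h2 h3
  have x0 : p - x ≠ 0 := sub_ne_zero.2 (Ne.symm h2)
  have d1 : HasDerivAt (fun x => (p - x) ^ n) (n * (p - x) ^ (n - 1) * (-1)) x :=
    ((hasDerivAt_id' x).const_sub p).fun_pow n
  rw [h1.deriv_eq, ((AnalyticAt.differentiableAt h3).hasDerivAt.fun_div d1 (pow_ne_zero _ x0)).deriv]
  rcases n with _ | n
  · simp only [pow_zero, Nat.cast_zero, zero_mul, zero_add, pow_one, add_zero, mul_zero, sub_zero,
      one_pow]
    field_simp
  · rw [Nat.add_sub_cancel]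
    field_simp
    ring

theorem iter (h : Rep p n c f) (l : ℕ) :
    Rep p (n + l) (n.ascFactorial l * c) (iteratedDeriv l f) := by
  induction l with
  | zero => simpa using h
  | succ l ih =>
    rw [iteratedDeriv_succ]
    refine ih.deriv.congr EventuallyEq.rfl (add_assoc _ _ _) ?_
    rw [Nat.ascFactorial_succ]
    push_cast
    ring

theorem comp {H q : ℂ → ℂ} {p' : ℂ} (h : Rep p n c f) (hH : AnalyticAt ℂ H p') (hp : H p' = p)
    (hq : AnalyticAt ℂ q p') (hq0 : q p' ≠ 0) (he : ∀ᶠ x in 𝓝 p', p - H x = (p' - x) * q x) :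
    Rep p' n (c / q p' ^ n) fun x => f (H x) := by
  obtain ⟨u, a1, a2, a3⟩ := h
  have q1 : ∀ᶠ x in 𝓝 p', q x ≠ 0 := hq.continuousAt.eventually_ne hq0
  have t1 : Tendsto H (𝓝[≠] p') (𝓝[≠] p) := by
    refine tendsto_nhdsWithin_iff.2 ⟨hp ▸ hH.continuousAt.tendsto.mono_left nhdsWithin_le_nhds, ?_⟩
    filter_upwards [self_mem_nhdsWithin, mem_nhdsWithin_of_mem_nhds q1, mem_nhdsWithin_of_mem_nhds he]
      with x h1 h2 h3 h4
    have : H x = p := h4
    rw [this, sub_self] at h3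
    exact mul_ne_zero (sub_ne_zero.2 (Ne.symm h1)) h2 h3.symm
  refine ⟨fun x => u (H x) / q x ^ n, (AnalyticAt.comp (g := u) (hp ▸ a1) hH).div (hq.pow n)
    (pow_ne_zero _ hq0), by simp only [hp, a2], ?_⟩
  filter_upwards [t1.eventually a3, mem_nhdsWithin_of_mem_nhds he] with x h1 h2
  rw [h1, show p - H x = (p' - x) * q x from h2, mul_pow, div_div, mul_comm]

theorem order (h : Rep p n c f) (hc : c ≠ 0) : meromorphicOrderAt f p = (-(n : ℤ) : ℤ) := by
  obtain ⟨u, a1, a2, a3⟩ := h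
  have e : ∀ᶠ x in 𝓝[≠] p, f x = (x - p) ^ (-(n : ℤ)) • (u x * (-1) ^ n) := by
    filter_upwards [a3] with x h1
    rw [h1, ← neg_sub x p, neg_pow, zpow_neg, zpow_natCast, smul_eq_mul, div_mul_eq_div_div,
      div_eq_mul_inv (u x), ← inv_pow, inv_neg, inv_one, div_eq_inv_mul]
  have a4 : AnalyticAt ℂ (fun x => u x * (-1) ^ n) p := a1.mul analyticAt_const
  refine (meromorphicOrderAt_eq_int_iff ?_).2 ⟨_, a4, by simp [a2, hc], e⟩
  exact MeromorphicAt.iff_eventuallyEq_zpow_smul_analyticAt.2 ⟨_, _, a4, e⟩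

end Rep

/-- leading terms of a family, all of one sign -/
def Pos (t : ℕ) (p : ℂ) (d : ℕ) (G : ℕ → ℂ → ℂ) : Prop :=
  ∃ (e : ℂ) (c : ℕ → ℝ), e ≠ 0 ∧ (∀ k, 0 ≤ c k) ∧ 0 < c 0 ∧ 0 < c t ∧
    ∀ k, Rep p (d + k) (e * c k) (G k)

namespace Pos

variable {p : ℂ} {d d' t t' : ℕ} {G G' : ℕ → ℂ → ℂ}

theorem weak (h : Pos t p d G) : Pos 0 p d G := by
  obtain ⟨e, c, a1, a2, a3, -, a5⟩ := h
  exact ⟨e, c, a1, a2, a3, a3, a5⟩

theorem congr (h : Pos t p d G) (hG : ∀ k, G k =ᶠ[𝓝 p] G' k) : Pos t p d G' := by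
  obtain ⟨e, c, a1, a2, a3, a4, a5⟩ := h
  exact ⟨e, c, a1, a2, a3, a4, fun k => (a5 k).congr ((hG k).filter_mono nhdsWithin_le_nhds) rfl rfl⟩

theorem order (h : Pos t p d G) : meromorphicOrderAt (G 0) p = (-(d : ℤ) : ℤ) := by
  obtain ⟨e, c, a1, -, a3, -, a5⟩ := h
  exact (a5 0).order (mul_ne_zero a1 (by exact_mod_cast a3.ne'))

theorem of_analytic (h : ∀ k, AnalyticAt ℂ (G k) p) (h0 : G 0 p ≠ 0) : Pos 0 p 0 G := by
  refine ⟨G 0 p, fun k => if k = 0 then 1 else 0, h0, fun k => by dsimp only; split_ifs <;> simp, by simp,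
    by simp, fun k => ?_⟩
  rcases k with _ | k
  · simpa using Rep.of_analytic (h 0)
  · simpa using (Rep.of_analytic (h (k + 1))).raise (Nat.succ_pos k)

theorem cp (h : Pos t p d G) (h' : Pos t' p d' G') : Pos (t + t') p (d + d') (cp G G') := by
  obtain ⟨e, c, a1, a2, a3, a4, a5⟩ := h
  obtain ⟨e', c', b1, b2, b3, b4, b5⟩ := h'
  refine ⟨e * e', fun k => ∑ s ∈ antidiagonal k, c s.1 * c' s.2, mul_ne_zero a1 b1,
    fun k => sum_nonneg fun s _ => mul_nonneg (a2 _) (b2 _), by simpa using mul_pos a3 b3,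
    sum_pos' (fun s _ => mul_nonneg (a2 _) (b2 _)) ⟨(t, t'), by simp, mul_pos a4 b4⟩, fun k => ?_⟩
  refine (Rep.sum (antidiagonal k) (n := d + d' + k) (c := fun s => e * c s.1 * (e' * c' s.2))
    (f := fun s x => G s.1 x * G' s.2 x) fun s hs => ((a5 s.1).mul (b5 s.2)).congr EventuallyEq.rfl
      (by have := mem_antidiagonal.1 hs; omega) rfl).congr EventuallyEq.rfl rfl ?_
  push_cast
  rw [mul_sum]
  exact sum_congr rfl fun s _ => by ring

theorem sh {γ : ℝ} (hγ : 0 < γ) (h : Pos 0 p d G) (hd : 0 < d) : Pos 1 p d (sh γ G) := by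
  obtain ⟨e, c, a1, a2, a3, -, a5⟩ := h
  have b1 : ∀ s : ℕ × ℕ, 0 ≤ γ ^ s.2 / s.2.factorial * ((d + s.1).ascFactorial s.2 * c s.1) :=
    fun s => by have := a2 s.1; positivity
  refine ⟨e, fun k => ∑ s ∈ antidiagonal k,
    γ ^ s.2 / s.2.factorial * ((d + s.1).ascFactorial s.2 * c s.1), a1,
    fun k => sum_nonneg fun s _ => b1 s, by simpa using a3,
    sum_pos' (fun s _ => b1 s) ⟨(0, 1), by simp, by
      have : (0 : ℝ) < ((d + 0).ascFactorial 1 : ℕ) := by simpa [Nat.ascFactorial_succ] using hd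
      positivity⟩, fun k => ?_⟩
  refine (Rep.sum (antidiagonal k) (n := d + k)
    (c := fun s => (γ : ℂ) ^ s.2 / s.2.factorial * ((d + s.1).ascFactorial s.2 * (e * c s.1)))
    (f := fun s x => (γ : ℂ) ^ s.2 / s.2.factorial * iteratedDeriv s.2 (G s.1) x)
    fun s hs => (((a5 s.1).iter s.2).cmul _).congr EventuallyEq.rfl
      (by have := mem_antidiagonal.1 hs; omega) rfl).congr EventuallyEq.rfl rfl ?_
  push_cast
  rw [mul_sum]
  exact sum_congr rfl fun s _ => by ring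

theorem shift (h : Pos 1 p d G) : Pos 0 p (d + 1) fun i => G (i + 1) := by
  obtain ⟨e, c, a1, a2, -, a4, a5⟩ := h
  exact ⟨e, fun i => c (i + 1), a1, fun _ => a2 _, a4, a4,
    fun k => (a5 (k + 1)).congr EventuallyEq.rfl (by omega) rfl⟩

theorem add_low {f : ℂ → ℂ} {c : ℂ} (h : Pos t p d G) (hf : Rep p d' c f) (hd : d' < d) :
    Pos t p d fun k x => G k x + if k = 0 then f x else 0 := by
  obtain ⟨e, c, a1, a2, a3, a4, a5⟩ := h
  refine ⟨e, c, a1, a2, a3, a4, fun k => ?_⟩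
  rcases k with _ | k
  · simpa using (a5 0).add (hf.raise hd)
  · simpa using a5 (k + 1)

theorem comp {H q : ℂ → ℂ} {p' : ℂ} {m : ℝ} (h : Pos 0 p d G) (hH : AnalyticAt ℂ H p') (hp : H p' = p)
    (hq : AnalyticAt ℂ q p') (hm : 0 < m) (hq0 : q p' = m)
    (he : ∀ᶠ x in 𝓝 p', p - H x = (p' - x) * q x) : Pos 0 p' d fun i x => G i (H x) := by
  obtain ⟨e, c, a1, a2, a3, -, a5⟩ := h
  refine ⟨e, fun k => c k / m ^ (d + k), a1, fun k => by have := a2 k; positivity, by positivity,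
    by positivity, fun k => ((a5 k).comp hH hp hq (by rw [hq0]; exact_mod_cast hm.ne') he).congr
      EventuallyEq.rfl rfl ?_⟩
  rw [hq0]
  push_cast
  ring

theorem geo_pole {a b ν : ℝ} (ha : 0 < a) (hb : 0 < b) (hν : 0 < ν)
    (h : (ν : ℂ) + a + b - a * p = 0) : Pos 1 p 1 (geo a b ν) := by
  have a0 : (a : ℂ) ≠ 0 := by exact_mod_cast ha.ne'
  refine ⟨1, fun l => ν * b ^ l / a ^ (l + 1), one_ne_zero, fun l => by positivity, by positivity,
    by positivity, fun l => ⟨fun _ => ν * b ^ l / a ^ (l + 1), analyticAt_const, by push_cast; ring,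
      Eventually.of_forall fun x => ?_⟩⟩
  rw [geo, show (ν : ℂ) + a + b - a * x = a * (p - x) by linear_combination h, mul_pow, div_div,
    add_comm 1 l]

theorem geo_reg {a b ν : ℝ} (hν : 0 < ν) (h : (ν : ℂ) + a + b - a * p ≠ 0) :
    Pos 0 p 0 (geo a b ν) :=
  of_analytic (geo_an h) (div_ne_zero (by simpa using hν.ne') (pow_ne_zero _ h))

theorem geo_any {a b ν : ℝ} (ha : 0 < a) (hb : 0 < b) (hν : 0 < ν) : ∃ d, Pos 0 p d (geo a b ν) := by
  by_cases h : (ν : ℂ) + a + b - a * p = 0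
  · exact ⟨1, (geo_pole ha hb hν h).weak⟩
  · exact ⟨0, geo_reg hν h⟩

/-- division by the second variable raises the order -/
theorem one {a b μ ν : ℝ} (ha : 0 < a) (hb : 0 < b) (hμ : 0 < μ) (hν : 0 < ν) (h : Pos 1 p d G) :
    ∃ e, d < e ∧ Pos 0 p e (one a b μ ν G) := by
  obtain ⟨d1, h1⟩ := geo_any (p := p) ha hb hμ
  obtain ⟨d2, h2⟩ := geo_any (p := p) ha hb hν
  obtain ⟨e, c, -, -, -, -, a5⟩ := id h
  exact ⟨_, by omega, h2.cp ((h1.cp h.shift).add_low (a5 0) (by omega))⟩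

end Pos

end

end Pool.Agent.P.MP_386d8e_pr
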