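import Pool.Agent.P.MP_386d8e_pr.PoleB

set_option autoImplicit false

open Filter Topology Finset MeasureTheory

namespace Pool.Agent.P.MP_386d8e_pr

noncomputable section

section
variable {a b μ ν : ℝ} {G G' : ℕ → ℂ → ℂ} {x : ℂ}

theorem cp_mero (h : ∀ k, MeromorphicAt (G k) x) (h' : ∀ k, MeromorphicAt (G' k) x) (k : ℕ) :
    MeromorphicAt (cp G G' k) x :=
  MeromorphicAt.fun_sum (G := fun s : ℕ × ℕ => fun x => G s.1 x * G' s.2 x) fun s _ =>
    (h s.1).mul (h' s.2)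

theorem cp_an (h : ∀ k, AnalyticAt ℂ (G k) x) (h' : ∀ k, AnalyticAt ℂ (G' k) x) (k : ℕ) :
    AnalyticAt ℂ (cp G G' k) x :=
  Finset.analyticAt_fun_sum (f := fun s : ℕ × ℕ => fun x => G s.1 x * G' s.2 x) _ fun s _ =>
    (h s.1).mul (h' s.2)

theorem sh_mero (h : ∀ k, MeromorphicAt (G k) x) (k : ℕ) : MeromorphicAt (sh a G k) x :=
  MeromorphicAt.fun_sum (G := fun s : ℕ × ℕ => fun x =>
    (a : ℂ) ^ s.2 / s.2.factorial * iteratedDeriv s.2 (G s.1) x) fun s _ =>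
      (MeromorphicAt.const _ _).mul (by
        rw [iteratedDeriv_eq_iterate]
        exact (h s.1).iterated_deriv)

theorem sh_an (h : ∀ k, AnalyticAt ℂ (G k) x) (k : ℕ) : AnalyticAt ℂ (sh a G k) x :=
  Finset.analyticAt_fun_sum (f := fun s : ℕ × ℕ => fun x =>
    (a : ℂ) ^ s.2 / s.2.factorial * iteratedDeriv s.2 (G s.1) x) _ fun s _ =>
      analyticAt_const.mul (by
        rw [iteratedDeriv_eq_iterate]
        exact (h s.1).iterated_deriv _)

theorem geo_mero (l : ℕ) : MeromorphicAt (geo a b ν l) x :=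
  MeromorphicAt.div (f := fun _ => (ν : ℂ) * b ^ l) (g := fun x => ((ν : ℂ) + a + b - a * x) ^ (l + 1))
    (MeromorphicAt.const _ _) (AnalyticAt.meromorphicAt (by fun_prop))

theorem two_mero (hμ : (μ : ℂ) + a + b - a * x ≠ 0) (h : ∀ k, MeromorphicAt (G k) (geo a b μ 0 x))
    (k : ℕ) : MeromorphicAt (two a b μ ν G k) x :=
  cp_mero geo_mero (sh_mero fun i => (h i).comp_analyticAt (geo_an hμ 0)) k

theorem comp_an (hμ : (μ : ℂ) + a + b - a * x ≠ 0) (h : ∀ k, AnalyticAt ℂ (G k) (geo a b μ 0 x))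
    (k : ℕ) : AnalyticAt ℂ (sh (b / a) (fun i z => G i (geo a b μ 0 z)) k) x :=
  sh_an (fun i => AnalyticAt.comp (g := G i) (h i) (geo_an hμ 0)) k

theorem two_an (hμ : (μ : ℂ) + a + b - a * x ≠ 0) (hν : (ν : ℂ) + a + b - a * x ≠ 0)
    (h : ∀ k, AnalyticAt ℂ (G k) (geo a b μ 0 x)) (k : ℕ) : AnalyticAt ℂ (two a b μ ν G k) x :=
  cp_an (geo_an hν) (comp_an hμ h) k

theorem one_mero (h : ∀ k, MeromorphicAt (G k) x) (k : ℕ) : MeromorphicAt (one a b μ ν G k) x :=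
  cp_mero geo_mero (fun k => (cp_mero geo_mero (fun i => h (i + 1)) k).add (by
    by_cases hk : k = 0
    · simpa only [if_pos hk] using h 0
    · simpa only [if_neg hk] using MeromorphicAt.const _ _)) k

theorem mid_an (hμ : (μ : ℂ) + a + b - a * x ≠ 0) (h : ∀ k, AnalyticAt ℂ (G k) x) (k : ℕ) :
    AnalyticAt ℂ (fun x => cp (geo a b μ) (fun i => G (i + 1)) k x + if k = 0 then G 0 x else 0) x :=
  (cp_an (geo_an hμ) (fun i => h (i + 1)) k).add (by
    by_cases hk : k = 0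
    · simpa only [if_pos hk] using h 0
    · simpa only [if_neg hk] using analyticAt_const)

theorem one_an (hμ : (μ : ℂ) + a + b - a * x ≠ 0) (hν : (ν : ℂ) + a + b - a * x ≠ 0)
    (h : ∀ k, AnalyticAt ℂ (G k) x) (k : ℕ) : AnalyticAt ℂ (one a b μ ν G k) x :=
  cp_an (geo_an hν) (mid_an hμ h) k

theorem one_congr (h : ∀ k, G k x = G' k x) (k : ℕ) : one a b μ ν G k x = one a b μ ν G' k x := by
  simp only [one, cp, h]

theorem two_congr (hμ : (μ : ℂ) + a + b - a * x ≠ 0) (h : ∀ k, G k =ᶠ[𝓝 (geo a b μ 0 x)] G' k)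
    (k : ℕ) : two a b μ ν G k x = two a b μ ν G' k x := by
  have : ∀ i l, iteratedDeriv l (fun z => G i (geo a b μ 0 z)) x =
      iteratedDeriv l (fun z => G' i (geo a b μ 0 z)) x := fun i l =>
    EventuallyEq.iteratedDeriv_eq l ((geo_an hμ 0).continuousAt.tendsto.eventually (h i))
  simp only [two, cp, sh, this]

theorem two_zero : two a b μ ν G 0 x = geo a b ν 0 x * G 0 (geo a b μ 0 x) := by
  simp [two, cp, sh]

end

theorem ev_ball {f g : ℂ → ℂ} {r : ℝ} (h : ∀ x : ℂ, ‖x‖ < r → f x = g x) {x : ℂ} (hx : ‖x‖ < r) :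
    f =ᶠ[𝓝 x] g := by
  filter_upwards [Metric.isOpen_ball.mem_nhds (mem_ball_zero_iff.2 hx)] with y hy
  exact h y (mem_ball_zero_iff.1 hy)

/-- the inverse of `h (·, 0)` -/
def back (a b μ r : ℝ) : ℝ := (μ + a + b - μ / r) / a

theorem back_gap {a b μ X r : ℝ} (ha : 0 < a) (hμ : 0 < μ) (h1 : 1 < X)
    (hX : μ = X * (μ + a + b - a * X)) (r1 : 1 ≤ r) (rX : r < X) :
    r + b / (a * (X - 1)) * (X - r) ≤ back a b μ r ∧ back a b μ r < X := by
  have X0 : 0 < X := by linarith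
  have r0 : 0 < r := by linarith
  have e1 : μ + a + b = a * X + μ / X := by field_simp; linarith
  have e2 : b / (a * (X - 1)) = 1 - μ / (a * X) := by
    have : X - 1 ≠ 0 := by linarith
    field_simp
    linarith
  constructor
  · have e3 : back a b μ r = r + (1 - μ / (a * X) / r) * (X - r) := by
      rw [back, e1]
      field_simp
      ring
    rw [e2, e3]
    have : μ / (a * X) / r ≤ μ / (a * X) := div_le_self (by positivity) r1
    nlinarith
  · rw [back, e1, div_lt_iff₀ ha]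
    have : μ / X < μ / r := div_lt_div_of_pos_left hμ r0 rX
    linarith

theorem back_lt {a b μ r : ℝ} (ha : 0 < a) (hμ : 0 < μ) (hr : 0 < r) {x : ℂ} (hx : ‖x‖ < back a b μ r) :
    (μ : ℂ) + a + b - a * x ≠ 0 ∧ ‖geo a b μ 0 x‖ < r := by
  rw [back, lt_div_iff₀' ha] at hx
  exact ⟨den_ne ha (by have := div_pos hμ hr; linarith), geo_lt ha hμ hr hx⟩

theorem val_pos {q : ℕ → ℝ} (hq : ∀ i, 0 ≤ q i) {t : ℝ} (ht : 0 < t) {v : ℂ}
    (h : HasSum (fun i => (q i : ℂ) * (t : ℂ) ^ i) v) {i : ℕ} (hi : 0 < q i) :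
    ∃ r : ℝ, 0 < r ∧ v = r := by
  have h1 : HasSum (fun i => q i * t ^ i) v.re :=
    hs_congr (Complex.hasSum_re h) (fun i => by
      rw [← Complex.ofReal_pow, ← Complex.ofReal_mul, Complex.ofReal_re]) rfl
  refine ⟨v.re, lt_of_lt_of_le (by positivity) (le_hasSum h1 i fun j _ => by have := hq j; positivity), ?_⟩
  exact h.unique (hs_congr (Complex.hasSum_ofReal.2 h1) (fun i => by simp) rfl)

variable {P : Model} {μ1 μ2 ν1 ν2 : ℝ} (E : Expo P μ1 μ2 ν1 ν2) {p1 p2 : PMF (ℕ × ℕ)}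
  (hst : P.Steady p1 p2)

include E hst in
theorem Expo.pos20 : ∃ i, 0 < (p2 (i, 0)).toReal := by
  have hS : ¬ ((P.S1 : Measure NNReal) = Measure.dirac 0 ∧ (P.S2 : Measure NNReal) = Measure.dirac 0) := by
    rintro ⟨h, -⟩
    have a1 := E.S1 1 (by simp)
    have a2 : (ν1 : ℂ) + 1 ≠ 0 := by exact_mod_cast (add_pos E.n1 one_pos).ne'
    rw [lst, h, integral_dirac, eq_div_iff a2] at a1
    simp at a1
  obtain ⟨T, hT⟩ := (mkSetup P E.l1 E.l2 hS).exists_stable hst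
  by_contra h
  have h0 : ∀ i, (p2 (i, 0)).toReal = 0 := fun i =>
    le_antisymm (not_lt.1 fun hi => h ⟨i, hi⟩) ENNReal.toReal_nonneg
  rw [pgf_zero p2 (by simp), col] at hT
  simp only [h0, Complex.ofReal_zero, zero_mul, tsum_zero] at hT
  have := Complex.ofReal_eq_zero.1 hT.symm
  linarith [T.st]

include E hst in
theorem Expo.pos10 : ∃ i, 0 < (p1 (i, 0)).toReal := by
  obtain ⟨i, hi⟩ := E.pos20 hst
  by_contra h
  have h0 : ∀ i, (p1 (i, 0)).toReal = 0 := fun i =>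
    le_antisymm (not_lt.1 fun hi => h ⟨i, hi⟩) ENNReal.toReal_nonneg
  obtain ⟨r, r0, hr⟩ := val_pos (fun _ => ENNReal.toReal_nonneg) one_pos
    (col_hasSum p2 0 (x := (1 : ℝ)) (by simp)) hi
  rw [E.rec_two hst 0 (by simp), two_zero, col] at hr
  simp only [h0, Complex.ofReal_zero, zero_mul, tsum_zero, mul_zero] at hr
  exact r0.ne' (Complex.ofReal_eq_zero.1 hr.symm)

include E hst in
theorem Expo.pos21 : ∃ i, 0 < (p2 (i, 1)).toReal := by
  obtain ⟨i, hi⟩ := E.pos10 hst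
  have l1 := E.l1
  have l2 := E.l2
  have m1 := E.m1
  have n1 := E.n1
  by_contra h
  have h0 : ∀ i, (p2 (i, 1)).toReal = 0 := fun i =>
    le_antisymm (not_lt.1 fun hi => h ⟨i, hi⟩) ENNReal.toReal_nonneg
  have key : ∀ y : ℝ, 0 ≤ y → y ≤ 1 → ∃ r : ℝ,
      pgf p2 0 y = ((ν1 / (ν1 + P.l1 + P.l2 * (1 - y)) * r : ℝ) : ℂ) ∧
      HasSum (fun s : ℕ × ℕ => (p1 s).toReal *
        ((μ1 / (μ1 + P.l1 + P.l2 * (1 - y))) ^ s.1 * y ^ s.2)) r := by
    intro y y0 y1
    have : 0 ≤ P.l2 * (1 - y) := mul_nonneg l2.le (by linarith)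
    obtain ⟨r, hr, hr'⟩ := pgf_real p1 (x := μ1 / (μ1 + P.l1 + P.l2 * (1 - y))) (by positivity)
      (div_le_one_of_le₀ (by linarith) (by positivity)) y0 y1
    refine ⟨r, ?_, hr'⟩
    have a1 := E.th_re (x := 0) (by simp) (nrm y0 y1)
    rw [(hst 0 y (by simp) (nrm y0 y1)).1, Model.h, E.S1 _ a1, E.B1 _ a1, Complex.ofReal_mul, hr,
      Model.th]
    push_cast
    simp only [sub_zero, mul_one, add_assoc]
  obtain ⟨r0, e0, s0⟩ := key 0 le_rfl zero_le_one
  have r00 : 0 < r0 := lt_of_lt_of_le (by positivity) (le_hasSum s0 (i, 0) fun s _ => by positivity)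
  set A := ν1 + P.l1 + P.l2 with hA
  have A0 : 0 < A := by positivity
  set κ := ν1 * r0 * P.l2 / A ^ 2 with hκ
  have κ0 : 0 < κ := by positivity
  set y := min 1 (κ / 2) with hy
  have y0 : 0 < y := lt_min one_pos (by positivity)
  have y1 : y ≤ 1 := min_le_left _ _
  have y2 : y ≤ κ / 2 := min_le_right _ _
  obtain ⟨r, e1, s1⟩ := key y y0.le y1
  have b0 : 0 ≤ P.l2 * (1 - y) := mul_nonneg l2.le (by linarith)
  have b1 : r0 ≤ r := hasSum_le (fun s => by gcongr) s0 s1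
  have b2 := pgf_tail p2 (x := 0) (by simp) (nrm y0.le y1) 2
  have b3 : col p2 1 0 = 0 := by simp only [col, h0, Complex.ofReal_zero, zero_mul, tsum_zero]
  rw [sum_range_succ, sum_range_one, b3, zero_mul, add_zero, pow_zero, mul_one,
    ← pgf_zero p2 (by simp), e1] at b2
  rw [Complex.ofReal_zero] at e0
  rw [e0, ← Complex.ofReal_sub, Complex.norm_real, Complex.norm_real, Real.norm_of_nonneg y0.le,
    Real.norm_eq_abs] at b2
  have b4 := (le_abs_self _).trans b2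
  have e2 : ν1 + P.l1 + P.l2 * (1 - y) = A - P.l2 * y := by rw [hA]; ring
  have e3 : ν1 + P.l1 + P.l2 * (1 - 0) = A := by rw [hA]; ring
  have b5 : 0 < A - P.l2 * y := by rw [← e2]; positivity
  rw [e2, e3] at b4
  have b6 : ν1 / A * r0 + κ * y ≤ ν1 / (A - P.l2 * y) * r0 := by
    rw [hκ, div_mul_eq_mul_div ν1 (A - P.l2 * y), le_div_iff₀ b5]
    have : (ν1 / A * r0 + ν1 * r0 * P.l2 / A ^ 2 * y) * (A - P.l2 * y) =
        ν1 * r0 - ν1 * r0 * (P.l2 * y / A) ^ 2 := by field_simp; ring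
    rw [this]
    have : 0 ≤ ν1 * r0 * (P.l2 * y / A) ^ 2 := by positivity
    linarith
  have b7 : ν1 / (A - P.l2 * y) * r0 ≤ ν1 / (A - P.l2 * y) * r :=
    mul_le_mul_of_nonneg_left b1 (by positivity)
  nlinarith

end

end Pool.Agent.P.MP_386d8e_pr
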