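import Pool.Agent.P.MP_386d8e_pr.PoleC

set_option autoImplicit false

open Filter Topology Finset MeasureTheory

namespace Pool.Agent.P.MP_386d8e_pr

noncomputable section

variable {P : Model} {μ1 μ2 ν1 ν2 X : ℝ} (E : Expo P μ1 μ2 ν1 ν2) {p1 p2 : PMF (ℕ × ℕ)}
  (hst : P.Steady p1 p2) (h1 : 1 < X) (hX : μ1 = X * (μ1 + P.l1 + P.l2 - P.l1 * X))

include E h1 hX in
theorem Expo.back_mem {r : ℝ} (r1 : 1 ≤ r) (rX : r < X) :
    r < back P.l1 P.l2 μ1 r ∧ back P.l1 P.l2 μ1 r < X := by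
  have a := back_gap E.l1 E.m1 h1 hX r1 rX
  have : 0 < P.l2 / (P.l1 * (X - 1)) * (X - r) :=
    mul_pos (div_pos E.l2 (mul_pos E.l1 (by linarith))) (by linarith)
  exact ⟨by linarith [a.1], a.2⟩

include E h1 hX in
theorem Expo.radii : ∃ r : ℕ → ℝ, r 0 = 1 ∧ (∀ n, r (n + 1) = back P.l1 P.l2 μ1 (r n)) ∧
    (∀ n, 1 ≤ r n ∧ r n < X) ∧ Monotone r ∧ ∀ t < X, ∃ n, t < r n := by
  let r : ℕ → ℝ := fun n => (back P.l1 P.l2 μ1)^[n] 1
  have rs : ∀ n, r (n + 1) = back P.l1 P.l2 μ1 (r n) := fun n => Function.iterate_succ_apply' _ _ _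
  have rm : ∀ n, 1 ≤ r n ∧ r n < X := by
    intro n
    induction n with
    | zero => exact ⟨le_rfl, h1⟩
    | succ n ih =>
      have := E.back_mem h1 hX ih.1 ih.2
      rw [rs]
      exact ⟨by linarith [this.1, ih.1], this.2⟩
  refine ⟨r, rfl, rs, rm, monotone_nat_of_le_succ fun n => ?_, fun t ht => ?_⟩
  · rw [rs]
    exact (E.back_mem h1 hX (rm n).1 (rm n).2).1.le
  · by_contra h
    have h' : ∀ n, r n ≤ t := fun n => not_lt.1 fun hn => h ⟨n, hn⟩
    have ε0 : 0 < P.l2 / (P.l1 * (X - 1)) := div_pos E.l2 (mul_pos E.l1 (by linarith))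
    set ε := P.l2 / (P.l1 * (X - 1))
    have g : ∀ n : ℕ, n * (ε * (X - t)) ≤ r n := by
      intro n
      induction n with
      | zero => simpa using zero_le_one.trans (rm 0).1
      | succ n ih =>
        have a := (back_gap E.l1 E.m1 h1 hX (rm n).1 (rm n).2).1
        have b : ε * (X - t) ≤ ε * (X - r n) := mul_le_mul_of_nonneg_left (by linarith [h' n]) ε0.le
        rw [rs]
        push_cast
        linarith
    obtain ⟨n, hn⟩ := exists_nat_gt (t / (ε * (X - t)))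
    rw [div_lt_iff₀ (mul_pos ε0 (by linarith))] at hn
    linarith [g n, h' n]

include E hst h1 hX in
theorem Expo.glue : ∃ f : ℕ → ℂ → ℂ, (∀ k (x : ℂ), ‖x‖ < 1 → f k x = col p1 k x) ∧
    (∀ k (x : ℂ), ‖x‖ < 1 → two P.l1 P.l2 μ1 ν1 f k x = col p2 k x) ∧
    (∀ k (x : ℂ), ‖x‖ < X → f k x = one P.l1 P.l2 μ2 ν2 (two P.l1 P.l2 μ1 ν1 f) k x) ∧
    (∀ k (x : ℂ), ‖x‖ < X → MeromorphicAt (two P.l1 P.l2 μ1 ν1 f k) x) ∧
    ∀ R ≤ X, P.l1 * R ≤ μ2 + P.l1 + P.l2 → P.l1 * R ≤ ν1 + P.l1 + P.l2 → P.l1 * R ≤ ν2 + P.l1 + P.l2 →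
      ∀ k (x : ℂ), ‖x‖ < R → AnalyticAt ℂ (f k) x := by
  classical
  obtain ⟨r, r0, rs, rm, mono, rt⟩ := E.radii h1 hX
  have rp : ∀ n, 0 < r n := fun n => one_pos.trans_le (rm n).1
  let Φ : (ℕ → ℂ → ℂ) → ℕ → ℂ → ℂ := fun G => one P.l1 P.l2 μ2 ν2 (two P.l1 P.l2 μ1 ν1 G)
  have loc2 : ∀ n (G G' : ℕ → ℂ → ℂ), (∀ k (x : ℂ), ‖x‖ < r n → G k x = G' k x) →
      ∀ k (x : ℂ), ‖x‖ < r (n + 1) → two P.l1 P.l2 μ1 ν1 G k x = two P.l1 P.l2 μ1 ν1 G' k x := by
    intro n G G' h k x hx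
    rw [rs] at hx
    obtain ⟨a1, a2⟩ := back_lt E.l1 E.m1 (rp n) hx
    exact two_congr a1 (fun i => ev_ball (h i) a2) k
  have loc : ∀ n (G G' : ℕ → ℂ → ℂ), (∀ k (x : ℂ), ‖x‖ < r n → G k x = G' k x) →
      ∀ k (x : ℂ), ‖x‖ < r (n + 1) → Φ G k x = Φ G' k x :=
    fun n G G' h k x hx => one_congr (fun i => loc2 n G G' h i x hx) k
  have c1 : ∀ n k (x : ℂ), ‖x‖ < r n → Φ^[n + 1] (col p1) k x = Φ^[n] (col p1) k x := by
    intro n
    induction n with
    | zero =>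
      intro k x hx
      rw [r0] at hx
      exact (one_congr (fun i => (E.rec_two hst i hx.le).symm) k).trans (E.rec_one hst k hx.le).symm
    | succ n ih =>
      intro k x hx
      rw [Function.iterate_succ_apply' Φ (n + 1)]
      conv_rhs => rw [Function.iterate_succ_apply' Φ n]
      exact loc n _ _ ih k x hx
  have c2 : ∀ n m, n ≤ m → ∀ k (x : ℂ), ‖x‖ < r n → Φ^[m] (col p1) k x = Φ^[n] (col p1) k x := by
    intro n m hm k x hx
    induction m, hm using Nat.le_induction with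
    | base => rfl
    | succ m hm ih => rw [c1 m k x (hx.trans_le (mono hm)), ih]
  let f : ℕ → ℂ → ℂ := fun k x => if h : ∃ n, ‖x‖ < r n then Φ^[Nat.find h] (col p1) k x else 0
  have c3 : ∀ n k (x : ℂ), ‖x‖ < r n → f k x = Φ^[n] (col p1) k x := by
    intro n k x hx
    have h : ∃ n, ‖x‖ < r n := ⟨n, hx⟩
    simp only [f, dif_pos h]
    exact (c2 _ n (Nat.find_min' h hx) k x (Nat.find_spec h)).symm
  have c4 : ∀ k (x : ℂ), ‖x‖ < r 0 → f k x = col p1 k x := c3 0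
  have c5 : ∀ k (x : ℂ), ‖x‖ < X → f k x = Φ f k x := by
    intro k x hx
    obtain ⟨n, hn⟩ := rt _ hx
    have hn' := hn.trans_le (mono n.le_succ)
    rw [c3 (n + 1) k x hn', Function.iterate_succ_apply']
    exact (loc n _ _ (c3 n) k x hn').symm
  have c0 : ∀ k (x : ℂ), ‖x‖ < r 0 → AnalyticAt ℂ (f k) x := fun k x hx =>
    ((col_diff p1 k).analyticAt (Metric.isOpen_ball.mem_nhds
      (mem_ball_zero_iff.2 (r0 ▸ hx)))).congr (ev_ball (c4 k) hx).symm
  have c6 : ∀ n k (x : ℂ), ‖x‖ < r n → MeromorphicAt (f k) x := by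
    intro n
    induction n with
    | zero => exact fun k x hx => (c0 k x hx).meromorphicAt
    | succ n ih =>
      intro k x hx
      obtain ⟨a1, a2⟩ := back_lt E.l1 E.m1 (rp n) (rs n ▸ hx)
      exact (one_mero (two_mero a1 fun i => ih i _ a2) k).congr
        ((ev_ball (c5 k) (hx.trans (rm _).2)).symm.filter_mono nhdsWithin_le_nhds)
  refine ⟨f, r0 ▸ c4, fun k x hx => ?_, c5, fun k x hx => ?_, fun R RX b1 b2 b3 k x hx => ?_⟩
  · rw [loc2 0 _ _ c4 k x (hx.trans_le (rm 1).1), E.rec_two hst k hx.le]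
  · obtain ⟨n, hn⟩ := rt _ hx
    obtain ⟨a1, a2⟩ := back_lt E.l1 E.m1 (rp n) (rs n ▸ hn.trans_le (mono n.le_succ))
    exact two_mero a1 (fun i => c6 n i _ a2) k
  · obtain ⟨n, hn⟩ := rt _ (hx.trans_le RX)
    induction n generalizing k x with
    | zero => exact c0 k x hn
    | succ n ih =>
      by_cases h0 : ‖x‖ < 1
      · exact c0 k x (r0 ▸ h0)
      obtain ⟨a1, a2⟩ := back_lt E.l1 E.m1 (rp n) (rs n ▸ hn)
      have R1 : 1 ≤ ‖x‖ := not_lt.1 h0
      have a3 := (back_lt E.l1 E.m1 (one_pos.trans_le R1)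
        (E.back_mem h1 hX R1 (hx.trans_le RX)).1).2
      have a4 := mul_lt_mul_of_pos_left hx E.l1
      exact (one_an (den_ne E.l1 (a4.trans_le b1)) (den_ne E.l1 (a4.trans_le b3))
        (two_an a1 (den_ne E.l1 (a4.trans_le b2)) fun i => ih i _ (a3.trans hx) a2) k).congr
        (ev_ball (c5 k) (hx.trans_le RX)).symm

include E in
theorem Expo.step {f : ℕ → ℂ → ℂ} {p : ℝ} {e : ℕ} (p0 : 0 < p) (h : Pos 0 p e f) (he : 0 < e) :
    ∃ D, e ≤ D ∧ Pos 1 (back P.l1 P.l2 μ1 p : ℝ) D (two P.l1 P.l2 μ1 ν1 f) := by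
  have l1 := E.l1
  have a0 : (P.l1 : ℂ) ≠ 0 := by exact_mod_cast l1.ne'
  have b0 : (p : ℂ) ≠ 0 := by exact_mod_cast p0.ne'
  have m0 : (μ1 : ℂ) ≠ 0 := by exact_mod_cast E.m1.ne'
  have e1 : (μ1 : ℂ) + P.l1 + P.l2 - P.l1 * (back P.l1 P.l2 μ1 p : ℝ) = μ1 / p := by
    rw [back]
    push_cast
    field_simp
    ring
  have e2 : (μ1 : ℂ) + P.l1 + P.l2 - P.l1 * (back P.l1 P.l2 μ1 p : ℝ) ≠ 0 := by
    rw [e1]
    exact div_ne_zero m0 b0
  have a1 := h.comp (H := geo P.l1 P.l2 μ1 0) (m := P.l1 * p / (μ1 / p))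
    (q := fun x => P.l1 * p / (μ1 + P.l1 + P.l2 - P.l1 * x)) (geo_an e2 0)
    (by simp only [geo, e1, pow_zero, mul_one, zero_add, pow_one]; field_simp)
    (AnalyticAt.div analyticAt_const (by fun_prop) e2) (by have := E.m1; positivity)
    (by simp only [e1]; push_cast; rfl) (by
      filter_upwards [ContinuousAt.eventually_ne
        (g := fun x : ℂ => (μ1 : ℂ) + P.l1 + P.l2 - P.l1 * x) (by fun_prop) e2] with x hx
      simp only [geo, pow_zero, mul_one, zero_add, pow_one]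
      rw [eq_div_iff b0] at e1
      field_simp
      linear_combination e1)
  obtain ⟨d, hd⟩ := Pos.geo_any (p := (back P.l1 P.l2 μ1 p : ℝ)) l1 E.l2 E.n1
  exact ⟨d + e, by omega, hd.cp (a1.sh (div_pos E.l2 l1) he)⟩

include E hst h1 hX in
theorem Expo.poles (p : ℕ → ℝ) (hp0 : p 0 = 1 + (P.l2 + min μ2 (min ν1 ν2)) / P.l1) (hpX : p 0 < X)
    (hp : ∀ j, p (j + 1) = (μ1 + P.l1 + P.l2 - μ1 / p j) / P.l1) :
    ∃ (K : ℂ → ℂ) (d : ℕ → ℕ), MeromorphicOn K (Metric.ball 0 X) ∧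
      (∀ x : ℂ, ‖x‖ < 1 → K x = pgf p2 x 0) ∧ StrictMono d ∧
      ∀ j, 1 < p j ∧ p j < X ∧ meromorphicOrderAt K (p j) = (-(d j : ℤ) : ℤ) := by
  obtain ⟨f, g1, g2, g3, g4, g5⟩ := E.glue hst h1 hX
  have l1 := E.l1
  have l2 := E.l2
  set m := min μ2 (min ν1 ν2) with hm
  have m0 : 0 < m := lt_min E.m2 (lt_min E.n1 E.n2)
  have m1 : m ≤ μ2 := min_le_left _ _
  have m2 : m ≤ ν1 := (min_le_right _ _).trans (min_le_left _ _)
  have m3 : m ≤ ν2 := (min_le_right _ _).trans (min_le_right _ _)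
  have e0 : P.l1 * p 0 = m + P.l1 + P.l2 := by rw [hp0]; field_simp; ring
  have pm : ∀ j, 1 < p j ∧ p j < X := by
    intro j
    induction j with
    | zero =>
      refine ⟨?_, hpX⟩
      have : 0 < (P.l2 + m) / P.l1 := by positivity
      linarith
    | succ j ih =>
      have := E.back_mem h1 hX ih.1.le ih.2
      rw [hp]
      exact ⟨ih.1.trans this.1, this.2⟩
  have nm : ∀ j, ‖(p j : ℂ)‖ = p j := fun j => by
    rw [Complex.norm_real, Real.norm_of_nonneg (by linarith [(pm j).1])]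
  have fix : ∀ j {e : ℕ}, Pos 0 (p j) e (one P.l1 P.l2 μ2 ν2 (two P.l1 P.l2 μ1 ν1 f)) → Pos 0 (p j) e f :=
    fun j e h => h.congr fun k => (ev_ball (g3 k) ((nm j).trans_lt (pm j).2)).symm
  have fa := g5 (p 0) hpX.le (by linarith) (by linarith) (by linarith)
  have p00 : 0 < p 0 := by linarith [(pm 0).1]
  have bk := (E.back_mem h1 hX (pm 0).1.le hpX).1
  have pole : ∀ {ν : ℝ}, ν = m → (ν : ℂ) + P.l1 + P.l2 - P.l1 * (p 0 : ℝ) = 0 := by
    intro ν hν
    rw [hν]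
    exact_mod_cast sub_eq_zero.2 e0.symm
  have reg : ∀ {ν : ℝ}, m < ν → (ν : ℂ) + P.l1 + P.l2 - P.l1 * (p 0 : ℝ) ≠ 0 :=
    fun hν => den_ne l1 (by rw [nm]; linarith)
  obtain ⟨a1, a2⟩ := back_lt l1 E.m1 p00 ((nm 0).trans_lt bk)
  have base : ∃ D e, D < e ∧ Pos 0 (p 0) D (two P.l1 P.l2 μ1 ν1 f) ∧ Pos 0 (p 0) e f := by
    rcases m2.eq_or_lt with c1 | c1
    · obtain ⟨i, hi⟩ := E.pos10 hst
      have b1 := col_ext p1 0 (fun x hx => (fa 0 x (mem_ball_zero_iff.1 hx)).differentiableAt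
        |>.differentiableWithinAt) (g1 0) a2
      have b2 : 0 < μ1 + P.l1 + P.l2 - P.l1 * p 0 := by
        rw [back, lt_div_iff₀' l1] at bk
        have := div_pos E.m1 p00
        linarith
      have b3 : geo P.l1 P.l2 μ1 0 (p 0 : ℝ) = (μ1 / (μ1 + P.l1 + P.l2 - P.l1 * p 0) : ℝ) := by
        simp [geo]
      nth_rewrite 1 [b3] at b1
      obtain ⟨v, v0, hv⟩ := val_pos (fun _ => ENNReal.toReal_nonneg) (div_pos E.m1 b2) b1 hi
      have b4 := (Pos.geo_pole l1 l2 E.n1 (pole c1.symm)).cp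
        (Pos.of_analytic (comp_an a1 fun k => fa k _ a2) (by
          simp only [sh, Finset.Nat.antidiagonal_zero, sum_singleton, pow_zero, Nat.factorial_zero,
            Nat.cast_one, div_one, iteratedDeriv_zero, one_mul, hv]
          exact_mod_cast v0.ne'))
      obtain ⟨e, he, b5⟩ := Pos.one l1 l2 E.m2 E.n2 b4
      exact ⟨_, e, he, b4.weak, fix 0 b5⟩
    · set R := min (back P.l1 P.l2 μ1 (p 0)) ((ν1 + P.l1 + P.l2) / P.l1) with hR
      have b0 : p 0 < R := lt_min bk (by rw [lt_div_iff₀' l1]; linarith)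
      have b1 : ∀ k (x : ℂ), ‖x‖ < R → AnalyticAt ℂ (two P.l1 P.l2 μ1 ν1 f k) x := by
        intro k x hx
        obtain ⟨c2, c3⟩ := back_lt l1 E.m1 p00 (hx.trans_le (min_le_left _ _))
        exact two_an c2 (den_ne l1 ((lt_div_iff₀' l1).1 (hx.trans_le (min_le_right _ _))))
          (fun i => fa i _ c3) k
      have b2 := fun k => col_ext p2 k (fun x hx => (b1 k x (mem_ball_zero_iff.1 hx)).differentiableAt
        |>.differentiableWithinAt) (g2 k) ((nm 0).trans_lt b0)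
      have b3 := fun k => b1 k _ ((nm 0).trans_lt b0)
      obtain ⟨i, hi⟩ := E.pos20 hst
      obtain ⟨i', hi'⟩ := E.pos21 hst
      obtain ⟨v, v0, hv⟩ := val_pos (fun _ => ENNReal.toReal_nonneg) p00 (b2 0) hi
      obtain ⟨w, w0, hw⟩ := val_pos (fun _ => ENNReal.toReal_nonneg) p00 (b2 1) hi'
      have b4 := Pos.of_analytic b3 (by rw [hv]; exact_mod_cast v0.ne')
      rcases m1.eq_or_lt with c2 | c2
      · have b5 := ((Pos.geo_pole l1 l2 E.m2 (pole c2.symm)).cp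
          (Pos.of_analytic (G := fun i => two P.l1 P.l2 μ1 ν1 f (i + 1)) (fun i => b3 (i + 1))
            (by rw [zero_add, hw]; exact_mod_cast w0.ne'))).add_low (Rep.of_analytic (b3 0)) one_pos
        obtain ⟨d, hd⟩ := Pos.geo_any (p := (p 0 : ℝ)) l1 l2 E.n2
        exact ⟨0, _, by omega, b4, fix 0 (hd.cp b5.weak)⟩
      · have c3 : ν2 = m := by
          rcases min_choice μ2 (min ν1 ν2) with c | c
          · exact absurd (hm.trans c) c2.ne
          · rcases min_choice ν1 ν2 with c' | c'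
            · exact absurd ((hm.trans c).trans c') c1.ne
            · exact ((hm.trans c).trans c').symm
        have b5 := (Pos.geo_pole l1 l2 E.n2 (pole c3)).cp (Pos.of_analytic (mid_an (reg c2) b3) (by
          have c4 : 0 < μ2 + P.l1 + P.l2 - P.l1 * p 0 := by linarith
          have c5 : 0 < μ2 / (μ2 + P.l1 + P.l2 - P.l1 * p 0) * w + v := by have := E.m2; positivity
          simp only [cp, Finset.Nat.antidiagonal_zero, sum_singleton, geo, pow_zero, mul_one, zero_add, pow_one,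
            if_true, hv, hw]
          exact_mod_cast c5.ne'))
        exact ⟨0, _, by omega, b4, fix 0 b5.weak⟩
  have step : ∀ j e, 0 < e → Pos 0 (p j) e f →
      ∃ D, e ≤ D ∧ Pos 1 (p (j + 1)) D (two P.l1 P.l2 μ1 ν1 f) := fun j e he h => by
    rw [hp]
    exact E.step (by linarith [(pm j).1]) h he
  have all : ∀ j, ∃ D e, D < e ∧ Pos 0 (p j) D (two P.l1 P.l2 μ1 ν1 f) ∧ Pos 0 (p j) e f := by
    intro j
    induction j with
    | zero => exact base
    | succ j ih =>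
      obtain ⟨D, e, c1, -, c3⟩ := ih
      obtain ⟨D', -, c5⟩ := step j e (by omega) c3
      obtain ⟨e', c6, c7⟩ := Pos.one l1 l2 E.m2 E.n2 c5
      exact ⟨D', e', c6, c5.weak, fix _ c7⟩
  choose d e c1 c2 c3 using all
  refine ⟨two P.l1 P.l2 μ1 ν1 f 0, d, fun x hx => g4 0 x (mem_ball_zero_iff.1 hx),
    fun x hx => by rw [g2 0 x hx, pgf_zero p2 hx.le], strictMono_nat_of_lt_succ fun j => ?_,
    fun j => ⟨(pm j).1, (pm j).2, (c2 j).order⟩⟩
  obtain ⟨D, c4, c5⟩ := step j (e j) (by have := c1 j; omega) (c3 j)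
  have c6 := c5.order.symm.trans (c2 (j + 1)).order
  have c7 : (-(D : ℤ)) = -(d (j + 1) : ℤ) := WithTop.coe_injective c6
  have := c1 j
  omega

end

end Pool.Agent.P.MP_386d8e_pr
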