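import Pool.Agent.P.MP_386d8e_pr.PoleD

set_option autoImplicit false

open Filter Topology Finset Metric

namespace Pool.Agent.P.MP_386d8e_pr

noncomputable section

theorem ord_sum_gt {z : ℂ} {m : ℤ} (s : Finset ℕ) {g : ℕ → ℂ → ℂ} (hg : ∀ i ∈ s, MeromorphicAt (g i) z)
    (ho : ∀ i ∈ s, (m : WithTop ℤ) < meromorphicOrderAt (g i) z) :
    (m : WithTop ℤ) < meromorphicOrderAt (fun x => ∑ i ∈ s, g i x) z := by
  classical
  induction s using Finset.induction_on with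
  | empty =>
    rw [meromorphicOrderAt_eq_top_iff.2 (Eventually.of_forall fun _ => by simp)]
    exact WithTop.coe_lt_top _
  | insert a s ha ih =>
    have h1 := ih (fun i hi => hg i (mem_insert_of_mem hi)) fun i hi => ho i (mem_insert_of_mem hi)
    have h2 := meromorphicOrderAt_add (hg a (mem_insert_self _ _))
      (MeromorphicAt.fun_sum fun i hi => hg i (mem_insert_of_mem hi) : MeromorphicAt (fun x => ∑ i ∈ s, g i x) z)
    simp only [sum_insert ha]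
    exact (lt_min (ho a (mem_insert_self _ _)) h1).trans_le h2

theorem ev_ne {X : ℝ} {p : ℕ → ℝ} (hi : Function.Injective p) (hp : ∀ j, ‖(p j : ℂ)‖ ≤ X) {q : ℂ → ℂ}
    (hq : AnalyticOnNhd ℂ q (closedBall 0 X)) (h0 : ¬ ∀ x : ℂ, ‖x‖ ≤ X → q x = 0) :
    ∀ᶠ j in atTop, q (p j) ≠ 0 := by
  rcases hq.eqOn_zero_or_eventually_ne_zero_of_preconnected (convex_closedBall _ _).isPreconnected with h | h
  · exact absurd (fun x hx => h (mem_closedBall_zero_iff.2 hx)) h0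
  · have h1 := (isCompact_closedBall (0 : ℂ) X).finite_sdiff_of_mem_codiscreteWithin h
    have h2 : Function.Injective fun j => (p j : ℂ) := fun a b e => hi (Complex.ofReal_injective e)
    rw [← Nat.cofinite_eq_atTop, eventually_cofinite]
    exact (h1.preimage h2.injOn).subset fun j hj => ⟨mem_closedBall_zero_iff.2 (hp j), hj⟩

theorem indep {X : ℝ} (h1 : 1 < X) {p : ℕ → ℝ} (hi : Function.Injective p) (hp : ∀ j, ‖(p j : ℂ)‖ < X)
    {g : ℕ → ℂ → ℂ} (hg : ∀ i, MeromorphicOn (g i) (ball 0 X)) {o : ℕ → ℕ → ℤ}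
    (ho : ∀ i, ∀ᶠ j in atTop, meromorphicOrderAt (g i) (p j) = o i j ∧ o i j < 0 ∧ ∀ k < i, o k j ≠ o i j)
    {n : ℕ} {q : ℕ → ℂ → ℂ} {r : ℂ → ℂ} (hq : ∀ i, AnalyticOnNhd ℂ (q i) (closedBall 0 X))
    (hr : AnalyticOnNhd ℂ r (closedBall 0 X))
    (rel : ∀ x : ℂ, ‖x‖ < 1 → ∑ i ∈ range n, q i x * g i x = r x) :
    ∀ i < n, ∀ x : ℂ, ‖x‖ ≤ X → q i x = 0 := by
  classical
  by_contra hc
  set S := (range n).filter fun i => ¬ ∀ x : ℂ, ‖x‖ ≤ X → q i x = 0 with hS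
  have Sne : S.Nonempty := by
    by_contra h
    refine hc fun i hi => by_contra fun h' => h ⟨i, mem_filter.2 ⟨mem_range.2 hi, h'⟩⟩
  obtain ⟨j, hj⟩ := ((eventually_all_finset S).2 fun i hi' =>
    (ev_ne hi (fun j => (hp j).le) (hq i) (mem_filter.1 hi').2).and (ho i)).exists
  obtain ⟨a, aS, amin⟩ := exists_min_image S (fun i => o i j) Sne
  have zb : (p j : ℂ) ∈ ball (0 : ℂ) X := mem_ball_zero_iff.2 (hp j)
  have qa : ∀ i, ∀ x ∈ ball (0 : ℂ) X, AnalyticAt ℂ (q i) x := fun i x hx => hq i x (ball_subset_closedBall hx)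
  have tm : ∀ i, MeromorphicOn (fun x => q i x * g i x) (ball 0 X) :=
    fun i x hx => (qa i x hx).meromorphicAt.mul (hg i x hx)
  have Φm : MeromorphicOn (fun x => ∑ i ∈ S, q i x * g i x - r x) (ball 0 X) := fun x hx =>
    (MeromorphicAt.fun_sum fun i _ => tm i x hx).sub (hr x (ball_subset_closedBall hx)).meromorphicAt
  have Φ0 : meromorphicOrderAt (fun x => ∑ i ∈ S, q i x * g i x - r x) (p j) = ⊤ := by
    by_contra h
    refine Φm.meromorphicOrderAt_ne_top_of_isPreconnected (convex_ball _ _).isPreconnected zb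
      (mem_ball_self (by linarith)) h (meromorphicOrderAt_eq_top_iff.2 ?_)
    filter_upwards [mem_nhdsWithin_of_mem_nhds (ball_mem_nhds (0 : ℂ) one_pos)] with x hx
    have hx' := mem_ball_zero_iff.1 hx
    rw [← rel x hx', sub_eq_zero]
    refine sum_subset (filter_subset _ _) fun i hi hi' => ?_
    rw [(not_not.1 fun h' => hi' (mem_filter.2 ⟨hi, h'⟩) : ∀ x : ℂ, ‖x‖ ≤ X → q i x = 0) x (by linarith),
      zero_mul]
  have ot : ∀ i ∈ S, meromorphicOrderAt (fun x => q i x * g i x) (p j) = o i j := fun i hi =>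
    (meromorphicOrderAt_mul_of_ne_zero (qa i _ zb) (hj i hi).1).trans (hj i hi).2.1
  have rest : (o a j : WithTop ℤ) <
      meromorphicOrderAt (fun x => ∑ i ∈ S.erase a, q i x * g i x) (p j) := by
    refine ord_sum_gt _ (fun i _ => tm i _ zb) fun i hi => ?_
    obtain ⟨ia, iS⟩ := mem_erase.1 hi
    rw [ot i iS, WithTop.coe_lt_coe]
    refine (amin i iS).lt_of_ne ?_
    rcases lt_or_gt_of_ne ia with c | c
    · exact ((hj a aS).2.2.2 i c).symm
    · exact (hj i iS).2.2.2 a c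
  have ra := hr _ (ball_subset_closedBall zb)
  have e : (fun x => q a x * g a x) =ᶠ[𝓝[≠] (p j : ℂ)]
      r + -fun x => ∑ i ∈ S.erase a, q i x * g i x := by
    filter_upwards [meromorphicOrderAt_eq_top_iff.1 Φ0] with x hx
    rw [← add_sum_erase S _ aS] at hx
    simp only [Pi.add_apply, Pi.neg_apply]
    linear_combination hx
  have sm : MeromorphicAt (fun x => ∑ i ∈ S.erase a, q i x * g i x) (p j) :=
    MeromorphicAt.fun_sum fun i _ => tm i _ zb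
  have le := meromorphicOrderAt_add ra.meromorphicAt sm.neg
  rw [← meromorphicOrderAt_congr e, ot a aS, ← meromorphicOrderAt_neg] at le
  have neg : (o a j : WithTop ℤ) < meromorphicOrderAt r (p j) :=
    lt_of_lt_of_le (by exact_mod_cast (hj a aS).2.2.1) ra.meromorphicOrderAt_nonneg
  exact absurd le (not_le.2 (lt_min neg rest))

variable {X : ℝ} {K : ℂ → ℂ} {d : ℕ → ℕ} {p : ℕ → ℝ}

theorem ord_pow (hK : MeromorphicOn K (ball 0 X)) (hd : StrictMono d) (hp : ∀ j, ‖(p j : ℂ)‖ < X)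
    (ho : ∀ j, meromorphicOrderAt K (p j) = (-(d j : ℤ) : ℤ)) (i : ℕ) :
    ∀ᶠ j in atTop, meromorphicOrderAt (K ^ (i + 1)) (p j) = (-((i + 1) * d j : ℤ) : ℤ) ∧
      (-((i + 1) * d j : ℤ) : ℤ) < 0 ∧ ∀ k < i, (-((k + 1 : ℕ) * d j : ℤ) : ℤ) ≠ -((i + 1) * d j) := by
  filter_upwards [eventually_ge_atTop 1] with j hj
  have h0 : (0 : ℤ) < d j := by exact_mod_cast hj.trans (hd.le_apply)
  refine ⟨?_, by have : (0 : ℤ) < (i + 1) * d j := by positivity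
                 omega, fun k hk => ?_⟩
  · rw [meromorphicOrderAt_pow (hK _ (mem_ball_zero_iff.2 (hp j))), ho]
    norm_cast
    push_cast
    ring
  · have : (k : ℤ) < i := by exact_mod_cast hk
    push_cast
    nlinarith

theorem ord_der (hd : StrictMono d) (ho : ∀ j, meromorphicOrderAt K (p j) = (-(d j : ℤ) : ℤ)) (i : ℕ) :
    ∀ᶠ j in atTop, meromorphicOrderAt (deriv^[i] K) (p j) = (-(d j : ℤ) - i : ℤ) ∧
      (-(d j : ℤ) - i : ℤ) < 0 ∧ ∀ k < i, (-(d j : ℤ) - k : ℤ) ≠ -(d j : ℤ) - i := by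
  filter_upwards [eventually_ge_atTop 1] with j hj
  have h0 : 1 ≤ d j := hj.trans (hd.le_apply)
  refine ⟨?_, by omega, fun k hk => by omega⟩
  induction i with
  | zero => simpa using ho j
  | succ i ih =>
    rw [Function.iterate_succ_apply', meromorphicOrderAt_deriv_eq_sub_one
      (by exact_mod_cast (by omega : (-(d j : ℤ) - i : ℤ) ≠ 0)) ih]
    congr 1
    push_cast
    ring

theorem ord_shift {H : ℂ → ℂ} (hH : ∀ x : ℂ, ‖x‖ < X → AnalyticAt ℂ H x ∧ deriv H x ≠ 0 ∧ ‖H x‖ < X)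
    (hK : MeromorphicOn K (ball 0 X)) (hd : StrictMono d) (hp : ∀ j, ‖(p j : ℂ)‖ < X)
    (hs : ∀ j, H (p (j + 1)) = p j) (ho : ∀ j, meromorphicOrderAt K (p j) = (-(d j : ℤ) : ℤ)) (i : ℕ) :
    MeromorphicOn (K ∘ H^[i]) (ball 0 X) ∧
    ∀ᶠ j in atTop, meromorphicOrderAt (K ∘ H^[i]) (p j) = (-(d (j - i) : ℤ) : ℤ) ∧
      (-(d (j - i) : ℤ) : ℤ) < 0 ∧ ∀ k < i, (-(d (j - k) : ℤ) : ℤ) ≠ -(d (j - i) : ℤ) := by
  have a : MeromorphicOn (K ∘ H^[i]) (ball 0 X) ∧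
      ∀ j, meromorphicOrderAt (K ∘ H^[i]) (p (j + i)) = (-(d j : ℤ) : ℤ) := by
    induction i with
    | zero => exact ⟨hK, ho⟩
    | succ i ih =>
      rw [Function.iterate_succ, ← Function.comp_assoc]
      refine ⟨fun x hx => ?_, fun j => ?_⟩
      · obtain ⟨b1, -, b3⟩ := hH x (mem_ball_zero_iff.1 hx)
        exact (ih.1 _ (mem_ball_zero_iff.2 b3)).comp_analyticAt b1
      · obtain ⟨b1, b2, -⟩ := hH _ (hp (j + i + 1))
        rw [← add_assoc, meromorphicOrderAt_comp_of_deriv_ne_zero b1 b2, hs, ih.2]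
  refine ⟨a.1, ?_⟩
  filter_upwards [eventually_ge_atTop (i + 1)] with j hj
  have h0 : j - i ≤ d (j - i) := hd.le_apply
  refine ⟨?_, by omega, fun k hk => ?_⟩
  · rw [← a.2, Nat.sub_add_cancel (by omega)]
  · have := hd (by omega : j - i < j - k)
    omega

variable {P : Model} {μ1 μ2 ν1 ν2 : ℝ} (E : Expo P μ1 μ2 ν1 ν2) {p1 p2 : PMF (ℕ × ℕ)}

include E in
theorem Expo.h_iter (i : ℕ) {x : ℂ} (hx : ‖x‖ < 1) :
    (P.h 0)^[i] x = (geo P.l1 P.l2 μ1 0)^[i] x ∧ ‖(P.h 0)^[i] x‖ < 1 := by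
  induction i with
  | zero => exact ⟨rfl, hx⟩
  | succ i ih =>
    have e : P.h 0 ((P.h 0)^[i] x) = geo P.l1 P.l2 μ1 0 ((P.h 0)^[i] x) := by
      rw [Model.h, E.B1 _ (E.th_re ih.2.le (by simp))]
      simp only [geo, Model.th, pow_zero, mul_one, zero_add, pow_one, sub_zero]
      congr 1
      ring
    rw [Function.iterate_succ_apply', Function.iterate_succ_apply', e, ← ih.1]
    exact ⟨rfl, E.h_lt ih.2.le⟩

include E in
theorem Expo.root (hX : X = (μ1 + P.l1 + P.l2 + √((μ1 + P.l1 + P.l2) ^ 2 - 4 * P.l1 * μ1)) / (2 * P.l1)) :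
    μ1 = X * (μ1 + P.l1 + P.l2 - P.l1 * X) ∧
      ∀ t : ℝ, P.l1 * t ^ 2 - (μ1 + P.l1 + P.l2) * t + μ1 < 0 → t < X := by
  have l1 := E.l1
  have l2 := E.l2
  have m1 := E.m1
  have D0 : 0 ≤ (μ1 + P.l1 + P.l2) ^ 2 - 4 * P.l1 * μ1 := by nlinarith [sq_nonneg (μ1 - P.l1), mul_pos l1 l2, mul_pos m1 l2]
  have s1 := Real.sq_sqrt D0
  have s0 := Real.sqrt_nonneg ((μ1 + P.l1 + P.l2) ^ 2 - 4 * P.l1 * μ1)
  set s := √((μ1 + P.l1 + P.l2) ^ 2 - 4 * P.l1 * μ1)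
  have e : 2 * P.l1 * X = μ1 + P.l1 + P.l2 + s := by rw [hX]; field_simp
  refine ⟨?_, fun t ht => ?_⟩
  · refine mul_left_cancel₀ (by positivity : 4 * P.l1 ≠ 0) ?_
    have e' : s = 2 * P.l1 * X - (μ1 + P.l1 + P.l2) := by linarith
    rw [e'] at s1
    linear_combination s1
  · by_contra h
    have h1 : s ≤ 2 * P.l1 * t - (μ1 + P.l1 + P.l2) := by nlinarith [not_lt.1 h]
    nlinarith [mul_le_mul h1 h1 s0 (s0.trans h1)]

include E in
theorem Expo.final (hst : P.Steady p1 p2) {m : ℝ} (hm : m = min μ2 (min ν1 ν2))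
    (hc : P.l1 * m < (P.l2 + m) * (μ1 - m))
    (hX : X = (μ1 + P.l1 + P.l2 + √((μ1 + P.l1 + P.l2) ^ 2 - 4 * P.l1 * μ1)) / (2 * P.l1))
    (hp0 : p 0 = 1 + (P.l2 + m) / P.l1) (hp : ∀ j, p (j + 1) = (μ1 + P.l1 + P.l2 - μ1 / p j) / P.l1) :
    (∃ (K : ℂ → ℂ) (d : ℕ → ℕ), MeromorphicOn K (ball 0 X) ∧
      (∀ x : ℂ, ‖x‖ < 1 → K x = pgf p2 x 0) ∧ StrictMono d ∧ StrictMono p ∧
      ∀ j, 1 < p j ∧ p j < X ∧ meromorphicOrderAt K (p j) = (-(d j : ℤ) : ℤ)) ∧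
    ∀ (n : ℕ) (q : ℕ → ℂ → ℂ) (r : ℂ → ℂ), (∀ i, AnalyticOnNhd ℂ (q i) (closedBall 0 X)) →
      AnalyticOnNhd ℂ r (closedBall 0 X) →
      ((∀ x : ℂ, ‖x‖ < 1 → ∑ i ∈ range n, q i x * pgf p2 x 0 ^ (i + 1) = r x) ∨
        (∀ x : ℂ, ‖x‖ < 1 → ∑ i ∈ range n, q i x * iteratedDeriv i (fun z => pgf p2 z 0) x = r x) ∨
        (∀ x : ℂ, ‖x‖ < 1 → ∑ i ∈ range n, q i x * pgf p2 ((P.h 0)^[i] x) 0 = r x)) →
      ∀ i < n, ∀ x : ℂ, ‖x‖ ≤ X → q i x = 0 := by
  have l1 := E.l1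
  obtain ⟨hX', lt⟩ := E.root hX
  have h1 : 1 < X := lt 1 (by linarith [E.l2])
  have e0 : P.l1 * p 0 = m + P.l1 + P.l2 := by rw [hp0]; field_simp; ring
  have hpX : p 0 < X := lt _ (by
    refine lt_of_mul_lt_mul_left ?_ l1.le
    have : P.l1 * (P.l1 * p 0 ^ 2 - (μ1 + P.l1 + P.l2) * p 0 + μ1) =
        (P.l1 * p 0) ^ 2 - (μ1 + P.l1 + P.l2) * (P.l1 * p 0) + P.l1 * μ1 := by ring
    rw [this, e0]
    nlinarith)
  obtain ⟨K, d, k1, k2, k3, k4⟩ := E.poles hst h1 hX' p (hm ▸ hp0) hpX hp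
  have ps : StrictMono p := strictMono_nat_of_lt_succ fun j => by
    rw [hp]
    exact (E.back_mem h1 hX' (k4 j).1.le (k4 j).2.1).1
  have nm : ∀ j, ‖(p j : ℂ)‖ < X := fun j => by
    rw [Complex.norm_real, Real.norm_of_nonneg (by linarith [(k4 j).1])]
    exact (k4 j).2.1
  have ko := fun j => (k4 j).2.2
  refine ⟨⟨K, d, k1, k2, k3, ps, k4⟩, fun n q r hq hr h => ?_⟩
  rcases h with h | h | h
  · refine indep h1 ps.injective nm (fun i => k1.pow (i + 1)) (o := fun i j => -((i + 1 : ℕ) * d j : ℤ))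
      (fun i => by exact_mod_cast ord_pow k1 k3 nm ko i) hq hr fun x hx => ?_
    simp only [Pi.pow_apply, k2 x hx, h x hx]
  · refine indep h1 ps.injective nm (fun i => k1.iterated_deriv) (ord_der k3 ko) hq hr fun x hx => ?_
    rw [← h x hx]
    refine sum_congr rfl fun i _ => ?_
    rw [← iteratedDeriv_eq_iterate, (ev_ball k2 hx).iteratedDeriv_eq]
  · have X0 : 0 < X := by linarith
    have bX : back P.l1 P.l2 μ1 X = X := by
      rw [back]
      field_simp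
      linarith
    have m0 : (μ1 : ℂ) ≠ 0 := by exact_mod_cast E.m1.ne'
    have a0 : (P.l1 : ℂ) ≠ 0 := by exact_mod_cast l1.ne'
    have hH : ∀ x : ℂ, ‖x‖ < X → AnalyticAt ℂ (geo P.l1 P.l2 μ1 0) x ∧
        deriv (geo P.l1 P.l2 μ1 0) x ≠ 0 ∧ ‖geo P.l1 P.l2 μ1 0 x‖ < X := by
      intro x hx
      obtain ⟨b1, b2⟩ := back_lt l1 E.m1 X0 (bX.symm ▸ hx)
      refine ⟨geo_an b1 0, ?_, b2⟩
      have b3 : HasDerivAt (fun z : ℂ => (μ1 : ℂ) / (μ1 + P.l1 + P.l2 - P.l1 * z))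
          (μ1 * P.l1 / (μ1 + P.l1 + P.l2 - P.l1 * x) ^ 2) x := by
        have b5 : HasDerivAt (fun z : ℂ => (μ1 : ℂ) + P.l1 + P.l2 - P.l1 * z) (-P.l1) x := by
          simpa using ((hasDerivAt_id x).const_mul (P.l1 : ℂ)).const_sub ((μ1 : ℂ) + P.l1 + P.l2)
        exact ((hasDerivAt_const x (μ1 : ℂ)).fun_div b5 b1).congr_deriv (by simp)
      have b4 : geo P.l1 P.l2 μ1 0 = fun z : ℂ => (μ1 : ℂ) / (μ1 + P.l1 + P.l2 - P.l1 * z) := by
        funext z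
        simp [geo]
      rw [b4, b3.deriv]
      exact div_ne_zero (mul_ne_zero m0 a0) (pow_ne_zero _ b1)
    have hs : ∀ j, geo P.l1 P.l2 μ1 0 (p (j + 1)) = p j := fun j => by
      have b0 : (p j : ℂ) ≠ 0 := by exact_mod_cast (by linarith [(k4 j).1] : p j ≠ 0)
      have e1 : (μ1 : ℂ) + P.l1 + P.l2 - P.l1 * (p (j + 1) : ℝ) = μ1 / p j := by
        rw [hp]
        push_cast
        field_simp
        ring
      simp only [geo, e1, pow_zero, mul_one, zero_add, pow_one]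
      field_simp
    have c := ord_shift hH k1 k3 nm hs ko
    refine indep h1 ps.injective nm (fun i => (c i).1) (fun i => (c i).2) hq hr fun x hx => ?_
    rw [← h x hx]
    refine sum_congr rfl fun i _ => ?_
    obtain ⟨b1, b2⟩ := E.h_iter i hx
    rw [Function.comp_apply, ← b1, k2 _ b2]

end

end Pool.Agent.P.MP_386d8e_pr
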