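import Pool.Agent.P.MP_386d8e_pr.Lst

set_option autoImplicit false

open MeasureTheory Filter Topology

namespace Pool.Agent.P.MP_386d8e_pr

theorem W.tendsto {C : ℝ} {F : ℂ → ℂ → ℂ} (h : W C F) {u v : ℕ → ℂ} {x y : ℂ} (hu : ∀ k, ‖u k‖ ≤ 1)
    (hv : ∀ k, ‖v k‖ ≤ 1) (hx : Tendsto u atTop (𝓝 x)) (hy : Tendsto v atTop (𝓝 y)) :
    Tendsto (fun k => F (u k) (v k)) atTop (𝓝 (F x y)) := by
  obtain ⟨c, h1, -, h3⟩ := h
  have hx1 : ‖x‖ ≤ 1 := le_of_tendsto' hx.norm hu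
  have hy1 : ‖y‖ ≤ 1 := le_of_tendsto' hy.norm hv
  rw [← (h3 x y hx1 hy1).tsum_eq]
  simp only [fun k => (h3 _ _ (hu k) (hv k)).tsum_eq.symm]
  refine tendsto_tsum_of_dominated_convergence h1
    (fun s => ((hx.pow _).mul (hy.pow _)).const_mul _) (Eventually.of_forall fun k s => ?_)
  rw [norm_mul]
  exact mul_le_of_le_one_right (norm_nonneg _) (norm_mono_le (hu k) (hv k) _ _)

theorem pmf_sum (p : PMF (ℕ × ℕ)) : HasSum (fun s => (p s).toReal) 1 := by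
  have := ENNReal.hasSum_toReal (f := p) (by simp)
  rwa [← ENNReal.tsum_toReal_eq (p.apply_ne_top), p.tsum_coe, ENNReal.toReal_one] at this

theorem pmf_norm (p : PMF (ℕ × ℕ)) : HasSum (fun s => ‖((p s).toReal : ℂ)‖) 1 :=
  hs_congr (pmf_sum p) (fun s => by simp) rfl

theorem pgf_rep (p : PMF (ℕ × ℕ)) {x y : ℂ} (hx : ‖x‖ ≤ 1) (hy : ‖y‖ ≤ 1) :
    HasSum (fun s => ((p s).toReal : ℂ) * (x ^ s.1 * y ^ s.2)) (pgf p x y) := by
  have : Summable fun s : ℕ × ℕ => ((p s).toReal : ℂ) * (x ^ s.1 * y ^ s.2) :=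
    Summable.of_norm_bounded (pmf_norm p).summable fun s => by
      rw [norm_mul]
      exact mul_le_of_le_one_right (norm_nonneg _) (norm_mono_le hx hy _ _)
  refine hs_congr this.hasSum (fun _ => rfl) ?_
  simp only [pgf, mul_assoc]

theorem pgf_W (p : PMF (ℕ × ℕ)) : W 1 (pgf p) :=
  ⟨_, (pmf_norm p).summable, (pmf_norm p).tsum_eq.le, fun _ _ hx hy => pgf_rep p hx hy⟩

theorem pgf_one (p : PMF (ℕ × ℕ)) : pgf p 1 1 = 1 :=
  (pgf_rep p (by simp) (by simp)).unique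
    (hs_congr (Complex.hasSum_ofReal.2 (pmf_sum p)) (fun s => by simp) (by simp))

theorem nrm {x : ℝ} (h0 : 0 ≤ x) (h1 : x ≤ 1) : ‖(x : ℂ)‖ ≤ 1 := by
  rw [Complex.norm_real, Real.norm_of_nonneg h0]; exact h1

theorem pgf_real (p : PMF (ℕ × ℕ)) {x y : ℝ} (x0 : 0 ≤ x) (x1 : x ≤ 1) (y0 : 0 ≤ y) (y1 : y ≤ 1) :
    ∃ r : ℝ, (r : ℂ) = pgf p x y ∧ HasSum (fun s => (p s).toReal * (x ^ s.1 * y ^ s.2)) r := by
  have h := pgf_rep p (nrm x0 x1) (nrm y0 y1)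
  have h2 : HasSum (fun s => (p s).toReal * (x ^ s.1 * y ^ s.2)) (pgf p x y).re := by
    refine hs_congr (Complex.hasSum_re h) (fun s => ?_) rfl
    rw [← Complex.ofReal_pow, ← Complex.ofReal_pow, ← Complex.ofReal_mul, ← Complex.ofReal_mul,
      Complex.ofReal_re]
  exact ⟨_, (Complex.hasSum_ofReal.2 h2).unique (hs_congr h (fun s => by push_cast; rfl) rfl), h2⟩

/-- the four transforms as generating functions of a linear form -/
structure Setup (P : Model) where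
  α : ℝ
  β : ℝ
  q1 : ℕ → ℝ
  q2 : ℕ → ℝ
  r1 : ℕ → ℝ
  r2 : ℕ → ℝ
  b1 : ℂ → ℂ
  b2 : ℂ → ℂ
  s1 : ℂ → ℂ
  s2 : ℂ → ℂ
  hα : 0 < α
  hβ : 0 < β
  hαβ : α + β = 1
  B1 : PG q1 b1
  B2 : PG q2 b2
  S1 : PG r1 s1
  S2 : PG r2 s2
  hS : 0 < r1 1 ∨ 0 < r2 1
  eb1 : ∀ x y, lst P.B1 (P.th x y) = b1 (α * x + β * y)
  eb2 : ∀ x y, lst P.B2 (P.th x y) = b2 (α * x + β * y)
  es1 : ∀ x y, lst P.S1 (P.th x y) = s1 (α * x + β * y)
  es2 : ∀ x y, lst P.S2 (P.th x y) = s2 (α * x + β * y)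

namespace Setup

variable {P : Model} (S : Setup P)

/-- finite means and the stability condition -/
structure Stable where
  m1 : ℝ
  m2 : ℝ
  n1 : ℝ
  n2 : ℝ
  h1 : HasSum (fun n : ℕ => n * S.q1 n) m1
  h2 : HasSum (fun n : ℕ => n * S.q2 n) m2
  k1 : HasSum (fun n : ℕ => n * S.r1 n) n1
  k2 : HasSum (fun n : ℕ => n * S.r2 n) n2
  st : S.α * m1 + S.β * (n1 + n2 + m2) < 1
  fix : ∀ y : ℝ, 0 < y → y < 1 → ∃ p a : ℝ, 0 < p ∧ p ≤ 1 ∧ y < a ∧
    S.b1 (S.α * p + S.β * y) = p ∧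
    S.s1 (S.α * p + S.β * y) * S.s2 (S.α * p + S.β * y) * S.b2 (S.α * p + S.β * y) = a

theorem exists_fix {p1 p2 : PMF (ℕ × ℕ)} (hst : P.Steady p1 p2) {y : ℝ} (y0 : 0 < y) (y1 : y < 1) :
    ∃ p l σ1 σ2 b F K : ℝ, 0 < p ∧ p ≤ 1 ∧ l = S.α * p + S.β * y ∧ S.b1 l = p ∧ S.s1 l = σ1 ∧
      S.s2 l = σ2 ∧ S.b2 l = b ∧ pgf p1 p y = F ∧ pgf p2 p 0 = K ∧
      HasSum (fun s => (p2 s).toReal * (p ^ s.1 * 0 ^ s.2)) K ∧ 0 < F ∧ σ2 * K ≤ F ∧
      F * (σ1 * σ2 * b - y) = σ2 * (b - y) * K := by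
  have hα := S.hα
  have hβ := S.hβ
  have hαβ := S.hαβ
  have l0 : ∀ x : ℝ, 0 ≤ x → 0 ≤ S.α * x + S.β * y := fun x hx => by positivity
  have l1 : ∀ x : ℝ, x ≤ 1 → S.α * x + S.β * y ≤ 1 := fun x hx => by nlinarith
  have hc : ContinuousOn (fun x : ℝ => x - (S.b1 ((S.α * x + S.β * y : ℝ) : ℂ)).re) (Set.Icc 0 1) := by
    refine continuousOn_id.sub (Complex.continuous_re.comp_continuousOn ?_)
    refine S.B1.continuousOn.comp (Continuous.continuousOn (by fun_prop)) fun x hx => ?_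
    simpa using nrm (l0 x hx.1) (l1 x hx.2)
  obtain ⟨p, hp, hp'⟩ := intermediate_value_Icc zero_le_one hc (show (0 : ℝ) ∈ _ from ⟨by
    have := S.B1.le_re (l0 0 le_rfl) (l1 0 zero_le_one)
    have := S.B1.pos
    linarith, by
    have := (Complex.re_le_norm _).trans (S.B1.norm_le (nrm (l0 1 zero_le_one) (l1 1 le_rfl)))
    linarith⟩)
  simp only at hp'
  set l := S.α * p + S.β * y with hl
  have a0 : 0 ≤ l := l0 p hp.1
  have a1 : l ≤ 1 := l1 p hp.2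
  have p0 : 0 < p := by linarith [S.B1.le_re a0 a1, S.B1.pos]
  have e1 : S.b1 l = p := by rw [← S.B1.ofReal_re a0 a1]; congr 1; linarith
  obtain ⟨F, hF, hF'⟩ := pgf_real p1 hp.1 hp.2 y0.le y1.le
  obtain ⟨G, hG, hG'⟩ := pgf_real p2 hp.1 hp.2 y0.le y1.le
  obtain ⟨K, hK, hK'⟩ := pgf_real p2 hp.1 hp.2 le_rfl zero_le_one
  have el : (S.α * p + S.β * y : ℂ) = l := by rw [hl]; push_cast; rfl
  obtain ⟨r1, r2⟩ := hst p y (nrm hp.1 hp.2) (nrm y0.le y1.le)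
  have yne : (y : ℂ) ≠ 0 := by exact_mod_cast y0.ne'
  replace r2 := r2 yne
  rw [Complex.ofReal_zero] at hK
  rw [Model.h, S.eb1, S.es1, el, e1, ← hF, ← hG, ← S.S1.ofReal_re a0 a1] at r1
  rw [S.es2, S.eb2, el, ← hF, ← hG, ← hK, ← S.S2.ofReal_re a0 a1, ← S.B2.ofReal_re a0 a1] at r2
  have r1' : G = (S.s1 l).re * F := by exact_mod_cast r1
  have r2' : F = (S.s2 l).re * ((S.b2 l).re / y * (G - K) + K) := by exact_mod_cast r2
  have KG : K ≤ G := hasSum_le (fun s => mul_le_mul_of_nonneg_left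
    (mul_le_mul_of_nonneg_left (pow_le_pow_left₀ le_rfl y0.le _) (by positivity))
    ENNReal.toReal_nonneg) hK' hG'
  have F0 : 0 < F := by
    obtain ⟨s, hs⟩ := p1.support_nonempty
    refine lt_of_lt_of_le ?_ (le_hasSum hF' s fun _ _ => by positivity)
    have : 0 < (p1 s).toReal := ENNReal.toReal_pos hs (p1.apply_ne_top s)
    positivity
  have σ20 : 0 < (S.s2 l).re := by linarith [S.S2.le_re a0 a1, S.S2.pos]
  have b0 : 0 < (S.b2 l).re := by linarith [S.B2.le_re a0 a1, S.B2.pos]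
  refine ⟨p, l, (S.s1 l).re, (S.s2 l).re, (S.b2 l).re, F, K, p0, hp.2, rfl, e1,
    (S.S1.ofReal_re a0 a1).symm, (S.S2.ofReal_re a0 a1).symm, (S.B2.ofReal_re a0 a1).symm,
    hF.symm, hK.symm, hK', F0, ?_, ?_⟩
  · rw [r2']
    refine mul_le_mul_of_nonneg_left ?_ σ20.le
    have : 0 ≤ (S.b2 l).re / y * (G - K) := mul_nonneg (by positivity) (by linarith)
    linarith
  · have : F * y = (S.s2 l).re * ((S.b2 l).re * (G - K) + K * y) := by
      rw [r2']; field_simp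
    rw [r1'] at this
    linear_combination -this

theorem exists_stable {p1 p2 : PMF (ℕ × ℕ)} (hst : P.Steady p1 p2) :
    ∃ T : S.Stable, pgf p2 1 0 * ((1 - S.α * T.m1 - S.β * T.m2 : ℝ) : ℂ) =
      ((1 - S.α * T.m1 - S.β * (T.n1 + T.n2 + T.m2) : ℝ) : ℂ) := by
  have hα := S.hα
  have hβ := S.hβ
  have hαβ := S.hαβ
  have rng : ∀ {q : ℕ → ℝ} {f : ℂ → ℂ}, PG q f → ∀ {l σ : ℝ}, 0 ≤ l → l ≤ 1 → f l = σ →
      q 0 ≤ σ ∧ 0 < σ ∧ σ ≤ 1 - q 1 * (1 - l) ∧ σ ≤ 1 := by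
    intro q f h l σ l0 l1 e
    have a := h.le_re l0 l1
    have b := h.re_le l0 l1
    rw [e, Complex.ofReal_re] at a b
    have := mul_nonneg (h.nonneg 1) (sub_nonneg.2 l1)
    exact ⟨a, by linarith [h.pos], b, by linarith⟩
  obtain ⟨s0, hs0, hs0'⟩ : ∃ s : ℕ × ℕ, s.2 = 0 ∧ 0 < (p2 s).toReal := by
    by_contra hc
    push Not at hc
    have a0 : 0 < S.r1 0 * S.r2 0 * S.q2 0 := mul_pos (mul_pos S.S1.pos S.S2.pos) S.B2.pos
    obtain ⟨p, l, σ1, σ2, b, F, K, p0, p1', hl, -, e1, e2, e3, -, -, hK, F0, -, hid⟩ :=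
      S.exists_fix hst (y := min (1 / 2) (S.r1 0 * S.r2 0 * S.q2 0 / 2)) (by positivity)
        (lt_of_le_of_lt (min_le_left _ _) (by norm_num))
    have m1 := min_le_left (1 / 2) (S.r1 0 * S.r2 0 * S.q2 0 / 2)
    have m2 := min_le_right (1 / 2) (S.r1 0 * S.r2 0 * S.q2 0 / 2)
    have l0 : 0 ≤ l := by rw [hl]; positivity
    have l1 : l ≤ 1 := by rw [hl]; nlinarith
    have K0 : K = 0 := hK.unique (hs_congr hasSum_zero (fun s => by
      by_cases h : s.2 = 0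
      · have : (p2 s).toReal = 0 := le_antisymm (hc s h) ENNReal.toReal_nonneg
        simp [this]
      · simp [h]) rfl)
    obtain ⟨c1, c1', -⟩ := rng S.S1 l0 l1 e1
    obtain ⟨c2, c2', -⟩ := rng S.S2 l0 l1 e2
    obtain ⟨c3, -⟩ := rng S.B2 l0 l1 e3
    have : S.r1 0 * S.r2 0 * S.q2 0 ≤ σ1 * σ2 * b :=
      mul_le_mul (mul_le_mul c1 c2 S.S2.pos.le c1'.le) c3 S.B2.pos.le (by positivity)
    rw [K0, mul_zero] at hid
    have := mul_pos F0 (show 0 < σ1 * σ2 * b - min (1 / 2) (S.r1 0 * S.r2 0 * S.q2 0 / 2) by linarith)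
    linarith
  have Kpos : ∀ {p K : ℝ}, 0 < p → HasSum (fun s => (p2 s).toReal * (p ^ s.1 * 0 ^ s.2)) K → 0 < K := by
    intro p K p0 hK
    refine lt_of_lt_of_le ?_ (le_hasSum hK s0 fun _ _ => by positivity)
    rw [hs0, pow_zero]
    positivity
  obtain ⟨c, c0, hc⟩ : ∃ c > 0, ∀ {l σ1 σ2 : ℝ}, 0 ≤ l → l ≤ 1 → S.s1 l = σ1 → S.s2 l = σ2 →
      σ1 * σ2 ≤ 1 - c * (1 - l) := by
    rcases S.hS with h | h
    · refine ⟨_, h, fun l0 l1 e1 e2 => ?_⟩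
      obtain ⟨-, a1, a2, -⟩ := rng S.S1 l0 l1 e1
      obtain ⟨-, -, -, a3⟩ := rng S.S2 l0 l1 e2
      nlinarith
    · refine ⟨_, h, fun l0 l1 e1 e2 => ?_⟩
      obtain ⟨-, a1, a2, -⟩ := rng S.S2 l0 l1 e2
      obtain ⟨-, -, -, a3⟩ := rng S.S1 l0 l1 e1
      nlinarith
  have main : ∀ y : ℝ, 0 < y → y < 1 → ∃ p l σ1 σ2 b F K : ℝ, 0 < p ∧ p ≤ 1 ∧
      l = S.α * p + S.β * y ∧ S.b1 l = p ∧ S.s1 l = σ1 ∧ S.s2 l = σ2 ∧ S.b2 l = b ∧
      pgf p1 p y = F ∧ pgf p2 p 0 = K ∧ F * (σ1 * σ2 * b - y) = σ2 * (b - y) * K ∧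
      0 ≤ l ∧ l < 1 ∧ y < σ1 * σ2 * b ∧ y < σ1 ∧ y < σ2 ∧ y < b ∧ c * (1 - l) ≤ 1 - y := by
    intro y y0 y1
    obtain ⟨p, l, σ1, σ2, b, F, K, p0, p1', hl, e0, e1, e2, e3, eF, eK, hK, F0, hFK, hid⟩ :=
      S.exists_fix hst y0 y1
    have l0 : 0 ≤ l := by rw [hl]; positivity
    have l1 : l < 1 := by rw [hl]; nlinarith
    obtain ⟨-, a1, -, a1'⟩ := rng S.S1 l0 l1.le e1
    obtain ⟨-, a2, -, a2'⟩ := rng S.S2 l0 l1.le e2
    obtain ⟨-, a3, -, a3'⟩ := rng S.B2 l0 l1.le e3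
    have a4 := hc l0 l1.le e1 e2
    have a5 : 0 < c * (1 - l) := mul_pos c0 (by linarith)
    have a6 := mul_pos a2 (Kpos p0 hK)
    have a7 : y < σ1 * σ2 * b := by
      by_contra hn
      push Not at hn
      have d1 : F * (σ1 * σ2 * b - y) ≤ σ2 * K * (σ1 * σ2 * b - y) :=
        mul_le_mul_of_nonpos_right hFK (by linarith)
      have d2 : σ1 * σ2 * b < b := by nlinarith
      nlinarith
    have a8 := mul_pos a1 a2
    have a9 : σ1 * σ2 * b ≤ σ1 * σ2 := mul_le_of_le_one_right a8.le a3'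
    refine ⟨p, l, σ1, σ2, b, F, K, p0, p1', hl, e0, e1, e2, e3, eF, eK, hid, l0, l1, a7,
      by nlinarith, by nlinarith, by nlinarith, by linarith⟩
  set y : ℕ → ℝ := fun k => 1 - 1 / ((k : ℝ) + 1) / 2 with hy
  have y01 : ∀ k, 0 < y k ∧ y k < 1 := by
    intro k
    have a1 : 0 < 1 / ((k : ℝ) + 1) := by positivity
    have a2 : 1 / ((k : ℝ) + 1) ≤ 1 := by
      rw [div_le_one (by positivity)]; linarith [Nat.cast_nonneg (α := ℝ) k]
    simp only [hy]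
    constructor <;> linarith
  have yt : Tendsto y atTop (𝓝 1) := by
    have := (tendsto_one_div_add_atTop_nhds_zero_nat.div_const 2).const_sub (1 : ℝ)
    rwa [zero_div, sub_zero] at this
  choose p l σ1 σ2 b F K p0 p1' hl e0 e1 e2 e3 eF eK hid l0 l1 a7 d1 d2 d3 d4 using
    fun k => main (y k) (y01 k).1 (y01 k).2
  have lt : Tendsto l atTop (𝓝 1) := by
    have t1 : Tendsto (fun k => 1 - (1 - y k) / c) atTop (𝓝 1) := by
      simpa using ((yt.const_sub 1).div_const c).const_sub (1 : ℝ)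
    refine tendsto_of_tendsto_of_tendsto_of_le_of_le t1 tendsto_const_nhds (fun k => ?_)
      fun k => (l1 k).le
    have := (le_div_iff₀' c0).2 (d4 k)
    simp only
    linarith
  have pt : Tendsto p atTop (𝓝 1) := by
    have t1 : Tendsto (fun k => (l k - S.β * y k) / S.α) atTop (𝓝 ((1 - S.β * 1) / S.α)) :=
      (lt.sub (yt.const_mul _)).div_const _
    rw [show (1 - S.β * 1) / S.α = 1 by field_simp; linarith] at t1
    refine t1.congr fun k => ?_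
    rw [hl k]
    field_simp
    ring
  have yl : ∀ k, 1 - y k ≤ 1 / S.β * (1 - l k) := by
    intro k
    rw [one_div, ← div_eq_inv_mul, le_div_iff₀ hβ, hl k]
    nlinarith [p1' k]
  have mm : ∀ {q : ℕ → ℝ} {f : ℂ → ℂ}, PG q f → ∀ {σ : ℕ → ℝ}, (∀ k, f (l k) = σ k) →
      (∀ k, y k < σ k) → Summable fun n : ℕ => n * q n := fun h σ e d =>
    (h.mean_le l0 l1 lt (c := 1 / S.β) fun k => by
      rw [e k, Complex.ofReal_re]; linarith [yl k, d k]).1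
  obtain ⟨u1, u1'⟩ := S.B1.mean_le l0 l1 lt (c := (1 - S.β * c) / S.α) fun k => by
    rw [e0 k, Complex.ofReal_re, div_mul_eq_mul_div, le_div_iff₀ hα]
    have := mul_le_mul_of_nonneg_left (d4 k) hβ.le
    have := hl k
    nlinarith
  replace u1 := u1.hasSum
  have u2 := (mm S.B2 e3 d3).hasSum
  have v1 := (mm S.S1 e1 d1).hasSum
  have v2 := (mm S.S2 e2 d2).hasSum
  set m1 := ∑' n : ℕ, n * S.q1 n
  set m2 := ∑' n : ℕ, n * S.q2 n
  set n1 := ∑' n : ℕ, n * S.r1 n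
  set n2 := ∑' n : ℕ, n * S.r2 n
  obtain ⟨g1, g1a, g1b, -, g1c⟩ := S.B1.exists_tilde u1
  obtain ⟨g2, g2a, g2b, -, g2c⟩ := S.B2.exists_tilde u2
  obtain ⟨t1, t1a, t1b, -, t1c⟩ := S.S1.exists_tilde v1
  obtain ⟨t2, t2a, t2b, -, t2c⟩ := S.S2.exists_tilde v2
  have ln : ∀ k, ‖(l k : ℂ)‖ ≤ 1 := fun k => nrm (l0 k) (l1 k).le
  have ltc : Tendsto (fun k => (l k : ℂ)) atTop (𝓝 1) :=
    (Complex.continuous_ofReal.tendsto 1).comp lt
  have ptc : Tendsto (fun k => (p k : ℂ)) atTop (𝓝 1) :=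
    (Complex.continuous_ofReal.tendsto 1).comp pt
  have ytc : Tendsto (fun k => (y k : ℂ)) atTop (𝓝 1) :=
    (Complex.continuous_ofReal.tendsto 1).comp yt
  have lim : ∀ {C : ℝ} {g : ℂ → ℂ}, W C (fun x _ => g x) →
      Tendsto (fun k => g (l k)) atTop (𝓝 (g 1)) := fun h => h.tendsto ln ln ltc ltc
  set E : ℂ → ℂ := fun z => 1 - S.α * g1 z - S.β * (t1 z + S.s1 z * t2 z + S.s1 z * S.s2 z * g2 z)
    with hE
  have Et : Tendsto (fun k => E (l k)) atTop (𝓝 ((1 - S.α * m1 - S.β * (n1 + n2 + m2) : ℝ) : ℂ)) := by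
    have := (((lim (g := g1) (g1c (fun x _ => x) W.fst)).const_mul (S.α : ℂ)).const_sub 1).sub
      ((((lim (g := t1) (t1c (fun x _ => x) W.fst)).add ((lim (g := S.s1) (S.S1.comp W.fst)).mul (lim (g := t2) (t2c (fun x _ => x) W.fst)))).add
        (((lim (g := S.s1) (S.S1.comp W.fst)).mul (lim (g := S.s2) (S.S2.comp W.fst))).mul (lim (g := g2) (g2c (fun x _ => x) W.fst)))).const_mul
          (S.β : ℂ))
    rw [g1b, g2b, t1b, t2b, S.S1.one, S.S2.one] at this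
    simpa using this
  have hαβc : (S.α : ℂ) + S.β = 1 := by exact_mod_cast hαβ
  have hlc : ∀ k, (l k : ℂ) = S.α * p k + S.β * y k := fun k => by rw [hl k]; push_cast; rfl
  have lne : ∀ k, (1 : ℂ) - l k ≠ 0 := fun k => by
    have : (1 - l k : ℝ) ≠ 0 := by linarith [l1 k]
    exact_mod_cast this
  have i1 : ∀ k, (1 - l k) * E (l k) = S.β * (σ1 k * σ2 k * b k - y k) := by
    intro k
    have a1 := g1a _ (ln k)
    have a2 := g2a _ (ln k)
    have a3 := t1a _ (ln k)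
    have a4 := t2a _ (ln k)
    simp only [hE]
    rw [e0 k] at a1
    rw [e3 k] at a2
    rw [e1 k] at a3
    rw [e2 k] at a4
    rw [e1 k, e2 k]
    linear_combination S.α * a1 + S.β * a3 + S.β * σ1 k * a4 + S.β * σ1 k * σ2 k * a2 - hlc k - hαβc
  have i2 : ∀ k, (1 - l k) * (1 - S.α * g1 (l k) - S.β * g2 (l k)) = S.β * (b k - y k) := by
    intro k
    have a1 := g1a _ (ln k)
    have a2 := g2a _ (ln k)
    rw [e0 k] at a1
    rw [e3 k] at a2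
    linear_combination S.α * a1 + S.β * a2 - hlc k - hαβc
  have i3 : ∀ k, pgf p1 (p k) (y k) * E (l k) =
      S.s2 (l k) * (1 - S.α * g1 (l k) - S.β * g2 (l k)) * pgf p2 (p k) 0 := by
    intro k
    refine mul_left_cancel₀ (lne k) ?_
    have a1 : (F k : ℂ) * (σ1 k * σ2 k * b k - y k) = σ2 k * (b k - y k) * K k := by
      exact_mod_cast hid k
    rw [eF k, eK k, e2 k]
    linear_combination F k * i1 k - σ2 k * K k * i2 k + S.β * a1
  have pn : ∀ k, ‖(p k : ℂ)‖ ≤ 1 := fun k => nrm (p0 k).le (p1' k)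
  have L1 := ((pgf_W p1).tendsto pn (fun k => nrm (y01 k).1.le (y01 k).2.le) ptc ytc).mul Et
  have L2 := ((lim (g := S.s2) (S.S2.comp W.fst)).mul ((((lim (g := g1) (g1c (fun x _ => x) W.fst)).const_mul (S.α : ℂ)).const_sub 1).sub
    ((lim (g := g2) (g2c (fun x _ => x) W.fst)).const_mul (S.β : ℂ)))).mul
    ((pgf_W p2).tendsto (v := fun _ => 0) pn (fun _ => by simp) ptc tendsto_const_nhds)
  simp only [i3] at L1
  have L3 := tendsto_nhds_unique L1 L2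
  rw [pgf_one, g1b, g2b, S.S2.one, one_mul, one_mul] at L3
  have L4 : pgf p2 1 0 * ((1 - S.α * m1 - S.β * m2 : ℝ) : ℂ) =
      ((1 - S.α * m1 - S.β * (n1 + n2 + m2) : ℝ) : ℂ) := by
    rw [L3]; push_cast; ring
  have L5 : 0 ≤ 1 - S.α * m1 - S.β * (n1 + n2 + m2) := by
    have := (Complex.continuous_re.tendsto _).comp Et
    rw [Complex.ofReal_re] at this
    refine ge_of_tendsto' this fun k => ?_
    have a1 : E (l k) = ((S.β * (σ1 k * σ2 k * b k - y k) / (1 - l k) : ℝ) : ℂ) := by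
      push_cast
      rw [eq_div_iff (lne k), ← i1 k, mul_comm]
    simp only [Function.comp, a1, Complex.ofReal_re]
    exact div_nonneg (mul_nonneg hβ.le (by linarith [a7 k])) (by linarith [l1 k])
  have L6 : 0 < n1 + n2 := by
    have a1 := le_hasSum v1 1 fun n _ => mul_nonneg (Nat.cast_nonneg n) (S.S1.nonneg n)
    have a2 := le_hasSum v2 1 fun n _ => mul_nonneg (Nat.cast_nonneg n) (S.S2.nonneg n)
    simp only [Nat.cast_one, one_mul] at a1 a2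
    have := S.S1.nonneg 1
    have := S.S2.nonneg 1
    rcases S.hS with h | h <;> linarith
  obtain ⟨K1, hK1, hK1'⟩ := pgf_real p2 zero_le_one le_rfl le_rfl zero_le_one
  have L7 : K1 * (1 - S.α * m1 - S.β * m2) = 1 - S.α * m1 - S.β * (n1 + n2 + m2) := by
    rw [Complex.ofReal_one, Complex.ofReal_zero] at hK1
    rw [← hK1] at L4
    exact_mod_cast L4
  have L8 := mul_pos (Kpos one_pos hK1') (show 0 < 1 - S.α * m1 - S.β * m2 by nlinarith)
  refine ⟨⟨m1, m2, n1, n2, u1, u2, v1, v2, by linarith, fun y y0 y1 => ?_⟩, L4⟩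
  obtain ⟨p, l, σ1, σ2, b, F, K, p0, p1', hl, e0, e1, e2, e3, -, -, -, -, -, a7, -⟩ := main y y0 y1
  have el : (S.α * p + S.β * y : ℂ) = l := by rw [hl]; push_cast; rfl
  refine ⟨p, σ1 * σ2 * b, p0, p1', a7, by rw [el, e0], ?_⟩
  rw [el, e1, e2, e3]
  push_cast
  rfl

end Setup

end Pool.Agent.P.MP_386d8e_pr
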