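import Mathlib

set_option autoImplicit false

open MeasureTheory Filter Topology

namespace Pool.Agent.P.MP_386d8e_pr

theorem hs_congr {ι E : Type*} [AddCommMonoid E] [TopologicalSpace E] {f g : ι → E} {a b : E}
    (h : HasSum f a) (hf : ∀ i, g i = f i) (ha : b = a) : HasSum g b := by
  rw [ha, funext hf]; exact h

/-- regrouping along the fibres of a map -/
theorem fiber_hasSum {ι S : Type*} (e : ι → S) (w : ι → ℂ) (g : S → ℂ) (a : ℂ)
    (h : HasSum (fun i => w i * g (e i)) a) :
    HasSum (fun s => (∑' i : e ⁻¹' {s}, w i) * g s) a := by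
  have h1 := h.tsum_fiberwise e
  refine hs_congr h1 (fun s => ?_) rfl
  rw [← tsum_mul_right]
  refine tsum_congr fun i => ?_
  have : e i = s := i.2
  rw [this]

theorem fiber_norm {ι S : Type*} (e : ι → S) (w : ι → ℂ) (g : S → ℝ) (hg : ∀ s, 0 ≤ g s) (a : ℝ)
    (hw : Summable fun i => ‖w i‖) (h : HasSum (fun i => ‖w i‖ * g (e i)) a) :
    Summable (fun s => ‖∑' i : e ⁻¹' {s}, w i‖ * g s) ∧
      ∑' s, ‖∑' i : e ⁻¹' {s}, w i‖ * g s ≤ a := by
  have h1 := h.tsum_fiberwise e
  have hle : ∀ s, ‖∑' i : e ⁻¹' {s}, w i‖ * g s ≤ ∑' i : e ⁻¹' {s}, ‖w i‖ * g (e i) := by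
    intro s
    have h2 : ∑' i : e ⁻¹' {s}, ‖w i‖ * g (e i) = (∑' i : e ⁻¹' {s}, ‖w i‖) * g s := by
      rw [← tsum_mul_right]
      refine tsum_congr fun i => ?_
      have : e i = s := i.2
      rw [this]
    rw [h2]
    exact mul_le_mul_of_nonneg_right (norm_tsum_le_tsum_norm (hw.subtype _)) (hg s)
  have hs : Summable (fun s => ‖∑' i : e ⁻¹' {s}, w i‖ * g s) :=
    Summable.of_nonneg_of_le (fun s => mul_nonneg (norm_nonneg _) (hg s)) hle h1.summable
  exact ⟨hs, (hs.tsum_le_tsum hle h1.summable).trans h1.tsum_eq.le⟩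

theorem avg_zpow (n : ℤ) :
    ∫ t in (0:ℝ)..2 * Real.pi, (circleMap 0 1 t) ^ n = if n = 0 then ((2 * Real.pi : ℝ) : ℂ) else 0 := by
  split_ifs with hn
  · simp [hn]
  · have h1 : ∀ t : ℝ, (circleMap 0 1 t) ^ n = Complex.exp ((n * Complex.I) * t) := by
      intro t
      simp only [circleMap, zero_add, Complex.ofReal_one, one_mul]
      rw [← Complex.exp_int_mul]
      congr 1
      ring
    simp_rw [h1]
    have h2 : (n : ℂ) * Complex.I ≠ 0 := mul_ne_zero (by exact_mod_cast hn) Complex.I_ne_zero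
    rw [integral_exp_mul_complex h2]
    have h3 : (n : ℂ) * Complex.I * ((2 * Real.pi : ℝ) : ℂ) = n * (2 * Real.pi * Complex.I) := by
      push_cast; ring
    rw [h3, Complex.exp_int_mul_two_pi_mul_I]
    simp

theorem circleMap_ne_one {t : ℝ} (h0 : 0 < t) (h1 : t < 2 * Real.pi) : circleMap 0 1 t ≠ 1 := by
  simp only [circleMap, zero_add, Complex.ofReal_one, one_mul]
  intro h
  rw [Complex.exp_eq_one_iff] at h
  obtain ⟨n, hn⟩ := h
  have h2 : (t : ℂ) = n * (2 * Real.pi) := by
    have : (t : ℂ) * Complex.I = (n * (2 * Real.pi)) * Complex.I := by rw [hn]; ring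
    exact mul_right_cancel₀ Complex.I_ne_zero this
  have h3 : t = n * (2 * Real.pi) := by exact_mod_cast h2
  have hp := Real.two_pi_pos
  have h4 : (0 : ℝ) < n := by
    by_contra hc
    push Not at hc
    nlinarith
  have h5 : (n : ℝ) < 1 := by
    by_contra hc
    push Not at hc
    nlinarith
  have h6 : (0 : ℤ) < n := by exact_mod_cast h4
  have h7 : n < (1 : ℤ) := by exact_mod_cast h5
  omega

/-- the mean over the unit circle of an absolutely convergent Laurent series -/
theorem avg_sum {ι : Type*} [Countable ι] (w : ι → ℂ) (hw : Summable fun i => ‖w i‖) (n : ι → ℤ)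
    (F : ℂ → ℂ) (hF : ∀ y : ℂ, ‖y‖ = 1 → y ≠ 1 → HasSum (fun i => w i * y ^ n i) (F y)) :
    HasSum (fun i => if n i = 0 then w i else 0) (Real.circleAverage F 0 1) := by
  have hp := Real.two_pi_pos
  have hc : ∀ t : ℝ, ‖circleMap 0 1 t‖ = 1 := fun t => by simp
  have hne : ∀ t : ℝ, circleMap 0 1 t ≠ 0 := fun t h => by simpa [h] using hc t
  have key : HasSum (fun i => ∫ t in (0:ℝ)..2 * Real.pi, w i * (circleMap 0 1 t) ^ n i)
      (∫ t in (0:ℝ)..2 * Real.pi, F (circleMap 0 1 t)) := by
    refine intervalIntegral.hasSum_integral_of_dominated_convergence (fun i _ => ‖w i‖) ?_ ?_ ?_ ?_ ?_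
    · intro i
      refine Continuous.aestronglyMeasurable ?_
      exact continuous_const.mul ((continuous_circleMap 0 1).zpow₀ _ fun t => Or.inl (hne t))
    · intro i
      refine Eventually.of_forall fun t _ => ?_
      rw [norm_mul, norm_zpow, hc, one_zpow, mul_one]
    · exact Eventually.of_forall fun t _ => hw
    · exact intervalIntegrable_const
    · have : ∀ᵐ t : ℝ, t ≠ 2 * Real.pi := by
        simp [ae_iff]
      filter_upwards [this] with t ht hm
      rw [Set.uIoc_of_le hp.le] at hm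
      exact hF _ (hc t) (circleMap_ne_one hm.1 (lt_of_le_of_ne hm.2 ht))
  have k2 := key.const_smul ((2 * Real.pi)⁻¹ : ℝ)
  rw [Real.circleAverage_def]
  convert k2 using 2 with i
  rw [intervalIntegral.integral_const_mul, avg_zpow]
  split_ifs
  · rw [Complex.real_smul]
    have : ((2 * Real.pi : ℝ) : ℂ) ≠ 0 := by exact_mod_cast hp.ne'
    push_cast at this ⊢
    field_simp
  · simp

theorem coeff_one {ι : Type*} [Countable ι] (w : ι → ℂ) (hw : Summable fun i => ‖w i‖) (n : ι → ℤ)
    (hF : ∀ y : ℂ, ‖y‖ = 1 → y ≠ 1 → HasSum (fun i => w i * y ^ n i) 0) (m : ℤ) :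
    HasSum (fun i => if n i = m then w i else 0) 0 := by
  have := avg_sum w hw (fun i => n i - m) (fun _ => 0) (by
    intro y hy hy1
    have hy0 : y ≠ 0 := fun h => by simp [h] at hy
    have h2 := (hF y hy hy1).mul_right (y ^ (-m))
    rw [zero_mul] at h2
    refine hs_congr h2 (fun i => ?_) rfl
    rw [sub_eq_add_neg, zpow_add₀ hy0, mul_assoc])
  simpa [sub_eq_zero, Real.circleAverage_const] using this

/-- uniqueness of coefficients on the torus -/
theorem coeff_two {S : Type*} [Countable S] (c : S → ℂ) (hc : Summable fun s => ‖c s‖)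
    (a b : S → ℤ) (hinj : ∀ s t, a s = a t → b s = b t → s = t)
    (hF : ∀ x y : ℂ, ‖x‖ = 1 → ‖y‖ = 1 → y ≠ 1 → HasSum (fun s => c s * x ^ a s * y ^ b s) 0)
    (s0 : S) : c s0 = 0 := by
  have h1 : ∀ x : ℂ, ‖x‖ = 1 → x ≠ 1 →
      HasSum (fun s => (if b s = b s0 then c s else 0) * x ^ a s) 0 := by
    intro x hx _
    have := coeff_one (fun s => c s * x ^ a s) (by simpa [norm_zpow, hx] using hc) b
      (fun y hy hy1 => hF x y hx hy hy1) (b s0)
    convert this using 2 with s
    split_ifs <;> simp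
  have h2 := coeff_one (fun s => if b s = b s0 then c s else 0)
    (Summable.of_nonneg_of_le (fun _ => norm_nonneg _) (fun s => by split_ifs <;> simp) hc) a h1 (a s0)
  have h3 : HasSum (fun s => if a s = a s0 then (if b s = b s0 then c s else 0) else 0) (c s0) := by
    have := hasSum_single (f := fun s => if a s = a s0 then (if b s = b s0 then c s else 0) else 0)
      s0 (by
        intro s hs
        by_cases h : a s = a s0
        · by_cases h' : b s = b s0
          · exact absurd (hinj s s0 h h') hs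
          · simp [h']
        · simp [h])
    simpa using this
  exact h3.unique h2

theorem coeff_nat (v : ℕ → ℂ) (hv : Summable fun i => ‖v i‖)
    (hF : ∀ x : ℂ, ‖x‖ = 1 → HasSum (fun i => v i * x ^ i) 0) (i : ℕ) : v i = 0 := by
  refine coeff_two v hv (fun i => (i : ℤ)) (fun _ => 0) (fun s t h _ => by exact_mod_cast h) ?_ i
  intro x y hx _ _
  simpa using hF x hx

/-- summation by a nonnegative kernel, with a weight -/
theorem swap_sum {S S' : Type*} (m : S → ℝ) (k : S → S' → ℝ) (g : S' → ℝ) (g' : S → ℝ)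
    (hm : ∀ s, 0 ≤ m s) (hk : ∀ s t, 0 ≤ k s t) (hg : ∀ t, 0 ≤ g t)
    (hkg : ∀ s, HasSum (fun t => k s t * g t) (g' s)) (hs : Summable fun s => m s * g' s) :
    HasSum (fun t => (∑' s, m s * k s t) * g t) (∑' s, m s * g' s) := by
  have h0 : ∀ s, HasSum (fun t => m s * (k s t * g t)) (m s * g' s) := fun s => (hkg s).mul_left _
  have h1 : Summable fun p : S × S' => m p.1 * (k p.1 p.2 * g p.2) := by
    rw [summable_prod_of_nonneg (fun p => mul_nonneg (hm _) (mul_nonneg (hk _ _) (hg _)))]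
    refine ⟨fun s => (h0 s).summable, ?_⟩
    simpa only [fun s => (h0 s).tsum_eq] using hs
  have h2 : ∑' p : S × S', m p.1 * (k p.1 p.2 * g p.2) = ∑' s, m s * g' s := by
    rw [h1.tsum_prod]
    exact tsum_congr fun s => (h0 s).tsum_eq
  have h3 : HasSum (fun p : S' × S => m p.2 * (k p.2 p.1 * g p.1)) (∑' s, m s * g' s) := by
    rw [← h2]
    exact (Equiv.prodComm S' S).hasSum_iff.2 h1.hasSum
  refine h3.prod_fiberwise fun t => ?_
  have h4 := (h3.summable.prod_factor t).hasSum
  refine hs_congr h4 (fun _ => rfl) ?_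
  rw [← tsum_mul_right]
  exact tsum_congr fun s => by ring

end Pool.Agent.P.MP_386d8e_pr
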